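import Pool.Agent.H4G.Six.Can.Ev2

/-!
# Every even good state is equivalent to a state of level `A = 2` with large tori (helper19)
-/

set_option autoImplicit false

namespace Pool.Agent.H4G.Six

open Pool.Agent.H4G

variable {N : ℤ} {J Z : ℕ}

/-- an even good state of volume `N` -/
structure GdE (N A a a1 : ℤ) : Prop where
  A0 : 0 < A
  A2 : (2 : ℤ) ∣ A
  a0 : 0 < a
  a0' : 0 < a1
  vol : A + a + a1 = N
  g : G2 a a1
  big : 3 < a ∨ 3 < a1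

theorem GdE.a1 {A a a1 : ℤ} (h : GdE N A a a1) : 1 < a := by
  have h1 := h.a0
  have h2 := h.g.e
  omega

theorem GdE.a1' {A a a1 : ℤ} (h : GdE N A a a1) : 1 < a1 := by
  have h1 := h.a0'
  have h2 := h.g.e'
  omega

theorem GdE.swap {A a a1 : ℤ} (h : GdE N A a a1) : GdE N A a1 a :=
  ⟨h.A0, h.A2, h.a0', h.a0, by linarith [h.vol], h.g.swap, h.big.symm⟩

theorem GdE.seq_swap {A a a1 : ℤ} (h : GdE N A a a1) : SEq6 (PG A a a1 1) (PG A a1 a 1) :=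
  PG.swap h.A0 h.a1 h.a1' (h.g.dvd (by norm_num))

/-- the multiplier `i` of the step (R) -/
theorem exists_i (hB : Bg N J Z) {A a a1 : ℤ} (h : GdE N A a a1) (ha : 3 < a) :
    ∃ i : ℤ, 3 ≤ i ∧ i < a ∧ i ≤ 2 * J + 3 ∧ IsCoprime i a ∧ a - A - 1 - i * (a1 + 1) ≠ 0 := by
  have hJ := hB.J1
  have hA := h.A0
  have ha1 := h.a0'
  have hv := h.vol
  by_cases hs : a ≤ 2 * J + 4
  · refine ⟨a - 1, ?_, by linarith, by linarith, ⟨-1, 1, by ring⟩, ?_⟩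
    · have := h.g.e
      omega
    · nlinarith
  · push Not at hs
    obtain ⟨i1, p1, p2, p3⟩ := exists_cop hB (D := a) (by linarith) (n := 1) (by norm_num)
      (by rw [pow_one]; linarith) 3
    obtain ⟨i2, r1, r2, r3⟩ := exists_cop hB (D := a) (by linarith) (n := 1) (by norm_num)
      (by rw [pow_one]; linarith) (3 + J)
    by_cases hz : a - A - 1 - i1 * (a1 + 1) = 0
    · refine ⟨i2, by linarith, by linarith, by linarith, r3, fun hz2 => ?_⟩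
      have h3 : (i2 - i1) * (a1 + 1) = 0 := by linear_combination hz - hz2
      rcases mul_eq_zero.1 h3 with h4 | h4 <;> linarith
    · exact ⟨i1, p1, by linarith, by linarith, p3, hz⟩

/-- the powers of `J` -/
theorem Bg.pows (hB : Bg N J Z) (n : ℕ) : 100 * (J : ℤ) ^ n ≤ (J : ℤ) ^ (n + 1) := by
  have hJ := hB.J20
  have h1 : (0 : ℤ) ≤ (J : ℤ) ^ n := by positivity
  rw [pow_succ]
  nlinarith

theorem redR2 (hB : Bg N J Z) {A a a1 : ℤ} (h : GdE N A a a1) (ha : 3 < a)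
    (hA : (J : ℤ) ^ 12 ≤ A) :
    ∃ B b b1 : ℤ, GdE N B b b1 ∧ 4 ≤ B ∧ B ≤ (J : ℤ) ^ 4 ∧ (J : ℤ) ^ 10 ≤ b ∧
      (J : ℤ) ^ 10 ≤ b1 ∧ SEq6 (PG A a a1 1) (PG B b b1 1) := by
  obtain ⟨i, h1, h2, h3, h4, h5⟩ := exists_i hB h ha
  have hJ := hB.J20
  have hv := h.vol
  have ha1 := h.a1'
  have hp0 := hB.pows 0
  have hp1 := hB.pows 1
  have hp2 := hB.pows 2
  have hp3 := hB.pows 3
  have hp4 := hB.pows 4
  have hp5 := hB.pows 5
  have hp6 := hB.pows 6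
  have hp7 := hB.pows 7
  have hp8 := hB.pows 8
  have hp9 := hB.pows 9
  have hp10 := hB.pows 10
  have hp11 := hB.pows 11
  norm_num at hp0 hp1 hp2 hp3 hp4 hp5 hp6 hp7 hp8 hp9 hp10 hp11
  have hX3 : (J : ℤ) ^ 2 * J = (J : ℤ) ^ 3 := by ring
  have hi3 : i + 1 ≤ 3 * J := by linarith
  have hi4 : 4 * (J : ℤ) ^ 2 * (i + 1) ≤ 12 * (J : ℤ) ^ 3 := by
    calc 4 * (J : ℤ) ^ 2 * (i + 1) ≤ 4 * (J : ℤ) ^ 2 * (3 * J) :=
          mul_le_mul_of_nonneg_left hi3 (by positivity)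
      _ = 12 * (J : ℤ) ^ 3 := by ring
  -- the start of the window
  obtain ⟨V, hV1, hV2⟩ : ∃ V : ℤ, (V + 4 * (J : ℤ) ^ 2) * (i + 1) ≤ 2 * A - 4 ∧
      2 * A - 4 < (V + 4 * (J : ℤ) ^ 2 + 1) * (i + 1) := by
    refine ⟨(2 * A - 4) / (i + 1) - 4 * (J : ℤ) ^ 2, ?_, ?_⟩
    · rw [sub_add_cancel]
      exact Int.ediv_mul_le _ (by linarith)
    · rw [sub_add_cancel]
      exact Int.lt_ediv_add_one_mul_self _ (by linarith)
  have hVi : 2 * A - 4 - 12 * (J : ℤ) ^ 3 < (1 + V) * (i + 1) := by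
    have e : (V + 4 * (J : ℤ) ^ 2 + 1) * (i + 1) =
        (1 + V) * (i + 1) + 4 * (J : ℤ) ^ 2 * (i + 1) := by ring
    linarith
  have hV0 : 0 ≤ V := by
    by_contra hneg
    push Not at hneg
    have : (1 + V) * (i + 1) ≤ 0 := mul_nonpos_of_nonpos_of_nonneg (by linarith) (by linarith)
    linarith
  have hV3 : 3 * ((1 + V) * (i + 1)) ≤ 4 * ((1 + V) * i) := by nlinarith
  obtain ⟨ν, k1, k2, k3, k4, k5⟩ := rEdge2 hB (V := V) h.A0 h.A2 h.a1 h.a1' h.vol h.g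
    (by linarith) h2 h4 h5 hV0 (by linarith) (by linarith)
  have hB1 : 4 ≤ 2 * A - ν * (i + 1) := by
    have : ν * (i + 1) ≤ (V + 4 * (J : ℤ) ^ 2) * (i + 1) :=
      mul_le_mul_of_nonneg_right k2.le (by linarith)
    linarith
  have hB2 : 2 * A - ν * (i + 1) ≤ 4 + 12 * (J : ℤ) ^ 3 + 3 * J := by
    have h6 : V * (i + 1) ≤ ν * (i + 1) := mul_le_mul_of_nonneg_right k1 (by linarith)
    have e : (1 + V) * (i + 1) = V * (i + 1) + (i + 1) := by ring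
    linarith
  have hb : (J : ℤ) ^ 10 ≤ a + ν * i - A - 1 := by
    have h6 : V * i ≤ ν * i := mul_le_mul_of_nonneg_right k1 (by linarith)
    have e : (1 + V) * i = V * i + i := by ring
    linarith
  have hb1 : (J : ℤ) ^ 10 ≤ a1 + 1 + ν := by
    by_contra hlt
    push Not at hlt
    have h6 : ν * (i + 1) ≤ (J : ℤ) ^ 10 * (3 * J) := by
      apply mul_le_mul <;> linarith
    have e : (J : ℤ) ^ 10 * (3 * J) = 3 * (J : ℤ) ^ 11 := by ring
    linarith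
  refine ⟨_, _, _, ⟨by linarith, k4, by linarith, by linarith, by linarith [h.vol], k3,
    Or.inl (by linarith)⟩, hB1, by linarith, hb, hb1, k5⟩

theorem redE1 (hB : Bg N J Z) {A a a1 : ℤ} (h : GdE N A a a1) :
    ∃ B b b1 : ℤ, GdE N B b b1 ∧ 4 ≤ B ∧ B ≤ (J : ℤ) ^ 4 ∧ (J : ℤ) ^ 10 ≤ b ∧
      (J : ℤ) ^ 10 ≤ b1 ∧ SEq6 (PG A a a1 1) (PG B b b1 1) := by
  by_cases hA : (J : ℤ) ^ 12 ≤ A
  · rcases h.big with h1 | h1
    · exact redR2 hB h h1 hA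
    · obtain ⟨B, b, b1, k1, k2, k3, k4, k5, k6⟩ := redR2 hB h.swap h1 hA
      exact ⟨B, b, b1, k1, k2, k3, k4, k5, h.seq_swap.trans k6⟩
  · push Not at hA
    have hJ := hB.J20
    have hp12 := hB.pows 12
    have hp0 := hB.pows 0
    norm_num at hp12 hp0
    have h12 : 100 * (J : ℤ) ≤ (J : ℤ) ^ 12 := by
      have h11 : (100 : ℤ) ≤ (J : ℤ) ^ 11 := by
        calc (100 : ℤ) ≤ J := by linarith
          _ = (J : ℤ) ^ 1 := by ring
          _ ≤ (J : ℤ) ^ 11 := pow_le_pow_right₀ (by linarith) (by norm_num)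
      calc 100 * (J : ℤ) ≤ (J : ℤ) ^ 11 * J := mul_le_mul_of_nonneg_right h11 (by linarith)
        _ = (J : ℤ) ^ 12 := by ring
    have hN25 := hB.pw (n := 25) (by norm_num)
    have hp24 := hB.pows 24
    norm_num at hp24
    have h24 : (J : ℤ) ^ 12 * (J : ℤ) ^ 12 = (J : ℤ) ^ 24 := by ring
    have h24' : (J : ℤ) ^ 12 ≤ (J : ℤ) ^ 24 := pow_le_pow_right₀ (by linarith) (by norm_num)
    have key : ∀ a a1 : ℤ, GdE N A a a1 → a1 ≤ a → ∃ B b b1 : ℤ, GdE N B b b1 ∧ 4 ≤ B ∧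
        B ≤ (J : ℤ) ^ 4 ∧ (J : ℤ) ^ 10 ≤ b ∧ (J : ℤ) ^ 10 ≤ b1 ∧
        SEq6 (PG A a a1 1) (PG B b b1 1) := by
      intro a a1 h hle
      have hA0 := h.A0
      have hv := h.vol
      have ha1 := h.a1'
      have hw : (A + 1) * ((J : ℤ) ^ 12 + 4 * J) ≤ 4 * (J : ℤ) ^ 24 := by
        calc (A + 1) * ((J : ℤ) ^ 12 + 4 * J) ≤ (2 * (J : ℤ) ^ 12) * (2 * (J : ℤ) ^ 12) := by
              apply mul_le_mul <;> linarith
          _ = 4 * (J : ℤ) ^ 24 := by ring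
      obtain ⟨k, k1, k2, k3, k4, k5⟩ := uEdge2 hB (K := (J : ℤ) ^ 12) h.A0 h.a1 h.a1' h.vol h.g
        (by linarith) (by linarith)
      have hk : (A + 1) * k ≤ (A + 1) * ((J : ℤ) ^ 12 + 4 * J) :=
        mul_le_mul_of_nonneg_left k2.le (by linarith)
      have hA' : 1 + k ≤ (1 + k) * A := by nlinarith
      have g : GdE N ((1 + k) * A) (a - (A + 1) * k) (a1 + k) :=
        ⟨by linarith, h.A2.mul_left _, by linarith, by linarith, by linarith [h.vol], k4,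
          Or.inl (by linarith)⟩
      obtain ⟨B, b, b1, r1, r2, r3, r4, r5, r6⟩ := redR2 hB g (by linarith) (by linarith)
      exact ⟨B, b, b1, r1, r2, r3, r4, r5, k5.trans r6⟩
    rcases le_total a1 a with hle | hle
    · exact key a a1 h hle
    · obtain ⟨B, b, b1, r1, r2, r3, r4, r5, r6⟩ := key a1 a h.swap hle
      exact ⟨B, b, b1, r1, r2, r3, r4, r5, h.seq_swap.trans r6⟩

/-- a non-tiny state of level two -/
structure L2 (N X a a1 : ℤ) : Prop where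
  vol : 2 + a + a1 = N
  big : X ^ 9 ≤ a
  big' : X ^ 9 ≤ a1
  g : G2 a a1

theorem redE2 (hB : Bg N J Z) {B b b1 : ℤ} (h : GdE N B b b1) (hB4 : 4 ≤ B)
    (hBX : B ≤ (J : ℤ) ^ 4) (hb : (J : ℤ) ^ 10 ≤ b) (hb1 : (J : ℤ) ^ 10 ≤ b1)
    (h3 : (3 : ℤ) ∣ B → ¬ (3 : ℤ) ∣ b1) :
    ∃ a a1 : ℤ, L2 N J a a1 ∧ SEq6 (PG B b b1 1) (PG 2 a a1 1) := by
  have hJ := hB.J20
  have hv := h.vol
  have hp0 := hB.pows 0
  have hp1 := hB.pows 1
  have hp2 := hB.pows 2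
  have hp3 := hB.pows 3
  have hp4 := hB.pows 4
  have hp5 := hB.pows 5
  have hp6 := hB.pows 6
  have hp7 := hB.pows 7
  have hp8 := hB.pows 8
  have hp9 := hB.pows 9
  norm_num at hp0 hp1 hp2 hp3 hp4 hp5 hp6 hp7 hp8 hp9
  obtain ⟨H, e1, e2, e3, e4⟩ := sieveQ (k := 2) (e := 1) hB.cap (D0 := (B - 3) * (N - 2))
    (by
      have h1 : 0 < B - 3 := by linarith
      have h2 : 0 < N - 2 := by linarith
      positivity) (by
      refine hB.le (n := 1 + 1) (by norm_num) (mul_le_pow2 (by linarith) ?_ ?_ (by linarith)) <;>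
      · rw [pow_one]; linarith) (by norm_num)
    ![fun p => p ∣ B - 3 ∧ ¬ p ∣ 2, fun p => p ∣ N - 2 ∧ ¬ p ∣ 2] ![1, -1] ![1, b]
    (m := 4) (by norm_num) (b - 2)
    (by
      intro p _ i hi
      fin_cases i
      · exact hi.1.mul_right _
      · exact hi.1.mul_left _)
    (by
      intro p hp hp4
      have hp2 : p ≠ 2 := by
        rintro rfl
        exact hp4 (by norm_num)
      obtain ⟨y, y1, y2⟩ := avoid2 hp hp2 (-1) b
      refine ⟨y, fun i hi => ?_⟩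
      fin_cases i
      · intro h'
        have h4 : (p : ℤ) ∣ 1 * y + 1 := h'
        rw [one_mul] at h4
        exact y1 (by rwa [sub_neg_eq_add])
      · intro h'
        have h4 : (p : ℤ) ∣ (-1) * y + b := h'
        refine y2 ?_
        have e : y - b = -((-1) * y + b) := by ring
        rw [e]; exact (dvd_neg).2 h4)
    (by
      intro p hp hp4 i hi
      have hp2 : (p : ℤ) ∣ 2 := by
        have h22 : (4 : ℤ) = 2 * 2 := by norm_num
        rw [h22] at hp4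
        rcases (Nat.prime_iff_prime_int.1 hp).dvd_or_dvd hp4 with h' | h' <;> exact h'
      fin_cases i
      · exact (hi.2 hp2).elim
      · exact (hi.2 hp2).elim) 0
  rw [pow_one] at e2
  have q0 : ∀ p : ℕ, p.Prime → ¬ (p : ℤ) ∣ 2 → (p : ℤ) ∣ B - 3 → ¬ (p : ℤ) ∣ 1 + H :=
    fun p hp h2 h1 h3 => e4 p hp 0 ⟨h1, h2⟩ (by
      show (p : ℤ) ∣ 1 * H + 1
      rw [show 1 * H + 1 = 1 + H by ring]; exact h3)
  have q1 : ∀ p : ℕ, p.Prime → ¬ (p : ℤ) ∣ 2 → (p : ℤ) ∣ N - 2 → ¬ (p : ℤ) ∣ b - H :=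
    fun p hp h2 h1 h3 => e4 p hp 1 ⟨h1, h2⟩ (by
      show (p : ℤ) ∣ (-1) * H + b
      rw [show (-1) * H + b = b - H by ring]; exact h3)
  obtain ⟨s, hs⟩ := e3
  obtain ⟨b', hb'⟩ := h.g.e
  obtain ⟨b1', hb1'⟩ := h.g.e'
  obtain ⟨B', hB'⟩ := h.A2
  have hH2 : (2 : ℤ) ∣ H := ⟨2 * s + b' - 1, by linarith⟩
  have hcH : IsCoprime (1 + H) (B - 3) := by
    refine cop_of_odd2 (by omega) fun p hp h2 h1 => q0 p hp h2 h1
  obtain ⟨a, ha⟩ : ∃ a, a = b - H := ⟨_, rfl⟩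
  obtain ⟨a1, ha1⟩ : ∃ a1, a1 = b1 + B - 2 + H := ⟨_, rfl⟩
  have hvol : 2 + a + a1 = N := by rw [ha, ha1]; linarith
  have hg : G2 a a1 := by
    refine ⟨by omega, by omega, fun ⟨h4, _⟩ => by omega, fun p hp h2 h4 h5 => ?_⟩
    refine q1 p hp h2 ?_ (by rw [← ha]; exact h4)
    rw [show N - 2 = a + a1 by linarith]
    exact dvd_add h4 h5
  have hX7 : (J : ℤ) ^ 4 * (3 * (J : ℤ) ^ 4) = 3 * (J : ℤ) ^ 8 := by ring
  refine ⟨a, a1, ⟨hvol, by linarith, by linarith, hg⟩, SEq6.symm ?_⟩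
  have hm1 : 2 * (B + 2 * H + 1) - 1 ≤ (B - 3) * (2 * (B + 2 * H + 1) - 1) := by nlinarith
  have hm2 : (B - 3) * (2 * (B + 2 * H + 1 + (J : ℤ) ^ 3) - 1) ≤ 3 * (J : ℤ) ^ 8 := by
    rw [← hX7]
    apply mul_le_mul <;> linarith
  exact yEdge2 hB (t0 := B + 2 * H + 1) h.A2 hB4 hH2 hcH (by rw [ha]; ring) (by rw [ha1]; ring)
    hvol (by linarith) (by linarith) (by linarith) (by linarith) hg h.g h3 (by linarith)
    (by linarith) (by linarith) (by linarith) (by linarith) (by linarith)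

/-- every even good state is equivalent to a non-tiny state of level two -/
theorem redE (hB : Bg N J Z) {A a a1 : ℤ} (h : GdE N A a a1) :
    ∃ a' a1' : ℤ, L2 N J a' a1' ∧ SEq6 (PG A a a1 1) (PG 2 a' a1' 1) := by
  obtain ⟨B, b, b1, h1, h2, h3, h4, h5, h6⟩ := redE1 hB h
  by_cases h7 : (3 : ℤ) ∣ B → ¬ (3 : ℤ) ∣ b1
  · obtain ⟨a', a1', k1, k2⟩ := redE2 hB h1 h2 h3 h4 h5 h7
    exact ⟨a', a1', k1, h6.trans k2⟩
  · push Not at h7
    obtain ⟨a', a1', k1, k2⟩ := redE2 hB h1.swap h2 h3 h5 h4 (fun _ h8 =>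
      h1.g.odd 3 Nat.prime_three (by norm_num) (by exact_mod_cast h8) (by exact_mod_cast h7.2))
    exact ⟨a', a1', k1, (h6.trans h1.seq_swap).trans k2⟩

end Pool.Agent.H4G.Six
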