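import Pool.Agent.H4G.Six.Can.Half
import Pool.Agent.H4G.Six.Can.Ev3

/-!
# Every state `PG A a a₁ 0`, `a ≠ a₁`, not all areas even, is equivalent to a good state (helper19)
-/

set_option autoImplicit false

namespace Pool.Agent.H4G.Six

open Pool.Agent.H4G

variable {N : ℤ} {J Z : ℕ}

/-- the step (U) with `l₁ = g s` -/
theorem ugEdge (hB : Bg N J Z) {A a a1 : ℤ} (hA : 0 < A) (hA' : A ≤ 2 * J) (ha : 1 < a)
    (ha1 : 1 < a1) (ha1' : a1 ≤ 2 * J) (hN : A + a + a1 = N)
    (hpar : ¬ ((2 : ℤ) ∣ A ∧ (2 : ℤ) ∣ a ∧ (2 : ℤ) ∣ a1)) :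
    ∃ l : ℤ, (J : ℤ) ^ 3 ≤ l ∧ l ≤ (J : ℤ) ^ 5 ∧
      ¬ ((2 : ℤ) ∣ (1 + l) * A ∧ (2 : ℤ) ∣ a - (A + 1) * l ∧ (2 : ℤ) ∣ a1 + l) ∧
      SEq6 (PG A a a1 0) (PG ((1 + l) * A) (a - (A + 1) * l) (a1 + l) 0) := by
  have hN1 := hB.N1
  have hJ := hB.J20
  have hp0 := hB.pows 0
  have hp1 := hB.pows 1
  have hp2 := hB.pows 2
  have hp3 := hB.pows 3
  have hp4 := hB.pows 4
  have hp5 := hB.pows 5
  have hp6 := hB.pows 6
  norm_num at hp0 hp1 hp2 hp3 hp4 hp5 hp6
  have hN8 := hB.pw (n := 7) (by norm_num)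
  -- the gcd
  obtain ⟨g, hg⟩ : ∃ g : ℤ, g = (Int.gcd a a1 : ℤ) := ⟨_, rfl⟩
  obtain ⟨α, hα⟩ : g ∣ a := by rw [hg]; exact Int.gcd_dvd_left a a1
  obtain ⟨β, hβ⟩ : g ∣ a1 := by rw [hg]; exact Int.gcd_dvd_right a a1
  have hg0 : 0 < g := by
    rw [hg]
    exact_mod_cast Int.gcd_pos_of_ne_zero_left a1 (by omega : a ≠ 0)
  have hα0 : 0 < α := by
    by_contra h
    push Not at h
    have : g * α ≤ 0 := mul_nonpos_of_nonneg_of_nonpos hg0.le h
    linarith
  have hβ0 : 0 < β := by
    by_contra h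
    push Not at h
    have : g * β ≤ 0 := mul_nonpos_of_nonneg_of_nonpos hg0.le h
    linarith
  have hga : g ≤ a1 := by rw [hβ]; nlinarith
  have hcop : IsCoprime α β := by
    rw [Int.isCoprime_iff_gcd_eq_one]
    have h1 : Int.gcd (g * α) (g * β) = g.natAbs * Int.gcd α β := Int.gcd_mul_left _ _ _
    rw [← hα, ← hβ] at h1
    have h2 : (Int.gcd a a1 : ℤ) = g * (Int.gcd α β : ℤ) := by
      rw [h1]; push_cast; rw [abs_of_pos hg0]
    rw [← hg] at h2
    have h3 : (Int.gcd α β : ℤ) = 1 := by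
      have h4 : g * ((Int.gcd α β : ℤ) - 1) = 0 := by linear_combination -h2
      rcases mul_eq_zero.1 h4 with h5 | h5
      · exact absurd h5 hg0.ne'
      · linarith
    exact_mod_cast h3
  have hR : 0 < α + (A + 1) * β := by positivity
  have hαN : α ≤ a := by rw [hα]; nlinarith
  have hβN : β ≤ a1 := by rw [hβ]; nlinarith
  -- the choice of `s`
  obtain ⟨s, s1, s2, s3⟩ := sieveP (k := 2) (e := 1) hB.cap
    (D0 := (a1 - 1) * (α + (A + 1) * β)) (by
      have : 0 < a1 - 1 := by linarith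
      positivity) (by
      refine hB.le (n := 1 + 2) (by norm_num) (mul_le_pow2 hR ?_ ?_ (by linarith))
      · rw [pow_one]; linarith only [hN, hA, ha, hN1]
      · have e1 : A + 1 ≤ N := by linarith only [hN, ha, ha1]
        have e2 : β ≤ N := by linarith only [hN, ha, hA, hβN]
        have h1 : (A + 1) * β ≤ N * N := mul_le_mul e1 e2 hβ0.le (by linarith only [hN1])
        have e3 : α ≤ N := by linarith only [hN, ha1, hA, hαN]
        nlinarith only [h1, e3, hN1]) (by norm_num)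
    ![fun p => p ∣ a1 - 1, fun p => p ∣ α + (A + 1) * β] ![g, 1] ![1, β]
    (by
      intro p _ i hi
      fin_cases i
      · exact hi.mul_right _
      · exact Dvd.dvd.mul_left hi _)
    (by
      intro p hp
      refine ⟨0, fun i hi => ?_⟩
      fin_cases i
      · intro h
        have h1 : (p : ℤ) ∣ g * 0 + 1 := h
        rw [mul_zero, zero_add] at h1
        exact prime_not_dvd_one hp h1
      · intro h
        have h1 : (p : ℤ) ∣ 1 * 0 + β := h
        rw [mul_zero, zero_add] at h1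
        have h2 : (p : ℤ) ∣ α + (A + 1) * β := hi
        have h3 : (p : ℤ) ∣ α := by
          have := dvd_sub h2 (h1.mul_left (A + 1))
          simpa using this
        exact not_dvd_of_isCoprime hcop hp h1 h3) ((J : ℤ) ^ 3)
  rw [pow_one] at s2
  obtain ⟨l, hl⟩ : ∃ l, l = g * s := ⟨_, rfl⟩
  have hs0 : 0 < s := by linarith
  have hl1 : (J : ℤ) ^ 3 ≤ l := by rw [hl]; nlinarith
  have hl2 : l ≤ 4 * (J : ℤ) ^ 4 := by
    rw [hl]
    calc g * s ≤ (2 * J) * (2 * (J : ℤ) ^ 3) := by
          apply mul_le_mul <;> linarith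
      _ = 4 * (J : ℤ) ^ 4 := by ring
  have hl0 : 0 < l := by rw [hl]; exact mul_pos hg0 hs0
  have hAl0 : 0 < (A + 1) * l := by positivity
  have hAl : (A + 1) * l ≤ (J : ℤ) ^ 6 := by
    calc (A + 1) * l ≤ (3 * J) * (4 * (J : ℤ) ^ 4) := by
          apply mul_le_mul <;> linarith
      _ = 12 * (J : ℤ) ^ 5 := by ring
      _ ≤ (J : ℤ) ^ 6 := by linarith
  have q0 : ∀ p : ℕ, p.Prime → (p : ℤ) ∣ a1 - 1 → ¬ (p : ℤ) ∣ 1 + l := fun p hp hd h =>
    s3 p hp 0 hd (by
      show (p : ℤ) ∣ g * s + 1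
      rw [← hl, add_comm]; exact h)
  have q1 : ∀ p : ℕ, p.Prime → (p : ℤ) ∣ α + (A + 1) * β → ¬ (p : ℤ) ∣ β + s := fun p hp hd h =>
    s3 p hp 1 hd (by
      show (p : ℤ) ∣ 1 * s + β
      rw [one_mul, add_comm]; exact h)
  -- the choice of `i`
  have ha'0 : 0 < a - (A + 1) * l := by linarith
  have hpar2 : ¬ (2 : ℤ) ∣ l → (2 : ℤ) ∣ a1 := by
    intro h
    by_contra h1
    have := q0 2 Nat.prime_two (by push_cast; omega)
    push_cast at this
    omega
  obtain ⟨i, i1, i2, i3⟩ := sieveP (k := 3) (e := 2) hB.cap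
    (D0 := l * a * (1 + l) * (a - (A + 1) * l)) (by
      have : 0 < l := by linarith
      have : 0 < a := by linarith
      positivity) (by
      have h1 : 0 < (A + 1) * l := by
        have : 0 < l := by linarith
        positivity
      refine hB.le (n := 1 + 1 + 1 + 1) (by norm_num) (mul_le_pow2 ha'0 (mul_le_pow2
        (by linarith) (mul_le_pow2 (by linarith) ?_ ?_ (by linarith)) ?_ (by linarith)) ?_
        (by linarith)) <;>
      · rw [pow_one]; linarith) (by norm_num)
    ![fun p => p ∣ l * a, fun p => p ∣ 1 + l, fun p => p ∣ a - (A + 1) * l]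
    ![1, 1, 1] ![0, A + 1, -a]
    (by
      intro p _ i hi
      fin_cases i
      · exact ((Dvd.dvd.mul_right hi _)).mul_right _
      · have h : (p : ℤ) ∣ 1 + l := hi
        exact (h.mul_left _).mul_right _
      · exact Dvd.dvd.mul_left hi _)
    (by
      intro p hp
      have hp' := Nat.prime_iff_prime_int.1 hp
      have key : ∃ y : ℤ, ((p : ℤ) ∣ l * a → ¬ (p : ℤ) ∣ y) ∧
          ((p : ℤ) ∣ 1 + l → ¬ (p : ℤ) ∣ y + (A + 1)) ∧
          ((p : ℤ) ∣ a - (A + 1) * l → ¬ (p : ℤ) ∣ y - a) := by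
        rcases two_or_odd hp with rfl | ⟨hp2, hp2'⟩
        · push_cast
          rcases Int.even_or_odd l with ⟨r, hr⟩ | ⟨r, hr⟩
          · -- `l` even
            refine ⟨1, fun _ => by norm_num, fun h => by omega, fun h h3 => ?_⟩
            have h4 : (2 : ℤ) ∣ (A + 1) * l := Dvd.dvd.mul_left ⟨r, by linarith⟩ _
            have h5 : (2 : ℤ) ∣ a := by
              have := dvd_add h h4
              rwa [sub_add_cancel] at this
            omega
          · -- `l` odd
            have ha1e := hpar2 (by omega)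
            rcases Int.even_or_odd a with ⟨x, hx⟩ | ⟨x, hx⟩
            · -- `A` is odd
              have hAo : ¬ (2 : ℤ) ∣ A := fun h => hpar ⟨h, ⟨x, by linarith⟩, ha1e⟩
              refine ⟨1, fun _ => by norm_num, fun _ => by omega, fun _ => by omega⟩
            · rcases Int.even_or_odd A with ⟨y, hy⟩ | ⟨y, hy⟩
              · refine ⟨0, fun h => ?_, fun _ => by omega, fun _ => by omega⟩
                exfalso
                rcases Int.prime_two.dvd_or_dvd h with h1 | h1 <;> omega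
              · refine ⟨1, fun _ => by norm_num, fun _ => by omega, fun h => ?_⟩
                exfalso
                have h4 : (2 : ℤ) ∣ (A + 1) * l := Dvd.dvd.mul_right ⟨y + 1, by linarith⟩ _
                have h5 : (2 : ℤ) ∣ a := by
                  have := dvd_add h h4
                  rwa [sub_add_cancel] at this
                omega
        · by_cases h1 : (p : ℤ) ∣ 1 + l
          · have hpl : ¬ (p : ℤ) ∣ l := by
              intro h2
              have := dvd_sub h1 h2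
              rw [add_sub_cancel_right] at this
              exact prime_not_dvd_one hp this
            obtain ⟨y, y1, y2⟩ := avoid2 hp hp2 (if (p : ℤ) ∣ a then 0 else a) (-(A + 1))
            refine ⟨y, fun h h3 => ?_, fun _ h3 => y2 (by rwa [sub_neg_eq_add]), fun h h3 => ?_⟩
            · have h4 := (hp'.dvd_or_dvd h).resolve_left hpl
              rw [if_pos h4] at y1
              exact y1 (by rwa [sub_zero])
            · by_cases h4 : (p : ℤ) ∣ a
              · rw [if_pos h4] at y1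
                apply y1
                rw [sub_zero]
                have := dvd_add h3 h4
                rwa [sub_add_cancel] at this
              · rw [if_neg h4] at y1
                exact y1 h3
          · obtain ⟨y, y1, y2⟩ := avoid2 hp hp2 0 a
            exact ⟨y, fun _ h3 => y1 (by rwa [sub_zero]), fun h => (h1 h).elim,
              fun _ h3 => y2 h3⟩
      obtain ⟨y, y1, y2, y3⟩ := key
      refine ⟨y, fun i hi => ?_⟩
      fin_cases i
      · intro h
        have h1 : (p : ℤ) ∣ 1 * y + 0 := h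
        rw [one_mul, add_zero] at h1
        exact y1 hi h1
      · intro h
        have h1 : (p : ℤ) ∣ 1 * y + (A + 1) := h
        rw [one_mul] at h1
        exact y2 hi h1
      · intro h
        have h1 : (p : ℤ) ∣ 1 * y + -a := h
        rw [one_mul, ← sub_eq_add_neg] at h1
        exact y3 hi h1) ((A + 1) * l + 1)
  have r0 : ∀ p : ℕ, p.Prime → (p : ℤ) ∣ l * a → ¬ (p : ℤ) ∣ i := fun p hp hd h =>
    i3 p hp 0 hd (by
      show (p : ℤ) ∣ 1 * i + 0
      rw [one_mul, add_zero]; exact h)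
  have r1 : ∀ p : ℕ, p.Prime → (p : ℤ) ∣ 1 + l → ¬ (p : ℤ) ∣ i + (A + 1) := fun p hp hd h =>
    i3 p hp 1 hd (by
      show (p : ℤ) ∣ 1 * i + (A + 1)
      rw [one_mul]; exact h)
  have r2 : ∀ p : ℕ, p.Prime → (p : ℤ) ∣ a - (A + 1) * l → ¬ (p : ℤ) ∣ i - a := fun p hp hd h =>
    i3 p hp 2 hd (by
      show (p : ℤ) ∣ 1 * i + -a
      rw [one_mul, ← sub_eq_add_neg]; exact h)
  have hgg : (Int.gcd (a - (A + 1) * l) (a1 + l) : ℤ) = g := by
    have e1 : a - (A + 1) * l = g * (α - (A + 1) * s) := by rw [hl]; linear_combination hα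
    have e2 : a1 + l = g * (β + s) := by rw [hl]; linear_combination hβ
    have h1 : IsCoprime (α - (A + 1) * s) (β + s) := by
      refine isCoprime_of_prime fun p hp h1 h2 => q1 p hp ?_ h1
      have : α + (A + 1) * β = (α - (A + 1) * s) + (A + 1) * (β + s) := by ring
      rw [this]
      exact dvd_add h2 (h1.mul_left _)
    rw [e1, e2, Int.gcd_mul_left, Int.isCoprime_iff_gcd_eq_one.1 h1]
    push_cast
    rw [abs_of_pos hg0, mul_one]
  refine ⟨l, hl1, by linarith, fun ⟨h1, h2, h3⟩ => ?_, ?_⟩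
  · rcases Int.even_or_odd l with ⟨r, hr⟩ | ⟨r, hr⟩
    · apply hpar
      have h4 : (2 : ℤ) ∣ (A + 1) * l := Dvd.dvd.mul_left ⟨r, by linarith⟩ _
      refine ⟨?_, ?_, by omega⟩
      · rcases Int.prime_two.dvd_or_dvd h1 with h5 | h5
        · omega
        · exact h5
      · have := dvd_add h2 h4
        rwa [sub_add_cancel] at this
    · have := hpar2 (by omega)
      omega
  · refine edge (ν := 0) (l1 := l) (m1 := 0) (i := i) (j := 1) (k := 1) (W := A + i + 1)
      (κ := 1 + l) (i' := i - (A + 1) * l) (j' := 1 + l) (by ring) (by ring) (by ring) (by ring)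
      (by ring) (by ring) (by ring) hA (by linarith) (by linarith) (by norm_num) ha1
      (by
        have : 0 < l := by linarith
        positivity) (by linarith) (by linarith) ?_ isCoprime_one_right ?_
      isCoprime_one_left ?_ ?_ ?_ ?_ ?_
    · exact (isCoprime_of_prime fun p hp h1 h2 => r0 p hp (h1.mul_right _) h2 : IsCoprime i l).symm
    · exact isCoprime_of_prime fun p hp h1 h2 => r0 p hp (h1.mul_left _) h2
    · refine isCoprime_of_prime fun p hp h1 h2 => r1 p hp h2 ?_
      rw [one_mul] at h1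
      rw [show i + (A + 1) = A + i + 1 by ring]; exact h1
    · refine isCoprime_of_prime fun p hp h1 h2 => r2 p hp h1 ?_
      have := dvd_sub h2 h1
      rw [show i - (A + 1) * l - (a - (A + 1) * l) = i - a by ring] at this
      exact this
    · refine isCoprime_of_prime fun p hp h1 h2 => q0 p hp ?_ h2
      have := dvd_sub h1 h2
      rw [show a1 + l - (1 + l) = a1 - 1 by ring] at this
      exact this
    · rw [← hg, show (0 : ℤ) * (i * 1) + (l * 1 - i * 0) = g * s by rw [hl]; ring]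
      exact dvd_mul_right _ _
    · rw [hgg, show (0 : ℤ) * ((i - (A + 1) * l) * (1 + l)) + (l * 1 - i * 0) = g * s by
        rw [hl]; ring]
      exact dvd_mul_right _ _

/-- **B1** -/
theorem b1 (hB : Bg N J Z) {A a a1 : ℤ} (hA : 0 < A) (ha : 1 < a) (ha1 : 1 < a1)
    (hN : A + a + a1 = N) (hne : a ≠ a1)
    (hpar : ¬ ((2 : ℤ) ∣ A ∧ (2 : ℤ) ∣ a ∧ (2 : ℤ) ∣ a1)) :
    ∃ A' a' a1' : ℤ, Gd N A' a' a1' ∧ SEq6 (PG A a a1 0) (PG A' a' a1' 0) := by
  have hJ := hB.J20
  have hp0 := hB.pows 0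
  have hp1 := hB.pows 1
  have hp2 := hB.pows 2
  have hp3 := hB.pows 3
  have hp4 := hB.pows 4
  have hp5 := hB.pows 5
  have hp6 := hB.pows 6
  norm_num at hp0 hp1 hp2 hp3 hp4 hp5 hp6
  have hN8 := hB.pw (n := 7) (by norm_num)
  by_cases hAJ : 2 * (J : ℤ) + 1 ≤ A
  · obtain ⟨t, _, _, h3, h4⟩ := rGood hB hAJ ha ha1 hN hne hpar
    exact ⟨_, _, _, h3, h4⟩
  push Not at hAJ
  -- a tiny torus
  have tiny : ∀ a a1 : ℤ, 1 < a → 1 < a1 → A + a + a1 = N →
      ¬ ((2 : ℤ) ∣ A ∧ (2 : ℤ) ∣ a ∧ (2 : ℤ) ∣ a1) → a1 ≤ 2 * J →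
      ∃ A' a' a1' : ℤ, Gd N A' a' a1' ∧ SEq6 (PG A a a1 0) (PG A' a' a1' 0) := by
    intro a a1 ha ha1 hN hpar hs
    obtain ⟨l, l1, l2, l3, l4⟩ := ugEdge hB hA (by linarith) ha ha1 hs hN hpar
    have hAl : (A + 1) * l ≤ (J : ℤ) ^ 7 := by
      have h7 : (3 * J) * (J : ℤ) ^ 5 = 3 * (J : ℤ) ^ 6 := by ring
      have : (A + 1) * l ≤ (3 * J) * (J : ℤ) ^ 5 := by
        apply mul_le_mul <;> linarith
      linarith
    have hl0 : 0 < l := by linarith
    have hA'' : 2 * (J : ℤ) + 1 ≤ (1 + l) * A := by nlinarith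
    have hN9 := hB.pw (n := 8) (by norm_num)
    have hp7 := hB.pows 7
    norm_num at hp7
    obtain ⟨t, _, _, h3, h4⟩ := rGood hB (A := (1 + l) * A) (a := a - (A + 1) * l)
      (a1 := a1 + l) hA'' (by linarith) (by linarith) (by linarith) (by
        intro h; linarith) l3
    exact ⟨_, _, _, h3, l4.trans h4⟩
  by_cases h1 : a1 ≤ 2 * J
  · exact tiny a a1 ha ha1 hN hpar h1
  by_cases h2 : a ≤ 2 * J
  · obtain ⟨A', a', a1', h3, h4⟩ := tiny a1 a ha1 ha (by linarith)
      (fun h => hpar ⟨h.1, h.2.2, h.2.1⟩) h2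
    exact ⟨A', a', a1', h3, (PG.swap hA ha ha1 (by simp)).trans h4⟩
  push Not at h1 h2
  by_cases hb : (2 : ℤ) ∣ a ∧ (2 : ℤ) ∣ a1
  · have hAo : ¬ (2 : ℤ) ∣ A := fun h => hpar ⟨h, hb⟩
    by_cases hA1 : A = 1
    · subst hA1
      have h3 := eGood hB (by linarith) (by linarith) hN hb.1 hb.2
      obtain ⟨t, _, _, h4, h5⟩ := upGood hB (A := 3) (a := a - 1) (a1 := a1 - 1) (by norm_num)
        (by linarith) (by linarith) (by linarith) (by intro h; apply hne; linarith)
        (fun h => by omega)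
      exact ⟨_, _, _, h4, h3.trans h5⟩
    · have h3 := rT (A := A) (a := a) (a1 := a1) (t := 1) (by omega) ha ha1 (by norm_num)
        (by
          obtain ⟨w, hw⟩ : ∃ w, A = 2 * w + 1 := ⟨A / 2, by omega⟩
          exact ⟨-w - 1, 1, by linarith⟩)
        (by
          obtain ⟨x, hx⟩ := hb.1
          exact ⟨x, -1, by linarith⟩)
        (by
          obtain ⟨x, hx⟩ := hb.2
          exact ⟨x, -1, by linarith⟩)
      obtain ⟨t, _, _, h4, h5⟩ := upGood hB (A := A - 2 * 1) (a := a + 1) (a1 := a1 + 1)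
        (by omega) (by linarith) (by linarith) (by linarith) (by intro h; apply hne; linarith)
        (fun h => by omega)
      exact ⟨_, _, _, h4, h3.trans h5⟩
  · obtain ⟨t, _, _, h4, h5⟩ := upGood hB hA (by linarith) (by linarith) hN hne hb
    exact ⟨_, _, _, h4, h5⟩

end Pool.Agent.H4G.Six
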