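import Pool.Agent.H4G.Six.Can.B5c
import Pool.Agent.H4G.Six.Can.B1

/-!
# All states `PG A a a₁ 0` with `a ≠ a₁` (helper24)
-/

set_option autoImplicit false

namespace Pool.Agent.H4G.Six

open Pool.Agent.H4G

variable {N : ℤ} {J Z : ℕ}

/-- **(B1) and (B5)**: all states `PG A a a₁ 0` with `a ≠ a₁` -/
theorem b15 (hB : Bg N J Z) {A a a1 : ℤ} (hA : 0 < A) (ha : 1 < a) (ha1 : 1 < a1)
    (hN : A + a + a1 = N) (hne : a ≠ a1) :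
    ∃ A' a' a1' : ℤ, Gd N A' a' a1' ∧ SEq6 (PG A a a1 0) (PG A' a' a1' 0) := by
  by_cases h : (2 : ℤ) ∣ A ∧ (2 : ℤ) ∣ a ∧ (2 : ℤ) ∣ a1
  · exact b5 hB hA h.1 ha ha1 hN h.2.1 h.2.2 hne
  · exact b1 hB hA ha ha1 hN hne h

end Pool.Agent.H4G.Six
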