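import Pool.Agent.H4G.Six.Can.BBE
import Pool.Agent.H4G.Six.Can.B1

/-!
# End states `B3`, `b` even (helper81)
-/

set_option autoImplicit false

namespace Pool.Agent.H4G.Six

open Pool.Agent.H4G

variable {N : ℤ} {J Z : ℕ}

/-- both tori are large -/
theorem bbBig (hB : Bg N J Z) {A a β : ℤ} (hA : 0 < A) (hA2 : ¬ (2 : ℤ) ∣ A) (ha2 : (2 : ℤ) ∣ a)
    (ha : 4 * (J : ℤ) + 5 ≤ a) (hβ : 4 * (J : ℤ) + 5 ≤ 2 * β) (hN : A + a + 4 * β = N) :
    ∃ A' a' a1' : ℤ, Gd N A' a' a1' ∧ SEq6 (BB A a β) (PG A' a' a1' 0) := by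
  have hJ := hB.J1
  have hN1 := hB.N1
  have hβ0 : 0 < β := by linarith
  have ha0 : 0 < a := by linarith
  have hsz : A * a * β ≤ (Z : ℤ) := by
    refine hB.le (n := 1 + 1 + 1) (by norm_num) ?_
    refine mul_le_pow2 hβ0 (mul_le_pow2 ha0 ?_ ?_ (by linarith)) ?_ (by linarith) <;>
    · rw [pow_one]; linarith
  obtain ⟨ι, k1, k2, k3, k4⟩ := sieveQ (k := 1) (e := 1) hB.cap (D0 := A * a * β)
    (by positivity) hsz (by norm_num) ![fun p => p ∣ A * a * β] ![1] ![0] (m := 4) (by norm_num)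
    (A - 2)
    (by
      intro p _ i hi
      fin_cases i
      exact hi)
    (by
      intro p hp _
      refine ⟨1, fun i hi => ?_⟩
      fin_cases i
      simpa using prime_not_dvd_one hp)
    (by
      intro p hp hpm i hi
      fin_cases i
      intro h
      have h' : (p : ℤ) ∣ A - 2 := by simpa using h
      have hp2 : (p : ℤ) ∣ 2 := by
        have h22 : (4 : ℤ) = 2 * 2 := by norm_num
        rw [h22] at hpm
        rcases (Nat.prime_iff_prime_int.1 hp).dvd_or_dvd hpm with h3 | h3 <;> exact h3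
      have hp3 : p = 2 := by
        have : p ∣ 2 := by exact_mod_cast hp2
        exact (Nat.prime_dvd_prime_iff_eq hp Nat.prime_two).1 this
      rw [hp3] at h'
      push_cast at h'
      omega) 5
  rw [pow_one] at k2
  have q0 : ∀ p : ℕ, p.Prime → (p : ℤ) ∣ A * a * β → ¬ (p : ℤ) ∣ ι := by
    intro p hp hd h
    refine k4 p hp 0 hd ?_
    simpa using h
  have c0 : IsCoprime ι A := isCoprime_of_prime fun p hp h1 h2 =>
    q0 p hp ((h1.mul_right _).mul_right _) h2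
  have c1 : IsCoprime ι a := isCoprime_of_prime fun p hp h1 h2 =>
    q0 p hp ((h1.mul_left _).mul_right _) h2
  have c2 : IsCoprime ι β := isCoprime_of_prime fun p hp h1 h2 =>
    q0 p hp (h1.mul_left _) h2
  have s1 := par (A := A) (a := a) (β := β) (ι := ι) hA hA2 (by linarith) (by omega) ha2 c0 c1 c2
    (by linarith) (by linarith) (by linarith)
  have hι2 : ¬ (2 : ℤ) ∣ ι := by omega
  obtain ⟨A', a', a1', h1, h2⟩ := b1 hB (A := A + 3 * ι - 4) (a := a - ι + 1)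
    (a1 := 2 * (2 * β - ι) + 3) (by linarith) (by linarith) (by linarith) (by linarith)
    (by intro h; omega) (by rintro ⟨-, -, h⟩; omega)
  exact ⟨A', a', a1', h1, s1.trans h2⟩

theorem gcd_split {a β : ℤ} (ha : 0 < a) : ∃ h a0 β0 : ℤ, 0 < h ∧ h ≤ a ∧
    (Int.gcd a β : ℤ) = h ∧ a = h * a0 ∧ β = h * β0 ∧ IsCoprime a0 β0 := by
  set h : ℤ := (Int.gcd a β : ℤ) with hh
  have hne : a ≠ 0 := by linarith
  have h0 : 0 < h := by
    have h5 : 0 < Int.gcd a β := Int.gcd_pos_of_ne_zero_left _ hne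
    rw [hh]
    exact_mod_cast h5
  obtain ⟨a0, e1⟩ : h ∣ a := Int.gcd_dvd_left ..
  obtain ⟨β0, e2⟩ : h ∣ β := Int.gcd_dvd_right ..
  refine ⟨h, a0, β0, h0, Int.le_of_dvd ha ⟨a0, e1⟩, rfl, e1, e2, ?_⟩
  have hb := Int.gcd_eq_gcd_ab a β
  refine ⟨Int.gcdA a β, Int.gcdB a β, ?_⟩
  have e : h * (Int.gcdA a β * a0 + Int.gcdB a β * β0) = h * 1 := by
    rw [← hh] at hb
    calc h * (Int.gcdA a β * a0 + Int.gcdB a β * β0)
        = (h * a0) * Int.gcdA a β + (h * β0) * Int.gcdB a β := by ring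
      _ = a * Int.gcdA a β + β * Int.gcdB a β := by rw [← e1, ← e2]
      _ = h * 1 := by rw [mul_one]; exact hb.symm
  exact mul_left_cancel₀ (by linarith) e

theorem gcd_mul_cop {h x y : ℤ} (h0 : 0 < h) (hc : IsCoprime x y) :
    (Int.gcd (h * x) (h * y) : ℤ) = h := by
  rw [Int.gcd_mul_left, Int.isCoprime_iff_gcd_eq_one.1 hc, mul_one]
  omega

/-- the torus `a` is small -/
theorem bbSmallA (hB : Bg N J Z) {a β : ℤ} (ha : 1 < a) (ha2 : (2 : ℤ) ∣ a)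
    (haJ : a ≤ 4 * (J : ℤ) + 5) (hN : 1 + a + 4 * β = N) :
    ∃ A' a' a1' : ℤ, Gd N A' a' a1' ∧ SEq6 (BB 1 a β) (PG A' a' a1' 0) := by
  have hJ := hB.J20
  have hJ1 := hB.J1
  have hN1 := hB.N1
  have hp := hB.pw (n := 5) (by norm_num)
  set X : ℤ := (J : ℤ) with hX
  have hX0 : 0 < X := by linarith
  -- sizes
  have hbig : 2 ^ 40 * X ^ 3 ≤ N := by
    have h2 : (2 : ℤ) ^ 40 ≤ X ^ 2 := by
      calc (2 : ℤ) ^ 40 = (2 ^ 20) ^ 2 := by norm_num
        _ ≤ X ^ 2 := pow_le_pow_left₀ (by norm_num) hJ 2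
    calc 2 ^ 40 * X ^ 3 ≤ X ^ 2 * X ^ 3 := mul_le_mul_of_nonneg_right h2 (by positivity)
      _ = X ^ 5 := by ring
      _ ≤ N := hp
  have hX13 : X ≤ X ^ 3 := by nlinarith [mul_pos hX0 hX0]
  have hX23 : X ^ 2 ≤ X ^ 3 := by nlinarith [mul_pos hX0 hX0]
  have h1X3 : 1 ≤ X ^ 3 := le_trans hJ1 hX13
  have hβ0 : 0 < β := by nlinarith
  obtain ⟨h, a0, β0, h0, hha, hg, e1, e2, hc⟩ := gcd_split (a := a) (β := β) (by linarith)
  have hha' : h ≤ 5 * X := by linarith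
  have hsz : (a - 1) * β * (a + 2 * β) ≤ (Z : ℤ) := by
    refine hB.le (n := 1 + 1 + 1) (by norm_num) ?_
    refine mul_le_pow2 (by linarith) (mul_le_pow2 hβ0 ?_ ?_ (by linarith)) ?_ (by linarith) <;>
    · rw [pow_one]; linarith
  have ha10 : 0 < a - 1 := by linarith
  have hab0 : 0 < a + 2 * β := by linarith
  obtain ⟨t, k1, k2, k3⟩ := sieveP (k := 2) (e := 1) hB.cap
    (D0 := (a - 1) * β * (a + 2 * β)) (by positivity) hsz (by norm_num)
    ![fun p => p ∣ (a - 1) * β, fun p => p ∣ a + 2 * β ∧ ¬ p ∣ 2 * h]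
    ![4 * h ^ 2, 2 * h ^ 2] ![1, -β]
    (by
      intro p _ i hi
      fin_cases i
      · exact hi.mul_right _
      · exact hi.1.mul_left _)
    (by
      intro p hp
      refine ⟨0, fun i hi => ?_⟩
      fin_cases i
      · simpa using prime_not_dvd_one hp
      · intro h5
        have h6 : (p : ℤ) ∣ β := by simpa using h5
        have h7 : (p : ℤ) ∣ a := by
          have := dvd_sub hi.1 (h6.mul_left 2)
          rwa [add_sub_cancel_right] at this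
        have h8 : (p : ℤ) ∣ h := by rw [← hg]; exact Int.dvd_coe_gcd h7 h6
        exact hi.2 (h8.mul_left 2)) (4 * X + 5)
  rw [pow_one] at k2
  have q0 : ∀ p : ℕ, p.Prime → (p : ℤ) ∣ (a - 1) * β → ¬ (p : ℤ) ∣ 1 + 2 * (2 * h ^ 2 * t) := by
    intro p hp hd h5
    refine k3 p hp 0 hd ?_
    have e : 1 + 2 * (2 * h ^ 2 * t) = 4 * h ^ 2 * t + 1 := by ring
    rw [e] at h5
    simpa using h5
  have q1 : ∀ p : ℕ, p.Prime → (p : ℤ) ∣ a + 2 * β → ¬ (p : ℤ) ∣ 2 * h →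
      ¬ (p : ℤ) ∣ β - 2 * h ^ 2 * t := by
    intro p hp hd h4 h5
    refine k3 p hp 1 ⟨hd, h4⟩ ?_
    have e : 2 * h ^ 2 * t + -β = -(β - 2 * h ^ 2 * t) := by ring
    show (p : ℤ) ∣ 2 * h ^ 2 * t + -β
    rw [e]; exact (dvd_neg).2 h5
  set μ : ℤ := 2 * h ^ 2 * t with hμ
  have ht0 : 0 < t := by linarith
  have hμt : 2 * t ≤ μ := by
    rw [hμ]
    have : 1 ≤ h ^ 2 := by nlinarith
    nlinarith
  have hμX : μ ≤ 300 * (X ^ 3 + X ^ 2 + X ^ 2) := by
    rw [hμ]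
    have hh2 : h ^ 2 ≤ 25 * X ^ 2 := by nlinarith
    have ht2 : t ≤ 5 * X + 5 := by linarith
    calc 2 * h ^ 2 * t ≤ 2 * (25 * X ^ 2) * (5 * X + 5) :=
          mul_le_mul (by linarith) ht2 ht0.le (by positivity)
      _ ≤ 300 * (X ^ 3 + X ^ 2 + X ^ 2) := by nlinarith [pow_pos hX0 2, pow_pos hX0 3]
  have hβbig : 4 * β = N - 1 - a := by linarith
  have hβμ : 2 * μ + 4 * X + 5 ≤ β := by nlinarith
  have cA : IsCoprime (1 + 2 * μ) (a - 1) := isCoprime_of_prime fun p hp h1 h2 =>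
    q0 p hp (h1.mul_right _) h2
  have cB : IsCoprime (1 + 2 * μ) β := isCoprime_of_prime fun p hp h1 h2 =>
    q0 p hp (h1.mul_left _) h2
  have hgμ : (Int.gcd a β : ℤ) ∣ μ := by
    rw [hg, hμ]; exact ⟨2 * h * t, by ring⟩
  have hcc : IsCoprime (a0 + 4 * h * t) (β0 - 2 * h * t) := by
    refine isCoprime_of_prime fun p hp h5 h6 => ?_
    have hpp := Nat.prime_iff_prime_int.1 hp
    by_cases h7 : (p : ℤ) ∣ 2 * h
    · have h8 : (p : ℤ) ∣ β0 := by
        have e : β0 = (β0 - 2 * h * t) + 2 * h * t := by ring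
        rw [e]; exact dvd_add h5 (h7.mul_right _)
      have h9 : (p : ℤ) ∣ a0 := by
        have e : a0 = (a0 + 4 * h * t) - 2 * h * (2 * t) := by ring
        rw [e]; exact dvd_sub h6 (h7.mul_right _)
      exact not_dvd_of_isCoprime hc hp h8 h9
    · refine q1 p hp ?_ h7 ?_
      · have e : a + 2 * β = h * ((a0 + 4 * h * t) + 2 * (β0 - 2 * h * t)) := by
          rw [e1, e2]; ring
        rw [e]; exact (dvd_add h6 (h5.mul_left 2)).mul_left _
      · have e : β - μ = h * (β0 - 2 * h * t) := by rw [hμ, e2]; ring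
        rw [e]; exact h5.mul_left _
  have hgμ' : (Int.gcd (a + 2 * μ) (β - μ) : ℤ) ∣ μ := by
    have f1 : a + 2 * μ = h * (a0 + 4 * h * t) := by rw [hμ, e1]; ring
    have f2 : β - μ = h * (β0 - 2 * h * t) := by rw [hμ, e2]; ring
    rw [f1, f2, gcd_mul_cop h0 hcc, hμ]
    exact ⟨2 * h * t, by ring⟩
  have s1 := bbZ (a := a) (β := β) (μ := μ) ha (by linarith) (by linarith) cA cB hgμ hgμ'
  obtain ⟨A', a', a1', g1, g2⟩ := bbBig hB (A := 1 + 2 * μ) (a := a + 2 * μ) (β := β - μ)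
    (by linarith) (by omega) (by omega) (by linarith) (by linarith) (by linarith)
  exact ⟨A', a', a1', g1, s1.trans g2⟩

/-- the torus `β` is small -/
theorem bbSmallB (hB : Bg N J Z) {a β : ℤ} (hβ0 : 0 < β) (ha2 : (2 : ℤ) ∣ a)
    (hβJ : 2 * β ≤ 4 * (J : ℤ) + 5) (hN : 1 + a + 4 * β = N) :
    ∃ A' a' a1' : ℤ, Gd N A' a' a1' ∧ SEq6 (BB 1 a β) (PG A' a' a1' 0) := by
  have hJ := hB.J20
  have hJ1 := hB.J1
  have hN1 := hB.N1
  have hp := hB.pw (n := 5) (by norm_num)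
  set X : ℤ := (J : ℤ) with hX
  have hX0 : 0 < X := by linarith
  have hbig : 2 ^ 40 * X ^ 3 ≤ N := by
    have h2 : (2 : ℤ) ^ 40 ≤ X ^ 2 := by
      calc (2 : ℤ) ^ 40 = (2 ^ 20) ^ 2 := by norm_num
        _ ≤ X ^ 2 := pow_le_pow_left₀ (by norm_num) hJ 2
    calc 2 ^ 40 * X ^ 3 ≤ X ^ 2 * X ^ 3 := mul_le_mul_of_nonneg_right h2 (by positivity)
      _ = X ^ 5 := by ring
      _ ≤ N := hp
  have hX13 : X ≤ X ^ 3 := by nlinarith [mul_pos hX0 hX0]
  have hX23 : X ^ 2 ≤ X ^ 3 := by nlinarith [mul_pos hX0 hX0]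
  have h1X3 : 1 ≤ X ^ 3 := le_trans hJ1 hX13
  have ha0 : 0 < a := by nlinarith
  obtain ⟨h, b0, a0, h0, hhb, hg', e2, e1, hc'⟩ := gcd_split (a := β) (β := a) hβ0
  have hg : (Int.gcd a β : ℤ) = h := by rw [Int.gcd_comm]; exact hg'
  have hc := hc'.symm
  have hhb' : h ≤ 5 * X := by linarith
  have hb10 : 0 < 2 * β - 1 := by linarith
  have hab0 : 0 < a + 6 * β := by linarith
  have hsz : a * (2 * β - 1) * (a + 6 * β) ≤ (Z : ℤ) := by
    refine hB.le (n := 1 + 1 + 1) (by norm_num) ?_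
    refine mul_le_pow2 hab0 (mul_le_pow2 hb10 ?_ ?_ (by linarith)) ?_ (by linarith) <;>
    · rw [pow_one]; linarith
  obtain ⟨t, k1, k2, k3⟩ := sieveP (k := 3) (e := 2) hB.cap
    (D0 := a * (2 * β - 1) * (a + 6 * β)) (by positivity) hsz (by norm_num)
    ![fun p => p ∣ a, fun p => p ∣ 2 * β - 1, fun p => p ∣ a + 6 * β ∧ ¬ p ∣ 2 * h]
    ![12 * h ^ 2, 4 * h ^ 2, 2 * h ^ 2] ![1, 1, β]
    (by
      intro p _ i hi
      fin_cases i
      · exact (Dvd.dvd.mul_right hi _).mul_right _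
      · exact (Dvd.dvd.mul_left hi _).mul_right _
      · exact hi.1.mul_left _)
    (by
      intro p hp
      refine ⟨0, fun i hi => ?_⟩
      fin_cases i
      · simpa using prime_not_dvd_one hp
      · simpa using prime_not_dvd_one hp
      · intro h5
        have h6 : (p : ℤ) ∣ β := by simpa using h5
        have h7 : (p : ℤ) ∣ a := by
          have := dvd_sub hi.1 (h6.mul_left 6)
          rwa [add_sub_cancel_right] at this
        have h8 : (p : ℤ) ∣ h := by rw [← hg]; exact Int.dvd_coe_gcd h7 h6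
        exact hi.2 (h8.mul_left 2)) (4 * X + 5)
  have q0 : ∀ p : ℕ, p.Prime → (p : ℤ) ∣ a → ¬ (p : ℤ) ∣ 6 * (2 * h ^ 2 * t) + 1 := by
    intro p hp hd h5
    refine k3 p hp 0 hd ?_
    have e : 6 * (2 * h ^ 2 * t) + 1 = 12 * h ^ 2 * t + 1 := by ring
    rw [e] at h5
    simpa using h5
  have q1 : ∀ p : ℕ, p.Prime → (p : ℤ) ∣ 2 * β - 1 → ¬ (p : ℤ) ∣ 1 + 2 * (2 * h ^ 2 * t) := by
    intro p hp hd h5
    refine k3 p hp 1 hd ?_
    have e : 1 + 2 * (2 * h ^ 2 * t) = 4 * h ^ 2 * t + 1 := by ring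
    rw [e] at h5
    simpa using h5
  have q2 : ∀ p : ℕ, p.Prime → (p : ℤ) ∣ a + 6 * β → ¬ (p : ℤ) ∣ 2 * h →
      ¬ (p : ℤ) ∣ β + 2 * h ^ 2 * t := by
    intro p hp hd h4 h5
    refine k3 p hp 2 ⟨hd, h4⟩ ?_
    have e : 2 * h ^ 2 * t + β = β + 2 * h ^ 2 * t := by ring
    show (p : ℤ) ∣ 2 * h ^ 2 * t + β
    rw [e]; exact h5
  set s : ℤ := 2 * h ^ 2 * t with hs
  have ht0 : 0 < t := by linarith
  have hst : 2 * t ≤ s := by
    rw [hs]
    have : 1 ≤ h ^ 2 := by nlinarith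
    nlinarith
  have hp6 := hB.pw (n := 7) (by norm_num)
  have hbig6 : 2 ^ 60 * X ^ 4 ≤ N := by
    have h2 : (2 : ℤ) ^ 60 ≤ X ^ 3 := by
      calc (2 : ℤ) ^ 60 = (2 ^ 20) ^ 3 := by norm_num
        _ ≤ X ^ 3 := pow_le_pow_left₀ (by norm_num) hJ 3
    calc 2 ^ 60 * X ^ 4 ≤ X ^ 3 * X ^ 4 := mul_le_mul_of_nonneg_right h2 (by positivity)
      _ = X ^ 7 := by ring
      _ ≤ N := hp6
  have hX34 : X ^ 3 ≤ X ^ 4 := by nlinarith [pow_pos hX0 3]
  have hsX : s ≤ 2000 * X ^ 4 := by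
    rw [hs]
    have hh2 : h ^ 2 ≤ 25 * X ^ 2 := by nlinarith
    have ht2 : t ≤ X ^ 2 + 5 * X ^ 2 + 5 * X ^ 2 := by nlinarith
    calc 2 * h ^ 2 * t ≤ 2 * (25 * X ^ 2) * (X ^ 2 + 5 * X ^ 2 + 5 * X ^ 2) :=
          mul_le_mul (by linarith) ht2 ht0.le (by positivity)
      _ ≤ 2000 * X ^ 4 := by nlinarith [pow_pos hX0 4]
  have has : 6 * s + 4 * X + 5 ≤ a := by nlinarith
  have cA : IsCoprime (6 * s + 1) a := isCoprime_of_prime fun p hp h1 h2 =>
    q0 p hp h1 h2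
  have cB : IsCoprime (1 + 2 * s) (2 * β - 1) := isCoprime_of_prime fun p hp h1 h2 =>
    q1 p hp h1 h2
  have hgs : (Int.gcd a β : ℤ) ∣ 2 * s := by
    rw [hg, hs]; exact ⟨4 * h * t, by ring⟩
  have hcc : IsCoprime (a0 - 12 * h * t) (b0 + 2 * h * t) := by
    refine isCoprime_of_prime fun p hp h5 h6 => ?_
    by_cases h7 : (p : ℤ) ∣ 2 * h
    · have h8 : (p : ℤ) ∣ b0 := by
        have e : b0 = (b0 + 2 * h * t) - 2 * h * t := by ring
        rw [e]; exact dvd_sub h5 (h7.mul_right _)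
      have h9 : (p : ℤ) ∣ a0 := by
        have e : a0 = (a0 - 12 * h * t) + 2 * h * (6 * t) := by ring
        rw [e]; exact dvd_add h6 (h7.mul_right _)
      exact not_dvd_of_isCoprime hc hp h8 h9
    · refine q2 p hp ?_ h7 ?_
      · have e : a + 6 * β = h * ((a0 - 12 * h * t) + 6 * (b0 + 2 * h * t)) := by
          rw [e1, e2]; ring
        rw [e]; exact (dvd_add h6 (h5.mul_left 6)).mul_left _
      · have e : β + s = h * (b0 + 2 * h * t) := by rw [hs, e2]; ring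
        rw [e]; exact h5.mul_left _
  have hgs' : (Int.gcd (a - 6 * s) (β + s) : ℤ) ∣ 2 * s := by
    have f1 : a - 6 * s = h * (a0 - 12 * h * t) := by rw [hs, e1]; ring
    have f2 : β + s = h * (b0 + 2 * h * t) := by rw [hs, e2]; ring
    rw [f1, f2, gcd_mul_cop h0 hcc, hs]
    exact ⟨4 * h * t, by ring⟩
  have s1 := bbZ' (a := a) (β := β) (s := s) hβ0 (by linarith) (by linarith) cA cB hgs hgs'
  obtain ⟨A', a', a1', g1, g2⟩ := bbBig hB (A := 1 + 2 * s) (a := a - 6 * s) (β := β + s)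
    (by linarith) (by omega) (by omega) (by linarith) (by linarith) (by linarith)
  exact ⟨A', a', a1', g1, s1.trans g2⟩

/-- **(B3), `b = 2 β` even** -/
theorem b3even (hB : Bg N J Z) {a β : ℤ} (ha : 1 < a) (ha2 : (2 : ℤ) ∣ a) (hβ : 0 < β)
    (hN : 1 + a + 4 * β = N) :
    ∃ A' a' a1' : ℤ, Gd N A' a' a1' ∧ SEq6 (BB 1 a β) (PG A' a' a1' 0) := by
  rcases le_or_gt a (4 * (J : ℤ) + 5) with h1 | h1
  · exact bbSmallA hB ha ha2 h1 hN
  rcases le_or_gt (2 * β) (4 * (J : ℤ) + 5) with h2 | h2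
  · exact bbSmallB hB hβ ha2 h2 hN
  · exact bbBig hB (by norm_num) (by norm_num) ha2 h1.le h2.le hN

end Pool.Agent.H4G.Six
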