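import Pool.Agent.H4G.Six.Can.Edge

/-!
# The states `(2 u₀, H w - u₀)` over two cocyclic tori containing `w` (helper81)
-/

set_option autoImplicit false

namespace Pool.Agent.H4G.Six

open Pool.Agent.H4G

/-- a vector with a dual vector is primitive -/
theorem cop_of_cr_left {u w : Z2} (h : cr u w = 1) : IsCoprime u.1 u.2 := by
  refine ⟨w.2, -w.1, ?_⟩
  have : u.1 * w.2 - u.2 * w.1 = 1 := h
  linarith

theorem cop_of_cr_right {u w : Z2} (h : cr u w = 1) : IsCoprime w.1 w.2 := by
  refine ⟨-u.2, u.1, ?_⟩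
  have : u.1 * w.2 - u.2 * w.1 = 1 := h
  linarith

/-- a basis with determinant one -/
theorem basis_one {u w : Z2} (h : cr u w = 1) (z : Z2) : z = cr z w • u + cr u z • w := by
  have h' : u.1 * w.2 - u.2 * w.1 = 1 := h
  ext
  · simp only [Prod.fst_add, Prod.smul_fst, smul_eq_mul, cr]
    linear_combination (-z.1) * h'
  · simp only [Prod.snd_add, Prod.smul_snd, smul_eq_mul, cr]
    linear_combination (-z.2) * h'

/-- **DX**: the exit `w, w` from the state with the slit `2 u₀` -/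
theorem dx {u0 w : Z2} {H a a1 : ℤ} (hw : cr u0 w = 1) (hH : 0 < H) (ha : 2 < a) (ha1 : 2 < a1) :
    SEq6 (GS ((2 : ℤ) • u0) (H • w - u0) w w a a1) (PG (2 * H + 2) (a - 1) (a1 - 1) 0) := by
  have hw' : cr w u0 = -1 := by rw [cr_swap, hw]
  have cw := cop_of_cr_right hw
  set u' : Z2 := u0 + (H + 2) • w with hu'
  have e0 : cr ((2 : ℤ) • u0) (H • w - u0) = 2 * H := by
    simp only [cr_smul_left, cr_sub_right, cr_smul_right, cr_self, hw]; ring
  have e1 : cr ((2 : ℤ) • u0) w = 2 := by rw [cr_smul_left, hw]; norm_num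
  have f0 : cr u' (H • w - u0) = 2 * H + 2 := by
    simp only [hu', cr_add_left, cr_smul_left, cr_sub_right, cr_smul_right, cr_self, hw, hw']; ring
  have f1 : cr u' w = 1 := by
    simp only [hu', cr_add_left, cr_smul_left, cr_self, hw]; ring
  have s1 := GS.pencil (u := (2 : ℤ) • u0) (v := H • w - u0) (u' := u') (v' := H • w - u0)
    (l := w) (m := w) (a := a) (a1 := a1) (a' := a - 1) (a1' := a1 - 1) cw cw
    (by rw [e0]; linarith) (by rw [e1]; norm_num) (by rw [e1]; exact ha)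
    (by rw [e1]; norm_num) (by rw [e1]; exact ha1) (by rw [f0]; linarith)
    (by rw [f1]; norm_num) (by rw [f1]; norm_num)
    (by
      refine closure_pair_eq (α := 1) (β := -1) (γ := 0) (δ := 1) ?_ ?_ (Or.inl (by ring))
      · rw [hu']; module
      · module)
    (by rw [cr_sub_left, f1, e1]; ring) (by rw [cr_sub_left, f1, e1]; ring)
  have s2 := GS.gen (u := u') (v := H • w - u0) (l := w) (m := w) (a := a - 1) (a1 := a1 - 1)
    (z := 0) (cop_of_cr_left f1) (by rw [f0]; linarith) cw (by rw [f1]; norm_num)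
    (by rw [f1]; linarith) cw (by rw [f1]; norm_num) (by rw [f1]; linarith)
    (by rw [f1]; exact isCoprime_one_left) (by rw [f1]; exact isCoprime_one_left) (by
      rw [cr_self]; simp)
  rw [f0] at s2
  exact s1.trans s2

/-- the same with any `v` of the right class modulo `2 u₀` -/
theorem dx' {u0 w v : Z2} {H a a1 : ℤ} (hw : cr u0 w = 1) (hv : cr u0 v = H)
    (hodd : ¬ (2 : ℤ) ∣ cr v w) (hH : 0 < H) (ha : 2 < a) (ha1 : 2 < a1) :
    SEq6 (GS ((2 : ℤ) • u0) v w w a a1) (PG (2 * H + 2) (a - 1) (a1 - 1) 0) := by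
  have cw := cop_of_cr_right hw
  have e1 : cr ((2 : ℤ) • u0) w = 2 := by rw [cr_smul_left, hw]; norm_num
  have e0 : cr ((2 : ℤ) • u0) v = 2 * H := by rw [cr_smul_left, hv]
  have hok : (GS ((2 : ℤ) • u0) v w w a a1).Ok :=
    GS.ok (by rw [e0]; linarith) cw (by rw [e1]; norm_num) (by rw [e1]; exact ha) cw
      (by rw [e1]; norm_num) (by rw [e1]; exact ha1)
  obtain ⟨k, hk⟩ : ∃ k : ℤ, cr v w = 2 * k - 1 := ⟨(cr v w + 1) / 2, by omega⟩
  have s1 := SEq6.tv hok (-k)
  have e : v + (-k) • ((2 : ℤ) • u0) = H • w - u0 := by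
    have := basis_one hw v
    rw [hk, hv] at this
    rw [this]
    module
  rw [e] at s1
  exact s1.trans (dx hw hH ha ha1)

end Pool.Agent.H4G.Six
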