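import Pool.Agent.H4G.Six.Can.B1
import Pool.Agent.H4G.Six.Can.DX

/-!
# The family `A = 1`, `a` even, `M = ⟨(b, 0), (0, 2)⟩` with `b` odd (paper: helper81; Lean: helper51)
-/

set_option autoImplicit false

namespace Pool.Agent.H4G.Six

open Pool.Agent.H4G

variable {N : ℤ} {J Z : ℕ}

/-- two primitive vectors which are parallel modulo `a` define the same lattice -/
theorem Ld_eq {l l' : Z2} {a : ℤ} (hl : IsCoprime l.1 l.2) (hl' : IsCoprime l'.1 l'.2)
    (h : a ∣ cr l l') : Ld l a = Ld l' a := by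
  apply Ld_congr
  intro x
  have h0 := cr_dep x l l'
  have h1 := congrArg Prod.fst h0
  have h2 := congrArg Prod.snd h0
  simp only [Prod.fst_add, Prod.snd_add, Prod.smul_fst, Prod.smul_snd, smul_eq_mul,
    Prod.fst_zero, Prod.snd_zero] at h1 h2
  have e : cr x l' = -cr l' x := cr_swap _ _
  constructor
  · intro hx
    obtain ⟨s, t, hst⟩ := hl
    have e1 : cr x l' = s * (cr l l' * x.1 + cr x l * l'.1) +
        t * (cr l l' * x.2 + cr x l * l'.2) := by
      rw [e]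
      linear_combination (-s) * h1 - t * h2 + cr l' x * hst
    rw [e1]
    exact dvd_add ((dvd_add (h.mul_right _) (hx.mul_right _)).mul_left _)
      ((dvd_add (h.mul_right _) (hx.mul_right _)).mul_left _)
  · intro hx
    obtain ⟨s, t, hst⟩ := hl'
    rw [e, dvd_neg] at hx
    have e1 : cr x l = s * (-(cr l l' * x.1) - cr l' x * l.1) +
        t * (-(cr l l' * x.2) - cr l' x * l.2) := by
      linear_combination s * h1 + t * h2 - cr x l * hst
    rw [e1]
    exact dvd_add ((dvd_sub ((h.mul_right _).neg_right) (hx.mul_right _)).mul_left _)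
      ((dvd_sub ((h.mul_right _).neg_right) (hx.mul_right _)).mul_left _)

/-- **HALF EDGE with an exit of content two**: `u + v + l + m = 2 u₀` -/
theorem half_dx {L M : AddSubgroup Z2} {u v u0 l p m p' : Z2} {H a' a1' : ℤ}
    (h0 : 0 < cr u v) (hL : lat l p = L) (h1 : 0 < cr u l) (h2 : cr u l < cr p l)
    (hM : lat m p' = M) (h3 : 0 < cr u m) (h4 : cr u m < cr p' m)
    (hu' : (2 : ℤ) • u0 = u + (v + l + m)) (hl : IsCoprime l.1 l.2) (hH : cr u0 v = H)
    (H0 : 0 < H) (hi : 0 < cr u0 l) (hj : cr u0 m = 1)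
    (ha' : a' = cr p l - cr u l + 2 * cr u0 l) (ha1' : a1' = cr p' m - cr u m + 2)
    (hc : IsCoprime a' (a1' * cr u0 l)) (hv : ¬ (2 : ℤ) ∣ cr v m) (he : (2 : ℤ) ∣ a1')
    (k1 : 2 < a') (k2 : 2 < a1') :
    SEq6 ⟨L, M, u, v⟩ (PG (2 * H + 2) (a' - 1) (a1' - 1) 0) := by
  have cm := cop_of_cr_right hj
  have f0 : cr ((2 : ℤ) • u0) v = 2 * H := by rw [cr_smul_left, hH]
  have f1 : cr ((2 : ℤ) • u0) l = 2 * cr u0 l := by rw [cr_smul_left]
  have f2 : cr ((2 : ℤ) • u0) m = 2 := by rw [cr_smul_left, hj]; norm_num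
  have s1 := SEq6.pencil (u' := (2 : ℤ) • u0) (v' := v) h0 hL h1 h2 hM h3 h4
    (by rw [f0]; linarith) (by rw [f1]; linarith) (by rw [f2]; norm_num)
    (by
      refine closure_pair_eq (α := 1) (β := -1) (γ := 0) (δ := 1) ?_ ?_ (Or.inl (by ring))
      · rw [hu']; module
      · module)
  have g1 : cr (p + ((2 : ℤ) • u0 - u)) l = a' := by
    rw [cr_add_left, cr_sub_left, f1, ha']; ring
  have g2 : cr (p' + ((2 : ℤ) • u0 - u)) m = a1' := by
    rw [cr_add_left, cr_sub_left, f2, ha1']; ring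
  obtain ⟨x, y, hxy⟩ := hc
  set w : Z2 := m + (a1' * (-(y * cr m l))) • u0 with hw
  have w0 : cr u0 w = 1 := by
    rw [hw, cr_add_right, cr_smul_right, cr_self, hj]; ring
  have cw := cop_of_cr_right w0
  have eL : Ld l a' = Ld w a' := by
    refine Ld_eq hl cw ⟨-(x * cr m l), ?_⟩
    rw [hw, cr_add_right, cr_smul_right, cr_swap l m, cr_swap l u0]
    linear_combination cr m l * hxy
  have eM : Ld m a1' = Ld w a1' := by
    refine Ld_eq cm cw ⟨y * cr m l, ?_⟩
    rw [hw, cr_add_right, cr_smul_right, cr_self, cr_swap m u0, hj]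
    ring
  rw [lat_eq_Ld hl, lat_eq_Ld cm, g1, g2, eL, eM] at s1
  refine s1.trans (dx' w0 hH ?_ H0 k1 k2)
  obtain ⟨c, hc⟩ := he
  rw [hw, cr_add_right, cr_smul_right]
  intro h
  apply hv
  have e : cr v m = cr v m + a1' * (-(y * cr m l)) * cr v u0 -
      2 * (c * (-(y * cr m l)) * cr v u0) := by rw [hc]; ring
  rw [e]
  exact dvd_sub h (dvd_mul_right _ _)

/-- the source state of (B3) -/
def b3S (a b : ℤ) : St6 := ⟨Ld (0, 1) a, lat (b, 0) (0, 2), (1, 0), (0, 1)⟩

theorem b3S_ok {a b : ℤ} (ha : 1 < a) (hb : 1 < b) : (b3S a b).Ok := by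
  have e0 : cr ((1, 0) : Z2) (0, 1) = 1 := by simp [cr]
  have e1 : cr ((a, 0) : Z2) (0, 1) = a := by simp [cr]
  have hL : lat (0, 1) (a, 0) = Ld (0, 1) a := by
    rw [lat_eq_Ld (l := (0, 1)) isCoprime_one_right, e1]
  have e2 : cr ((1, 0) : Z2) (0, 2) = 2 := by simp [cr]
  have e3 : cr ((b, 0) : Z2) (0, 2) = 2 * b := by simp [cr]; ring
  have hM : lat (0, 2) (b, 0) = lat (b, 0) (0, 2) :=
    closure_pair_eq (α := 0) (β := 1) (γ := 1) (δ := 0) (by simp) (by simp) (Or.inr (by norm_num))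
  exact st6_ok (by rw [e0]; norm_num) hL (by rw [e0]; norm_num) (by rw [e0, e1]; exact ha) hM
    (by rw [e2]; norm_num) (by rw [e2, e3]; linarith)

/-- the shears of the source state -/
theorem b3_shear {a b : ℤ} (ha : 1 < a) (hb : 1 < b) (w : ℤ) :
    SEq6 (b3S a b) ⟨Ld (w, 1) a, lat (b, 0) (2 * w, 2), (1, 0), (0, 1)⟩ := by
  have s1 := SEq6.act (shH w) (b3S_ok ha hb)
  have e1 : (b3S a b).act (shH w) =
      ⟨Ld (w, 1) a, lat (b, 0) (2 * w, 2), (1, 0), (w, 1)⟩ := by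
    simp only [St6.act, b3S, map_Ld, map_lat, act_shH]
    simp [mul_comm]
  rw [e1] at s1
  have s2 := SEq6.tv s1.ok' (-w)
  have ev : ((w, 1) : Z2) + (-w) • ((1, 0) : Z2) = (0, 1) := by
    ext <;> simp
  rw [ev] at s2
  exact s1.trans s2

/-- **P2**: `a` is prime to `b` and `b` is large -/
theorem b3_P2 (hB : Bg N J Z) {a b : ℤ} (ha : 1 < a) (h2 : (2 : ℤ) ∣ a) (hbo : ¬ (2 : ℤ) ∣ b)
    (hab : IsCoprime a b) (hb : 2 * (J : ℤ) + 4 ≤ b) (hN : 1 + a + 2 * b = N) :
    ∃ e : ℤ, 0 < e ∧ e < b - 2 ∧ ¬ (2 : ℤ) ∣ e ∧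
      SEq6 (b3S a b) (PG (e + 3) (a + e - 1) (2 * (b - e) - 1) 0) := by
  have hJ := hB.J1
  have hN1 := hB.N1
  have hb1 : 1 < b := by linarith
  have hsz : b * (a - 1) * (a + b) ≤ (Z : ℤ) := by
    refine hB.le (n := 1 + 1 + 1) (by norm_num) ?_
    refine mul_le_pow2 (by linarith) (mul_le_pow2 (by linarith) ?_ ?_ (by linarith)) ?_
      (by linarith)
    · rw [pow_one]; linarith
    · rw [pow_one]; linarith
    · rw [pow_one]; linarith
  obtain ⟨e, k1, k2, k3', k3⟩ := sieveQ (k := 2) (e := 1) hB.cap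
    (D0 := b * (a - 1) * (a + b)) (by
      have h3 : 0 < b := by linarith
      have h4 : 0 < a - 1 := by linarith
      have h5 : 0 < a + b := by linarith
      positivity) hsz (by norm_num)
    ![fun p => p ∣ b * (a - 1), fun p => p ∣ a + b]
    ![1, 1] ![1, -b] (m := 2) (by norm_num) 1
    (by
      intro p _ i hi
      fin_cases i
      · exact hi.mul_right _
      · exact hi.mul_left _)
    (by
      intro p hp hp2
      obtain ⟨x, hx1, hx2⟩ := avoid2 hp (by rintro rfl; exact hp2 (dvd_refl _)) (-1) b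
      refine ⟨x, fun i _ => ?_⟩
      fin_cases i
      · simpa using hx1
      · simpa [sub_eq_add_neg] using hx2)
    (by
      intro p hp hp2 i hi
      have hpp : p = 2 := by
        have : p ∣ 2 := by exact_mod_cast hp2
        exact (Nat.prime_dvd_prime_iff_eq hp Nat.prime_two).1 this
      subst hpp
      exfalso
      fin_cases i
      · have h5 : (2 : ℤ) ∣ b * (a - 1) := by exact_mod_cast hi
        rcases Int.prime_two.dvd_or_dvd h5 with h | h
        · exact hbo h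
        · omega
      · have h5 : (2 : ℤ) ∣ a + b := by exact_mod_cast hi
        omega) 1
  rw [pow_one] at k2
  have he : ¬ (2 : ℤ) ∣ e := by omega
  have q0 : ∀ p : ℕ, p.Prime → (p : ℤ) ∣ b * (a - 1) → ¬ (p : ℤ) ∣ e + 1 := by
    intro p hp h h'
    refine k3 p hp 0 h ?_
    simpa using h'
  have q1 : ∀ p : ℕ, p.Prime → (p : ℤ) ∣ a + b → ¬ (p : ℤ) ∣ b - e := by
    intro p hp h h'
    refine k3 p hp 1 h ?_
    have : (p : ℤ) ∣ e + -b := by
      have h6 := (dvd_neg).2 h'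
      have e1 : e + -b = -(b - e) := by ring
      rw [e1]; exact h6
    simpa using this
  refine ⟨e, by linarith, by linarith, he, ?_⟩
  -- the shear
  have c1 : IsCoprime (2 * (e + 1)) b := by
    refine isCoprime_of_prime fun p hp h h' => ?_
    rcases two_or_odd hp with rfl | ⟨_, h3⟩
    · exact hbo (by exact_mod_cast h)
    · exact q0 p hp (h.mul_right _)
        (((Nat.prime_iff_prime_int.1 hp).dvd_or_dvd h').resolve_left h3)
  obtain ⟨α, β, hαβ⟩ := c1
  obtain ⟨w, hw1, hw2⟩ := crt2 (a := a) (a1 := b) (x := 0) (y := α * e)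
    (gcd_dvd_of_cop hab)
  obtain ⟨t, ht⟩ := hw2
  have s1 := b3_shear ha hb1 w
  have hwm : e = 2 * (e + 1) * w + (β * e - 2 * (e + 1) * t) * b := by
    linear_combination (-(2 * (e + 1))) * ht - e * hαβ
  set t' : ℤ := β * e - 2 * (e + 1) * t with ht'
  have c2 : IsCoprime (e + 1) t' := by
    refine ⟨1 - 2 * w, -b, ?_⟩
    linear_combination hwm
  obtain ⟨x, y, hxy⟩ := c2
  have hH : ∃ H : ℤ, e + 1 = 2 * H := ⟨(e + 1) / 2, by omega⟩
  obtain ⟨H, hH⟩ := hH
  refine s1.trans ?_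
  have e0 : cr ((1, 0) : Z2) (0, 1) = 1 := by simp [cr]
  have e1 : cr ((a, 0) : Z2) (0, 1) = a := by simp [cr]
  have hL : lat (0, 1) (a, 0) = Ld (w, 1) a := by
    rw [lat_eq_Ld (l := (0, 1)) isCoprime_one_right, e1]
    refine Ld_eq isCoprime_one_right isCoprime_one_right ?_
    have : cr ((0, 1) : Z2) (w, 1) = -w := by simp [cr]
    rw [this]
    rw [sub_zero] at hw1
    exact (dvd_neg).2 hw1
  have e2 : cr ((1, 0) : Z2) (e, 2 * e + 2) = 2 * e + 2 := by simp [cr]
  have hM : lat ((e, 2 * e + 2) : Z2) (x • (b, 0) - y • (2 * w, 2)) = lat (b, 0) (2 * w, 2) := by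
    refine closure_pair_eq (α := t') (β := e + 1) (γ := x) (δ := -y) ?_ ?_ (Or.inr ?_)
    · ext
      · simp only [Prod.fst_add, Prod.smul_fst, smul_eq_mul]
        linear_combination hwm
      · simp only [Prod.snd_add, Prod.smul_snd, smul_eq_mul]
        ring
    · module
    · linear_combination (-1 : ℤ) * hxy
  have e3 : cr (x • ((b, 0) : Z2) - y • (2 * w, 2)) (e, 2 * e + 2) = 2 * b := by
    have h3 : cr (x • ((b, 0) : Z2) - y • (2 * w, 2)) (e, 2 * e + 2) =
        x * (b * (2 * e + 2)) - y * (2 * w * (2 * e + 2) - 2 * e) := by simp [cr]; ring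
    rw [h3]
    linear_combination (2 * b) * hxy + (2 * y) * hwm
  have hcop : IsCoprime (a + e) (2 * (b - e) * H) := by
    refine isCoprime_of_prime fun p hp h h' => ?_
    have hp' := Nat.prime_iff_prime_int.1 hp
    rcases two_or_odd hp with rfl | ⟨_, h3⟩
    · have h5 : (2 : ℤ) ∣ a + e := by exact_mod_cast h'
      omega
    · rcases hp'.dvd_or_dvd h with h4 | h4
      · have h6 : (p : ℤ) ∣ b - e := (hp'.dvd_or_dvd h4).resolve_left h3
        refine q1 p hp ?_ h6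
        have := dvd_add h' h6
        have e7 : a + e + (b - e) = a + b := by ring
        rwa [e7] at this
      · have h6 : (p : ℤ) ∣ e + 1 := by rw [hH]; exact h4.mul_left _
        refine q0 p hp ?_ h6
        have := dvd_sub h' h6
        have e7 : a + e - (e + 1) = a - 1 := by ring
        rw [e7] at this
        exact this.mul_left _
  have f0 : cr ((H, e + 2) : Z2) (0, 1) = H := by simp [cr]
  have f2 : cr ((H, e + 2) : Z2) (e, 2 * e + 2) = 1 := by
    show H * (2 * e + 2) - (e + 2) * e = 1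
    linear_combination (-(e + 1)) * hH
  have f3 : cr ((0, 1) : Z2) (e, 2 * e + 2) = -e := by simp [cr]
  have H0 : 0 < H := by omega
  have s2 := half_dx (u := (1, 0)) (v := (0, 1)) (u0 := (H, e + 2)) (l := (0, 1)) (p := (a, 0))
    (m := (e, 2 * e + 2)) (p' := x • (b, 0) - y • (2 * w, 2)) (H := H) (a' := a + e)
    (a1' := 2 * (b - e)) (by rw [e0]; norm_num) hL (by rw [e0]; norm_num)
    (by rw [e0, e1]; exact ha) hM (by rw [e2]; linarith) (by rw [e2, e3]; linarith)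
    (by
      ext
      · simp only [Prod.fst_add, Prod.smul_fst, smul_eq_mul]; linarith
      · simp only [Prod.snd_add, Prod.smul_snd, smul_eq_mul]; ring)
    isCoprime_one_right f0 H0 (by rw [f0]; exact H0) f2
    (by rw [e1, e0, f0]; linarith) (by rw [e3, e2]; ring) (by rw [f0]; exact hcop)
    (by rw [f3, dvd_neg]; exact he) (dvd_mul_right _ _) (by linarith) (by linarith)
  have e4 : 2 * H + 2 = e + 3 := by linarith
  rw [e4] at s2
  exact s2

/-- **P1**: `a` is a power of two and large -/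
theorem b3_P1 (hB : Bg N J Z) {a b : ℤ} {s : ℕ} (has : a = 2 ^ s) (hb : 1 < b)
    (hbo : ¬ (2 : ℤ) ∣ b) (ha : 4 * (J : ℤ) + 20 ≤ a) (hN : 1 + a + 2 * b = N) :
    ∃ l1 : ℤ, 0 < l1 ∧ l1 < a - 4 ∧ (2 : ℤ) ∣ l1 ∧
      SEq6 (b3S a b) (PG (l1 + 4) (a - l1 - 2) (2 * b - 1) 0) := by
  have hJ := hB.J1
  have hN1 := hB.N1
  have ha1 : 1 < a := by linarith
  have h2 : (2 : ℤ) ∣ a := by
    rw [has]
    refine dvd_pow_self 2 ?_
    rintro rfl
    norm_num at has
    linarith
  have hab : IsCoprime a b := by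
    rw [has]
    exact IsCoprime.pow_left ((Prime.coprime_iff_not_dvd Int.prime_two).2 hbo)
  have hsz : b * (a - 3) ≤ (Z : ℤ) := by
    refine hB.le (n := 1 + 1) (by norm_num) ?_
    refine mul_le_pow2 (by linarith) ?_ ?_ (by linarith)
    · rw [pow_one]; linarith
    · rw [pow_one]; linarith
  obtain ⟨l1, k1, k2, k3', k3⟩ := sieveQ (k := 2) (e := 1) hB.cap
    (D0 := b * (a - 3)) (by
      have h3 : 0 < b := by linarith
      have h4 : 0 < a - 3 := by linarith
      positivity) hsz (by norm_num)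
    ![fun p => p ∣ a - 3, fun p => p ∣ b]
    ![1, 1] ![-2, -(a - 1)] (m := 2) (by norm_num) 0
    (by
      intro p _ i hi
      fin_cases i
      · exact hi.mul_left _
      · exact hi.mul_right _)
    (by
      intro p hp hp2
      obtain ⟨x, hx1, hx2⟩ := avoid2 hp (by rintro rfl; exact hp2 (dvd_refl _)) 2 (a - 1)
      refine ⟨x, fun i _ => ?_⟩
      fin_cases i
      · simpa [sub_eq_add_neg] using hx1
      · have e : x + -(a - 1) = x - (a - 1) := by ring
        have h5 : ¬ (p : ℤ) ∣ x + -(a - 1) := by rw [e]; exact hx2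
        simpa using h5)
    (by
      intro p hp hp2 i hi
      have hpp : p = 2 := by
        have : p ∣ 2 := by exact_mod_cast hp2
        exact (Nat.prime_dvd_prime_iff_eq hp Nat.prime_two).1 this
      subst hpp
      exfalso
      fin_cases i
      · have h5 : (2 : ℤ) ∣ a - 3 := by exact_mod_cast hi
        omega
      · have h5 : (2 : ℤ) ∣ b := by exact_mod_cast hi
        exact hbo h5) 4
  rw [pow_one] at k2
  have hl2 : (2 : ℤ) ∣ l1 := by simpa using k3'
  have q0 : ∀ p : ℕ, p.Prime → (p : ℤ) ∣ a - 3 → ¬ (p : ℤ) ∣ l1 - 2 := by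
    intro p hp h h'
    refine k3 p hp 0 h ?_
    simpa [sub_eq_add_neg] using h'
  have q1 : ∀ p : ℕ, p.Prime → (p : ℤ) ∣ b → ¬ (p : ℤ) ∣ a - l1 - 1 := by
    intro p hp h h'
    refine k3 p hp 1 h ?_
    have : (p : ℤ) ∣ l1 + -(a - 1) := by
      have h6 := (dvd_neg).2 h'
      have e1 : l1 + -(a - 1) = -(a - l1 - 1) := by ring
      rw [e1]; exact h6
    simpa using this
  refine ⟨l1, by linarith, by linarith, hl2, ?_⟩
  -- the shear
  have c1 : IsCoprime (2 * l1 - 1) a := by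
    rw [has]
    refine IsCoprime.pow_right ?_
    exact ((Prime.coprime_iff_not_dvd Int.prime_two).2 (by omega)).symm
  obtain ⟨α, β, hαβ⟩ := c1
  obtain ⟨b0, hb0⟩ : ∃ b0 : ℤ, b = 2 * b0 - 1 := ⟨(b + 1) / 2, by omega⟩
  obtain ⟨w, ⟨r, hr⟩, ⟨t, ht⟩⟩ := crt2 (a := a) (a1 := b) (x := α * l1) (y := b0)
    (gcd_dvd_of_cop hab)
  have s1 := b3_shear ha1 hb w
  refine s1.trans ?_
  have cl : IsCoprime ((l1, 2 * l1 - 1) : Z2).1 ((l1, 2 * l1 - 1) : Z2).2 :=
    ⟨2, -1, by show 2 * l1 + -1 * (2 * l1 - 1) = 1; ring⟩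
  obtain ⟨pl, hpl⟩ := exists_dual (l := (l1, 2 * l1 - 1)) cl
  have ep : cr (a • pl) (l1, 2 * l1 - 1) = a := by rw [cr_smul_left, hpl, mul_one]
  have hL : lat (l1, 2 * l1 - 1) (a • pl) = Ld (w, 1) a := by
    rw [lat_eq_Ld (l := (l1, 2 * l1 - 1)) cl, ep]
    refine Ld_eq cl isCoprime_one_right ⟨β * l1 - (2 * l1 - 1) * r, ?_⟩
    show l1 * 1 - (2 * l1 - 1) * w = _
    linear_combination (-(2 * l1 - 1)) * hr - l1 * hαβ
  have e0 : cr ((1, 0) : Z2) (0, 1) = 1 := by simp [cr]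
  have e1 : cr ((1, 0) : Z2) (l1, 2 * l1 - 1) = 2 * l1 - 1 := by simp [cr]
  have e2 : cr ((1, 0) : Z2) (1, 2) = 2 := by simp [cr]
  have e3 : cr ((b, 0) : Z2) (1, 2) = 2 * b := by simp [cr]; ring
  have hM : lat ((1, 2) : Z2) (b, 0) = lat (b, 0) (2 * w, 2) := by
    refine closure_pair_eq (α := -(1 + 2 * t)) (β := 1) (γ := 1) (δ := 0) ?_ ?_
      (Or.inr (by ring))
    · ext
      · simp only [Prod.fst_add, Prod.smul_fst, smul_eq_mul]
        linear_combination (-2) * ht + hb0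
      · simp only [Prod.snd_add, Prod.smul_snd, smul_eq_mul]
        ring
    · module
  obtain ⟨H, hH⟩ : ∃ H : ℤ, l1 = 2 * H := ⟨l1 / 2, by omega⟩
  have f0 : cr ((H + 1, l1 + 1) : Z2) (0, 1) = H + 1 := by simp [cr]
  have f1 : cr ((H + 1, l1 + 1) : Z2) (l1, 2 * l1 - 1) = H - 1 := by
    show (H + 1) * (2 * l1 - 1) - (l1 + 1) * l1 = H - 1
    linear_combination (1 - l1) * hH
  have f2 : cr ((H + 1, l1 + 1) : Z2) (1, 2) = 1 := by
    show (H + 1) * 2 - (l1 + 1) * 1 = 1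
    linarith
  have f3 : cr ((0, 1) : Z2) (1, 2) = -1 := by simp [cr]
  have hcop : IsCoprime (a - l1 - 1) (2 * b * (H - 1)) := by
    refine isCoprime_of_prime fun p hp h h' => ?_
    have hp' := Nat.prime_iff_prime_int.1 hp
    rcases two_or_odd hp with rfl | ⟨_, h3⟩
    · have h5 : (2 : ℤ) ∣ a - l1 - 1 := by exact_mod_cast h'
      omega
    · rcases hp'.dvd_or_dvd h with h4 | h4
      · exact q1 p hp ((hp'.dvd_or_dvd h4).resolve_left h3) h'
      · have h6 : (p : ℤ) ∣ l1 - 2 := by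
          have e7 : l1 - 2 = 2 * (H - 1) := by linarith
          rw [e7]; exact h4.mul_left _
        refine q0 p hp ?_ h6
        have := dvd_add h' h6
        have e7 : a - l1 - 1 + (l1 - 2) = a - 3 := by ring
        rwa [e7] at this
  have s2 := half_dx (u := (1, 0)) (v := (0, 1)) (u0 := (H + 1, l1 + 1)) (l := (l1, 2 * l1 - 1))
    (p := a • pl) (m := (1, 2)) (p' := (b, 0)) (H := H + 1) (a' := a - l1 - 1)
    (a1' := 2 * b) (by rw [e0]; norm_num) hL (by rw [e1]; linarith)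
    (by rw [e1, ep]; linarith) hM (by rw [e2]; norm_num) (by rw [e2, e3]; linarith)
    (by
      ext
      · simp only [Prod.fst_add, Prod.smul_fst, smul_eq_mul]; linarith
      · simp only [Prod.snd_add, Prod.smul_snd, smul_eq_mul]; ring)
    cl f0 (by omega) (by rw [f1]; omega) f2
    (by rw [ep, e1, f1]; linarith) (by rw [e3, e2]; ring) (by rw [f1]; exact hcop)
    (by rw [f3]; norm_num) (dvd_mul_right _ _) (by linarith) (by linarith)
  have e4 : 2 * (H + 1) + 2 = l1 + 4 := by linarith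
  have e5 : a - l1 - 1 - 1 = a - l1 - 2 := by ring
  rw [e4, e5] at s2
  exact s2

/-- **U**: `a` has an odd factor -/
theorem b3_U {a b ao : ℤ} {s : ℕ} (hs : s ≠ 0) (has : a = 2 ^ s * ao) (hao : 3 ≤ ao)
    (hoo : ¬ (2 : ℤ) ∣ ao) (hb : 1 < b) (hbo : ¬ (2 : ℤ) ∣ b) :
    SEq6 (b3S a b) (PG (2 + 2 ^ s) (a - 2 ^ s) (2 * b - 1) 0) := by
  set q : ℤ := 2 ^ s with hq
  have hq2 : (2 : ℤ) ∣ q := dvd_pow_self 2 hs
  have q0 : 0 < q := by positivity
  have hqa : q * 3 ≤ a := by rw [has]; exact mul_le_mul_of_nonneg_left hao q0.le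
  have ha : 1 < a := by omega
  have hob : ¬ (2 : ℤ) ∣ ao * b := by
    intro h
    rcases Int.prime_two.dvd_or_dvd h with h | h
    · exact hoo h
    · exact hbo h
  obtain ⟨c, hc⟩ : ∃ c : ℤ, ao * b = 2 * c + 1 := ⟨(ao * b) / 2, by omega⟩
  obtain ⟨d, hd⟩ : (2 : ℤ) ∣ c * (c + 1) := (Int.even_mul_succ_self c).two_dvd
  -- `2 w = 1 - (a₀ b) ^ 2`
  set w : ℤ := -4 * d with hw
  have hw1 : 2 * w = 1 - (ao * b) * (ao * b) := by
    rw [hw, hc]; linear_combination (4 : ℤ) * hd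
  have s1 := b3_shear ha hb w
  refine s1.trans ?_
  have c1 : IsCoprime (2 * q) (ao * (b * b)) := by
    have e1 : 2 * q = 2 ^ (s + 1) := by rw [hq, pow_succ]; ring
    rw [e1]
    refine IsCoprime.pow_left ((Prime.coprime_iff_not_dvd Int.prime_two).2 fun h => ?_)
    rw [← mul_assoc] at h
    rcases Int.prime_two.dvd_or_dvd h with h | h
    · exact hob h
    · exact hbo h
  obtain ⟨α, β, hαβ⟩ := c1
  have e0 : cr ((1, 0) : Z2) (0, 1) = 1 := by simp [cr]
  have e1 : cr ((1, 0) : Z2) (q, 2 * q) = 2 * q := by simp [cr]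
  have e2 : cr ((1, 0) : Z2) (1, 2) = 2 := by simp [cr]
  have e3 : cr ((b, 0) : Z2) (1, 2) = 2 * b := by simp [cr]; ring
  set p : Z2 := (-(β * w) + α * a, -β) with hp
  have ep : cr p (q, 2 * q) = a := by
    show (-(β * w) + α * a) * (2 * q) - -β * q = a
    have h5 : q * (1 - 2 * w) = a * (ao * (b * b)) := by rw [hw1, has]; ring
    linear_combination a * hαβ + β * h5
  have hL : lat (q, 2 * q) p = Ld (w, 1) a := by
    have e4 : cr ((a, 0) : Z2) (w, 1) = a := by simp [cr]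
    have e5 : lat (w, 1) (a, 0) = Ld (w, 1) a := by
      rw [lat_eq_Ld (l := (w, 1)) isCoprime_one_right, e4]
    rw [← e5]
    refine closure_pair_eq (α := 2 * q) (β := ao * (b * b)) (γ := -β) (δ := α) ?_ ?_
      (Or.inl (by linear_combination hαβ))
    · ext
      · simp only [Prod.fst_add, Prod.smul_fst, smul_eq_mul]
        have h5 : q * (1 - 2 * w) = a * (ao * (b * b)) := by rw [hw1, has]; ring
        linear_combination h5
      · simp only [Prod.snd_add, Prod.smul_snd, smul_eq_mul]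
        ring
    · ext
      · simp only [hp, Prod.fst_add, Prod.smul_fst, smul_eq_mul]
        ring
      · simp only [hp, Prod.snd_add, Prod.smul_snd, smul_eq_mul]
        ring
  have hM : lat ((1, 2) : Z2) (b, 0) = lat (b, 0) (2 * w, 2) := by
    refine closure_pair_eq (α := ao * (ao * b)) (β := 1) (γ := 1) (δ := 0) ?_ ?_
      (Or.inr (by ring))
    · ext
      · simp only [Prod.fst_add, Prod.smul_fst, smul_eq_mul]
        linear_combination (-1 : ℤ) * hw1
      · simp only [Prod.snd_add, Prod.smul_snd, smul_eq_mul]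
        ring
    · module
  have f0 : cr ((2 + q, 3 + 2 * q) : Z2) (0, 1) = 2 + q := by simp [cr]
  have f1 : cr ((2 + q, 3 + 2 * q) : Z2) (q, 2 * q) = q := by
    show (2 + q) * (2 * q) - (3 + 2 * q) * q = q
    ring
  have f2 : cr ((2 + q, 3 + 2 * q) : Z2) (1, 2) = 1 := by
    show (2 + q) * 2 - (3 + 2 * q) * 1 = 1
    ring
  have s2 := SEq6.pencil (u := (1, 0)) (v := (0, 1)) (u' := (2 + q, 3 + 2 * q)) (v' := (0, 1))
    (l := (q, 2 * q)) (p := p) (m := (1, 2)) (p' := (b, 0)) (by rw [e0]; norm_num) hL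
    (by rw [e1]; linarith) (by rw [e1, ep]; linarith) hM (by rw [e2]; norm_num)
    (by rw [e2, e3]; linarith) (by rw [f0]; linarith) (by rw [f1]; exact q0)
    (by rw [f2]; norm_num)
    (by
      refine closure_pair_eq (α := 1) (β := -1) (γ := 0) (δ := 1) ?_ ?_ (Or.inl (by ring))
      · ext
        · simp only [Prod.fst_add, Prod.smul_fst, smul_eq_mul]; ring
        · simp only [Prod.snd_add, Prod.smul_snd, smul_eq_mul]; ring
      · module)
  refine s2.trans ?_
  have g1 : cr (p + ((2 + q, 3 + 2 * q) - (1, 0))) (q, 2 * q) = a - q := by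
    rw [cr_add_left, cr_sub_left, ep, f1, e1]; ring
  have g2 : cr (((b, 0) : Z2) + ((2 + q, 3 + 2 * q) - (1, 0))) (1, 2) = 2 * b - 1 := by
    rw [cr_add_left, cr_sub_left, e3, f2, e2]; ring
  have g3 : ¬ (2 : ℤ) ∣ cr (2 + q, 3 + 2 * q) (p + ((2 + q, 3 + 2 * q) - (1, 0))) := by
    have e : cr ((2 + q, 3 + 2 * q) : Z2) (p + ((2 + q, 3 + 2 * q) - (1, 0))) =
        (2 + q) * (-β + (3 + 2 * q - 0)) -
          (3 + 2 * q) * (-(β * w) + α * a + (2 + q - 1)) := rfl
    rw [e]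
    obtain ⟨q1, hq1⟩ := hq2
    have ha2 : a = 2 * (q1 * ao) := by rw [has, hq1]; ring
    rintro ⟨n, hn⟩
    rw [hq1, ha2, hw] at hn
    have : 2 * ((1 + q1) * (-β + (3 + 4 * q1)) - (3 + 4 * q1) *
        (2 * β * d + α * (q1 * ao) + q1) - 2 * q1 - 1 - n) = 1 := by
      linear_combination hn
    omega
  have g4 : IsCoprime (cr ((2 + q, 3 + 2 * q) : Z2) (q, 2 * q))
      (cr (2 + q, 3 + 2 * q) (p + ((2 + q, 3 + 2 * q) - (1, 0)))) := by
    rw [f1, hq]
    exact IsCoprime.pow_left ((Prime.coprime_iff_not_dvd Int.prime_two).2 g3)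
  obtain ⟨l0, h1, h2, h3⟩ := exists_gen g1 g4
  have cm : IsCoprime ((1, 2) : Z2).1 ((1, 2) : Z2).2 := isCoprime_one_left
  have hS : (⟨lat (q, 2 * q) (p + ((2 + q, 3 + 2 * q) - (1, 0))),
      lat (1, 2) ((b, 0) + ((2 + q, 3 + 2 * q) - (1, 0))), (2 + q, 3 + 2 * q), (0, 1)⟩ : St6) =
      GS (2 + q, 3 + 2 * q) (0, 1) l0 (1, 2) (a - q) (2 * b - 1) := by
    rw [h3, lat_eq_Ld (l := (1, 2)) cm, g2]
    rfl
  have hok := s2.ok'
  rw [hS] at hok ⊢
  -- `(1, 2)` lies in both lattices, up to powers of two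
  have h4 : a - q ∣ q * cr (1, 2) l0 := by
    have h5 : ((q, 2 * q) : Z2) ∈ Ld l0 (a - q) := by
      rw [← h3]
      exact mem_lat.2 ⟨1, 0, by simp⟩
    have h6 : cr (q, 2 * q) l0 = q * cr (1, 2) l0 := by
      simp only [cr]; ring
    rw [← h6]
    exact h5
  have hz : (Int.gcd (a - q) (2 * b - 1) : ℤ) ∣
      0 * (cr (2 + q, 3 + 2 * q) l0 * cr (2 + q, 3 + 2 * q) (1, 2)) + cr l0 (1, 2) := by
    rw [zero_mul, zero_add, cr_swap, dvd_neg]
    have h5 : (Int.gcd (a - q) (2 * b - 1) : ℤ) ∣ q * cr (1, 2) l0 :=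
      (Int.gcd_dvd_left _ _).trans h4
    refine IsCoprime.dvd_of_dvd_mul_left ?_ h5
    have h6 : (Int.gcd (a - q) (2 * b - 1) : ℤ) ∣ 2 * b - 1 := Int.gcd_dvd_right _ _
    have h7 : IsCoprime (2 * b - 1) q := by
      rw [hq]
      exact IsCoprime.pow_right ((Prime.coprime_iff_not_dvd Int.prime_two).2 (by omega)).symm
    exact h7.of_isCoprime_of_dvd_left h6
  have s3 := GS.gen' hok (cop_of_cr_left f2) (by rw [h1]; exact isCoprime_one_left)
    (by rw [f2]; exact isCoprime_one_left) hz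
  rw [f0] at s3
  exact s3

/-- **(B3), `b` odd** -/
theorem b3odd (hB : Bg N J Z) {a b : ℤ} (ha : 1 < a) (h2 : (2 : ℤ) ∣ a) (hb : 1 < b)
    (hbo : ¬ (2 : ℤ) ∣ b) (hN : 1 + a + 2 * b = N) :
    ∃ A' a' a1' : ℤ, Gd N A' a' a1' ∧
      SEq6 ⟨Ld (0, 1) a, lat (b, 0) (0, 2), (1, 0), (0, 1)⟩ (PG A' a' a1' 0) := by
  suffices h : ∃ A a0 a1 : ℤ, 0 < A ∧ 1 < a0 ∧ 1 < a1 ∧ A + a0 + a1 = N ∧ a0 ≠ a1 ∧
      ¬ (2 : ℤ) ∣ a1 ∧ SEq6 (b3S a b) (PG A a0 a1 0) by
    obtain ⟨A, a0, a1, h1, h3, h4, h5, h6, h7, h8⟩ := h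
    obtain ⟨A', a', a1', h9, h10⟩ := b1 hB h1 h3 h4 h5 h6 (fun h => h7 h.2.2)
    exact ⟨A', a', a1', h9, h8.trans h10⟩
  obtain ⟨s, m, hm, hsm⟩ := Nat.exists_eq_two_pow_mul_odd (n := a.toNat) (by omega)
  have has : a = 2 ^ s * (m : ℤ) := by
    have h3 : (a.toNat : ℤ) = a := Int.toNat_of_nonneg (by omega)
    rw [← h3, hsm]
    push_cast
    ring
  have hmo : ¬ (2 : ℤ) ∣ (m : ℤ) := by
    intro h
    have h3 : 2 ∣ m := by exact_mod_cast h
    exact (Nat.not_even_iff_odd.2 hm) (even_iff_two_dvd.2 h3)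
  have hs : s ≠ 0 := by
    rintro rfl
    rw [pow_zero, one_mul] at has
    rw [has] at h2
    exact hmo h2
  have hq2 : (2 : ℤ) ∣ 2 ^ s := dvd_pow_self 2 hs
  have hq0 : (0 : ℤ) < 2 ^ s := by positivity
  by_cases hm3 : 3 ≤ m
  · -- U
    have hm3' : (3 : ℤ) ≤ (m : ℤ) := by exact_mod_cast hm3
    have hqa : (2 : ℤ) ^ s * 3 ≤ a := by
      rw [has]; exact mul_le_mul_of_nonneg_left hm3' hq0.le
    refine ⟨2 + 2 ^ s, a - 2 ^ s, 2 * b - 1, by linarith, by omega, by linarith, by linarith,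
      by omega, by omega, b3_U hs has hm3' hmo hb hbo⟩
  · have hm1 : m = 1 := by
      have h3 : m ≠ 2 := by
        rintro rfl
        exact hmo (by norm_num)
      have h4 : m ≠ 0 := by
        rintro rfl
        exact hmo (by norm_num)
      omega
    rw [hm1, Nat.cast_one, mul_one] at has
    by_cases hbJ : 2 * (J : ℤ) + 4 ≤ b
    · -- P2
      obtain ⟨e, e1, e2, e3, e4⟩ := b3_P2 hB ha h2 hbo (by
        rw [has]
        exact IsCoprime.pow_left ((Prime.coprime_iff_not_dvd Int.prime_two).2 hbo)) hbJ hN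
      exact ⟨e + 3, a + e - 1, 2 * (b - e) - 1, by linarith, by linarith, by linarith,
        by linarith, by omega, by omega, e4⟩
    · -- P1
      have haJ : 4 * (J : ℤ) + 20 ≤ a := by
        by_contra hcon
        have h3 := hB.pw (n := 2) (by norm_num)
        have h4 := hB.J20
        have h5 : (2 : ℤ) ^ 20 * J ≤ (J : ℤ) ^ 2 := by
          rw [pow_two]; exact mul_le_mul_of_nonneg_right h4 (by positivity)
        have h6 : N < 8 * (J : ℤ) + 29 := by linarith
        norm_num at h4 h5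
        linarith
      obtain ⟨l1, e1, e2, e3, e4⟩ := b3_P1 hB has hb hbo haJ hN
      exact ⟨l1 + 4, a - l1 - 2, 2 * b - 1, by linarith, by linarith, by linarith,
        by linarith, by omega, by omega, e4⟩

end Pool.Agent.H4G.Six
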