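import Pool.Agent.H4G.Six.Can.Ev3

/-!
# All even good states are equivalent (helper19)
-/

set_option autoImplicit false

namespace Pool.Agent.H4G.Six

open Pool.Agent.H4G

variable {N : ℤ} {J Z : ℕ}

/-- `gcd = 2` for the two parts of an even number -/
theorem g2_of_cop {y M : ℤ} (h : IsCoprime y M) : G2 (2 * y) (2 * M - 2 * y) := by
  rw [g2_iff]
  have e : 2 * M - 2 * y = 2 * (M - y) := by ring
  rw [e, Int.gcd_mul_left]
  have h1 : IsCoprime y (M - y) := by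
    obtain ⟨x, w, hxw⟩ := h
    exact ⟨x + w, w, by linear_combination hxw⟩
  rw [Int.isCoprime_iff_gcd_eq_one.1 h1]
  rfl

/-- the star of a hub -/
theorem hubE (hB : Bg N J Z) {a a1 b : ℤ} (h : 2 + a + a1 = N) (hg : G2 a a1)
    (hgb : G2 b (N - 4 - b)) (pa : 0 < a) (pa1 : 0 < a1) (pb : 0 < b)
    (c1 : 3 * b + 6 + 2 * (J : ℤ) ^ 3 ≤ 4 * a) (c2 : 4 * a ≤ N + 3 * b - 1 - 2 * (J : ℤ) ^ 3)
    (c3 : 2 * (J : ℤ) ^ 3 + 2 ≤ b) (c4 : b + 5 + 2 * (J : ℤ) ^ 3 ≤ N) :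
    SEq6 (PG 2 a a1 1) (PG 4 b (N - 4 - b) 1) := by
  have hJ := hB.J1
  have hJ3 : 1 ≤ (J : ℤ) ^ 3 := one_le_pow₀ hJ
  obtain ⟨x, hx⟩ := hg.e
  obtain ⟨y, hy⟩ := hgb.e
  obtain ⟨H, hH⟩ : ∃ H, H = y - x := ⟨_, rfl⟩
  have e2 : IsCoprime (1 + (b - a)) (4 - 3 : ℤ) := by
    rw [show (4 - 3 : ℤ) = 1 by norm_num]
    exact isCoprime_one_right
  rcases le_or_gt a b with hle | hle
  · exact yEdge2 hB (t0 := 3 * H + 3) (B := 4) (H := b - a) (by norm_num) (le_refl _)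
      ⟨H, by linarith⟩ e2 (by ring) (by linarith) h pa pa1 pb (by linarith) hg hgb
      (by norm_num) (by linarith) (by linarith) (by linarith) (by linarith)
      (by linarith) (by linarith)
  · exact yEdge2 hB (t0 := -H + 1) (B := 4) (H := b - a) (by norm_num) (le_refl _)
      ⟨H, by linarith⟩ e2 (by ring) (by linarith) h pa pa1 pb (by linarith) hg hgb
      (by norm_num) (by linarith) (by linarith) (by linarith) (by linarith)
      (by linarith) (by linarith)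

theorem levelE (hB : Bg N J Z) (hN : Even N) : ∃ b : ℤ, ∀ a a1 : ℤ, L2 N J a a1 →
    SEq6 (PG 2 a a1 1) (PG 4 b (N - 4 - b) 1) := by
  obtain ⟨s1, s2, s3, s4⟩ := hB.sizes
  have hp3 := hB.pows 3
  have hp2 := hB.pows 2
  have hp4 : (J : ℤ) ^ 4 ≤ (J : ℤ) ^ 9 := pow_le_pow_right₀ hB.J1 (by norm_num)
  norm_num at hp3 hp2
  have hJ3 : 1 ≤ (J : ℤ) ^ 3 := by linarith
  obtain ⟨n, hn⟩ := hN
  -- the three hubs
  have hub : ∀ z0 : ℤ, ∃ b : ℤ, 2 * z0 ≤ b ∧ b < 2 * z0 + 2 * J ∧ G2 b (N - 4 - b) := by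
    intro z0
    obtain ⟨y, y1, y2, y3⟩ := exists_cop hB (D := n - 2) (by linarith) (n := 1)
      (by norm_num) (by rw [pow_one]; linarith) z0
    refine ⟨2 * y, by linarith, by linarith, ?_⟩
    have e : N - 4 - 2 * y = 2 * (n - 2) - 2 * y := by rw [hn]; ring
    rw [e]; exact g2_of_cop y3
  have lev : ∀ z0 : ℤ, ∃ a : ℤ, 2 * z0 ≤ a ∧ a < 2 * z0 + 2 * J ∧ G2 a (N - 2 - a) := by
    intro z0
    obtain ⟨y, y1, y2, y3⟩ := exists_cop hB (D := n - 1) (by linarith) (n := 1)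
      (by norm_num) (by rw [pow_one]; linarith) z0
    refine ⟨2 * y, by linarith, by linarith, ?_⟩
    have e : N - 2 - 2 * y = 2 * (n - 1) - 2 * y := by rw [hn]; ring
    rw [e]; exact g2_of_cop y3
  obtain ⟨q, hq, hq'⟩ : ∃ q : ℤ, 8 * q ≤ N ∧ N < 8 * q + 8 := ⟨N / 8, by omega, by omega⟩
  obtain ⟨r, hr, hr'⟩ : ∃ r : ℤ, 4 * r ≤ N ∧ N < 4 * r + 4 := ⟨N / 4, by omega, by omega⟩
  obtain ⟨b0, h1, h2, h3⟩ := hub (2 * (J : ℤ) ^ 3)
  obtain ⟨b1, g1, g2, g3⟩ := hub q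
  obtain ⟨b2, f1, f2, f3⟩ := hub r
  -- the stars
  have star0 : ∀ a a1 : ℤ, 2 + a + a1 = N → G2 a a1 → (J : ℤ) ^ 4 ≤ a → 4 * a ≤ N →
      SEq6 (PG 2 a a1 1) (PG 4 b0 (N - 4 - b0) 1) := by
    intro a a1 k1 k2 k3 k4
    exact hubE hB k1 k2 h3 (by linarith) (by linarith) (by linarith) (by linarith)
      (by linarith) (by linarith) (by linarith)
  have star1 : ∀ a a1 : ℤ, 2 + a + a1 = N → G2 a a1 → N ≤ 5 * a → 100 * a ≤ 42 * N →
      SEq6 (PG 2 a a1 1) (PG 4 b1 (N - 4 - b1) 1) := by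
    intro a a1 k1 k2 k3 k4
    exact hubE hB k1 k2 g3 (by linarith) (by linarith) (by linarith) (by linarith)
      (by linarith) (by linarith) (by linarith)
  have star2 : ∀ a a1 : ℤ, 2 + a + a1 = N → G2 a a1 → 40 * N ≤ 100 * a → 2 * a ≤ N →
      SEq6 (PG 2 a a1 1) (PG 4 b2 (N - 4 - b2) 1) := by
    intro a a1 k1 k2 k3 k4
    exact hubE hB k1 k2 f3 (by linarith) (by linarith) (by linarith) (by linarith)
      (by linarith) (by linarith) (by linarith)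
  -- the connections of the hubs
  have conn1 : SEq6 (PG 4 b1 (N - 4 - b1) 1) (PG 4 b0 (N - 4 - b0) 1) := by
    obtain ⟨a, a1, a2, a3⟩ := lev (N / 10 + 1)
    have t0 := star0 a (N - 2 - a) (by ring) a3 (by omega) (by omega)
    have t1 := star1 a (N - 2 - a) (by ring) a3 (by omega) (by omega)
    exact t1.symm.trans t0
  have conn2 : SEq6 (PG 4 b2 (N - 4 - b2) 1) (PG 4 b1 (N - 4 - b1) 1) := by
    obtain ⟨a, a1, a2, a3⟩ := lev (N / 5 + 1)
    have t0 := star1 a (N - 2 - a) (by ring) a3 (by omega) (by omega)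
    have t1 := star2 a (N - 2 - a) (by ring) a3 (by omega) (by omega)
    exact t1.symm.trans t0
  have main : ∀ a a1 : ℤ, 2 + a + a1 = N → G2 a a1 → (J : ℤ) ^ 4 ≤ a → 2 * a ≤ N →
      SEq6 (PG 2 a a1 1) (PG 4 b0 (N - 4 - b0) 1) := by
    intro a a1 k1 k2 k3 k4
    by_cases h : 4 * a ≤ N
    · exact star0 a a1 k1 k2 k3 h
    · by_cases h' : 100 * a ≤ 42 * N
      · exact (star1 a a1 k1 k2 (by linarith) h').trans conn1
      · exact (star2 a a1 k1 k2 (by linarith) k4).trans (conn2.trans conn1)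
  refine ⟨b0, fun a a1 h => ?_⟩
  have hb := h.big
  have hb' := h.big'
  rcases le_total a a1 with hle | hle
  · exact main a a1 h.vol h.g (by linarith) (by linarith [h.vol])
  · refine (PG.swap two_pos (by linarith) (by linarith) (z' := 1) (h.g.dvd (by norm_num))).trans ?_
    exact main a1 a (by linarith [h.vol]) h.g.swap (by linarith) (by linarith [h.vol])

/-- **CANONICAL FORM, even good states** -/
theorem canE (hB : Bg N J Z) (hN : Even N) : ∃ b : ℤ, ∀ A a a1 : ℤ, GdE N A a a1 →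
    SEq6 (PG A a a1 1) (PG 4 b (N - 4 - b) 1) := by
  obtain ⟨b, hb⟩ := levelE hB hN
  refine ⟨b, fun A a a1 h => ?_⟩
  obtain ⟨a', a1', h1, h2⟩ := redE hB h
  exact h2.trans (hb a' a1' h1)

/-- **two even good states of the same volume are equivalent** -/
theorem canE' (hB : Bg N J Z) {A a a1 A' a' a1' : ℤ} (h : GdE N A a a1)
    (h' : GdE N A' a' a1') : SEq6 (PG A a a1 1) (PG A' a' a1' 1) := by
  have hN : Even N := by
    rw [even_iff_two_dvd, ← h.vol]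
    exact dvd_add (dvd_add h.A2 h.g.e) h.g.e'
  obtain ⟨b, hb⟩ := canE hB hN
  exact (hb A a a1 h).trans (hb A' a' a1' h').symm

end Pool.Agent.H4G.Six
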