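import Pool.Agent.H4G.Six.Can.B4Loc
import Pool.Agent.H4G.Six.Can.Ev4

/-!
# (B4): `A = 1`, `a` odd, `M = ⟨(2 β, 0), (0, 2)⟩` is equivalent to an even good state (helper24)
-/

set_option autoImplicit false

namespace Pool.Agent.H4G.Six

open Pool.Agent.H4G

variable {N : ℤ} {J Z : ℕ}

/-- facts on the gcd -/
theorem b4_gcd {a β : ℤ} (ha : 1 < a) (hβ : 0 < β) (ha2 : ¬ (2 : ℤ) ∣ a) :
    ∃ g : ℤ, (Int.gcd a β : ℤ) = g ∧ 0 < g ∧ g ∣ a ∧ g ∣ β ∧ g ≤ a ∧ g ≤ β ∧ ¬ (2 : ℤ) ∣ g ∧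
      ∀ p : ℕ, (p : ℤ) ∣ a → (p : ℤ) ∣ β → (p : ℤ) ∣ g := by
  have h1 : (Int.gcd a β : ℤ) ∣ a := Int.gcd_dvd_left ..
  have h2 : (Int.gcd a β : ℤ) ∣ β := Int.gcd_dvd_right ..
  have h0 : 0 < (Int.gcd a β : ℤ) := by
    have : 0 < Int.gcd a β := Int.gcd_pos_of_ne_zero_left _ (by linarith)
    exact_mod_cast this
  exact ⟨_, rfl, h0, h1, h2, Int.le_of_dvd (by linarith) h1, Int.le_of_dvd hβ h2,
    fun h => ha2 (h.trans h1), fun p h3 h4 => Int.dvd_coe_gcd h3 h4⟩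

/-- the sizes of the powers of `J` -/
theorem Bg.b4 (hB : Bg N J Z) : 100 * (J : ℤ) ≤ (J : ℤ) ^ 2 ∧ 100 * (J : ℤ) ^ 2 ≤ (J : ℤ) ^ 3 ∧
    100 * (J : ℤ) ^ 3 ≤ (J : ℤ) ^ 4 ∧ 100 * (J : ℤ) ^ 4 ≤ (J : ℤ) ^ 6 ∧
    100 * (J : ℤ) ^ 6 ≤ (J : ℤ) ^ 7 ∧ 100 * (J : ℤ) ^ 7 ≤ N := by
  have h1 := hB.pows 1
  have h2 := hB.pows 2
  have h3 := hB.pows 3
  have h4 := hB.pows 4
  have h5 := hB.pows 5
  have h6 := hB.pows 6
  have h7 := hB.pows 7
  have h8 := hB.pw (n := 8) (by norm_num)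
  have h0 : (0 : ℤ) ≤ (J : ℤ) ^ 5 := by positivity
  norm_num at h1 h2 h3 h4 h5 h6 h7
  exact ⟨h1, h2, h3, by linarith, h6, by linarith⟩

/-- both numbers are large -/
theorem b4_big (hB : Bg N J Z) {a β : ℤ} (ha2 : ¬ (2 : ℤ) ∣ a) (hN : 1 + a + 4 * β = N)
    (s1 : 7 * (J : ℤ) ^ 2 ≤ a) (s2 : 3 * (J : ℤ) ^ 3 ≤ β) :
    ∃ A' a' a1' : ℤ, GdE N A' a' a1' ∧ SEq6 (b4S a β) (PG A' a' a1' 1) := by
  obtain ⟨z1, z2, z3, z4, z5, z6⟩ := hB.b4
  have hJ := hB.J20
  have ha : 1 < a := by linarith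
  have hβ : 0 < β := by linarith
  obtain ⟨h, hg, h0, ga, gb, hla, hlb, hh2, hgp⟩ := b4_gcd ha hβ ha2
  obtain ⟨a0, ha0⟩ : ∃ a0, a = 2 * a0 + 1 := ⟨a / 2, by omega⟩
  obtain ⟨a2, ha2'⟩ : ∃ a2, a2 = a0 + h := ⟨_, rfl⟩
  have pa2 : 0 < a2 := by linarith
  -- the choice of `μ`
  obtain ⟨μ, m1, m2, m3⟩ := sieveP (k := 2) (e := 1) hB.cap (D0 := h * a2) (by positivity)
    (by
      refine hB.le (n := 1 + 1) (by norm_num) (mul_le_pow2 pa2 ?_ ?_ (by linarith)) <;>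
      · rw [pow_one]; linarith) (by norm_num)
    ![fun p => p ∣ h, fun p => p ∣ a2] ![1, -1] ![0, 2 * β - h]
    (by
      intro p _ i hi
      fin_cases i
      · exact Dvd.dvd.mul_right hi _
      · exact Dvd.dvd.mul_left hi _)
    (by
      intro p hp
      by_cases ph : (p : ℤ) ∣ h
      · refine ⟨1, fun i hi => ?_⟩
        fin_cases i
        · intro h1
          have h2 : (p : ℤ) ∣ 1 * 1 + 0 := h1
          exact prime_not_dvd_one hp (by simpa using h2)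
        · exfalso
          have h1 : (p : ℤ) ∣ a2 := hi
          apply prime_not_dvd_one hp
          have e : (1 : ℤ) = a - 2 * a2 + 2 * h := by rw [ha2', ha0]; ring
          rw [e]
          exact dvd_add (dvd_sub (ph.trans ga) (h1.mul_left _)) (ph.mul_left _)
      · refine ⟨2 * β - h + 1, fun i hi => ?_⟩
        fin_cases i
        · exact (ph hi).elim
        · intro h1
          have h2 : (p : ℤ) ∣ (-1) * (2 * β - h + 1) + (2 * β - h) := h1
          rw [show (-1) * (2 * β - h + 1) + (2 * β - h) = -1 by ring, dvd_neg] at h2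
          exact prime_not_dvd_one hp h2) 3
  rw [pow_one] at m2
  have q0 : ∀ p : ℕ, p.Prime → (p : ℤ) ∣ h → ¬ (p : ℤ) ∣ μ := by
    intro p hp hd h1
    refine m3 p hp 0 hd ?_
    show (p : ℤ) ∣ 1 * μ + 0
    rw [one_mul, add_zero]; exact h1
  obtain ⟨B, hBd⟩ : ∃ B, B = 2 * β - μ - h := ⟨_, rfl⟩
  have q1 : ∀ p : ℕ, p.Prime → (p : ℤ) ∣ a2 → ¬ (p : ℤ) ∣ B := by
    intro p hp hd h1
    refine m3 p hp 1 hd ?_
    show (p : ℤ) ∣ (-1) * μ + (2 * β - h)
    rw [show (-1) * μ + (2 * β - h) = B by rw [hBd]; ring]; exact h1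
  have hμh : IsCoprime μ h := isCoprime_of_prime fun p hp h1 => q0 p hp h1
  have pB : 0 < B := by linarith
  obtain ⟨a', ha'⟩ : ∃ a', a' = a - 1 + 2 * h := ⟨_, rfl⟩
  have ha'2 : a' = 2 * a2 := by rw [ha', ha0, ha2']; ring
  have pa' : 0 < a' := by linarith
  -- the start of the window of `i`
  obtain ⟨q, hq⟩ : ∃ q, q = 2 * h / μ := ⟨_, rfl⟩
  have hq0 : 0 ≤ q := by rw [hq]; exact Int.ediv_nonneg (by linarith) (by linarith)
  have hq1 : μ * q ≤ 2 * h := by rw [hq]; exact Int.mul_ediv_self_le (by linarith)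
  have hq2 : 2 * h < μ * q + μ := by rw [hq]; exact Int.lt_mul_ediv_self_add (by linarith)
  have hq3 : 3 * q ≤ μ * q := mul_le_mul_of_nonneg_right m1 hq0
  have pD : 0 < a * β * ((1 + μ) * a') * B := by
    have : 0 < 1 + μ := by linarith
    positivity
  have hsz : a * β * ((1 + μ) * a') * B ≤ (Z : ℤ) := by
    refine hB.le (n := 1 + 1 + (1 + 1) + 1) (by norm_num) ?_
    refine mul_le_pow2 pB (mul_le_pow2 (by nlinarith) (mul_le_pow2 hβ ?_ ?_ (by linarith))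
      (mul_le_pow2 pa' ?_ ?_ (by linarith)) (by linarith)) ?_ (by linarith) <;>
    · rw [pow_one]; linarith
  obtain ⟨i, k1, k2, k3', k3⟩ := sieveQ (k := 4) (e := 2) hB.cap
    (D0 := a * β * ((1 + μ) * a') * B) pD hsz (by norm_num)
    ![fun p => p ∣ a, fun p => p ∣ β, fun p => p ∣ (1 + μ) * a', fun p => p ∣ B ∧ ¬ p ∣ 2]
    ![1, μ, 1, μ] ![0, -h, 2 * h - 1, -(μ + 2 * h)] (m := 2) (by norm_num) 0
    (by
      intro p _ i hi
      fin_cases i
      · have h1 : (p : ℤ) ∣ a := hi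
        exact ((h1.mul_right _).mul_right _).mul_right _
      · have h1 : (p : ℤ) ∣ β := hi
        exact ((h1.mul_left _).mul_right _).mul_right _
      · have h1 : (p : ℤ) ∣ (1 + μ) * a' := hi
        exact (h1.mul_left _).mul_right _
      · have h1 : (p : ℤ) ∣ B := hi.1
        exact h1.mul_left _)
    (by
      intro p hp hp2
      have hp2' : p ≠ 2 := by
        rintro rfl
        exact hp2 (by norm_num)
      obtain ⟨y, y1, y2, y3, y4⟩ := b4_loc1 hp hp2' (hgp p) hμh ha' hBd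
      refine ⟨y, fun i hi => ?_⟩
      fin_cases i
      · intro h1
        have h2 : (p : ℤ) ∣ 1 * y + 0 := h1
        rw [one_mul, add_zero] at h2
        exact y1 hi h2
      · intro h1
        have h2 : (p : ℤ) ∣ μ * y + -h := h1
        rw [← sub_eq_add_neg] at h2
        exact y2 hi h2
      · intro h1
        have h2 : (p : ℤ) ∣ 1 * y + (2 * h - 1) := h1
        rw [one_mul] at h2
        exact y3 hi h2
      · intro h1
        have h2 : (p : ℤ) ∣ μ * y + -(μ + 2 * h) := h1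
        rw [← sub_eq_add_neg] at h2
        exact y4 hi.1 h2)
    (by
      intro p hp hp2 i hi
      have e2 : p = 2 := by
        rcases two_or_odd hp with h1 | h1
        · exact h1
        · exact absurd hp2 h1.2
      subst e2
      fin_cases i
      · exact (ha2 (by exact_mod_cast hi)).elim
      · intro h1
        have h2 : (2 : ℤ) ∣ μ * 0 + -h := by exact_mod_cast h1
        rw [mul_zero, zero_add, dvd_neg] at h2
        exact hh2 h2
      · intro h1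
        have h2 : (2 : ℤ) ∣ 1 * 0 + (2 * h - 1) := by exact_mod_cast h1
        omega
      · exact (hi.2 hp2).elim) (q + 2)
  rw [sub_zero] at k3'
  have r0 : ∀ p : ℕ, p.Prime → (p : ℤ) ∣ a → ¬ (p : ℤ) ∣ i := by
    intro p hp hd h1
    refine k3 p hp 0 hd ?_
    show (p : ℤ) ∣ 1 * i + 0
    rw [one_mul, add_zero]; exact h1
  have r1 : ∀ p : ℕ, p.Prime → (p : ℤ) ∣ β → ¬ (p : ℤ) ∣ i * μ - h := by
    intro p hp hd h1
    refine k3 p hp 1 hd ?_
    show (p : ℤ) ∣ μ * i + -h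
    rw [show μ * i + -h = i * μ - h by ring]; exact h1
  have r2 : ∀ p : ℕ, p.Prime → (p : ℤ) ∣ (1 + μ) * a' → ¬ (p : ℤ) ∣ i + (2 * h - 1) := by
    intro p hp hd h1
    refine k3 p hp 2 hd ?_
    show (p : ℤ) ∣ 1 * i + (2 * h - 1)
    rw [one_mul]; exact h1
  have r3 : ∀ p : ℕ, p.Prime → ¬ (p : ℤ) ∣ 2 → (p : ℤ) ∣ B → ¬ (p : ℤ) ∣ i * μ - h - μ - h := by
    intro p hp h2 hd h1
    refine k3 p hp 3 ⟨hd, h2⟩ ?_
    show (p : ℤ) ∣ μ * i + -(μ + 2 * h)
    rw [show μ * i + -(μ + 2 * h) = i * μ - h - μ - h by ring]; exact h1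
  have u1 : (q + 1) * μ ≤ (i - 1) * μ := mul_le_mul_of_nonneg_right (by linarith) (by linarith)
  have u2 : i * μ ≤ (q + 2 + 2 * (J : ℤ) ^ 2) * μ :=
    mul_le_mul_of_nonneg_right (by linarith) (by linarith)
  have u3 : (2 + 2 * (J : ℤ) ^ 2) * μ ≤ (2 + 2 * (J : ℤ) ^ 2) * (3 + J) :=
    mul_le_mul_of_nonneg_left (by linarith) (by positivity)
  have u4 : (2 + 2 * (J : ℤ) ^ 2) * (3 + J) = 6 + 2 * J + 6 * (J : ℤ) ^ 2 + 2 * (J : ℤ) ^ 3 := by
    ring
  have u5 : (q + 2 + 2 * (J : ℤ) ^ 2) * μ = μ * q + (2 + 2 * (J : ℤ) ^ 2) * μ := by ring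
  have u6 : (i - 1) * μ = i * μ - μ := by ring
  have u7 : (q + 1) * μ = μ * q + μ := by ring
  have hG : G2 a' (2 * B) := by
    refine ⟨⟨a2, ha'2⟩, dvd_mul_right _ _, fun ⟨h3, h4⟩ => ?_, fun p hp h3 h4 h5 => ?_⟩
    · refine q1 2 Nat.prime_two ?_ ?_
      · push_cast; omega
      · push_cast; omega
    · have hp' := Nat.prime_iff_prime_int.1 hp
      rw [ha'2] at h4
      exact q1 p hp ((hp'.dvd_or_dvd h4).resolve_left h3) ((hp'.dvd_or_dvd h5).resolve_left h3)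
  refine ⟨1 + 1 + 2 * μ, a', 2 * B, ⟨by linarith, ⟨1 + μ, by ring⟩, pa', by linarith,
    by rw [ha', hBd]; linarith, hG, Or.inl (by linarith)⟩, ?_⟩
  refine b4_half (l1 := 1) (i := i) (μ := μ) (y := i * μ - h) (κ := -h) (i' := i - 1 - 2 * (-h))
    (U := i * μ - h - μ + (-h)) ha hβ ha2 (by ring) rfl (by rw [ha']; ring) (by rw [hBd]; ring)
    rfl rfl isCoprime_one_left ?_ ?_ ?_ ?_ (by linarith) (by linarith) (by linarith)
    (by linarith) (by linarith) (by linarith) (by linarith) ?_ ?_ ?_ (by norm_num) k3' hG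
  · exact isCoprime_of_prime fun p hp h1 => r0 p hp h1
  · refine isCoprime_of_prime fun p hp h1 h2 => q0 p hp ?_ h2
    have := dvd_sub (h2.mul_left i) h1
    rwa [sub_sub_cancel] at this
  · exact isCoprime_of_prime fun p hp h1 => r1 p hp h1
  · rw [hg, dvd_neg]
  · refine isCoprime_of_prime fun p hp h1 h2 => ?_
    rcases two_or_odd hp with rfl | ⟨_, h2'⟩
    · have : (2 : ℤ) ∣ 1 + i + 2 * (i * μ - h) := by exact_mod_cast h1
      omega
    · have hp' := Nat.prime_iff_prime_int.1 hp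
      have h3 : (p : ℤ) ∣ 1 + μ := by
        rw [show 1 + 1 + 2 * μ = 2 * (1 + μ) by ring] at h2
        exact (hp'.dvd_or_dvd h2).resolve_left h2'
      refine r2 p hp (h3.mul_right _) ?_
      rw [show i + (2 * h - 1) = (1 + μ) * (2 * i) - (1 + i + 2 * (i * μ - h)) by ring]
      exact dvd_sub (h3.mul_right _) h1
  · refine isCoprime_of_prime fun p hp h1 h2 => r2 p hp (h1.mul_left _) ?_
    rw [show i + (2 * h - 1) = i - 1 - 2 * (-h) by ring]; exact h2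
  · intro p hp h2 h1 h3
    refine r3 p hp h2 h1 ?_
    rw [show i * μ - h - μ - h = i * μ - h - μ + -h by ring]; exact h3

/-- `a` is small -/
theorem b4_smalla (hB : Bg N J Z) {a β : ℤ} (ha : 1 < a) (ha2 : ¬ (2 : ℤ) ∣ a)
    (hN : 1 + a + 4 * β = N) (s1 : a < 7 * (J : ℤ) ^ 2) :
    ∃ A' a' a1' : ℤ, GdE N A' a' a1' ∧ SEq6 (b4S a β) (PG A' a' a1' 1) := by
  obtain ⟨z1, z2, z3, z4, z5, z6⟩ := hB.b4
  have hJ := hB.J20
  have hβ : 0 < β := by linarith
  obtain ⟨g, hg, g0, ga, gb, hla, hlb, hg2, hgp⟩ := b4_gcd ha hβ ha2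
  have ha3 : 3 ≤ a := by omega
  obtain ⟨h, hh⟩ : ∃ h, h = g * (a - 2) := ⟨_, rfl⟩
  have h0 : 0 < h := by rw [hh]; exact mul_pos g0 (by linarith)
  have hh2 : ¬ (2 : ℤ) ∣ h := by
    intro h1
    rw [hh] at h1
    rcases Int.prime_two.dvd_or_dvd h1 with h2 | h2
    · exact hg2 h2
    · omega
  have hhle : h ≤ 49 * (J : ℤ) ^ 4 := by
    rw [hh]
    calc g * (a - 2) ≤ (7 * (J : ℤ) ^ 2) * (7 * (J : ℤ) ^ 2) := by
          apply mul_le_mul <;> linarith
      _ = 49 * (J : ℤ) ^ 4 := by ring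
  obtain ⟨a0, ha0⟩ : ∃ a0, a = 2 * a0 + 1 := ⟨a / 2, by omega⟩
  obtain ⟨a2, ha2'⟩ : ∃ a2, a2 = a0 + h := ⟨_, rfl⟩
  have pa2 : 0 < a2 := by linarith
  have p3 : 0 < 2 * β - 3 * h := by linarith
  have pD : 0 < h * β * (1 + 2 * h) * (2 * β - 3 * h) * a2 := by
    have : 0 < 1 + 2 * h := by linarith
    positivity
  have hsz : h * β * (1 + 2 * h) * (2 * β - 3 * h) * a2 ≤ (Z : ℤ) := by
    refine hB.le (n := 1 + 1 + 1 + 1 + 1) (by norm_num) ?_
    refine mul_le_pow2 pa2 (mul_le_pow2 p3 (mul_le_pow2 (by linarith) (mul_le_pow2 hβ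
      ?_ ?_ (by linarith)) ?_ (by linarith)) ?_ (by linarith)) ?_ (by linarith) <;>
    · rw [pow_one]; linarith
  obtain ⟨μ, m1, m2, m3⟩ := sieveP (k := 5) (e := 3) hB.cap
    (D0 := h * β * (1 + 2 * h) * (2 * β - 3 * h) * a2) pD hsz (by norm_num)
    ![fun p => p ∣ h, fun p => p ∣ β, fun p => p ∣ 1 + 2 * h, fun p => p ∣ 2 * β - 3 * h,
      fun p => p ∣ a2] ![1, 2, 1, 1, -1] ![0, -h, 1, -(2 * h), 2 * β - h]
    (by
      intro p _ i hi
      fin_cases i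
      · have h1 : (p : ℤ) ∣ h := hi
        exact (((h1.mul_right _).mul_right _).mul_right _).mul_right _
      · have h1 : (p : ℤ) ∣ β := hi
        exact (((h1.mul_left _).mul_right _).mul_right _).mul_right _
      · have h1 : (p : ℤ) ∣ 1 + 2 * h := hi
        exact ((h1.mul_left _).mul_right _).mul_right _
      · have h1 : (p : ℤ) ∣ 2 * β - 3 * h := hi
        exact (h1.mul_left _).mul_right _
      · have h1 : (p : ℤ) ∣ a2 := hi
        exact h1.mul_left _)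
    (by
      intro p hp
      obtain ⟨t, y1, y2, y3, y4, y5⟩ := b4_loc2 (β := β) (a2 := a2) hh2 hp
      refine ⟨t, fun i hi => ?_⟩
      fin_cases i
      · exact y1 hi
      · exact y2 hi
      · exact y3 hi
      · exact y4 hi
      · exact y5 hi) (2 * h + 1)
  obtain ⟨B, hBd⟩ : ∃ B, B = 2 * β - μ - h := ⟨_, rfl⟩
  have r0 : ∀ p : ℕ, p.Prime → (p : ℤ) ∣ h → ¬ (p : ℤ) ∣ μ := by
    intro p hp hd h1
    refine m3 p hp 0 hd ?_
    show (p : ℤ) ∣ 1 * μ + 0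
    rw [one_mul, add_zero]; exact h1
  have r1 : ∀ p : ℕ, p.Prime → (p : ℤ) ∣ β → ¬ (p : ℤ) ∣ 2 * μ - h := by
    intro p hp hd h1
    refine m3 p hp 1 hd ?_
    show (p : ℤ) ∣ 2 * μ + -h
    rw [← sub_eq_add_neg]; exact h1
  have r2 : ∀ p : ℕ, p.Prime → (p : ℤ) ∣ 1 + 2 * h → ¬ (p : ℤ) ∣ 1 + μ := by
    intro p hp hd h1
    refine m3 p hp 2 hd ?_
    show (p : ℤ) ∣ 1 * μ + 1
    rw [one_mul, add_comm]; exact h1
  have r3 : ∀ p : ℕ, p.Prime → (p : ℤ) ∣ 2 * β - 3 * h → ¬ (p : ℤ) ∣ μ - 2 * h := by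
    intro p hp hd h1
    refine m3 p hp 3 hd ?_
    show (p : ℤ) ∣ 1 * μ + -(2 * h)
    rw [one_mul, ← sub_eq_add_neg]; exact h1
  have r4 : ∀ p : ℕ, p.Prime → (p : ℤ) ∣ a2 → ¬ (p : ℤ) ∣ B := by
    intro p hp hd h1
    refine m3 p hp 4 hd ?_
    show (p : ℤ) ∣ (-1) * μ + (2 * β - h)
    rw [show (-1) * μ + (2 * β - h) = B by rw [hBd]; ring]; exact h1
  have pB : 0 < B := by linarith
  obtain ⟨a', ha'⟩ : ∃ a', a' = a - 1 + 2 * h := ⟨_, rfl⟩
  have ha'2 : a' = 2 * a2 := by rw [ha', ha0, ha2']; ring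
  have pa' : 0 < a' := by linarith
  have hG : G2 a' (2 * B) := by
    refine ⟨⟨a2, ha'2⟩, dvd_mul_right _ _, fun ⟨h3, h4⟩ => ?_, fun p hp h3 h4 h5 => ?_⟩
    · refine r4 2 Nat.prime_two ?_ ?_
      · push_cast; omega
      · push_cast; omega
    · have hp' := Nat.prime_iff_prime_int.1 hp
      rw [ha'2] at h4
      exact r4 p hp ((hp'.dvd_or_dvd h4).resolve_left h3) ((hp'.dvd_or_dvd h5).resolve_left h3)
  refine ⟨1 + 1 + 2 * μ, a', 2 * B, ⟨by linarith, ⟨1 + μ, by ring⟩, pa', by linarith,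
    by rw [ha', hBd]; linarith, hG, Or.inl (by linarith)⟩, ?_⟩
  refine b4_half (l1 := 1) (i := 2) (μ := μ) (y := 2 * μ - h) (κ := -h) (i' := 2 - 1 - 2 * (-h))
    (U := 2 * μ - h - μ + (-h)) ha hβ ha2 (by ring) rfl (by rw [ha']; ring) (by rw [hBd]; ring)
    rfl rfl isCoprime_one_left ?_ ?_ ?_ ?_ (by norm_num) (by linarith) (by linarith)
    (by linarith) (by linarith) (by linarith) (by linarith) ?_ ?_ ?_ (by norm_num) (dvd_refl _) hG
  · exact ⟨-a0, 1, by rw [ha0]; ring⟩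
  · refine isCoprime_of_prime fun p hp h1 h2 => r0 p hp ?_ h2
    have := dvd_sub (h2.mul_left 2) h1
    rwa [sub_sub_cancel] at this
  · exact isCoprime_of_prime fun p hp h1 => r1 p hp h1
  · rw [hg, dvd_neg, hh]; exact dvd_mul_right _ _
  · refine isCoprime_of_prime fun p hp h1 h2 => ?_
    rcases two_or_odd hp with rfl | ⟨_, h2'⟩
    · have : (2 : ℤ) ∣ 1 + 2 + 2 * (2 * μ - h) := by exact_mod_cast h1
      omega
    · have hp' := Nat.prime_iff_prime_int.1 hp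
      have h3 : (p : ℤ) ∣ 1 + μ := by
        rw [show 1 + 1 + 2 * μ = 2 * (1 + μ) by ring] at h2
        exact (hp'.dvd_or_dvd h2).resolve_left h2'
      refine r2 p hp ?_ h3
      rw [show 1 + 2 * h = (1 + μ) * 4 - (1 + 2 + 2 * (2 * μ - h)) by ring]
      exact dvd_sub (h3.mul_right _) h1
  · refine ⟨1 + 2 * g, -(2 * g), ?_⟩
    rw [ha', hh]; ring
  · intro p hp h2 h1 h3
    refine r3 p hp ?_ ?_
    · rw [show 2 * β - 3 * h = B + (2 * μ - h - μ + -h) by rw [hBd]; ring]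
      exact dvd_add h1 h3
    · rw [show μ - 2 * h = 2 * μ - h - μ + -h by ring]; exact h3

/-- `β` is small, `β ≥ 2` -/
theorem b4_smallb (hB : Bg N J Z) {a β : ℤ} (ha2 : ¬ (2 : ℤ) ∣ a) (hN : 1 + a + 4 * β = N)
    (hβ2 : 2 ≤ β) (s2 : β < 3 * (J : ℤ) ^ 3) :
    ∃ A' a' a1' : ℤ, GdE N A' a' a1' ∧ SEq6 (b4S a β) (PG A' a' a1' 1) := by
  obtain ⟨z1, z2, z3, z4, z5, z6⟩ := hB.b4
  have hJ := hB.J20
  have ha : 1 < a := by linarith
  have hβ : 0 < β := by linarith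
  obtain ⟨κ, hg, g0, ga, gb, hla, hlb, hg2, hgp⟩ := b4_gcd ha hβ ha2
  obtain ⟨y, hy⟩ : ∃ y, y = 2 * β - 1 := ⟨_, rfl⟩
  obtain ⟨U, hU⟩ : ∃ U, U = y - 1 + κ := ⟨_, rfl⟩
  obtain ⟨B, hBd⟩ : ∃ B, B = y + κ := ⟨_, rfl⟩
  obtain ⟨R, hR⟩ : ∃ R, R = (y - 1) * a - κ * (2 * y + 1) := ⟨_, rfl⟩
  have py : 3 ≤ y := by linarith
  have pU : 0 < U := by linarith
  have pB : 0 < B := by linarith
  have e6 : (3 * (J : ℤ) ^ 3) * (12 * (J : ℤ) ^ 3) = 36 * (J : ℤ) ^ 6 := by ring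
  have hκy : κ * (2 * y + 1) ≤ 36 * (J : ℤ) ^ 6 := by
    rw [← e6]
    apply mul_le_mul <;> linarith
  have hya : 2 * a ≤ (y - 1) * a := mul_le_mul_of_nonneg_right (by linarith) (by linarith)
  have pR : 0 < R := by linarith
  have hRN : R ≤ (2 * N) ^ 2 := by
    have h1 : (y - 1) * a ≤ N * N := by apply mul_le_mul <;> linarith
    have h2 : 0 ≤ κ * (2 * y + 1) := by
      have : 0 ≤ 2 * y + 1 := by linarith
      positivity
    have h3 := hB.N1
    nlinarith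
  have pD : 0 < κ * a * U * R * B := by positivity
  have hsz : κ * a * U * R * B ≤ (Z : ℤ) := by
    refine hB.le (n := 1 + 1 + 1 + 2 + 1) (by norm_num) ?_
    refine mul_le_pow2 pB (mul_le_pow2 pR (mul_le_pow2 pU (mul_le_pow2 (by linarith)
      ?_ ?_ (by linarith)) ?_ (by linarith)) hRN (by linarith)) ?_ (by linarith) <;>
    · rw [pow_one]; linarith
  obtain ⟨l, k1, k2, k3', k3⟩ := sieveQ (k := 5) (e := 3) hB.cap
    (D0 := κ * a * U * R * B) pD hsz (by norm_num)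
    ![fun p => p ∣ κ, fun p => p ∣ a, fun p => p ∣ U, fun p => p ∣ R ∧ ¬ p ∣ y - 1,
      fun p => ((p ∣ R ∧ p ∣ y - 1) ∨ p ∣ B) ∧ ¬ p ∣ 2]
    ![1, y, 1, y - 1, -1] ![0, -κ, 3, -(3 * κ), a - 2 * κ] (m := 4) (by norm_num) a
    (by
      intro p _ i hi
      fin_cases i
      · have h1 : (p : ℤ) ∣ κ := hi
        exact (((h1.mul_right _).mul_right _).mul_right _).mul_right _
      · have h1 : (p : ℤ) ∣ a := hi
        exact (((h1.mul_left _).mul_right _).mul_right _).mul_right _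
      · have h1 : (p : ℤ) ∣ U := hi
        exact ((h1.mul_left _).mul_right _).mul_right _
      · have h1 : (p : ℤ) ∣ R := hi.1
        exact (h1.mul_left _).mul_right _
      · rcases hi.1 with h1 | h1
        · have h2 : (p : ℤ) ∣ R := h1.1
          exact (h2.mul_left _).mul_right _
        · have h2 : (p : ℤ) ∣ B := h1
          exact h2.mul_left _)
    (by
      intro p hp hp4
      have hp2' : p ≠ 2 := by
        rintro rfl
        exact hp4 (by norm_num)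
      obtain ⟨t, y1, y2, y3, y4, y5⟩ := b4_loc3 hy hU hBd hR hp hp2' (fun h1 => h1.trans gb)
      refine ⟨t, fun i hi => ?_⟩
      fin_cases i
      · exact y1 hi
      · exact y2 hi
      · exact y3 hi
      · exact y4 hi
      · exact y5 hi.1)
    (by
      intro p hp hp4 i hi
      have hp2 : (p : ℤ) ∣ 2 := by
        have h22 : (4 : ℤ) = 2 * 2 := by norm_num
        rw [h22] at hp4
        rcases (Nat.prime_iff_prime_int.1 hp).dvd_or_dvd hp4 with h' | h' <;> exact h'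
      have e2 : p = 2 := by
        rcases two_or_odd hp with h1 | h1
        · exact h1
        · exact absurd hp2 h1.2
      subst e2
      fin_cases i
      · exact (hg2 (by exact_mod_cast hi)).elim
      · exact (ha2 (by exact_mod_cast hi)).elim
      · exfalso
        have h1 : (2 : ℤ) ∣ U := by exact_mod_cast hi
        omega
      · exfalso
        apply hi.2
        push_cast
        omega
      · exact (hi.2 hp2).elim) (2 * β)
  obtain ⟨w, hw⟩ := k3'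
  obtain ⟨a', ha'⟩ : ∃ a', a' = a - l - 2 * κ := ⟨_, rfl⟩
  have r0 : ∀ p : ℕ, p.Prime → (p : ℤ) ∣ κ → ¬ (p : ℤ) ∣ l := by
    intro p hp hd h1
    refine k3 p hp 0 hd ?_
    show (p : ℤ) ∣ 1 * l + 0
    rw [one_mul, add_zero]; exact h1
  have r1 : ∀ p : ℕ, p.Prime → (p : ℤ) ∣ a → ¬ (p : ℤ) ∣ l * y - κ := by
    intro p hp hd h1
    refine k3 p hp 1 hd ?_
    show (p : ℤ) ∣ y * l + -κ
    rw [show y * l + -κ = l * y - κ by ring]; exact h1
  have r2 : ∀ p : ℕ, p.Prime → (p : ℤ) ∣ U → ¬ (p : ℤ) ∣ l + 3 := by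
    intro p hp hd h1
    refine k3 p hp 2 hd ?_
    show (p : ℤ) ∣ 1 * l + 3
    rw [one_mul]; exact h1
  have r3 : ∀ p : ℕ, p.Prime → (p : ℤ) ∣ R → ¬ (p : ℤ) ∣ y - 1 →
      ¬ (p : ℤ) ∣ l * (y - 1) - 3 * κ := by
    intro p hp hd h2 h1
    refine k3 p hp 3 ⟨hd, h2⟩ ?_
    show (p : ℤ) ∣ (y - 1) * l + -(3 * κ)
    rw [show (y - 1) * l + -(3 * κ) = l * (y - 1) - 3 * κ by ring]; exact h1
  have r4 : ∀ p : ℕ, p.Prime → ¬ (p : ℤ) ∣ 2 → (((p : ℤ) ∣ R ∧ (p : ℤ) ∣ y - 1) ∨ (p : ℤ) ∣ B) →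
      ¬ (p : ℤ) ∣ a' := by
    intro p hp h2 hd h1
    refine k3 p hp 4 ⟨hd, h2⟩ ?_
    show (p : ℤ) ∣ (-1) * l + (a - 2 * κ)
    rw [show (-1) * l + (a - 2 * κ) = a' by rw [ha']; ring]; exact h1
  have hlo : ¬ (2 : ℤ) ∣ l := by omega
  have hκ2 : ∃ k0, κ = 2 * k0 + 1 := ⟨κ / 2, by omega⟩
  obtain ⟨k0, hk0⟩ := hκ2
  obtain ⟨l0, hl0⟩ : ∃ l0, l = 2 * l0 + 1 := ⟨l / 2, by omega⟩
  have v1 : l * y ≤ (2 * β + 4 * (J : ℤ) ^ 3) * (6 * (J : ℤ) ^ 3) := by
    apply mul_le_mul <;> linarith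
  have v2 : (2 * β + 4 * (J : ℤ) ^ 3) * (6 * (J : ℤ) ^ 3) ≤
      (10 * (J : ℤ) ^ 3) * (6 * (J : ℤ) ^ 3) :=
    mul_le_mul_of_nonneg_right (by linarith) (by positivity)
  have v3 : (10 * (J : ℤ) ^ 3) * (6 * (J : ℤ) ^ 3) = 60 * (J : ℤ) ^ 6 := by ring
  have v4 : 2 * β * 3 ≤ l * y := by apply mul_le_mul <;> linarith
  have v5 : 2 * β * 2 ≤ l * (y - 1) := by apply mul_le_mul <;> linarith
  have v6 : l * (y - 1) = l * y - l := by ring
  have hG : G2 a' (2 * B) := by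
    refine ⟨by omega, dvd_mul_right _ _, fun ⟨h3, h4⟩ => by omega, fun p hp h3 h4 h5 => ?_⟩
    have hp' := Nat.prime_iff_prime_int.1 hp
    exact r4 p hp h3 (Or.inr ((hp'.dvd_or_dvd h5).resolve_left h3)) h4
  have pa' : 3 < a' := by linarith
  refine ⟨1 + l + 2 * 1, a', 2 * B, ⟨by linarith, by omega, by linarith, by linarith,
    by rw [ha', hBd, hy]; linarith, hG, Or.inl pa'⟩, ?_⟩
  refine b4_half (l1 := l) (i := l * y - κ) (μ := 1) (y := y) (κ := κ)
    (i' := l * y - κ - l - 2 * κ) (U := U) ha hβ ha2 (by ring) rfl ha' (by rw [hBd, hy])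
    rfl hU ?_ ?_ isCoprime_one_left ?_ ?_ (by linarith) (by linarith) (by linarith)
    (by linarith) (by linarith) (by linarith) pU ?_ ?_ ?_ hlo ?_ hG
  · refine isCoprime_of_prime fun p hp h1 h2 => r0 p hp ?_ h2
    have := dvd_sub (h2.mul_right y) h1
    rwa [sub_sub_cancel] at this
  · exact isCoprime_of_prime fun p hp h1 => r1 p hp h1
  · exact ⟨-1, 2, by rw [hy]; ring⟩
  · rw [hg]
  · refine isCoprime_of_prime fun p hp h1 h2 => r2 p hp ?_ ?_
    · rw [show U = (1 + l + 2 * 1) * y - (1 + (l * y - κ) + 2 * y) by rw [hU]; ring]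
      exact dvd_sub (h2.mul_right _) h1
    · rw [show l + 3 = 1 + l + 2 * 1 by ring]; exact h2
  · refine isCoprime_of_prime fun p hp h1 h2 => ?_
    have h3 : (p : ℤ) ∣ l * (y - 1) - 3 * κ := by
      rw [show l * (y - 1) - 3 * κ = l * y - κ - l - 2 * κ by ring]; exact h2
    have h4 : (p : ℤ) ∣ R := by
      rw [show R = (y - 1) * a' + (l * (y - 1) - 3 * κ) by rw [hR, ha']; ring]
      exact dvd_add (h1.mul_left _) h3
    by_cases h5 : (p : ℤ) ∣ y - 1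
    · rcases two_or_odd hp with rfl | ⟨_, h2'⟩
      · have h6 : (2 : ℤ) ∣ l * (y - 1) - 3 * κ := by exact_mod_cast h3
        have h7 : (2 : ℤ) ∣ l * (y - 1) := by
          have : (2 : ℤ) ∣ y - 1 := by exact_mod_cast h5
          exact this.mul_left _
        have h8 := dvd_sub h7 h6
        rw [sub_sub_cancel] at h8
        omega
      · exact r4 p hp h2' (Or.inl ⟨h4, h5⟩) h1
    · exact r3 p hp h4 h5 h3
  · intro p hp _ h1 h3
    apply prime_not_dvd_one hp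
    have := dvd_sub h1 h3
    rw [hBd, hU, show y + κ - (y - 1 + κ) = 1 by ring] at this
    exact this
  · refine ⟨(2 * l0 + 1) * (β - 1) + l0 - k0, ?_⟩
    rw [hy, hl0, hk0]; ring

/-- `β = 1` -/
theorem b4_one (hB : Bg N J Z) {a : ℤ} (ha2 : ¬ (2 : ℤ) ∣ a) (hN : 1 + a + 4 * 1 = N) :
    ∃ A' a' a1' : ℤ, GdE N A' a' a1' ∧ SEq6 (b4S a 1) (PG A' a' a1' 1) := by
  obtain ⟨z1, z2, z3, z4, z5, z6⟩ := hB.b4
  have hJ := hB.J20
  have ha : 1 < a := by linarith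
  obtain ⟨x, x1, x2, x3⟩ := exists_cop hB (D := 2 * (a + 6)) (by linarith) (n := 2)
    (by norm_num) (by nlinarith) 3
  have hxo := odd_of_cop x3
  have hx2 : ¬ (2 : ℤ) ∣ x := by
    rw [← even_iff_two_dvd, Int.not_even_iff_odd]; exact hxo
  have hx6 := x3.of_mul_right_right
  obtain ⟨l, hl⟩ : ∃ l, l = x - 2 := ⟨_, rfl⟩
  have hl2 : ¬ (2 : ℤ) ∣ l := by omega
  have pl : 0 < l := by linarith
  have p3 : 0 < a - 3 * l := by linarith
  have pD : 0 < l * a * (1 + l) * (a - 3 * l) := by positivity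
  have hsz : l * a * (1 + l) * (a - 3 * l) ≤ (Z : ℤ) := by
    refine hB.le (n := 1 + 1 + 1 + 1) (by norm_num) ?_
    refine mul_le_pow2 p3 (mul_le_pow2 (by linarith) (mul_le_pow2 (by linarith)
      ?_ ?_ (by linarith)) ?_ (by linarith)) ?_ (by linarith) <;>
    · rw [pow_one]; linarith
  obtain ⟨i, k1, k2, k3', k3⟩ := sieveQ (k := 3) (e := 2) hB.cap
    (D0 := l * a * (1 + l) * (a - 3 * l)) pD hsz (by norm_num)
    ![fun p => p ∣ l * a, fun p => p ∣ 1 + l ∧ ¬ p ∣ 2, fun p => p ∣ a - 3 * l ∧ ¬ p ∣ 2]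
    ![1, 1, 1] ![0, 3, -(3 * l)] (m := 2) (by norm_num) 0
    (by
      intro p _ i hi
      fin_cases i
      · have h1 : (p : ℤ) ∣ l * a := hi
        exact (h1.mul_right _).mul_right _
      · have h1 : (p : ℤ) ∣ 1 + l := hi.1
        exact (h1.mul_left _).mul_right _
      · have h1 : (p : ℤ) ∣ a - 3 * l := hi.1
        exact h1.mul_left _)
    (by
      intro p hp hp2
      have hp2' : p ≠ 2 := by
        rintro rfl
        exact hp2 (by norm_num)
      by_cases p1 : (p : ℤ) ∣ 1 + l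
      · obtain ⟨t, t1, t2⟩ := avoid2 hp hp2' 0 (-3)
        rw [sub_zero] at t1
        rw [sub_neg_eq_add] at t2
        refine ⟨t, fun i hi => ?_⟩
        fin_cases i
        · intro h1
          have h2 : (p : ℤ) ∣ 1 * t + 0 := h1
          rw [one_mul, add_zero] at h2
          exact t1 h2
        · intro h1
          have h2 : (p : ℤ) ∣ 1 * t + 3 := h1
          rw [one_mul] at h2
          exact t2 h2
        · intro h1
          have h2 : (p : ℤ) ∣ 1 * t + -(3 * l) := h1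
          refine t2 ?_
          rw [show t + 3 = (1 * t + -(3 * l)) + 3 * (1 + l) by ring]
          exact dvd_add h2 (p1.mul_left _)
      · obtain ⟨t, t1, t2⟩ := avoid2 hp hp2' 0 (3 * l)
        rw [sub_zero] at t1
        refine ⟨t, fun i hi => ?_⟩
        fin_cases i
        · intro h1
          have h2 : (p : ℤ) ∣ 1 * t + 0 := h1
          rw [one_mul, add_zero] at h2
          exact t1 h2
        · exact (p1 hi.1).elim
        · intro h1
          have h2 : (p : ℤ) ∣ 1 * t + -(3 * l) := h1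
          rw [one_mul, ← sub_eq_add_neg] at h2
          exact t2 h2)
    (by
      intro p hp hp2 i hi
      have e2 : p = 2 := by
        rcases two_or_odd hp with h1 | h1
        · exact h1
        · exact absurd hp2 h1.2
      subst e2
      fin_cases i
      · exfalso
        have h1 : (2 : ℤ) ∣ l * a := by exact_mod_cast hi
        rcases Int.prime_two.dvd_or_dvd h1 with h2 | h2
        · exact hl2 h2
        · exact ha2 h2
      · exact (hi.2 hp2).elim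
      · exact (hi.2 hp2).elim) (3 * l + 1)
  rw [sub_zero] at k3'
  have r0 : ∀ p : ℕ, p.Prime → (p : ℤ) ∣ l * a → ¬ (p : ℤ) ∣ i := by
    intro p hp hd h1
    refine k3 p hp 0 hd ?_
    show (p : ℤ) ∣ 1 * i + 0
    rw [one_mul, add_zero]; exact h1
  have r1 : ∀ p : ℕ, p.Prime → ¬ (p : ℤ) ∣ 2 → (p : ℤ) ∣ 1 + l → ¬ (p : ℤ) ∣ i + 3 := by
    intro p hp h2 hd h1
    refine k3 p hp 1 ⟨hd, h2⟩ ?_
    show (p : ℤ) ∣ 1 * i + 3
    rw [one_mul]; exact h1
  have r2 : ∀ p : ℕ, p.Prime → ¬ (p : ℤ) ∣ 2 → (p : ℤ) ∣ a - 3 * l → ¬ (p : ℤ) ∣ i - 3 * l := by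
    intro p hp h2 hd h1
    refine k3 p hp 2 ⟨hd, h2⟩ ?_
    show (p : ℤ) ∣ 1 * i + -(3 * l)
    rw [one_mul, ← sub_eq_add_neg]; exact h1
  have hG : G2 (a - l - 2 * l) (2 * (2 + l)) := by
    refine ⟨by omega, dvd_mul_right _ _, fun ⟨h3, h4⟩ => by omega, fun p hp h3 h4 h5 => ?_⟩
    have hp' := Nat.prime_iff_prime_int.1 hp
    have h6 := (hp'.dvd_or_dvd h5).resolve_left h3
    refine not_dvd_of_isCoprime hx6 hp ?_ (by rw [show x = 2 + l by rw [hl]; ring]; exact h6)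
    rw [show a + 6 = (a - l - 2 * l) + 3 * (2 + l) by ring]
    exact dvd_add h4 (h6.mul_left _)
  refine ⟨1 + l + 2 * 0, a - l - 2 * l, 2 * (2 + l), ⟨by linarith, by omega, by linarith,
    by linarith, by linarith, hG, Or.inl (by linarith)⟩, ?_⟩
  refine b4_half (l1 := l) (i := i) (μ := 0) (y := 1) (κ := l) (i' := i - l - 2 * l)
    (U := 1 - 0 + l) ha one_pos ha2 (by ring) rfl rfl (by ring)
    rfl rfl ?_ ?_ isCoprime_one_right isCoprime_one_left ?_ (by linarith) (by linarith)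
    (by linarith) (by linarith) (by linarith) (by linarith) (by linarith) ?_ ?_ ?_ hl2 k3' hG
  · exact (isCoprime_of_prime fun p hp h1 => r0 p hp (h1.mul_right _)).symm
  · exact isCoprime_of_prime fun p hp h1 => r0 p hp (h1.mul_left _)
  · rw [Int.gcd_one_right]; exact one_dvd _
  · refine isCoprime_of_prime fun p hp h1 h2 => ?_
    rcases two_or_odd hp with rfl | ⟨_, h2'⟩
    · have : (2 : ℤ) ∣ 1 + i + 2 * 1 := by exact_mod_cast h1
      omega
    · refine r1 p hp h2' ?_ ?_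
      · rw [show 1 + l = 1 + l + 2 * 0 by ring]; exact h2
      · rw [show i + 3 = 1 + i + 2 * 1 by ring]; exact h1
  · refine isCoprime_of_prime fun p hp h1 h2 => ?_
    rcases two_or_odd hp with rfl | ⟨_, h2'⟩
    · have : (2 : ℤ) ∣ i - l - 2 * l := by exact_mod_cast h2
      omega
    · refine r2 p hp h2' ?_ ?_
      · rw [show a - 3 * l = a - l - 2 * l by ring]; exact h1
      · rw [show i - 3 * l = i - l - 2 * l by ring]; exact h2
  · intro p hp _ h1 h3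
    apply prime_not_dvd_one hp
    have := dvd_sub h1 h3
    rw [show 2 + l - (1 - 0 + l) = 1 by ring] at this
    exact this

/-- **(B4)** -/
theorem b4_end (hB : Bg N J Z) {a β : ℤ} (ha : 1 < a) (ha2 : ¬ (2 : ℤ) ∣ a) (hβ : 0 < β)
    (hN : 1 + a + 4 * β = N) :
    ∃ A' a' a1' : ℤ, GdE N A' a' a1' ∧ SEq6 (b4S a β) (PG A' a' a1' 1) := by
  by_cases h1 : a < 7 * (J : ℤ) ^ 2
  · exact b4_smalla hB ha ha2 hN h1
  · push Not at h1
    by_cases h2 : β < 3 * (J : ℤ) ^ 3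
    · by_cases h3 : 2 ≤ β
      · exact b4_smallb hB ha2 hN h3 h2
      · have : β = 1 := by omega
        subst this
        exact b4_one hB ha2 hN
    · push Not at h2
      exact b4_big hB ha2 hN h1 h2

end Pool.Agent.H4G.Six
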