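import Pool.Agent.H4G.Six.Can.Half

/-!
# The half edge for the family `A = 1`, `a` odd, `M = ⟨(2 β, 0), (0, 2)⟩` (helper24)

The source state is `b4S a β`; the pencil vectors are `l = (l₁, i)` and `m = 2 (μ, y)`.
-/

set_option autoImplicit false

namespace Pool.Agent.H4G.Six

open Pool.Agent.H4G

/-- the source state of (B4) -/
def b4S (a β : ℤ) : St6 := ⟨Ld (0, 1) a, lat (2 * β, 0) (0, 2), (1, 0), (0, 1)⟩

theorem b4S_ok {a β : ℤ} (ha : 1 < a) (hβ : 0 < β) : (b4S a β).Ok := by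
  have e0 : cr ((1, 0) : Z2) (0, 1) = 1 := by simp [cr]
  have e1 : cr ((a, 0) : Z2) (0, 1) = a := by simp [cr]
  have hL : lat (0, 1) (a, 0) = Ld (0, 1) a := by
    rw [lat_eq_Ld (l := (0, 1)) isCoprime_one_right, e1]
  have e2 : cr ((1, 0) : Z2) (0, 2) = 2 := by simp [cr]
  have e3 : cr ((2 * β, 0) : Z2) (0, 2) = 4 * β := by simp [cr]; ring
  have hM : lat (0, 2) (2 * β, 0) = lat (2 * β, 0) (0, 2) :=
    closure_pair_eq (α := 0) (β := 1) (γ := 1) (δ := 0) (by simp) (by simp) (Or.inr (by norm_num))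
  exact st6_ok (by rw [e0]; norm_num) hL (by rw [e0]; norm_num) (by rw [e0, e1]; exact ha) hM
    (by rw [e2]; norm_num) (by rw [e2, e3]; linarith)

theorem b4S_inv {a β : ℤ} (ha : ¬ (2 : ℤ) ∣ a) : (b4S a β).inv = 0 := by
  have e1 : cr ((a, 0) : Z2) (0, 1) = a := by simp [cr]
  have hL : lat (0, 1) (a, 0) = Ld (0, 1) a := by
    rw [lat_eq_Ld (l := (0, 1)) isCoprime_one_right, e1]
  have e : (b4S a β).inv = lam (1, 0) (0, 1) + lamL (Ld (0, 1) a) + lamL (lat (2 * β, 0) (0, 2)) :=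
    rfl
  have h1 : lam (1, 0) (0, 1) = 0 := lam_odd (by simp [cr])
  have h2 : lamL (Ld (0, 1) a) = 0 := by
    rw [← hL, lamL_lat]
    apply lam_odd
    have : cr ((0, 1) : Z2) (a, 0) = -a := by simp [cr]
    rw [this, ← Int.not_even_iff_odd, even_neg, even_iff_two_dvd]
    exact ha
  have h3 : lamL (lat (2 * β, 0) (0, 2)) = 0 := by
    rw [lamL_lat, lam_eq_zero_iff]
    right
    have h2 : (2 : ZMod 2) = 0 := by decide
    constructor
    · unfold m2
      ext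
      · push_cast
        rw [h2]; simp
      · simp
    · unfold m2
      ext
      · simp
      · push_cast
        rw [h2]; simp
  rw [e, h1, h2, h3]
  rfl

/-- the shear which makes `l` and `m` to pencil vectors -/
theorem b4_shear {a β l1 i μ y r s : ℤ} (ha : 1 < a) (hβ : 0 < β) (ci : IsCoprime i a)
    (hrs : s * μ + r * y = 1) (cy : IsCoprime y β) (hg : (Int.gcd a β : ℤ) ∣ l1 * y - i * μ) :
    SEq6 (b4S a β) ⟨Ld (l1, i) a, lat (2 * μ, 2 * y) (2 * β * r, -(2 * β * s)), (1, 0), (0, 1)⟩ := by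
  obtain ⟨x1, y1, h1⟩ := ci
  obtain ⟨x2, y2, h2⟩ := cy
  have hgc : (Int.gcd a β : ℤ) ∣ x2 * μ - x1 * l1 := by
    have ga : (Int.gcd a β : ℤ) ∣ a := Int.gcd_dvd_left ..
    have gb : (Int.gcd a β : ℤ) ∣ β := Int.gcd_dvd_right ..
    have e : x2 * μ - x1 * l1 = -(x1 * x2) * (l1 * y - i * μ) + a * (y1 * (x2 * μ)) -
        β * (y2 * (x1 * l1)) := by
      linear_combination (-(x2 * μ)) * h1 + (x1 * l1) * h2
    rw [e]
    exact dvd_sub (dvd_add (hg.mul_left _) (ga.mul_right _)) (gb.mul_right _)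
  obtain ⟨w, hw1, hw2⟩ := crt2 hgc
  have hwl : a ∣ l1 - w * i := by
    obtain ⟨n, hn⟩ := hw1
    refine ⟨-(n * i) + y1 * l1, ?_⟩
    linear_combination (-i) * hn - l1 * h1
  have hwm : β ∣ w * y - μ := by
    obtain ⟨n, hn⟩ := hw2
    refine ⟨n * y - y2 * μ, ?_⟩
    linear_combination y * hn + μ * h2
  have s1 := SEq6.act (shH w) (b4S_ok ha hβ)
  have eL : Ld (H4G.act (shH w) (0, 1)) a = Ld (l1, i) a := by
    apply Ld_congr
    intro x
    rw [act_shH]
    have e1 : cr x ((0, 1) : Z2).1 = cr x ((0, 1) : Z2).1 := rfl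
    have e2 : cr x (((0, 1) : Z2).1 + w * ((0, 1) : Z2).2, ((0, 1) : Z2).2) =
        x.1 - x.2 * w := by simp [cr]
    have e3 : cr x (l1, i) = x.1 * i - x.2 * l1 := rfl
    rw [e2, e3]
    constructor
    · intro h
      have : x.1 * i - x.2 * l1 = (x.1 - x.2 * w) * i - x.2 * (l1 - w * i) := by ring
      rw [this]
      exact dvd_sub (h.mul_right _) (hwl.mul_left _)
    · intro h
      have : x.1 - x.2 * w = x1 * ((x.1 * i - x.2 * l1) + x.2 * (l1 - w * i)) +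
          a * (y1 * (x.1 - x.2 * w)) := by linear_combination (-(x.1 - x.2 * w)) * h1
      rw [this]
      exact dvd_add ((dvd_add h (hwl.mul_left _)).mul_left _) (dvd_mul_right _ _)
  have eM : lat (H4G.act (shH w) (2 * β, 0)) (H4G.act (shH w) (0, 2)) =
      lat (2 * μ, 2 * y) (2 * β * r, -(2 * β * s)) := by
    obtain ⟨t, ht⟩ := hwm
    rw [act_shH, act_shH]
    symm
    refine closure_pair_eq (α := -t) (β := y) (γ := s * w + r) (δ := -(s * β)) ?_ ?_
      (Or.inr ?_)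
    · ext
      · simp only [Prod.fst_add, Prod.smul_fst, smul_eq_mul]
        linear_combination (-2) * ht
      · simp only [Prod.snd_add, Prod.smul_snd, smul_eq_mul]
        ring
    · ext
      · simp only [Prod.fst_add, Prod.smul_fst, smul_eq_mul]
        ring
      · simp only [Prod.snd_add, Prod.smul_snd, smul_eq_mul]
        ring
    · linear_combination (-s) * ht - hrs
  have e1 : (b4S a β).act (shH w) =
      ⟨Ld (l1, i) a, lat (2 * μ, 2 * y) (2 * β * r, -(2 * β * s)), (1, 0), (w, 1)⟩ := by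
    simp only [St6.act, b4S, map_Ld, map_lat, eL, eM]
    rw [act_shH, act_shH]
    simp
  rw [e1] at s1
  have s2 := SEq6.tv s1.ok' (-w)
  have ev : ((w, 1) : Z2) + (-w) • ((1, 0) : Z2) = (0, 1) := by
    ext <;> simp
  rw [ev] at s2
  exact s1.trans s2

/-- **THE HALF EDGE OF (B4)** -/
theorem b4_half {a β l1 i μ y κ A' a' B i' U : ℤ} (ha : 1 < a) (hβ : 0 < β) (ha2 : ¬ (2 : ℤ) ∣ a)
    (hκ : κ = l1 * y - i * μ) (hA' : A' = 1 + l1 + 2 * μ) (ha' : a' = a - l1 - 2 * κ)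
    (hB' : B = 2 * β - μ + κ) (hi' : i' = i - l1 - 2 * κ) (hU : U = y - μ + κ)
    (cl : IsCoprime l1 i) (ci : IsCoprime i a) (cn : IsCoprime μ y) (cy : IsCoprime y β)
    (hg : (Int.gcd a β : ℤ) ∣ κ) (p1 : 0 < i) (p2 : i < a) (p3 : 0 < y) (p4 : y < 2 * β)
    (pA' : 0 < A') (p1' : 0 < i') (pU : 0 < U) (cu : IsCoprime A' (1 + i + 2 * y))
    (cia' : IsCoprime i' a')
    (cUB : ∀ q : ℕ, q.Prime → ¬ (q : ℤ) ∣ 2 → (q : ℤ) ∣ B → ¬ (q : ℤ) ∣ U)
    (hl2 : ¬ (2 : ℤ) ∣ l1) (hi2 : (2 : ℤ) ∣ i) (hG : G2 a' (2 * B)) :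
    SEq6 (b4S a β) (PG A' a' (2 * B) 1) := by
  obtain ⟨s, r, hrs⟩ := cn
  have hrs' : s * μ + r * y = 1 := hrs
  have s1 := b4_shear ha hβ ci hrs' cy (by rw [← hκ]; exact hg)
  obtain ⟨pl, hpl⟩ := exists_dual (l := (l1, i)) cl
  have hpl' : pl.1 * i - pl.2 * l1 = 1 := hpl
  have ep : cr (a • pl) (l1, i) = a := by rw [cr_smul_left, hpl, mul_one]
  have eL : lat (l1, i) (a • pl) = Ld (l1, i) a := by rw [lat_eq_Ld (l := (l1, i)) cl, ep]
  have e0 : cr ((1, 0) : Z2) (0, 1) = 1 := by simp [cr]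
  have e1 : cr ((1, 0) : Z2) (l1, i) = i := by simp [cr]
  have e2 : cr ((1, 0) : Z2) (2 * μ, 2 * y) = 2 * y := by simp [cr]
  have e3 : cr ((2 * β * r, -(2 * β * s)) : Z2) (2 * μ, 2 * y) = 4 * β := by
    show 2 * β * r * (2 * y) - -(2 * β * s) * (2 * μ) = 4 * β
    linear_combination (4 * β) * hrs'
  have eu : ((A', 1 + i + 2 * y) : Z2) =
      (1, 0) + (1 : ℤ) • ((0, 1) + (l1, i) + (2 * μ, 2 * y)) := by
    rw [hA']
    ext
    · simp only [Prod.fst_add, Prod.smul_fst, smul_eq_mul]; ring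
    · simp only [Prod.snd_add, Prod.smul_snd, smul_eq_mul]; ring
  have f0 : cr ((A', 1 + i + 2 * y) : Z2) (0, 1) = A' := by
    show A' * 1 - (1 + i + 2 * y) * 0 = A'
    ring
  have f1 : cr ((A', 1 + i + 2 * y) : Z2) (l1, i) = i' := by
    show A' * i - (1 + i + 2 * y) * l1 = i'
    rw [hA', hi', hκ]; ring
  have f2 : cr ((A', 1 + i + 2 * y) : Z2) (2 * μ, 2 * y) = 2 * U := by
    show A' * (2 * y) - (1 + i + 2 * y) * (2 * μ) = 2 * U
    rw [hA', hU, hκ]; ring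
  have g1 : cr (a • pl + ((A', 1 + i + 2 * y) - (1, 0))) (l1, i) = a' := by
    rw [cr_add_left, cr_sub_left, ep, f1, e1, ha', hi']; ring
  have g2 : cr ((2 * β * r, -(2 * β * s)) + (((A', 1 + i + 2 * y) : Z2) - (1, 0)))
      (2 * μ, 2 * y) = 2 * B := by
    rw [cr_add_left, cr_sub_left, e3, f2, e2, hB', hU]; ring
  have g3 : ¬ (2 : ℤ) ∣ cr ((A', 1 + i + 2 * y) : Z2)
      ((2 * β * r, -(2 * β * s)) + (((A', 1 + i + 2 * y) : Z2) - (1, 0))) := by
    have e : cr ((A', 1 + i + 2 * y) : Z2)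
        ((2 * β * r, -(2 * β * s)) + (((A', 1 + i + 2 * y) : Z2) - (1, 0))) =
        A' * (-(2 * β * s) + (1 + i + 2 * y - 0)) -
          (1 + i + 2 * y) * (2 * β * r + (A' - 1)) := rfl
    rw [e]
    obtain ⟨i0, hi0⟩ := hi2
    obtain ⟨l0, hl0⟩ : ∃ l0, l1 = 2 * l0 + 1 := ⟨l1 / 2, by omega⟩
    rintro ⟨n, hn⟩
    rw [hA', hi0, hl0] at hn
    have : 2 * (n - ((1 + l0 + μ) * (-(2 * β * s) + (1 + 2 * i0 + 2 * y - 0))) +
        (1 + 2 * i0 + 2 * y) * (β * r + (l0 + μ)) + (i0 + y)) = -1 := by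
      linear_combination (-1 : ℤ) * hn
    omega
  obtain ⟨z, hz⟩ := half (u := (1, 0)) (v := (0, 1)) (u' := (A', 1 + i + 2 * y)) (l := (l1, i))
    (p := a • pl) (m := (2 * μ, 2 * y)) (p' := (2 * β * r, -(2 * β * s))) (k := 1) (A' := A')
    (a' := a') (a1' := 2 * B) (by rw [e0]; norm_num) eL (by rw [e1]; exact p1)
    (by rw [e1, ep]; exact p2) rfl (by rw [e2]; linarith) (by rw [e2, e3]; linarith) eu f0
    (by rw [ep, e1, f1, ha', hi']; ring) (by rw [e3, e2, f2, hB', hU]; ring) pA'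
    (by rw [f1]; exact p1') (by rw [f2]; linarith)
    (cop_cont cu (by rw [f1, g1]; exact cia'))
    (cop_cont2 cu (by
      intro q hq h2 h3 h4
      rw [g2] at h3
      rw [f2] at h4
      have hq' := Nat.prime_iff_prime_int.1 hq
      exact cUB q hq h2 ((hq'.dvd_or_dvd h3).resolve_left h2)
        ((hq'.dvd_or_dvd h4).resolve_left h2)) g3)
  have pa' : 1 < a' := by
    have h1 := hG.e
    have h2 : i' < a' := by rw [ha', hi']; linarith
    linarith
  have pB : 1 < 2 * B := by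
    have h2 : U < B := by rw [hB', hU]; linarith
    linarith
  have hA2 : (2 : ℤ) ∣ A' := by rw [hA']; omega
  exact PG.to_one (s1.trans hz) (b4S_inv ha2) pA' hA2 pa' pB hG

end Pool.Agent.H4G.Six
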