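import Pool.Agent.H4G.Six.Can.Ev

/-!
# The family between the level `A = 2` and the level `A = B`, even states (helper19)
-/

set_option autoImplicit false

namespace Pool.Agent.H4G.Six

open Pool.Agent.H4G

variable {N : ℤ} {J Z : ℕ}

theorem y2_loc {a a1 b b1 B H : ℤ} (hB2 : (2 : ℤ) ∣ B) (hH2 : (2 : ℤ) ∣ H)
    (hc : IsCoprime (1 + H) (B - 3)) (ha : G2 a a1) (hb : G2 b b1)
    (h3 : (3 : ℤ) ∣ B → ¬ (3 : ℤ) ∣ b1) {p : ℕ} (hp : p.Prime) :
    ∃ t : ℤ, ((p : ℤ) ∣ a → ¬ (p : ℤ) ∣ 2 * t + (-1)) ∧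
      ((p : ℤ) ∣ a1 → ¬ (p : ℤ) ∣ 2 * (B - 3) * t + (-(B - 3) - 2 - 2 * H)) ∧
      ((p : ℤ) ∣ B → ¬ (p : ℤ) ∣ (B - 2) * t + (1 - H)) ∧
      ((p : ℤ) ∣ b → ¬ (p : ℤ) ∣ 2 * t + (H - 1)) ∧
      ((p : ℤ) ∣ b1 → ¬ (p : ℤ) ∣ 2 * (B - 3) * t + (-(B - 3) - B - 3 * H)) := by
  rcases two_or_odd hp with rfl | ⟨h2, h2'⟩
  · obtain ⟨x, rfl⟩ := hB2
    obtain ⟨y, rfl⟩ := hH2
    push_cast
    refine ⟨0, ?_, ?_, ?_, ?_, ?_⟩ <;> intro _ h <;> omega
  · have hp' := Nat.prime_iff_prime_int.1 hp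
    have hcH : (p : ℤ) ∣ B - 3 → ¬ (p : ℤ) ∣ 1 + H := fun h => not_dvd_of_isCoprime hc hp h
    have r1 : ∃ r : ℤ, ∀ t : ℤ, ¬ (p : ℤ) ∣ t - r →
        ((p : ℤ) ∣ a → ¬ (p : ℤ) ∣ 2 * t + (-1)) ∧
        ((p : ℤ) ∣ a1 → ¬ (p : ℤ) ∣ 2 * (B - 3) * t + (-(B - 3) - 2 - 2 * H)) := by
      by_cases h : (p : ℤ) ∣ a
      · obtain ⟨r, hr⟩ := lin_class hp (α := -1) (β := 2) (fun h' => (h2' h').elim)
        refine ⟨r, fun t ht => ⟨fun _ h' => hr t ht ?_, fun h' => (ha.odd p hp h2' h h').elim⟩⟩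
        rwa [add_comm] at h'
      · obtain ⟨r, hr⟩ := lin_class hp (α := -(B - 3) - 2 - 2 * H) (β := 2 * (B - 3)) (by
          intro h4 h5
          have h6 : (p : ℤ) ∣ B - 3 := (hp'.dvd_or_dvd h4).resolve_left h2'
          apply hcH h6
          have h7 : (p : ℤ) ∣ 2 * (1 + H) := by
            have : 2 * (1 + H) = -(-(B - 3) - 2 - 2 * H) - (B - 3) := by ring
            rw [this]
            exact dvd_sub ((dvd_neg).2 h5) h6
          exact (hp'.dvd_or_dvd h7).resolve_left h2')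
        refine ⟨r, fun t ht => ⟨fun h' => (h h').elim, fun _ h' => hr t ht ?_⟩⟩
        rwa [add_comm] at h'
    have r2 : ∃ r : ℤ, ∀ t : ℤ, ¬ (p : ℤ) ∣ t - r →
        ((p : ℤ) ∣ B → ¬ (p : ℤ) ∣ (B - 2) * t + (1 - H)) ∧
        ((p : ℤ) ∣ b → ¬ (p : ℤ) ∣ 2 * t + (H - 1)) ∧
        ((p : ℤ) ∣ b1 → ¬ (p : ℤ) ∣ 2 * (B - 3) * t + (-(B - 3) - B - 3 * H)) := by
      by_cases h : (p : ℤ) ∣ b ∨ (p : ℤ) ∣ B
      · obtain ⟨r, hr⟩ := lin_class hp (α := H - 1) (β := 2) (fun h' => (h2' h').elim)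
        refine ⟨r, fun t ht => ⟨fun h4 h5 => hr t ht ?_, fun _ h' => hr t ht ?_,
          fun h4 h5 => ?_⟩⟩
        · have : H - 1 + 2 * t = B * t - ((B - 2) * t + (1 - H)) := by ring
          rw [this]
          exact dvd_sub (h4.mul_right _) h5
        · rwa [add_comm] at h'
        · have hb' : ¬ (p : ℤ) ∣ b := fun h6 => hb.odd p hp h2' h6 h4
          have hB' : (p : ℤ) ∣ B := h.resolve_left hb'
          have hp3 : ¬ (p : ℤ) ∣ 3 := by
            intro h6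
            have h7 : p ∣ 3 := by exact_mod_cast h6
            have h8 : p = 3 := (Nat.prime_dvd_prime_iff_eq hp Nat.prime_three).1 h7
            subst h8
            exact h3 (by exact_mod_cast hB') (by exact_mod_cast h4)
          have h9 : (p : ℤ) ∣ 3 * (H - 1 + 2 * t) := by
            have : 3 * (H - 1 + 2 * t) =
                B * (2 * t - 2) - (2 * (B - 3) * t + (-(B - 3) - B - 3 * H)) := by ring
            rw [this]
            exact dvd_sub (hB'.mul_right _) h5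
          exact hr t ht ((hp'.dvd_or_dvd h9).resolve_left hp3)
      · push Not at h
        by_cases h4 : (p : ℤ) ∣ b1
        · obtain ⟨r, hr⟩ := lin_class hp (α := -(B - 3) - B - 3 * H) (β := 2 * (B - 3)) (by
            intro h5 h6
            have h7 : (p : ℤ) ∣ B - 3 := (hp'.dvd_or_dvd h5).resolve_left h2'
            have h8 : (p : ℤ) ∣ 3 * (1 + H) := by
              have : 3 * (1 + H) = -(-(B - 3) - B - 3 * H) - 2 * (B - 3) := by ring
              rw [this]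
              exact dvd_sub ((dvd_neg).2 h6) (h7.mul_left _)
            rcases hp'.dvd_or_dvd h8 with h9 | h9
            · apply h.2
              have := dvd_add h7 h9
              rwa [sub_add_cancel] at this
            · exact hcH h7 h9)
          refine ⟨r, fun t ht => ⟨fun h' => (h.2 h').elim, fun h' => (h.1 h').elim,
            fun _ h' => hr t ht ?_⟩⟩
          rwa [add_comm] at h'
        · exact ⟨0, fun t _ => ⟨fun h' => (h.2 h').elim, fun h' => (h.1 h').elim,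
            fun h' => (h4 h').elim⟩⟩
    obtain ⟨r1, hr1⟩ := r1
    obtain ⟨r2, hr2⟩ := r2
    obtain ⟨t, ht1, ht2⟩ := avoid2 hp h2 r1 r2
    exact ⟨t, (hr1 t ht1).1, (hr1 t ht1).2, (hr2 t ht2).1, (hr2 t ht2).2.1, (hr2 t ht2).2.2⟩

/-- **(Y) for the even states** -/
theorem yEdge2 (hB : Bg N J Z) {a a1 b b1 B H t0 : ℤ} (hB2 : (2 : ℤ) ∣ B) (hB4 : 4 ≤ B)
    (hH2 : (2 : ℤ) ∣ H) (hc : IsCoprime (1 + H) (B - 3)) (hb : b = a + H)
    (hb1 : b1 = a1 - B + 2 - H) (hN : 2 + a + a1 = N) (pa : 0 < a) (pa1 : 0 < a1) (pb : 0 < b)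
    (pb1 : 0 < b1) (ga : G2 a a1) (gb : G2 b b1) (h3 : (3 : ℤ) ∣ B → ¬ (3 : ℤ) ∣ b1)
    (w1 : 1 ≤ t0) (w2 : 0 < 2 * t0 - 1 + H) (w3 : 0 < (B - 3) * (2 * t0 - 1) - 2 - 2 * H)
    (w4 : 0 < (B - 3) * (2 * t0 - 1) - B - 3 * H) (w5 : 2 * (t0 + (J : ℤ) ^ 3) ≤ a)
    (w6 : (B - 3) * (2 * (t0 + (J : ℤ) ^ 3) - 1) - 2 - 2 * H ≤ a1) :
    SEq6 (PG 2 a a1 1) (PG B b b1 1) := by
  have hN1 := hB.N1
  have hsz : a * a1 * b * b1 * B ≤ (Z : ℤ) := by
    refine hB.le (n := 1 + 1 + 1 + 1 + 1) (by norm_num) ?_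
    refine mul_le_pow2 (by linarith) (mul_le_pow2 pb1 (mul_le_pow2 pb (mul_le_pow2 pa1
      ?_ ?_ (by linarith)) ?_ (by linarith)) ?_ (by linarith)) ?_ (by linarith) <;>
    · rw [pow_one]; linarith
  obtain ⟨t, k1, k2, k3⟩ := sieveP (k := 5) (e := 3) hB.cap
    (D0 := a * a1 * b * b1 * B) (by positivity) hsz (by norm_num)
    ![fun p => p ∣ a, fun p => p ∣ a1, fun p => p ∣ B, fun p => p ∣ b, fun p => p ∣ b1]
    ![2, 2 * (B - 3), B - 2, 2, 2 * (B - 3)]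
    ![-1, -(B - 3) - 2 - 2 * H, 1 - H, H - 1, -(B - 3) - B - 3 * H]
    (by
      intro p _ i hi
      fin_cases i
      · have h : (p : ℤ) ∣ a := hi
        exact (((h.mul_right _).mul_right _).mul_right _).mul_right _
      · have h : (p : ℤ) ∣ a1 := hi
        exact (((h.mul_left _).mul_right _).mul_right _).mul_right _
      · have h : (p : ℤ) ∣ B := hi
        exact h.mul_left _
      · have h : (p : ℤ) ∣ b := hi
        exact ((h.mul_left _).mul_right _).mul_right _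
      · have h : (p : ℤ) ∣ b1 := hi
        exact (h.mul_left _).mul_right _)
    (by
      intro p hp
      obtain ⟨t, y1, y2, y3, y4, y5⟩ := y2_loc hB2 hH2 hc ga gb h3 hp
      refine ⟨t, fun i hi => ?_⟩
      fin_cases i
      · exact y1 hi
      · exact y2 hi
      · exact y3 hi
      · exact y4 hi
      · exact y5 hi) t0
  have q0 : ∀ p : ℕ, p.Prime → (p : ℤ) ∣ a → ¬ (p : ℤ) ∣ 2 * t - 1 := fun p hp hd h =>
    k3 p hp 0 hd (by
      show (p : ℤ) ∣ 2 * t + (-1)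
      rw [← sub_eq_add_neg]; exact h)
  have q1 : ∀ p : ℕ, p.Prime → (p : ℤ) ∣ a1 → ¬ (p : ℤ) ∣ (B - 3) * (2 * t - 1) - 2 - 2 * H :=
    fun p hp hd h => k3 p hp 1 hd (by
      show (p : ℤ) ∣ 2 * (B - 3) * t + (-(B - 3) - 2 - 2 * H)
      rw [show 2 * (B - 3) * t + (-(B - 3) - 2 - 2 * H) =
        (B - 3) * (2 * t - 1) - 2 - 2 * H by ring]
      exact h)
  have q2 : ∀ p : ℕ, p.Prime → (p : ℤ) ∣ B → ¬ (p : ℤ) ∣ (B - 2) * t + 1 - H :=
    fun p hp hd h => k3 p hp 2 hd (by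
      show (p : ℤ) ∣ (B - 2) * t + (1 - H)
      rw [show (B - 2) * t + (1 - H) = (B - 2) * t + 1 - H by ring]
      exact h)
  have q3 : ∀ p : ℕ, p.Prime → (p : ℤ) ∣ b → ¬ (p : ℤ) ∣ 2 * t - 1 + H := fun p hp hd h =>
    k3 p hp 3 hd (by
      show (p : ℤ) ∣ 2 * t + (H - 1)
      rw [show 2 * t + (H - 1) = 2 * t - 1 + H by ring]; exact h)
  have q4 : ∀ p : ℕ, p.Prime → (p : ℤ) ∣ b1 → ¬ (p : ℤ) ∣ (B - 3) * (2 * t - 1) - B - 3 * H :=
    fun p hp hd h => k3 p hp 4 hd (by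
      show (p : ℤ) ∣ 2 * (B - 3) * t + (-(B - 3) - B - 3 * H)
      rw [show 2 * (B - 3) * t + (-(B - 3) - B - 3 * H) =
        (B - 3) * (2 * t - 1) - B - 3 * H by ring]
      exact h)
  have h1 : (B - 3) * (2 * t0 - 1) ≤ (B - 3) * (2 * t - 1) :=
    mul_le_mul_of_nonneg_left (by linarith) (by linarith)
  have h2 : (B - 3) * (2 * t - 1) < (B - 3) * (2 * (t0 + (J : ℤ) ^ 3) - 1) :=
    mul_lt_mul_of_pos_left (by linarith) (by linarith)
  obtain ⟨B', hB'⟩ := hB2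
  obtain ⟨H', hH'⟩ := hH2
  refine edge (ν := 1) (l1 := t) (m1 := (B - 3) * t - 1 - H) (i := 2 * t - 1)
    (j := (B - 3) * (2 * t - 1) - 2 - 2 * H) (k := 1)
    (W := 2 + (2 * t - 1) + ((B - 3) * (2 * t - 1) - 2 - 2 * H)) (κ := (B - 2) * t + 1 - H)
    (i' := 2 * t - 1 + H) (j' := (B - 3) * (2 * t - 1) - B - 3 * H)
    rfl (by ring) (by ring) (by ring) (by ring) (by rw [hb]; ring) (by rw [hb1]; ring)
    two_pos (by linarith) (by linarith) (by linarith) (by linarith) (by linarith) (by linarith)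
    (by linarith) ⟨2, -1, by ring⟩ ?_ ?_ ?_ ?_ ?_ ?_ (ga.dvd ?_) (gb.dvd ?_)
  · -- `m` is primitive
    obtain ⟨x, y, hxy⟩ := hc
    refine ⟨-x + 2 * (x * t + y), -(x * t + y), ?_⟩
    linear_combination hxy
  · exact isCoprime_of_prime fun p hp h1 h2 => q0 p hp h1 h2
  · exact isCoprime_of_prime fun p hp h1 h2 => q1 p hp h1 h2
  · refine cop_of_odd2 ?_ fun p hp h2 h3 h4 => q2 p hp ?_ h4
    · rintro ⟨w, hw⟩
      rw [hB', hH'] at hw
      have : 2 * ((B' - 1) * t - H' - w) = -1 := by linear_combination hw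
      omega
    · have : B = 2 * ((B - 2) * t + 1 - H) -
          1 * (2 + (2 * t - 1) + ((B - 3) * (2 * t - 1) - 2 - 2 * H)) := by ring
      rw [this]
      exact dvd_sub (h4.mul_left _) h3
  · exact isCoprime_of_prime fun p hp h1 h2 => q3 p hp h1 h2
  · exact isCoprime_of_prime fun p hp h1 h2 => q4 p hp h1 h2
  · rw [hB', hH']
    refine ⟨((2 * B' - 3) * t - 1 - 2 * H') * (3 * t - 1) - t * ((2 * B' - 3) * t - 1 - 2 * H') +
      3 * t - 2 - B' * (3 * t - 1) + B' * t - H', ?_⟩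
    ring
  · rw [hB', hH']
    refine ⟨((2 * B' - 3) * t - 1 - 2 * H') * (3 * t - 1) - t * ((2 * B' - 3) * t - 1 - 2 * H') +
      3 * t - 2 - B' * (3 * t - 1) + B' * t - H' + (2 * t - 1) * (1 - B' - H') +
      H' * ((2 * B' - 3) * (2 * t - 1) - 2 * B' - 6 * H'), ?_⟩
    ring

end Pool.Agent.H4G.Six
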