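import Pool.Agent.H4G.Six.Can.B4Half
import Pool.Agent.H4G.Six.Can.Ev2
import Pool.Agent.H4G.Ctwo.Line1

/-!
# The local conditions of (B4) (helper24)
-/

set_option autoImplicit false

namespace Pool.Agent.H4G.Six

open Pool.Agent.H4G

/-- the general case: the unknown is `i` -/
theorem b4_loc1 {a β h μ a' B : ℤ} {p : ℕ} (hp : p.Prime) (hp2 : p ≠ 2)
    (hh : (p : ℤ) ∣ a → (p : ℤ) ∣ β → (p : ℤ) ∣ h) (hμ : IsCoprime μ h) (ha' : a' = a - 1 + 2 * h)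
    (hB' : B = 2 * β - μ - h) :
    ∃ i : ℤ, ((p : ℤ) ∣ a → ¬ (p : ℤ) ∣ i) ∧ ((p : ℤ) ∣ β → ¬ (p : ℤ) ∣ μ * i - h) ∧
      ((p : ℤ) ∣ (1 + μ) * a' → ¬ (p : ℤ) ∣ i + (2 * h - 1)) ∧
      ((p : ℤ) ∣ B → ¬ (p : ℤ) ∣ μ * i - (μ + 2 * h)) := by
  have hp' := Nat.prime_iff_prime_int.1 hp
  have h2' : ¬ (p : ℤ) ∣ 2 := by
    rcases two_or_odd hp with h | h
    · exact absurd h hp2
    · exact h.2
  have hμh : (p : ℤ) ∣ h → ¬ (p : ℤ) ∣ μ := fun h1 => not_dvd_of_isCoprime hμ hp h1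
  obtain ⟨rβ, hrβ⟩ := lin_class hp (α := -h) (β := μ) (fun h1 h2 => hμh ((dvd_neg).1 h2) h1)
  obtain ⟨rB, hrB⟩ := lin_class hp (α := -(μ + 2 * h)) (β := μ) (fun h1 h2 => by
    have h3 : (p : ℤ) ∣ 2 * h := by
      have := dvd_sub ((dvd_neg).1 h2) h1
      rwa [add_sub_cancel_left] at this
    exact hμh ((hp'.dvd_or_dvd h3).resolve_left h2') h1)
  by_cases pa : (p : ℤ) ∣ a
  · by_cases pb : (p : ℤ) ∣ β
    · have ph := hh pa pb
      obtain ⟨i, i1, i2⟩ := avoid2 hp hp2 0 (1 - 2 * h)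
      rw [sub_zero] at i1
      refine ⟨i, fun _ => i1, fun _ h1 => ?_, fun _ h1 => i2 ?_, fun h1 _ => hμh ph ?_⟩
      · have h3 := dvd_add h1 ph
        rw [sub_add_cancel] at h3
        rcases hp'.dvd_or_dvd h3 with h4 | h4
        · exact hμh ph h4
        · exact i1 h4
      · rw [show i - (1 - 2 * h) = i + (2 * h - 1) by ring]; exact h1
      · have : μ = 2 * β - h - B := by rw [hB']; ring
        rw [this]
        exact dvd_sub (dvd_sub (pb.mul_left _) ph) h1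
    · by_cases p1 : (p : ℤ) ∣ 1 + μ
      · obtain ⟨i, i1, i2⟩ := avoid2 hp hp2 0 (1 - 2 * h)
        rw [sub_zero] at i1
        refine ⟨i, fun _ => i1, fun h1 => (pb h1).elim, fun _ h1 => i2 ?_, fun _ h1 => i2 ?_⟩
        · rw [show i - (1 - 2 * h) = i + (2 * h - 1) by ring]; exact h1
        · rw [show i - (1 - 2 * h) = (1 + μ) * (i - 1) - (μ * i - (μ + 2 * h)) by ring]
          exact dvd_sub (p1.mul_right _) h1
      · obtain ⟨i, i1, i2⟩ := avoid2 hp hp2 0 rB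
        rw [sub_zero] at i1
        refine ⟨i, fun _ => i1, fun h1 => (pb h1).elim, fun h1 h3 => i1 ?_, fun _ h1 => ?_⟩
        · have h4 := (hp'.dvd_or_dvd h1).resolve_left p1
          have : i = (i + (2 * h - 1)) - a' + a := by rw [ha']; ring
          rw [this]
          exact dvd_add (dvd_sub h3 h4) pa
        · refine hrB i i2 ?_
          rw [show -(μ + 2 * h) + μ * i = μ * i - (μ + 2 * h) by ring]; exact h1
  · by_cases pb : (p : ℤ) ∣ β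
    · obtain ⟨i, i1, i2⟩ := avoid2 hp hp2 rβ (1 - 2 * h)
      have k1 : ¬ (p : ℤ) ∣ μ * i - h := by
        intro h1
        refine hrβ i i1 ?_
        rw [show -h + μ * i = μ * i - h by ring]; exact h1
      refine ⟨i, fun h1 => (pa h1).elim, fun _ => k1, fun _ h1 => i2 ?_, fun h1 h3 => k1 ?_⟩
      · rw [show i - (1 - 2 * h) = i + (2 * h - 1) by ring]; exact h1
      · have : μ * i - h = (μ * i - (μ + 2 * h)) + 2 * β - B := by rw [hB']; ring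
        rw [this]
        exact dvd_sub (dvd_add h3 (pb.mul_left _)) h1
    · obtain ⟨i, i1, i2⟩ := avoid2 hp hp2 rB (1 - 2 * h)
      refine ⟨i, fun h1 => (pa h1).elim, fun h1 => (pb h1).elim, fun _ h1 => i2 ?_,
        fun _ h1 => ?_⟩
      · rw [show i - (1 - 2 * h) = i + (2 * h - 1) by ring]; exact h1
      · refine hrB i i1 ?_
        rw [show -(μ + 2 * h) + μ * i = μ * i - (μ + 2 * h) by ring]; exact h1

/-- `a` small: the unknown is `μ`, `i = 2` -/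
theorem b4_loc2 {β h a2 : ℤ} (hh : ¬ (2 : ℤ) ∣ h) {p : ℕ} (hp : p.Prime) :
    ∃ t : ℤ, ((p : ℤ) ∣ h → ¬ (p : ℤ) ∣ 1 * t + 0) ∧ ((p : ℤ) ∣ β → ¬ (p : ℤ) ∣ 2 * t + (-h)) ∧
      ((p : ℤ) ∣ 1 + 2 * h → ¬ (p : ℤ) ∣ 1 * t + 1) ∧
      ((p : ℤ) ∣ 2 * β - 3 * h → ¬ (p : ℤ) ∣ 1 * t + (-(2 * h))) ∧
      ((p : ℤ) ∣ a2 → ¬ (p : ℤ) ∣ (-1) * t + (2 * β - h)) := by
  rcases two_or_odd hp with rfl | ⟨hp2, h2'⟩
  · push_cast
    refine ⟨0, ?_, ?_, ?_, ?_, ?_⟩ <;> intro _ h1 <;> omega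
  · have hp' := Nat.prime_iff_prime_int.1 hp
    by_cases hp3 : p = 3
    · subst hp3
      push_cast
      by_cases pb : (3 : ℤ) ∣ β
      · obtain ⟨t, t1, t2⟩ := avoid2 hp hp2 (-h) (-h)
        push_cast at t1
        refine ⟨t, ?_, ?_, ?_, ?_, ?_⟩ <;> intro _ h1 <;> omega
      · by_cases ph : (3 : ℤ) ∣ h
        · obtain ⟨t, t1, t2⟩ := avoid2 hp hp2 0 (2 * β - h)
          push_cast at t1 t2
          refine ⟨t, ?_, ?_, ?_, ?_, ?_⟩ <;> intro _ h1 <;> omega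
        · obtain ⟨t, t1, t2⟩ := avoid2 hp hp2 (-1) (2 * β - h)
          push_cast at t1 t2
          refine ⟨t, ?_, ?_, ?_, ?_, ?_⟩ <;> intro _ h1 <;> omega
    · have h5 : 5 ≤ p := Nat.Prime.five_le_of_ne_two_of_ne_three hp hp2 hp3
      have h3' : ¬ (p : ℤ) ∣ 3 := by
        intro h
        have : p ∣ 3 := by exact_mod_cast h
        exact hp3 ((Nat.prime_dvd_prime_iff_eq hp Nat.prime_three).1 this)
      obtain ⟨rβ, hrβ⟩ := lin_class hp (α := -h) (β := 2) (fun h1 => (h2' h1).elim)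
      obtain ⟨r1, hr1⟩ : ∃ r1 : ℤ, ∀ t : ℤ, ¬ (p : ℤ) ∣ t - r1 →
          ((p : ℤ) ∣ h → ¬ (p : ℤ) ∣ t) ∧ ((p : ℤ) ∣ 1 + 2 * h → ¬ (p : ℤ) ∣ t + 1) := by
        by_cases ph : (p : ℤ) ∣ h
        · refine ⟨0, fun t ht => ⟨fun _ h1 => ht (by rwa [sub_zero]), fun h1 _ => ?_⟩⟩
          apply prime_not_dvd_one hp
          have := dvd_sub h1 (ph.mul_left 2)
          rwa [add_sub_cancel_right] at this
        · exact ⟨-1, fun t ht => ⟨fun h1 => (ph h1).elim, fun _ h1 => ht (by rwa [sub_neg_eq_add])⟩⟩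
      obtain ⟨r2, hr2⟩ : ∃ r2 : ℤ, ∀ t : ℤ, ¬ (p : ℤ) ∣ t - r2 → ((p : ℤ) ∣ h → ¬ (p : ℤ) ∣ t) →
          ((p : ℤ) ∣ β → ¬ (p : ℤ) ∣ 2 * t + (-h)) ∧
          ((p : ℤ) ∣ 2 * β - 3 * h → ¬ (p : ℤ) ∣ 1 * t + (-(2 * h))) := by
        by_cases pb : (p : ℤ) ∣ β
        · refine ⟨rβ, fun t ht hth => ⟨fun _ h1 => hrβ t ht ?_, fun h1 h3 => ?_⟩⟩
          · rwa [add_comm] at h1
          · have h4 : (p : ℤ) ∣ 3 * h := by
              have := dvd_sub (pb.mul_left 2) h1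
              rwa [sub_sub_cancel] at this
            have h5 := (hp'.dvd_or_dvd h4).resolve_left h3'
            apply hth h5
            have := dvd_add h3 (h5.mul_left 2)
            rw [show 1 * t + -(2 * h) + 2 * h = t by ring] at this
            exact this
        · refine ⟨2 * h, fun t ht _ => ⟨fun h1 => (pb h1).elim, fun _ h1 => ht ?_⟩⟩
          rw [show t - 2 * h = 1 * t + (-(2 * h)) by ring]; exact h1
      obtain ⟨t, t1, t2, t3⟩ := avoid3 h5 r1 r2 (2 * β - h)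
      obtain ⟨k1, k2⟩ := hr1 t t1
      obtain ⟨k3, k4⟩ := hr2 t t2 k1
      refine ⟨t, fun h1 h3 => k1 h1 ?_, k3, fun h1 h3 => k2 h1 ?_, k4, fun _ h1 => t3 ?_⟩
      · rwa [one_mul, add_zero] at h3
      · rwa [one_mul] at h3
      · rw [show t - (2 * β - h) = -((-1) * t + (2 * β - h)) by ring]
        exact (dvd_neg).2 h1

/-- `β` small: the unknown is `l₁`; `y = 2 β - 1`, `μ = 1` -/
theorem b4_loc3 {a β κ y U B R : ℤ} (hy : y = 2 * β - 1) (hU : U = y - 1 + κ) (hB' : B = y + κ)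
    (hR : R = (y - 1) * a - κ * (2 * y + 1)) {p : ℕ} (hp : p.Prime) (hp2 : p ≠ 2)
    (hκ : (p : ℤ) ∣ κ → (p : ℤ) ∣ β) :
    ∃ t : ℤ, ((p : ℤ) ∣ κ → ¬ (p : ℤ) ∣ 1 * t + 0) ∧ ((p : ℤ) ∣ a → ¬ (p : ℤ) ∣ y * t + (-κ)) ∧
      ((p : ℤ) ∣ U → ¬ (p : ℤ) ∣ 1 * t + 3) ∧
      ((p : ℤ) ∣ R ∧ ¬ (p : ℤ) ∣ y - 1 → ¬ (p : ℤ) ∣ (y - 1) * t + (-(3 * κ))) ∧
      (((p : ℤ) ∣ R ∧ (p : ℤ) ∣ y - 1) ∨ (p : ℤ) ∣ B → ¬ (p : ℤ) ∣ (-1) * t + (a - 2 * κ)) := by
  have hp' := Nat.prime_iff_prime_int.1 hp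
  have h2' : ¬ (p : ℤ) ∣ 2 := by
    rcases two_or_odd hp with h | h
    · exact absurd h hp2
    · exact h.2
  by_cases pk : (p : ℤ) ∣ κ
  · have pb := hκ pk
    have py : ¬ (p : ℤ) ∣ y := by
      intro h1
      apply prime_not_dvd_one hp
      have := dvd_sub (pb.mul_left 2) h1
      rwa [hy, sub_sub_cancel] at this
    have py1 : ¬ (p : ℤ) ∣ y - 1 := by
      intro h1
      apply h2'
      have := dvd_sub (pb.mul_left 2) h1
      rw [hy, show 2 * β - (2 * β - 1 - 1) = 2 by ring] at this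
      exact this
    refine ⟨1, fun _ h1 => prime_not_dvd_one hp (by simpa using h1), fun _ h1 => py ?_,
      fun h1 => (py1 ?_).elim, fun _ h1 => py1 ?_, fun h1 => ?_⟩
    · have := dvd_add h1 pk
      rw [show y * 1 + -κ + κ = y by ring] at this
      exact this
    · have := dvd_sub h1 pk
      rw [hU, add_sub_cancel_right] at this
      exact this
    · have := dvd_add h1 (pk.mul_left 3)
      rw [show (y - 1) * 1 + -(3 * κ) + 3 * κ = y - 1 by ring] at this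
      exact this
    · rcases h1 with h1 | h1
      · exact (py1 h1.2).elim
      · refine (py ?_).elim
        have := dvd_sub h1 pk
        rwa [hB', add_sub_cancel_right] at this
  · have hUB : (p : ℤ) ∣ U → ¬ (p : ℤ) ∣ B := by
      intro h1 h3
      apply prime_not_dvd_one hp
      have := dvd_sub h3 h1
      rw [hU, hB', show y + κ - (y - 1 + κ) = 1 by ring] at this
      exact this
    obtain ⟨r2, hr2⟩ : ∃ r2 : ℤ, ∀ t : ℤ, ¬ (p : ℤ) ∣ t - r2 →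
        ((p : ℤ) ∣ U → ¬ (p : ℤ) ∣ 1 * t + 3) ∧
        ((p : ℤ) ∣ B → ¬ (p : ℤ) ∣ (-1) * t + (a - 2 * κ)) := by
      by_cases pU : (p : ℤ) ∣ U
      · refine ⟨-3, fun t ht => ⟨fun _ h1 => ht ?_, fun h1 => (hUB pU h1).elim⟩⟩
        rwa [sub_neg_eq_add, ← one_mul t]
      · refine ⟨a - 2 * κ, fun t ht => ⟨fun h1 => (pU h1).elim, fun _ h1 => ht ?_⟩⟩
        rw [show t - (a - 2 * κ) = -((-1) * t + (a - 2 * κ)) by ring]
        exact (dvd_neg).2 h1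
    obtain ⟨r1, hr1⟩ : ∃ r1 : ℤ, ∀ t : ℤ, ¬ (p : ℤ) ∣ t - r1 →
        ((p : ℤ) ∣ a → ¬ (p : ℤ) ∣ y * t + (-κ)) ∧
        ((p : ℤ) ∣ R ∧ ¬ (p : ℤ) ∣ y - 1 → ¬ (p : ℤ) ∣ (y - 1) * t + (-(3 * κ))) ∧
        ((p : ℤ) ∣ R ∧ (p : ℤ) ∣ y - 1 → ¬ (p : ℤ) ∣ (-1) * t + (a - 2 * κ)) := by
      by_cases pa : (p : ℤ) ∣ a
      · obtain ⟨r, hr⟩ := lin_class hp (α := -κ) (β := y) (fun _ h1 => pk ((dvd_neg).1 h1))
        have h2y : (p : ℤ) ∣ R → (p : ℤ) ∣ 2 * y + 1 := by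
          intro h1
          have h3 : (p : ℤ) ∣ κ * (2 * y + 1) := by
            have := dvd_sub (pa.mul_left (y - 1)) h1
            rwa [hR, sub_sub_cancel] at this
          exact (hp'.dvd_or_dvd h3).resolve_left pk
        have key : ∀ t : ℤ, ¬ (p : ℤ) ∣ t - r → (p : ℤ) ∣ R → ¬ (p : ℤ) ∣ t + 2 * κ := by
          intro t ht h1 h3
          refine hr t ht ?_
          have h4 : (p : ℤ) ∣ 2 * (-κ + y * t) := by
            rw [show 2 * (-κ + y * t) = (2 * y + 1) * t - (t + 2 * κ) by ring]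
            exact dvd_sub ((h2y h1).mul_right _) h3
          exact (hp'.dvd_or_dvd h4).resolve_left h2'
        refine ⟨r, fun t ht => ⟨fun _ h1 => hr t ht ?_, fun ⟨h1, h3⟩ h4 => ?_,
          fun ⟨h1, _⟩ h4 => key t ht h1 ?_⟩⟩
        · rwa [add_comm] at h1
        · have h5 : (p : ℤ) ∣ 3 * (t + 2 * κ) := by
            rw [show 3 * (t + 2 * κ) = (2 * y + 1) * t - 2 * ((y - 1) * t + (-(3 * κ))) by ring]
            exact dvd_sub ((h2y h1).mul_right _) (h4.mul_left _)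
          rcases hp'.dvd_or_dvd h5 with h6 | h6
          · apply h3
            have h7 : (p : ℤ) ∣ 2 * (y - 1) := by
              rw [show 2 * (y - 1) = (2 * y + 1) - 3 by ring]
              exact dvd_sub (h2y h1) h6
            exact (hp'.dvd_or_dvd h7).resolve_left h2'
          · exact key t ht h1 h6
        · rw [show t + 2 * κ = a - ((-1) * t + (a - 2 * κ)) by ring]
          exact dvd_sub pa h4
      · by_cases pc : (p : ℤ) ∣ R ∧ ¬ (p : ℤ) ∣ y - 1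
        · obtain ⟨r, hr⟩ := lin_class hp (α := -(3 * κ)) (β := y - 1)
            (fun h1 => (pc.2 h1).elim)
          refine ⟨r, fun t ht => ⟨fun h1 => (pa h1).elim, fun _ h1 => hr t ht ?_,
            fun h1 => (pc.2 h1.2).elim⟩⟩
          rwa [add_comm] at h1
        · refine ⟨a - 2 * κ, fun t ht => ⟨fun h1 => (pa h1).elim, fun h1 => (pc h1).elim,
            fun _ h1 => ht ?_⟩⟩
          rw [show t - (a - 2 * κ) = -((-1) * t + (a - 2 * κ)) by ring]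
          exact (dvd_neg).2 h1
    obtain ⟨t, t1, t2⟩ := avoid2 hp hp2 r1 r2
    obtain ⟨k1, k2, k3⟩ := hr1 t t1
    obtain ⟨k4, k5⟩ := hr2 t t2
    exact ⟨t, fun h1 => (pk h1).elim, k1, k4, k2, fun h1 => h1.elim k3 k5⟩

end Pool.Agent.H4G.Six
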