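import Pool.Agent.H4G.Six.Can.Half
import Pool.Agent.H4G.Six.Can.Ev3
import Pool.Agent.H4G.Ctwo.T1420a

/-!
# The even states `PG A a a₁ 0`: the generic step (helper64, after helper19)

`A`, `a`, `a₁` even, `gcd (a, a₁) = 2`, `A` small, both tori large: the pencil with
`l = (l₁ + w i, i)`, `m = 2 (μ + w y, y)`, `i = A l₁ - 1`, `y = A μ - 1`, `μ = l₁ + h`.
-/

set_option autoImplicit false

namespace Pool.Agent.H4G.Six

open Pool.Agent.H4G

variable {N : ℤ} {J Z : ℕ}

/-- the choice of `h` -/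
theorem b5h (hB : Bg N J Z) {A a a1 : ℤ} (hN : A + a + a1 = N) (hA0 : 0 < A)
    (ha : 3 < a) (ha1 : 3 < a1) (c : ℤ) :
    ∃ h : ℤ, 0 ≤ h ∧ h < 2 * (J : ℤ) ^ 2 ∧ (2 : ℤ) ∣ h - c ∧
      (∀ p : ℕ, p.Prime → ¬ (p : ℤ) ∣ 2 → (p : ℤ) ∣ N - A - 3 → ¬ (p : ℤ) ∣ 2 * h - (a - 1)) ∧
      (∀ p : ℕ, p.Prime → ¬ (p : ℤ) ∣ 2 → (p : ℤ) ∣ A → ¬ (p : ℤ) ∣ h + 1 ∧ ¬ (p : ℤ) ∣ h - 2) := by
  have hN1 := hB.N1
  obtain ⟨h, k1, k2, k3, k4⟩ := sieveQ (k := 3) (e := 2) hB.cap (D0 := (N - A - 3) * A) (by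
      have : 0 < N - A - 3 := by linarith
      positivity) (by
      refine hB.le (n := 1 + 1) (by norm_num) (mul_le_pow2 hA0 ?_ ?_ (by linarith)) <;>
      · rw [pow_one]; linarith) (by norm_num)
    ![fun p => p ∣ N - A - 3 ∧ ¬ p ∣ 2, fun p => p ∣ A ∧ ¬ p ∣ 2, fun p => p ∣ A ∧ ¬ p ∣ 2]
    ![2, 1, 1] ![1 - a, 1, -2] (m := 2) (by norm_num) c
    (by
      intro p _ i hi
      fin_cases i
      · exact hi.1.mul_right _
      · exact hi.1.mul_left _
      · exact hi.1.mul_left _)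
    (by
      intro p hp hp2
      have hp2' : p ≠ 2 := by
        rintro rfl
        exact hp2 (by norm_num)
      obtain ⟨r, hr⟩ := lin_class hp (α := 1 - a) (β := 2) (fun h => (hp2 h).elim)
      by_cases h3 : p = 3
      · subst h3
        obtain ⟨y, y1, y2⟩ := avoid2 hp hp2' r (-1)
        refine ⟨y, fun i hi => ?_⟩
        fin_cases i
        · intro h
          refine hr y y1 ?_
          have h1 : ((3 : ℕ) : ℤ) ∣ 2 * y + (1 - a) := h
          rwa [add_comm] at h1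
        · intro h
          refine y2 ?_
          have h1 : ((3 : ℕ) : ℤ) ∣ 1 * y + 1 := h
          rw [one_mul] at h1
          rwa [sub_neg_eq_add]
        · intro h
          refine y2 ?_
          have h1 : ((3 : ℕ) : ℤ) ∣ 1 * y + -2 := h
          push_cast at h1 ⊢
          omega
      · have hp3 : 3 < p := by
          have := hp.two_le
          omega
        obtain ⟨y, y1, y2, y3⟩ := avoid3T hp3 r (-1) 2
        refine ⟨y, fun i hi => ?_⟩
        fin_cases i
        · intro h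
          refine hr y y1 ?_
          have h1 : (p : ℤ) ∣ 2 * y + (1 - a) := h
          rwa [add_comm] at h1
        · intro h
          refine y2 ?_
          have h1 : (p : ℤ) ∣ 1 * y + 1 := h
          rw [one_mul] at h1
          rwa [sub_neg_eq_add]
        · intro h
          refine y3 ?_
          have h1 : (p : ℤ) ∣ 1 * y + -2 := h
          rwa [one_mul, ← sub_eq_add_neg] at h1)
    (by
      intro p hp hp2 i hi
      fin_cases i
      · exact (hi.2 hp2).elim
      · exact (hi.2 hp2).elim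
      · exact (hi.2 hp2).elim) 0
  refine ⟨h, k1, by linarith, k3, fun p hp h2 h3 h4 => k4 p hp 0 ⟨h3, h2⟩ ?_,
    fun p hp h2 h3 => ⟨fun h4 => k4 p hp 1 ⟨h3, h2⟩ ?_, fun h4 => k4 p hp 2 ⟨h3, h2⟩ ?_⟩⟩
  · show (p : ℤ) ∣ 2 * h + (1 - a)
    rw [show 2 * h + (1 - a) = 2 * h - (a - 1) by ring]; exact h4
  · show (p : ℤ) ∣ 1 * h + 1
    rw [one_mul]; exact h4
  · show (p : ℤ) ∣ 1 * h + -2
    rw [one_mul, ← sub_eq_add_neg]; exact h4

/-- the choice of `l₁` -/
theorem b5l (hB : Bg N J Z) {A a a1 h : ℤ} (hN : A + a + a1 = N) (hA0 : 0 < A)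
    (hA2 : (2 : ℤ) ∣ A) (hg : G2 a a1) (h0 : 0 ≤ h) (ha' : 0 < a - 1 - 2 * h)
    (ha1' : 0 < a1 - 2 + 2 * h) (ha0 : 0 < a) (ha10 : 0 < a1)
    (hc : ∀ p : ℕ, p.Prime → ¬ (p : ℤ) ∣ 2 → (p : ℤ) ∣ a - 1 - 2 * h →
      ¬ (p : ℤ) ∣ a1 - 2 + 2 * h)
    (hh : ∀ p : ℕ, p.Prime → ¬ (p : ℤ) ∣ 2 → (p : ℤ) ∣ A →
      ¬ (p : ℤ) ∣ h + 1 ∧ ¬ (p : ℤ) ∣ h - 2) (z0 : ℤ) :
    ∃ l : ℤ, z0 ≤ l ∧ l < z0 + (J : ℤ) ^ 3 ∧
      (∀ p : ℕ, p.Prime → (p : ℤ) ∣ a → ¬ (p : ℤ) ∣ A * l - 1) ∧
      (∀ p : ℕ, p.Prime → (p : ℤ) ∣ a1 → ¬ (p : ℤ) ∣ A * (l + h) - 1) ∧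
      (∀ p : ℕ, p.Prime → (p : ℤ) ∣ A + 3 → ¬ (p : ℤ) ∣ 3 * l + 2 + 2 * h) ∧
      (∀ p : ℕ, p.Prime → (p : ℤ) ∣ a - 1 - 2 * h → ¬ (p : ℤ) ∣ A * l - 2 - 2 * h) ∧
      (∀ p : ℕ, p.Prime → ¬ (p : ℤ) ∣ 2 → (p : ℤ) ∣ a1 - 2 + 2 * h →
        ¬ (p : ℤ) ∣ A * (l + h) - 2 + h) := by
  have hN1 := hB.N1
  obtain ⟨s, hs⟩ := hA2
  obtain ⟨x, hx⟩ := hg.e
  obtain ⟨l, k1, k2, k4⟩ := sieveP (k := 5) (e := 3) hB.cap
    (D0 := a * a1 * (A + 3) * (a - 1 - 2 * h) * (a1 - 2 + 2 * h)) (by positivity) (by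
      have hh' : 2 * h ≤ N := by linarith
      refine hB.le (n := 1 + 1 + 1 + 1 + 1) (by norm_num) (mul_le_pow2 ha1' (mul_le_pow2 ha'
        (mul_le_pow2 (by linarith) (mul_le_pow2 ha10 ?_ ?_ (by linarith)) ?_ (by linarith)) ?_
        (by linarith)) ?_ (by linarith)) <;>
      · rw [pow_one]; linarith) (by norm_num)
    ![fun p => p ∣ a, fun p => p ∣ a1, fun p => p ∣ A + 3, fun p => p ∣ a - 1 - 2 * h,
      fun p => p ∣ a1 - 2 + 2 * h ∧ ¬ p ∣ 2]
    ![A, A, 3, A, A] ![-1, A * h - 1, 2 + 2 * h, -2 - 2 * h, A * h - 2 + h]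
    (by
      intro p _ i hi
      fin_cases i
      · exact (((Dvd.dvd.mul_right hi _).mul_right _).mul_right _).mul_right _
      · exact (((Dvd.dvd.mul_left hi _).mul_right _).mul_right _).mul_right _
      · exact ((Dvd.dvd.mul_left hi _).mul_right _).mul_right _
      · exact (Dvd.dvd.mul_left hi _).mul_right _
      · exact hi.1.mul_left _)
    (by
      intro p hp
      have hp' := Nat.prime_iff_prime_int.1 hp
      have key : ∃ y : ℤ, ((p : ℤ) ∣ a → ¬ (p : ℤ) ∣ A * y + -1) ∧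
          ((p : ℤ) ∣ a1 → ¬ (p : ℤ) ∣ A * y + (A * h - 1)) ∧
          ((p : ℤ) ∣ A + 3 → ¬ (p : ℤ) ∣ 3 * y + (2 + 2 * h)) ∧
          ((p : ℤ) ∣ a - 1 - 2 * h → ¬ (p : ℤ) ∣ A * y + (-2 - 2 * h)) ∧
          ((p : ℤ) ∣ a1 - 2 + 2 * h ∧ ¬ (p : ℤ) ∣ 2 → ¬ (p : ℤ) ∣ A * y + (A * h - 2 + h)) := by
        rcases two_or_odd hp with rfl | ⟨hp2, hp2'⟩
        · refine ⟨0, fun _ => by norm_num, fun _ h1 => ?_, fun h1 => ?_, fun h1 => ?_,
            fun h1 => ?_⟩
          · push_cast at h1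
            rw [hs, mul_zero, zero_add] at h1
            obtain ⟨t, ht⟩ := h1
            have : 2 * (s * h - t) = 1 := by linear_combination ht
            omega
          · exfalso
            push_cast at h1
            omega
          · exfalso
            push_cast at h1
            omega
          · exact (h1.2 (by norm_num)).elim
        · by_cases hpA : (p : ℤ) ∣ A
          · obtain ⟨g1, g2⟩ := hh p hp hp2' hpA
            refine ⟨0, fun _ h1 => ?_, fun _ h1 => ?_, fun h2 h1 => ?_, fun _ h1 => ?_,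
              fun _ h1 => ?_⟩
            · rw [mul_zero, zero_add] at h1
              exact prime_not_dvd_one hp ((dvd_neg).1 h1)
            · rw [mul_zero, zero_add] at h1
              have := dvd_sub (hpA.mul_right h) h1
              rw [sub_sub_cancel] at this
              exact prime_not_dvd_one hp this
            · rw [mul_zero, zero_add] at h1
              have : (p : ℤ) ∣ 2 * (h + 1) := by
                rw [show 2 * (h + 1) = 2 + 2 * h by ring]; exact h1
              rcases hp'.dvd_or_dvd this with h3 | h3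
              · exact hp2' h3
              · exact g1 h3
            · rw [mul_zero, zero_add] at h1
              have : (p : ℤ) ∣ 2 * (h + 1) := by
                rw [show 2 * (h + 1) = -(-2 - 2 * h) by ring]; exact (dvd_neg).2 h1
              rcases hp'.dvd_or_dvd this with h3 | h3
              · exact hp2' h3
              · exact g1 h3
            · rw [mul_zero, zero_add] at h1
              apply g2
              have := dvd_sub h1 (hpA.mul_right h)
              rw [show A * h - 2 + h - A * h = h - 2 by ring] at this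
              exact this
          · -- one class for `a`, `a₁`
            have e1 : ∃ r : ℤ, ∀ y : ℤ, ¬ (p : ℤ) ∣ y - r →
                ((p : ℤ) ∣ a → ¬ (p : ℤ) ∣ A * y + -1) ∧
                ((p : ℤ) ∣ a1 → ¬ (p : ℤ) ∣ A * y + (A * h - 1)) := by
              by_cases h1 : (p : ℤ) ∣ a
              · obtain ⟨r, hr⟩ := lin_class hp (α := -1) (β := A) (fun h2 => (hpA h2).elim)
                refine ⟨r, fun y hy => ⟨fun _ h3 => hr y hy ?_, fun h3 => ?_⟩⟩
                · rwa [add_comm] at h3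
                · exact (hg.odd p hp hp2' h1 h3).elim
              · obtain ⟨r, hr⟩ := lin_class hp (α := A * h - 1) (β := A)
                  (fun h2 => (hpA h2).elim)
                refine ⟨r, fun y hy => ⟨fun h3 => (h1 h3).elim, fun _ h3 => hr y hy ?_⟩⟩
                rwa [add_comm] at h3
            have e2 : ∃ r : ℤ, ∀ y : ℤ, ¬ (p : ℤ) ∣ y - r →
                ((p : ℤ) ∣ a - 1 - 2 * h → ¬ (p : ℤ) ∣ A * y + (-2 - 2 * h)) ∧
                ((p : ℤ) ∣ a1 - 2 + 2 * h ∧ ¬ (p : ℤ) ∣ 2 →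
                  ¬ (p : ℤ) ∣ A * y + (A * h - 2 + h)) := by
              by_cases h1 : (p : ℤ) ∣ a - 1 - 2 * h
              · obtain ⟨r, hr⟩ := lin_class hp (α := -2 - 2 * h) (β := A)
                  (fun h2 => (hpA h2).elim)
                refine ⟨r, fun y hy => ⟨fun _ h3 => hr y hy ?_, fun h3 => ?_⟩⟩
                · rwa [add_comm] at h3
                · exact (hc p hp hp2' h1 h3.1).elim
              · obtain ⟨r, hr⟩ := lin_class hp (α := A * h - 2 + h) (β := A)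
                  (fun h2 => (hpA h2).elim)
                refine ⟨r, fun y hy => ⟨fun h3 => (h1 h3).elim, fun _ h3 => hr y hy ?_⟩⟩
                rwa [add_comm] at h3
            obtain ⟨r1, hr1⟩ := e1
            obtain ⟨r2, hr2⟩ := e2
            by_cases h3 : p = 3
            · subst h3
              obtain ⟨y, y1, y2⟩ := avoid2 hp hp2 r1 r2
              refine ⟨y, (hr1 y y1).1, (hr1 y y1).2, fun h4 => ?_, (hr2 y y2).1, (hr2 y y2).2⟩
              exfalso
              apply hpA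
              push_cast at h4 ⊢
              omega
            · have hp3 : 3 < p := by
                have := hp.two_le
                omega
              have h33 : ¬ (p : ℤ) ∣ 3 := by
                intro h4
                have h5 : p ∣ 3 := by exact_mod_cast h4
                exact h3 ((Nat.prime_dvd_prime_iff_eq hp Nat.prime_three).1 h5)
              obtain ⟨r3, hr3⟩ := lin_class hp (α := 2 + 2 * h) (β := 3)
                (fun h2 => (h33 h2).elim)
              obtain ⟨y, y1, y2, y3⟩ := avoid3T hp3 r1 r2 r3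
              refine ⟨y, (hr1 y y1).1, (hr1 y y1).2, fun _ h4 => hr3 y y3 ?_, (hr2 y y2).1,
                (hr2 y y2).2⟩
              rwa [add_comm] at h4
      obtain ⟨y, y0, y1, y2, y3, y4⟩ := key
      refine ⟨y, fun i hi => ?_⟩
      fin_cases i
      · exact y0 hi
      · exact y1 hi
      · exact y2 hi
      · exact y3 hi
      · exact y4 hi) z0
  refine ⟨l, k1, k2, fun p hp h1 h2 => k4 p hp 0 h1 ?_, fun p hp h1 h2 => k4 p hp 1 h1 ?_,
    fun p hp h1 h2 => k4 p hp 2 h1 ?_, fun p hp h1 h2 => k4 p hp 3 h1 ?_,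
    fun p hp h2' h1 h2 => k4 p hp 4 ⟨h1, h2'⟩ ?_⟩
  · show (p : ℤ) ∣ A * l + -1
    rw [← sub_eq_add_neg]; exact h2
  · show (p : ℤ) ∣ A * l + (A * h - 1)
    rw [show A * l + (A * h - 1) = A * (l + h) - 1 by ring]; exact h2
  · show (p : ℤ) ∣ 3 * l + (2 + 2 * h)
    rw [← add_assoc]; exact h2
  · show (p : ℤ) ∣ A * l + (-2 - 2 * h)
    rw [show A * l + (-2 - 2 * h) = A * l - 2 - 2 * h by ring]; exact h2
  · show (p : ℤ) ∣ A * l + (A * h - 2 + h)
    rw [show A * l + (A * h - 2 + h) = A * (l + h) - 2 + h by ring]; exact h2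

end Pool.Agent.H4G.Six
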