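import Pool.Agent.H4G.Six.Can.B5a

/-!
# The even states `PG A a a₁ 0`: the generic step, the edge (helper64, after helper19)
-/

set_option autoImplicit false

namespace Pool.Agent.H4G.Six

open Pool.Agent.H4G

variable {N : ℤ} {J Z : ℕ}

/-- the lattice `a ∣ x` contains the primitive vector `(X, i)`, `a ∣ X`, `(i, a) = 1` -/
theorem Ld_of_dvd {X i a : ℤ} (hX : a ∣ X) (hi : IsCoprime i a) :
    Ld (X, i) a = Ld (0, 1) a := by
  obtain ⟨x1, y1, h1⟩ := hi
  apply Ld_congr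
  intro x
  have e1 : cr x (X, i) = x.1 * i - x.2 * X := rfl
  have e2 : cr x (0, 1) = x.1 := by simp [cr]
  rw [e1, e2]
  constructor
  · intro h
    have h5 : a ∣ x.1 * i := by
      have := dvd_add h (hX.mul_left x.2)
      rwa [sub_add_cancel] at this
    have : x.1 = x1 * (x.1 * i) + a * (y1 * x.1) := by linear_combination (-x.1) * h1
    rw [this]
    exact dvd_add (h5.mul_left _) (dvd_mul_right _ _)
  · intro h
    exact dvd_sub (h.mul_right _) (hX.mul_left _)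

/-- the vector `(a₁ x, 2 y)` in the lattice `a₁ ∣ x` -/
theorem lat_of_cop {x y a1 r s : ℤ} (h : r * (2 * y) - s * x = 1) :
    lat ((a1 * x, 2 * y) : Z2) (a1 * r, s) = Ld (0, 1) a1 := by
  have e1 : lat ((a1 * x, 2 * y) : Z2) (a1 * r, s) = lat ((0, 1) : Z2) (a1, 0) := by
    refine closure_pair_eq (α := 2 * y) (β := x) (γ := s) (δ := r) ?_ ?_ (Or.inl ?_)
    · ext
      · simp; ring
      · simp
    · ext
      · simp; ring
      · simp
    · linarith
  rw [e1, lat_eq_Ld isCoprime_one_right]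
  have e2 : cr ((a1, 0) : Z2) (0, 1) = a1 := by simp [cr]
  rw [e2]

/-- **the generic step for the even states** -/
theorem b5gen (hB : Bg N J Z) {A a a1 : ℤ} (hN : A + a + a1 = N) (hA0 : 0 < A)
    (hA2 : (2 : ℤ) ∣ A) (hAJ : A ≤ 16 * J) (ha : (J : ℤ) ^ 5 ≤ a) (ha1 : (J : ℤ) ^ 5 ≤ a1)
    (hg : G2 a a1) :
    ∃ A' a' a1' : ℤ, Gd N A' a' a1' ∧ SEq6 (PG A a a1 0) (PG A' a' a1' 0) := by
  have hN1 := hB.N1
  have hJ := hB.J20
  have hp0 := hB.pows 0
  have hp1 := hB.pows 1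
  have hp2 := hB.pows 2
  have hp3 := hB.pows 3
  have hp4 := hB.pows 4
  norm_num at hp0 hp1 hp2 hp3 hp4
  have hAe := hA2
  obtain ⟨s, hs⟩ := hA2
  obtain ⟨x0, hx0⟩ := hg.e
  obtain ⟨c, hc⟩ := hg.e'
  -- the choice of `h`
  obtain ⟨h, h0, h1, h2, h3, h4⟩ := b5h hB hN hA0 (by linarith) (by linarith) c
  obtain ⟨e, he⟩ := h2
  have hcop : ∀ p : ℕ, p.Prime → ¬ (p : ℤ) ∣ 2 → (p : ℤ) ∣ a - 1 - 2 * h →
      ¬ (p : ℤ) ∣ a1 - 2 + 2 * h := by
    intro p hp hp2 g1 g2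
    refine h3 p hp hp2 ?_ ?_
    · have := dvd_add g1 g2
      rw [show a - 1 - 2 * h + (a1 - 2 + 2 * h) = N - A - 3 by rw [← hN]; ring] at this
      exact this
    · have := (dvd_neg).2 g1
      rw [show -(a - 1 - 2 * h) = 2 * h - (a - 1) by ring] at this
      exact this
  have hgd : IsCoprime (a - 1 - 2 * h) (a1 - 2 + 2 * h) := by
    refine cop_of_odd2 (by omega) fun p hp hp2 g1 g2 => hcop p hp hp2 g2 g1
  -- the choice of `l₁`
  obtain ⟨l, l1, l2, l3, l4, l5, l6, l7⟩ := b5l hB hN hA0 hAe hg h0 (by linarith) (by linarith)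
    (by linarith) (by linarith) hcop h4 (h + 2)
  have hl0 : 0 < l := by linarith
  have hAl : A * (l + h) ≤ 32 * (J : ℤ) ^ 4 := by
    have e1 : l + h ≤ 2 * (J : ℤ) ^ 3 := by linarith
    calc A * (l + h) ≤ (16 * J) * (2 * (J : ℤ) ^ 3) :=
          mul_le_mul hAJ e1 (by linarith) (by linarith)
      _ = 32 * (J : ℤ) ^ 4 := by ring
  have hAh : 0 ≤ A * h := mul_nonneg hA0.le h0
  have hAl1 : 2 * l ≤ A * l := by
    have : 2 ≤ A := by omega
    exact mul_le_mul_of_nonneg_right this hl0.le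
  have eAl : A * (l + h) = A * l + A * h := by ring
  obtain ⟨μ, hμ⟩ : ∃ μ, μ = l + h := ⟨_, rfl⟩
  obtain ⟨i, hi⟩ : ∃ i, i = A * l - 1 := ⟨_, rfl⟩
  obtain ⟨y, hy⟩ : ∃ y, y = A * μ - 1 := ⟨_, rfl⟩
  have hy' : y = A * l + A * h - 1 := by rw [hy, hμ, eAl]
  have hi0 : 0 < i := by linarith
  have hy0 : 0 < y := by linarith
  have hio : ¬ (2 : ℤ) ∣ i := by
    rintro ⟨t, ht⟩
    have : 2 * (s * l - t) = 1 := by linear_combination (-l) * hs + ht - hi
    omega
  have hyo : ¬ (2 : ℤ) ∣ y := by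
    rintro ⟨t, ht⟩
    have : 2 * (s * μ - t) = 1 := by linear_combination (-μ) * hs + ht - hy
    omega
  have cia : IsCoprime i a :=
    isCoprime_of_prime fun p hp g1 g2 => l3 p hp g1 (by rw [← hi]; exact g2)
  have cya : IsCoprime y a1 :=
    isCoprime_of_prime fun p hp g1 g2 => l4 p hp g1 (by rw [← hμ, ← hy]; exact g2)
  have cli : IsCoprime l i := ⟨A, -1, by rw [hi]; ring⟩
  -- the shear
  obtain ⟨x1, y1, hxy1⟩ := cia
  obtain ⟨x2, y2, hxy2⟩ := cya
  have hx1o : ¬ (2 : ℤ) ∣ x1 := by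
    rintro ⟨t, ht⟩
    have : 2 * (t * i + y1 * x0) = 1 := by
      linear_combination hxy1 - i * ht - y1 * hx0
    omega
  have hx2o : ¬ (2 : ℤ) ∣ x2 := by
    rintro ⟨t, ht⟩
    have : 2 * (t * y + y2 * c) = 1 := by
      linear_combination hxy2 - y * ht - y2 * hc
    omega
  have hgc : (Int.gcd a a1 : ℤ) ∣ ((c - μ) * x2) - (-(l * x1)) := by
    refine hg.dvd ?_
    obtain ⟨t1, ht1⟩ : ∃ t, x1 = 2 * t + 1 := ⟨x1 / 2, by omega⟩
    obtain ⟨t2, ht2⟩ : ∃ t, x2 = 2 * t + 1 := ⟨x2 / 2, by omega⟩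
    refine ⟨(c - μ) * t2 + l * t1 - e, ?_⟩
    rw [ht1, ht2, hμ]
    linear_combination (-1 : ℤ) * he
  obtain ⟨w, hw1, hw2⟩ := crt2 hgc
  have hwl : a ∣ l + w * i := by
    obtain ⟨n, hn⟩ := hw1
    refine ⟨n * i + y1 * l, ?_⟩
    linear_combination i * hn + (-l) * hxy1
  obtain ⟨n, hn⟩ : a1 ∣ μ + w * y - c := by
    obtain ⟨n, hn⟩ := hw2
    refine ⟨n * y - y2 * (c - μ), ?_⟩
    linear_combination y * hn + (c - μ) * hxy2
  obtain ⟨X, hX⟩ : ∃ X, X = 2 * n + 1 := ⟨_, rfl⟩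
  have hXm : 2 * (μ + w * y) = a1 * X := by
    rw [hX]
    linear_combination 2 * hn - hc
  have hXo : ¬ (2 : ℤ) ∣ X := by omega
  have cXy : IsCoprime (2 * y) X := by
    refine (cop_of_odd2 hXo fun p hp hp2 g1 g2 => ?_).symm
    have hp' := Nat.prime_iff_prime_int.1 hp
    have g3 := (hp'.dvd_or_dvd g1).resolve_left hp2
    have g4 : (p : ℤ) ∣ 2 * μ := by
      have : 2 * μ = a1 * X - 2 * w * y := by linear_combination hXm
      rw [this]
      exact dvd_sub (g2.mul_left _) (g3.mul_left _)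
    have g5 := (hp'.dvd_or_dvd g4).resolve_left hp2
    have : (1 : ℤ) = A * μ - y := by rw [hy]; ring
    refine prime_not_dvd_one hp ?_
    rw [this]
    exact dvd_sub (g5.mul_left _) g3
  obtain ⟨r, s', hrs⟩ := cXy
  obtain ⟨σ, hσ⟩ : ∃ σ, σ = -s' := ⟨_, rfl⟩
  have hrs' : r * (2 * y) - σ * X = 1 := by rw [hσ]; linarith
  have hσo : ¬ (2 : ℤ) ∣ σ := by
    rintro ⟨t, ht⟩
    have : 2 * (r * y - t * X) = 1 := by linear_combination hrs' + X * ht
    omega
  -- the basis of `L`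
  have hl : IsCoprime ((l + w * i, i) : Z2).1 ((l + w * i, i) : Z2).2 := by
    obtain ⟨α, β, hab⟩ := cli
    exact ⟨α, β - α * w, by
      show α * (l + w * i) + (β - α * w) * i = 1
      linear_combination hab⟩
  obtain ⟨p0, hp0'⟩ := exists_dual hl
  have ep : cr (a • p0) (l + w * i, i) = a := by rw [cr_smul_left, hp0', mul_one]
  have eL : lat ((l + w * i, i) : Z2) (a • p0) = Ld (0, 1) a := by
    rw [lat_eq_Ld hl, ep]
    exact Ld_of_dvd hwl ⟨x1, y1, hxy1⟩
  have eM : lat ((a1 * X, 2 * y) : Z2) (a1 * r, σ) = Ld (0, 1) a1 := lat_of_cop hrs'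
  have ep' : cr ((a1 * r, σ) : Z2) (a1 * X, 2 * y) = a1 := by
    show a1 * r * (2 * y) - σ * (a1 * X) = a1
    linear_combination a1 * hrs'
  -- the new centre
  obtain ⟨κ, hκ⟩ : ∃ κ, κ = 2 + l + 2 * μ := ⟨_, rfl⟩
  obtain ⟨W, hW⟩ : ∃ W, W = A + i + 2 * y := ⟨_, rfl⟩
  have f0 : cr ((κ + w * W, W) : Z2) (1 + w * A, A) = A + 3 := by
    show (κ + w * W) * A - W * (1 + w * A) = A + 3
    rw [hκ, hW, hy, hi]; ring
  have f1 : cr ((κ + w * W, W) : Z2) (l + w * i, i) = A * l - 2 - 2 * h := by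
    show (κ + w * W) * i - W * (l + w * i) = A * l - 2 - 2 * h
    rw [hκ, hW, hy, hi, hμ]; ring
  have f2 : cr ((κ + w * W, W) : Z2) (a1 * X, 2 * y) = 2 * (A * (l + h) - 2 + h) := by
    rw [← hXm]
    show (κ + w * W) * (2 * y) - W * (2 * (μ + w * y)) = 2 * (A * (l + h) - 2 + h)
    rw [hκ, hW, hy, hi, hμ]; ring
  have e0 : cr ((1, 0) : Z2) (1 + w * A, A) = A := by simp [cr]
  have e1 : cr ((1, 0) : Z2) (l + w * i, i) = i := by simp [cr]
  have e2 : cr ((1, 0) : Z2) (a1 * X, 2 * y) = 2 * y := by simp [cr]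
  have hu : IsCoprime ((κ + w * W, W) : Z2).1 ((κ + w * W, W) : Z2).2 := by
    have : IsCoprime κ W := by
      refine isCoprime_of_prime fun p hp g1 g2 => l5 p hp ?_ ?_
      · have : A + 3 = κ * A - W := by rw [hκ, hW, hy, hi]; ring
        rw [this]
        exact dvd_sub (g2.mul_right _) g1
      · rw [show 3 * l + 2 + 2 * h = κ by rw [hκ, hμ]; ring]; exact g2
    obtain ⟨α, β, hab⟩ := this
    exact ⟨α, β - α * w, by
      show α * (κ + w * W) + (β - α * w) * W = 1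
      linear_combination hab⟩
  -- parities
  have hwo : (2 : ℤ) ∣ l + w * i := (Dvd.intro _ hx0.symm).trans hwl
  have s0 := SEq6.tv (PG.ok hA0 (by linarith : 1 < a) (by linarith : 1 < a1) (z := 0)) (1 + w * A)
  have ev : ((0, A) : Z2) + (1 + w * A) • ((1, 0) : Z2) = (1 + w * A, A) := by
    ext
    · simp
    · simp
  rw [ev] at s0
  obtain ⟨z, hz⟩ := half (L := Ld (0, 1) a) (M := Ld (0, 1) a1) (u := (1, 0))
    (v := (1 + w * A, A)) (u' := (κ + w * W, W)) (l := (l + w * i, i)) (p := a • p0)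
    (m := (a1 * X, 2 * y)) (p' := (a1 * r, σ)) (k := 1) (A' := A + 3) (a' := a - 1 - 2 * h)
    (a1' := a1 - 2 + 2 * h) (by rw [e0]; exact hA0) eL (by rw [e1]; exact hi0)
    (by rw [e1, ep]; linarith) eM (by rw [e2]; linarith) (by rw [e2, ep']; linarith)
    (by
      rw [one_smul]
      have : (a1 * X, 2 * y) = ((2 * (μ + w * y), 2 * y) : Z2) := by rw [hXm]
      rw [this]
      ext
      · show κ + w * W = 1 + (1 + w * A + (l + w * i) + 2 * (μ + w * y))
        rw [hκ, hW]; ring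
      · show W = 0 + (A + i + 2 * y)
        rw [hW]; ring)
    f0 (by rw [ep, e1, f1, hi]; ring) (by rw [ep', e2, f2, hy, hμ]; ring) (by linarith)
    (by rw [f1]; linarith) (by rw [f2]; linarith)
    (by
      refine cop_cont hu ?_
      rw [f1, cr_add_left, cr_sub_left, ep, f1, e1]
      refine isCoprime_of_prime fun p hp g1 g2 => l6 p hp ?_ g2
      rw [show a - 1 - 2 * h = a + (A * l - 2 - 2 * h - i) by rw [hi]; ring]
      exact g1)
    (by
      refine cop_cont2 hu ?_ ?_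
      · intro p hp hp2 g1 g2
        rw [f2] at g2
        rw [cr_add_left, cr_sub_left, ep', f2, e2] at g1
        have hp' := Nat.prime_iff_prime_int.1 hp
        refine l7 p hp hp2 ?_ ((hp'.dvd_or_dvd g2).resolve_left hp2)
        rw [show a1 - 2 + 2 * h = a1 + (2 * (A * (l + h) - 2 + h) - 2 * y) by
          rw [hy, hμ]; ring]
        exact g1
      · rw [cr_add_right, cr_sub_right, cr_self]
        have e3 : cr ((κ + w * W, W) : Z2) (a1 * r, σ) = (κ + w * W) * σ - W * (a1 * r) := rfl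
        have e4 : cr ((κ + w * W, W) : Z2) (1, 0) = -W := by simp [cr]
        rw [e3, e4]
        rintro ⟨t, ht⟩
        obtain ⟨t1, ht1⟩ := hwo
        obtain ⟨t2, ht2⟩ : ∃ t, i = 2 * t + 1 := ⟨i / 2, by omega⟩
        obtain ⟨t3, ht3⟩ : ∃ t, σ = 2 * t + 1 := ⟨σ / 2, by omega⟩
        have hWo : W = 2 * (s + t2 + y) + 1 := by rw [hW, hs, ht2]; ring
        have hκo : κ + w * W = 2 * (t1 + 1 + μ + w * (s + y)) := by
          rw [hκ, hW, hs]
          linear_combination ht1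
        rw [hκo, hWo, hc] at ht
        have : 2 * (t - (t1 + 1 + μ + w * (s + y)) * σ + (2 * (s + t2 + y) + 1) * (c * r) -
            (s + t2 + y)) = 1 := by linear_combination (-1 : ℤ) * ht
        omega)
  have hz0 := hz.trans (PG.congr (z' := 0) (by linarith) (by linarith) (by linarith)
    (gcd_dvd_of_cop hgd))
  exact ⟨_, _, _, ⟨by linarith, by linarith, by linarith, by linarith, hgd⟩, s0.trans hz0⟩

end Pool.Agent.H4G.Six
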