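import Pool.Agent.H4G.Six.Can.B5b

/-!
# Every state `PG A a a₁ 0` with all areas even, `a ≠ a₁`, is equivalent to a good state
(helper64, after helper19)
-/

set_option autoImplicit false

namespace Pool.Agent.H4G.Six

open Pool.Agent.H4G

variable {N : ℤ} {J Z : ℕ}

theorem exists_c4 {a : ℤ} (h : (2 : ℤ) ∣ a) : ∃ c : ℤ, (2 : ℤ) ∣ c ∧ ¬ (4 : ℤ) ∣ a + c := by
  by_cases h4 : (4 : ℤ) ∣ a
  · exact ⟨2, by norm_num, by omega⟩
  · exact ⟨0, by norm_num, by omega⟩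

/-- (R) with `t` even near `A / 2` -/
theorem rEven (hB : Bg N J Z) {A a a1 : ℤ} (hA : 8 * (J : ℤ) + 2 ≤ A) (hA2 : (2 : ℤ) ∣ A)
    (ha : 1 < a) (ha1 : 1 < a1) (hN : A + a + a1 = N) (h2 : (2 : ℤ) ∣ a) (h2' : (2 : ℤ) ∣ a1)
    (hne : a ≠ a1) :
    ∃ t : ℤ, 0 ≤ t ∧ A ≤ 2 * t + 16 * J ∧ 0 < A - 2 * t ∧ (2 : ℤ) ∣ A - 2 * t ∧
      G2 (a + t) (a1 + t) ∧ SEq6 (PG A a a1 0) (PG (A - 2 * t) (a + t) (a1 + t) 0) := by
  have hN1 := hB.N1
  have hJ := hB.J1
  have hne' : a - a1 ≠ 0 := sub_ne_zero.2 hne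
  have habs : 0 < |a - a1| := abs_pos.2 hne'
  have hsz : (A + 2) * (a - 1) * (a1 - 1) * |a - a1| ≤ (Z : ℤ) := by
    refine hB.le (n := 1 + 1 + 1 + 1) (by norm_num) ?_
    refine mul_le_pow2 habs (mul_le_pow2 (by linarith) (mul_le_pow2 (by linarith) ?_ ?_
      (by linarith)) ?_ (by linarith)) ?_ (by linarith)
    · rw [pow_one]; linarith
    · rw [pow_one]; linarith
    · rw [pow_one]; linarith
    · rw [pow_one, abs_le]; constructor <;> linarith
  obtain ⟨s, hs⟩ := hA2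
  obtain ⟨c, hc, hc4⟩ := exists_c4 h2
  obtain ⟨t, k1, k2, k3', k3⟩ := sieveQ (k := 2) (e := 1) hB.cap
    (D0 := (A + 2) * (a - 1) * (a1 - 1) * |a - a1|) (by
      have h1 : 0 < a1 - 1 := by linarith
      have h2 : 0 < a - 1 := by linarith
      have h3 : 0 < A + 2 := by linarith
      positivity) hsz (by norm_num)
    ![fun p => p ∣ (A + 2) * (a - 1) * (a1 - 1) ∧ ¬ p ∣ 2, fun p => p ∣ a - a1 ∧ ¬ p ∣ 2]
    ![1, 1] ![1, a] (m := 4) (by norm_num) c
    (by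
      intro p _ i hi
      fin_cases i
      · exact hi.1.mul_right _
      · exact Dvd.dvd.mul_left ((dvd_abs _ _).2 hi.1) _)
    (by
      intro p hp hp4
      have hp2 : p ≠ 2 := by
        rintro rfl
        exact hp4 (by norm_num)
      obtain ⟨y, y1, y2⟩ := avoid2 hp hp2 (-1) (-a)
      refine ⟨y, fun i hi => ?_⟩
      fin_cases i
      · intro h
        have h1 : (p : ℤ) ∣ 1 * y + 1 := h
        rw [one_mul] at h1
        exact y1 (by rwa [sub_neg_eq_add])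
      · intro h
        have h1 : (p : ℤ) ∣ 1 * y + a := h
        rw [one_mul] at h1
        exact y2 (by rwa [sub_neg_eq_add]))
    (by
      intro p hp hp4 i hi
      have hp2 : (p : ℤ) ∣ 2 := by
        have h22 : (4 : ℤ) = 2 * 2 := by norm_num
        rw [h22] at hp4
        rcases (Nat.prime_iff_prime_int.1 hp).dvd_or_dvd hp4 with h' | h' <;> exact h'
      fin_cases i
      · exact (hi.2 hp2).elim
      · exact (hi.2 hp2).elim) (s - 1 - 4 * J)
  rw [pow_one] at k2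
  obtain ⟨w, hw⟩ := k3'
  obtain ⟨c', hc'⟩ := hc
  have ht2 : (2 : ℤ) ∣ t := ⟨2 * w + c', by linarith⟩
  have ht0 : 0 ≤ t := by linarith
  have q0 : ∀ p : ℕ, p.Prime → ¬ (p : ℤ) ∣ 2 → (p : ℤ) ∣ (A + 2) * (a - 1) * (a1 - 1) →
      ¬ (p : ℤ) ∣ 1 + t := by
    intro p hp hp2 hd h
    refine k3 p hp 0 ⟨hd, hp2⟩ ?_
    simpa [add_comm] using h
  have q1 : ∀ p : ℕ, p.Prime → ¬ (p : ℤ) ∣ 2 → (p : ℤ) ∣ a - a1 → ¬ (p : ℤ) ∣ a + t := by
    intro p hp hp2 hd h
    refine k3 p hp 1 ⟨hd, hp2⟩ ?_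
    simpa [add_comm] using h
  have hto : ¬ (2 : ℤ) ∣ 1 + t := by omega
  refine ⟨t, ht0, by linarith, by linarith, ⟨s - t, by rw [hs]; ring⟩,
    ⟨dvd_add h2 ht2, dvd_add h2' ht2, fun h => hc4 ?_, fun p hp hp2 g1 g2 => ?_⟩, ?_⟩
  · have : a + c = (a + t) - 4 * w := by linear_combination hw * (-1)
    rw [this]
    exact dvd_sub h.1 (dvd_mul_right _ _)
  · refine q1 p hp hp2 ?_ g1
    have := dvd_sub g1 g2
    rw [show a + t - (a1 + t) = a - a1 by ring] at this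
    exact this
  · refine rT (by linarith) ha ha1 ht0 ?_ ?_ ?_
    · exact cop_of_odd2 hto fun p hp hp2 h1 h2 => q0 p hp hp2 ((h1.mul_right _).mul_right _) h2
    · exact cop_of_odd2 hto fun p hp hp2 h1 h2 => q0 p hp hp2 ((h1.mul_left _).mul_right _) h2
    · exact cop_of_odd2 hto fun p hp hp2 h1 h2 => q0 p hp hp2 (h1.mul_left _) h2

/-- (R) read backwards, `t` even -/
theorem upEven (hB : Bg N J Z) {A a a1 : ℤ} (hA : 0 < A)
    (ha : 4 * (J : ℤ) + 2 ≤ a) (ha1 : 4 * (J : ℤ) + 2 ≤ a1) (hN : A + a + a1 = N)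
    (h2 : (2 : ℤ) ∣ a) (h2' : (2 : ℤ) ∣ a1) (hne : a ≠ a1) :
    ∃ t : ℤ, 0 ≤ t ∧ t < 4 * J ∧ G2 (a - t) (a1 - t) ∧
      SEq6 (PG A a a1 0) (PG (A + 2 * t) (a - t) (a1 - t) 0) := by
  have hN1 := hB.N1
  have hJ := hB.J1
  have hne' : a - a1 ≠ 0 := sub_ne_zero.2 hne
  have habs : 0 < |a - a1| := abs_pos.2 hne'
  have hsz : A * a * a1 * |a - a1| ≤ (Z : ℤ) := by
    refine hB.le (n := 1 + 1 + 1 + 1) (by norm_num) ?_
    refine mul_le_pow2 habs (mul_le_pow2 (by linarith) (mul_le_pow2 (by linarith) ?_ ?_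
      (by linarith)) ?_ (by linarith)) ?_ (by linarith)
    · rw [pow_one]; linarith
    · rw [pow_one]; linarith
    · rw [pow_one]; linarith
    · rw [pow_one, abs_le]; constructor <;> linarith
  obtain ⟨c, hc, hc4⟩ := exists_c4 h2
  obtain ⟨t, k1, k2, k3', k3⟩ := sieveQ (k := 2) (e := 1) hB.cap
    (D0 := A * a * a1 * |a - a1|) (by
      have h1 : 0 < a1 := by linarith
      have h2 : 0 < a := by linarith
      positivity) hsz (by norm_num)
    ![fun p => p ∣ A * a * a1 ∧ ¬ p ∣ 2, fun p => p ∣ a - a1 ∧ ¬ p ∣ 2]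
    ![1, 1] ![1, -a] (m := 4) (by norm_num) c
    (by
      intro p _ i hi
      fin_cases i
      · exact hi.1.mul_right _
      · exact Dvd.dvd.mul_left ((dvd_abs _ _).2 hi.1) _)
    (by
      intro p hp hp4
      have hp2 : p ≠ 2 := by
        rintro rfl
        exact hp4 (by norm_num)
      obtain ⟨y, y1, y2⟩ := avoid2 hp hp2 (-1) a
      refine ⟨y, fun i hi => ?_⟩
      fin_cases i
      · intro h
        have h1 : (p : ℤ) ∣ 1 * y + 1 := h
        rw [one_mul] at h1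
        exact y1 (by rwa [sub_neg_eq_add])
      · intro h
        have h1 : (p : ℤ) ∣ 1 * y + -a := h
        rw [one_mul] at h1
        exact y2 (by rwa [sub_eq_add_neg]))
    (by
      intro p hp hp4 i hi
      have hp2 : (p : ℤ) ∣ 2 := by
        have h22 : (4 : ℤ) = 2 * 2 := by norm_num
        rw [h22] at hp4
        rcases (Nat.prime_iff_prime_int.1 hp).dvd_or_dvd hp4 with h' | h' <;> exact h'
      fin_cases i
      · exact (hi.2 hp2).elim
      · exact (hi.2 hp2).elim) 0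
  rw [pow_one] at k2
  obtain ⟨w, hw⟩ := k3'
  obtain ⟨c', hc'⟩ := hc
  have ht2 : (2 : ℤ) ∣ t := ⟨2 * w + c', by linarith⟩
  have q0 : ∀ p : ℕ, p.Prime → ¬ (p : ℤ) ∣ 2 → (p : ℤ) ∣ A * a * a1 → ¬ (p : ℤ) ∣ 1 + t := by
    intro p hp hp2 hd h
    refine k3 p hp 0 ⟨hd, hp2⟩ ?_
    simpa [add_comm] using h
  have q1 : ∀ p : ℕ, p.Prime → ¬ (p : ℤ) ∣ 2 → (p : ℤ) ∣ a - a1 → ¬ (p : ℤ) ∣ a - t := by
    intro p hp hp2 hd h
    refine k3 p hp 1 ⟨hd, hp2⟩ ?_
    show (p : ℤ) ∣ 1 * t + -a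
    have e : 1 * t + -a = -(a - t) := by ring
    rw [e]; exact (dvd_neg).2 h
  have hto : ¬ (2 : ℤ) ∣ 1 + t := by omega
  refine ⟨t, k1, by linarith,
    ⟨dvd_sub h2 ht2, dvd_sub h2' ht2, fun h => hc4 ?_, fun p hp hp2 g1 g2 => ?_⟩, ?_⟩
  · have h5 := h.1
    omega
  · refine q1 p hp hp2 ?_ g1
    have := dvd_sub g1 g2
    rw [show a - t - (a1 - t) = a - a1 by ring] at this
    exact this
  · refine upT hA (by linarith) (by linarith) k1 ?_ ?_ ?_
    · exact cop_of_odd2 hto fun p hp hp2 h1 h2 => q0 p hp hp2 ((h1.mul_right _).mul_right _) h2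
    · exact cop_of_odd2 hto fun p hp hp2 h1 h2 => q0 p hp hp2 ((h1.mul_left _).mul_right _) h2
    · exact cop_of_odd2 hto fun p hp hp2 h1 h2 => q0 p hp hp2 (h1.mul_left _) h2

/-- the step (U) with `l₁ = g s`, `g` even -/
theorem uEven (hB : Bg N J Z) {A a a1 : ℤ} (hA : 0 < A) (hA' : A ≤ (J : ℤ) ^ 6) (ha : 1 < a)
    (ha1 : 1 < a1) (ha1' : a1 ≤ 2 * (J : ℤ) ^ 5) (hN : A + a + a1 = N)
    (h2 : (2 : ℤ) ∣ a) (h2' : (2 : ℤ) ∣ a1) :
    ∃ l : ℤ, (J : ℤ) ^ 6 ≤ l ∧ (A + 1) * l ≤ (J : ℤ) ^ 18 ∧ (2 : ℤ) ∣ l ∧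
      SEq6 (PG A a a1 0) (PG ((1 + l) * A) (a - (A + 1) * l) (a1 + l) 0) := by
  have hN1 := hB.N1
  have hJ := hB.J1
  have e1J : (J : ℤ) ≤ (J : ℤ) ^ 6 := by
    have := pow_le_pow_right₀ hB.J1 (show 1 ≤ 6 by norm_num)
    rwa [pow_one] at this
  have e1 : (1 : ℤ) ≤ (J : ℤ) ^ 6 := le_trans hJ e1J
  have e2 : (J : ℤ) ^ 2 ≤ (J : ℤ) ^ 18 := pow_le_pow_right₀ hB.J1 (by norm_num)
  have e5 : (J : ℤ) ^ 5 ≤ (J : ℤ) ^ 18 := pow_le_pow_right₀ hB.J1 (by norm_num)
  have e6 : (J : ℤ) ^ 6 ≤ (J : ℤ) ^ 18 := pow_le_pow_right₀ hB.J1 (by norm_num)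
  have e17 := hB.pows 17
  have e18 := hB.pows 18
  norm_num at e17 e18
  have hN8 := hB.pw (n := 19) (by norm_num)
  -- the gcd
  obtain ⟨g, hg⟩ : ∃ g : ℤ, g = (Int.gcd a a1 : ℤ) := ⟨_, rfl⟩
  have hg2 : (2 : ℤ) ∣ g := by
    rw [hg]
    exact Int.dvd_coe_gcd h2 h2'
  obtain ⟨α, hα⟩ : g ∣ a := by rw [hg]; exact Int.gcd_dvd_left a a1
  obtain ⟨β, hβ⟩ : g ∣ a1 := by rw [hg]; exact Int.gcd_dvd_right a a1
  have hg0 : 0 < g := by
    rw [hg]
    exact_mod_cast Int.gcd_pos_of_ne_zero_left a1 (by omega : a ≠ 0)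
  have hα0 : 0 < α := by
    by_contra h
    push Not at h
    have : g * α ≤ 0 := mul_nonpos_of_nonneg_of_nonpos hg0.le h
    linarith
  have hβ0 : 0 < β := by
    by_contra h
    push Not at h
    have : g * β ≤ 0 := mul_nonpos_of_nonneg_of_nonpos hg0.le h
    linarith
  have hga : g ≤ a1 := by
    have : g * 1 ≤ g * β := mul_le_mul_of_nonneg_left (by linarith only [hβ0]) hg0.le
    linarith only [this, hβ]
  have hcop : IsCoprime α β := by
    rw [Int.isCoprime_iff_gcd_eq_one]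
    have h1 : Int.gcd (g * α) (g * β) = g.natAbs * Int.gcd α β := Int.gcd_mul_left _ _ _
    rw [← hα, ← hβ] at h1
    have h2 : (Int.gcd a a1 : ℤ) = g * (Int.gcd α β : ℤ) := by
      rw [h1]; push_cast; rw [abs_of_pos hg0]
    rw [← hg] at h2
    have h3 : (Int.gcd α β : ℤ) = 1 := by
      have h4 : g * ((Int.gcd α β : ℤ) - 1) = 0 := by linear_combination -h2
      rcases mul_eq_zero.1 h4 with h5 | h5
      · exact absurd h5 hg0.ne'
      · linarith
    exact_mod_cast h3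
  have hR : 0 < α + (A + 1) * β := by positivity
  have hαN : α ≤ a := by
    have : 1 * α ≤ g * α := mul_le_mul_of_nonneg_right (by linarith only [hg0]) hα0.le
    linarith only [this, hα]
  have hβN : β ≤ a1 := by
    have : 1 * β ≤ g * β := mul_le_mul_of_nonneg_right (by linarith only [hg0]) hβ0.le
    linarith only [this, hβ]
  -- the choice of `s`
  obtain ⟨s, s1, s2, s3⟩ := sieveP (k := 2) (e := 1) hB.cap
    (D0 := (a1 - 1) * (α + (A + 1) * β)) (by
      have : 0 < a1 - 1 := by linarith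
      positivity) (by
      refine hB.le (n := 1 + 2) (by norm_num) (mul_le_pow2 hR ?_ ?_ (by linarith))
      · rw [pow_one]; linarith only [hN, hA, ha, hN1]
      · have g1 : A + 1 ≤ N := by linarith only [hN, ha, ha1]
        have g2 : β ≤ N := by linarith only [hN, ha, hA, hβN]
        have h1 : (A + 1) * β ≤ N * N := mul_le_mul g1 g2 hβ0.le (by linarith only [hN1])
        have g3 : α ≤ N := by linarith only [hN, ha1, hA, hαN]
        nlinarith only [h1, g3, hN1]) (by norm_num)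
    ![fun p => p ∣ a1 - 1, fun p => p ∣ α + (A + 1) * β] ![g, 1] ![1, β]
    (by
      intro p _ i hi
      fin_cases i
      · exact hi.mul_right _
      · exact Dvd.dvd.mul_left hi _)
    (by
      intro p hp
      refine ⟨0, fun i hi => ?_⟩
      fin_cases i
      · intro h
        have h1 : (p : ℤ) ∣ g * 0 + 1 := h
        rw [mul_zero, zero_add] at h1
        exact prime_not_dvd_one hp h1
      · intro h
        have h1 : (p : ℤ) ∣ 1 * 0 + β := h
        rw [mul_zero, zero_add] at h1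
        have h2 : (p : ℤ) ∣ α + (A + 1) * β := hi
        have h3 : (p : ℤ) ∣ α := by
          have := dvd_sub h2 (h1.mul_left (A + 1))
          simpa using this
        exact not_dvd_of_isCoprime hcop hp h1 h3) ((J : ℤ) ^ 6)
  rw [pow_one] at s2
  obtain ⟨l, hl⟩ : ∃ l, l = g * s := ⟨_, rfl⟩
  have hs0 : 0 < s := by linarith
  have hl1 : (J : ℤ) ^ 6 ≤ l := by
    have : 1 * s ≤ g * s := mul_le_mul_of_nonneg_right (by linarith) hs0.le
    rw [hl]; linarith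
  have hl2 : l ≤ 4 * (J : ℤ) ^ 11 := by
    rw [hl]
    calc g * s ≤ (2 * (J : ℤ) ^ 5) * (2 * (J : ℤ) ^ 6) := by
          apply mul_le_mul <;> linarith
      _ = 4 * (J : ℤ) ^ 11 := by ring
  have hl0 : 0 < l := by rw [hl]; exact mul_pos hg0 hs0
  have hlo : (2 : ℤ) ∣ l := by rw [hl]; exact hg2.mul_right _
  have hAl0 : 0 < (A + 1) * l := by positivity
  have hAl : (A + 1) * l ≤ (J : ℤ) ^ 18 := by
    calc (A + 1) * l ≤ (2 * (J : ℤ) ^ 6) * (4 * (J : ℤ) ^ 11) := by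
          apply mul_le_mul <;> linarith
      _ = 8 * (J : ℤ) ^ 17 := by ring
      _ ≤ (J : ℤ) ^ 18 := by linarith
  have hll : l ≤ (A + 1) * l := by
    have : 0 < A * l := mul_pos hA hl0
    have e : (A + 1) * l = A * l + l := by ring
    linarith only [this, e]
  have q0 : ∀ p : ℕ, p.Prime → (p : ℤ) ∣ a1 - 1 → ¬ (p : ℤ) ∣ 1 + l := fun p hp hd h =>
    s3 p hp 0 hd (by
      show (p : ℤ) ∣ g * s + 1
      rw [← hl, add_comm]; exact h)
  have q1 : ∀ p : ℕ, p.Prime → (p : ℤ) ∣ α + (A + 1) * β → ¬ (p : ℤ) ∣ β + s := fun p hp hd h =>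
    s3 p hp 1 hd (by
      show (p : ℤ) ∣ 1 * s + β
      rw [one_mul, add_comm]; exact h)
  -- the choice of `i`
  have ha'0 : 0 < a - (A + 1) * l := by linarith
  obtain ⟨i, i1, i2, i3⟩ := sieveP (k := 3) (e := 2) hB.cap
    (D0 := l * a * (1 + l) * (a - (A + 1) * l)) (by
      have : 0 < a := by linarith
      positivity) (by
      refine hB.le (n := 1 + 1 + 1 + 1) (by norm_num) (mul_le_pow2 ha'0 (mul_le_pow2
        (by linarith) (mul_le_pow2 (by linarith) ?_ ?_ (by linarith)) ?_ (by linarith)) ?_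
        (by linarith)) <;>
      · rw [pow_one]; linarith) (by norm_num)
    ![fun p => p ∣ l * a, fun p => p ∣ 1 + l, fun p => p ∣ a - (A + 1) * l]
    ![1, 1, 1] ![0, A + 1, -a]
    (by
      intro p _ i hi
      fin_cases i
      · exact ((Dvd.dvd.mul_right hi _)).mul_right _
      · have h : (p : ℤ) ∣ 1 + l := hi
        exact (h.mul_left _).mul_right _
      · exact Dvd.dvd.mul_left hi _)
    (by
      intro p hp
      have hp' := Nat.prime_iff_prime_int.1 hp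
      have key : ∃ y : ℤ, ((p : ℤ) ∣ l * a → ¬ (p : ℤ) ∣ y) ∧
          ((p : ℤ) ∣ 1 + l → ¬ (p : ℤ) ∣ y + (A + 1)) ∧
          ((p : ℤ) ∣ a - (A + 1) * l → ¬ (p : ℤ) ∣ y - a) := by
        rcases two_or_odd hp with rfl | ⟨hp2, hp2'⟩
        · push_cast
          exact ⟨1, fun _ => by norm_num, fun h => by omega, fun _ h3 => by omega⟩
        · by_cases h1 : (p : ℤ) ∣ 1 + l
          · have hpl : ¬ (p : ℤ) ∣ l := by
              intro h2
              have := dvd_sub h1 h2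
              rw [add_sub_cancel_right] at this
              exact prime_not_dvd_one hp this
            obtain ⟨y, y1, y2⟩ := avoid2 hp hp2 (if (p : ℤ) ∣ a then 0 else a) (-(A + 1))
            refine ⟨y, fun h h3 => ?_, fun _ h3 => y2 (by rwa [sub_neg_eq_add]), fun h h3 => ?_⟩
            · have h4 := (hp'.dvd_or_dvd h).resolve_left hpl
              rw [if_pos h4] at y1
              exact y1 (by rwa [sub_zero])
            · by_cases h4 : (p : ℤ) ∣ a
              · rw [if_pos h4] at y1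
                apply y1
                rw [sub_zero]
                have := dvd_add h3 h4
                rwa [sub_add_cancel] at this
              · rw [if_neg h4] at y1
                exact y1 h3
          · obtain ⟨y, y1, y2⟩ := avoid2 hp hp2 0 a
            exact ⟨y, fun _ h3 => y1 (by rwa [sub_zero]), fun h => (h1 h).elim,
              fun _ h3 => y2 h3⟩
      obtain ⟨y, y1, y2, y3⟩ := key
      refine ⟨y, fun i hi => ?_⟩
      fin_cases i
      · intro h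
        have h1 : (p : ℤ) ∣ 1 * y + 0 := h
        rw [one_mul, add_zero] at h1
        exact y1 hi h1
      · intro h
        have h1 : (p : ℤ) ∣ 1 * y + (A + 1) := h
        rw [one_mul] at h1
        exact y2 hi h1
      · intro h
        have h1 : (p : ℤ) ∣ 1 * y + -a := h
        rw [one_mul, ← sub_eq_add_neg] at h1
        exact y3 hi h1) ((A + 1) * l + 1)
  have r0 : ∀ p : ℕ, p.Prime → (p : ℤ) ∣ l * a → ¬ (p : ℤ) ∣ i := fun p hp hd h =>
    i3 p hp 0 hd (by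
      show (p : ℤ) ∣ 1 * i + 0
      rw [one_mul, add_zero]; exact h)
  have r1 : ∀ p : ℕ, p.Prime → (p : ℤ) ∣ 1 + l → ¬ (p : ℤ) ∣ i + (A + 1) := fun p hp hd h =>
    i3 p hp 1 hd (by
      show (p : ℤ) ∣ 1 * i + (A + 1)
      rw [one_mul]; exact h)
  have r2 : ∀ p : ℕ, p.Prime → (p : ℤ) ∣ a - (A + 1) * l → ¬ (p : ℤ) ∣ i - a := fun p hp hd h =>
    i3 p hp 2 hd (by
      show (p : ℤ) ∣ 1 * i + -a
      rw [one_mul, ← sub_eq_add_neg]; exact h)
  have hgg : (Int.gcd (a - (A + 1) * l) (a1 + l) : ℤ) = g := by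
    have e1 : a - (A + 1) * l = g * (α - (A + 1) * s) := by rw [hl]; linear_combination hα
    have e2 : a1 + l = g * (β + s) := by rw [hl]; linear_combination hβ
    have h1 : IsCoprime (α - (A + 1) * s) (β + s) := by
      refine isCoprime_of_prime fun p hp h1 h2 => q1 p hp ?_ h1
      have : α + (A + 1) * β = (α - (A + 1) * s) + (A + 1) * (β + s) := by ring
      rw [this]
      exact dvd_add h2 (h1.mul_left _)
    rw [e1, e2, Int.gcd_mul_left, Int.isCoprime_iff_gcd_eq_one.1 h1]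
    push_cast
    rw [abs_of_pos hg0, mul_one]
  refine ⟨l, hl1, hAl, hlo, ?_⟩
  refine edge (ν := 0) (l1 := l) (m1 := 0) (i := i) (j := 1) (k := 1) (W := A + i + 1)
    (κ := 1 + l) (i' := i - (A + 1) * l) (j' := 1 + l) (by ring) (by ring) (by ring) (by ring)
    (by ring) (by ring) (by ring) hA (by linarith) (by linarith) (by norm_num) ha1
    (by positivity) (by linarith) (by linarith) ?_ isCoprime_one_right ?_
    isCoprime_one_left ?_ ?_ ?_ ?_ ?_
  · exact (isCoprime_of_prime fun p hp h1 h2 => r0 p hp (h1.mul_right _) h2 : IsCoprime i l).symm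
  · exact isCoprime_of_prime fun p hp h1 h2 => r0 p hp (h1.mul_left _) h2
  · refine isCoprime_of_prime fun p hp h1 h2 => r1 p hp h2 ?_
    rw [one_mul] at h1
    rw [show i + (A + 1) = A + i + 1 by ring]; exact h1
  · refine isCoprime_of_prime fun p hp h1 h2 => r2 p hp h1 ?_
    have := dvd_sub h2 h1
    rw [show i - (A + 1) * l - (a - (A + 1) * l) = i - a by ring] at this
    exact this
  · refine isCoprime_of_prime fun p hp h1 h2 => q0 p hp ?_ h2
    have := dvd_sub h1 h2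
    rw [show a1 + l - (1 + l) = a1 - 1 by ring] at this
    exact this
  · rw [← hg, show (0 : ℤ) * (i * 1) + (l * 1 - i * 0) = g * s by rw [hl]; ring]
    exact dvd_mul_right _ _
  · rw [hgg, show (0 : ℤ) * ((i - (A + 1) * l) * (1 + l)) + (l * 1 - i * 0) = g * s by
      rw [hl]; ring]
    exact dvd_mul_right _ _

/-- **B5** -/
theorem b5 (hB : Bg N J Z) {A a a1 : ℤ} (hA0 : 0 < A) (hA : (2 : ℤ) ∣ A) (ha : 1 < a)
    (ha1 : 1 < a1) (hN : A + a + a1 = N) (h2 : (2 : ℤ) ∣ a) (h2' : (2 : ℤ) ∣ a1)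
    (hne : a ≠ a1) :
    ∃ A' a' a1' : ℤ, Gd N A' a' a1' ∧ SEq6 (PG A a a1 0) (PG A' a' a1' 0) := by
  have hJ := hB.J20
  have hp0 := hB.pows 0
  have hp1 := hB.pows 1
  have hp2 := hB.pows 2
  have hp3 := hB.pows 3
  have hp4 := hB.pows 4
  have hp5 := hB.pows 5
  norm_num at hp0 hp1 hp2 hp3 hp4 hp5
  -- the case of a large `A`
  have fin : ∀ A a a1 : ℤ, 8 * (J : ℤ) + 2 ≤ A → (2 : ℤ) ∣ A → 1 < a → 1 < a1 →
      A + a + a1 = N → (2 : ℤ) ∣ a → (2 : ℤ) ∣ a1 → a ≠ a1 →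
      ((J : ℤ) ^ 5 ≤ a ∧ (J : ℤ) ^ 5 ≤ a1 ∨ (J : ℤ) ^ 6 ≤ A) →
      ∃ A' a' a1' : ℤ, Gd N A' a' a1' ∧ SEq6 (PG A a a1 0) (PG A' a' a1' 0) := by
    intro A a a1 k1 k2 k3 k4 k5 k6 k7 k8 k9
    obtain ⟨t, t1, t2, t3, t4, t5, t6⟩ := rEven hB k1 k2 k3 k4 k5 k6 k7 k8
    have hb : (J : ℤ) ^ 5 ≤ a + t ∧ (J : ℤ) ^ 5 ≤ a1 + t := by
      rcases k9 with ⟨k9, k10⟩ | k9
      · constructor <;> linarith
      · constructor <;> linarith
    obtain ⟨A', a', a1', h3, h4⟩ := b5gen hB (A := A - 2 * t) (a := a + t) (a1 := a1 + t)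
      (by linarith) t3 t4 (by linarith) hb.1 hb.2 t5
    exact ⟨A', a', a1', h3, t6.trans h4⟩
  by_cases hA6 : (J : ℤ) ^ 6 ≤ A
  · exact fin A a a1 (by linarith) hA ha ha1 hN h2 h2' hne (Or.inr hA6)
  push Not at hA6
  -- a small torus
  have tiny : ∀ a a1 : ℤ, 1 < a → 1 < a1 → A + a + a1 = N → (2 : ℤ) ∣ a → (2 : ℤ) ∣ a1 →
      a1 ≤ 2 * (J : ℤ) ^ 5 →
      ∃ A' a' a1' : ℤ, Gd N A' a' a1' ∧ SEq6 (PG A a a1 0) (PG A' a' a1' 0) := by
    intro a a1 ha ha1 hN h2 h2' hs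
    obtain ⟨l, l1, l2, l3, l4⟩ := uEven hB hA0 hA6.le ha ha1 hs hN h2 h2'
    have hl0 : 0 < l := by linarith
    have hN8 := hB.pw (n := 19) (by norm_num)
    have e5 : (J : ℤ) ^ 5 ≤ (J : ℤ) ^ 18 := pow_le_pow_right₀ hB.J1 (by norm_num)
    have e6 : (J : ℤ) ^ 6 ≤ (J : ℤ) ^ 18 := pow_le_pow_right₀ hB.J1 (by norm_num)
    have e18 := hB.pows 18
    norm_num at e18
    have hll : l ≤ (A + 1) * l := by nlinarith
    have hA'' : (J : ℤ) ^ 6 ≤ (1 + l) * A := by nlinarith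
    obtain ⟨A', a', a1', h3, h4⟩ := fin ((1 + l) * A) (a - (A + 1) * l) (a1 + l)
      (by linarith) (hA.mul_left _) (by linarith) (by linarith) (by linarith)
      (dvd_sub h2 (l3.mul_left _)) (dvd_add h2' l3) (by intro h; linarith) (Or.inr hA'')
    exact ⟨A', a', a1', h3, l4.trans h4⟩
  by_cases h1 : a1 ≤ 2 * (J : ℤ) ^ 5
  · exact tiny a a1 ha ha1 hN h2 h2' h1
  by_cases h3 : a ≤ 2 * (J : ℤ) ^ 5
  · obtain ⟨A', a', a1', h4, h5⟩ := tiny a1 a ha1 ha (by linarith) h2' h2 h3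
    exact ⟨A', a', a1', h4, (PG.swap hA0 ha ha1 (by simp)).trans h5⟩
  push Not at h1 h3
  by_cases h8 : 8 * (J : ℤ) + 2 ≤ A
  · exact fin A a a1 h8 hA ha ha1 hN h2 h2' hne (Or.inl ⟨by linarith, by linarith⟩)
  push Not at h8
  obtain ⟨t, t1, t2, t3, t4⟩ := upEven hB hA0 (by linarith) (by linarith) hN h2 h2' hne
  have hA2t : A ≤ 8 * J := by omega
  obtain ⟨A', a', a1', h4, h5⟩ := b5gen hB (A := A + 2 * t) (a := a - t) (a1 := a1 - t)
    (by linarith) (by linarith) (dvd_add hA (dvd_mul_right _ _)) (by linarith) (by linarith)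
    (by linarith) t3
  exact ⟨A', a', a1', h4, t4.trans h5⟩

end Pool.Agent.H4G.Six
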