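import Pool.Agent.H4G.Six.Can.BBS

/-!
# Edges between the states `BB` (helper81)
-/

set_option autoImplicit false

namespace Pool.Agent.H4G.Six

open Pool.Agent.H4G

/-- **EDGE** between the states `BB` -/
theorem bbEdge {A a β ν l1 i μ y κ W A' i' y' a' β' : ℤ} (hκ : κ = 1 + ν + l1 + 2 * μ)
    (hW : W = A + i + 2 * y) (hA' : A' = κ * A - W * ν) (hi' : i' = κ * i - W * l1)
    (hy' : y' = κ * y - W * μ) (ha' : a' = a - i + i') (hβ' : 2 * β' = 2 * β - y + y')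
    (e1 : (2 : ℤ) ∣ ν + l1) (e2 : (2 : ℤ) ∣ A + i) (pA : 0 < A) (p1 : 0 < i) (p2 : i < a)
    (p3 : 0 < y) (p4 : y < 2 * β) (pA' : 0 < A') (p1' : 0 < i') (p3' : 0 < y')
    (cl : IsCoprime l1 i) (cm : IsCoprime μ y) (cia : IsCoprime i a) (cyb : IsCoprime y β)
    (cu : IsCoprime κ W) (cia' : IsCoprime i' a') (cyb' : IsCoprime y' β')
    (hz : (Int.gcd a β : ℤ) ∣ l1 * y - i * μ) (hz' : (Int.gcd a' β' : ℤ) ∣ l1 * y - i * μ) :
    SEq6 (BB A a β) (BB A' a' β') := by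
  set u : Z2 := (1, 0) with hu
  set v : Z2 := (ν, A) with hv
  set l : Z2 := (l1, i) with hl
  set m : Z2 := (μ, y) with hm
  set u' : Z2 := (κ, W) with hu'
  obtain ⟨r1, hr1⟩ := e1
  obtain ⟨r2, hr2⟩ := e2
  have k0 : cr u v = A := by simp [hu, hv, cr]
  have k1 : cr u l = i := by simp [hu, hl, cr]
  have k2 : cr u m = y := by simp [hu, hm, cr]
  have k3 : cr l m = l1 * y - i * μ := rfl
  have f0 : cr u' v = A' := by rw [hA']; rfl
  have f1 : cr u' l = i' := by rw [hi']; rfl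
  have f2 : cr u' m = y' := by rw [hy']; rfl
  have hue : u' - u = v + l + (2 : ℤ) • m := by
    ext
    · show κ - 1 = ν + l1 + 2 * μ
      rw [hκ]; ring
    · show W - 0 = A + i + 2 * y
      rw [hW]; ring
  have hue2 : u' - u = (2 : ℤ) • ((r1, r2) + m) := by
    ext
    · show κ - 1 = 2 * (r1 + μ)
      rw [hκ]; linarith
    · show W - 0 = 2 * (r2 + y)
      rw [hW]; linarith
  obtain ⟨p0, hp0⟩ := exists_dual (l := l) cl
  obtain ⟨q0, hq0⟩ := exists_dual (l := m) cm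
  have eL : lat l (a • p0) = Ld l a := by rw [lat_eq_Ld cl, cr_smul_left, hp0, mul_one]
  have eM : lat ((2 : ℤ) • m) ((2 : ℤ) • (β • q0)) = Md m β := by
    rw [lat_dbl_Md cm, cr_smul_left, hq0, mul_one]
  have g1 : cr (a • p0) l = a := by rw [cr_smul_left, hp0, mul_one]
  have g2 : cr ((2 : ℤ) • (β • q0)) ((2 : ℤ) • m) = 4 * β := by
    simp only [cr_smul_left, cr_smul_right, hq0]; ring
  have s1 := SEq6.pencil (L := Ld l a) (M := Md m β) (u := u) (v := v) (u' := u') (v' := v)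
    (l := l) (p := a • p0) (m := (2 : ℤ) • m) (p' := (2 : ℤ) • (β • q0)) (by rw [k0]; exact pA) eL
    (by rw [k1]; exact p1) (by rw [k1, g1]; exact p2) eM (by rw [cr_smul_right, k2]; linarith)
    (by rw [cr_smul_right, k2, g2]; linarith) (by rw [f0]; exact pA') (by rw [f1]; exact p1')
    (by rw [cr_smul_right, f2]; linarith)
    (by
      have e : u' = u + (v + l + (2 : ℤ) • m) := by rw [← hue]; abel
      refine closure_pair_eq (α := 1) (β := -1) (γ := 0) (δ := 1) ?_ ?_ (Or.inl (by ring))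
      · rw [e]; module
      · module)
  have s0 := BB.gen s1.ok (by exact isCoprime_one_left) (by rw [k1]; exact cia)
    (by rw [k2]; exact cyb) (by rw [k3]; exact hz)
  rw [k0] at s0
  have t1 : lat l (a • p0 + (u' - u)) = Ld l a' := by
    rw [lat_eq_Ld cl]
    have : cr (a • p0 + (u' - u)) l = a' := by
      rw [cr_add_left, cr_sub_left, g1, f1, k1, ha']; ring
    rw [this]
  have t2 : lat ((2 : ℤ) • m) ((2 : ℤ) • (β • q0) + (u' - u)) = Md m β' := by
    have e : (2 : ℤ) • (β • q0) + (u' - u) = (2 : ℤ) • (β • q0 + ((r1, r2) + m)) := by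
      rw [hue2]; module
    rw [e, lat_dbl_Md cm]
    have : cr (β • q0 + ((r1, r2) + m)) m = β' := by
      have h1 : 2 * cr (β • q0 + ((r1, r2) + m)) m = 2 * β' := by
        have h2 : cr ((2 : ℤ) • (β • q0 + ((r1, r2) + m))) m = 2 * β' := by
          rw [← e, cr_add_left, cr_sub_left, f2, k2, cr_smul_left, cr_smul_left, hq0, hβ']; ring
        rw [cr_smul_left] at h2; exact h2
      linarith
    rw [this]
  rw [t1, t2] at s1
  have s2 := BB.gen s1.ok' cu (by rw [f1]; exact cia') (by rw [f2]; exact cyb')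
    (by rw [k3]; exact hz')
  rw [f0] at s2
  exact s0.symm.trans (s1.trans s2)

/-- **Z**: the torus `a` grows -/
theorem bbZ {a β μ : ℤ} (ha : 1 < a) (hμ : 0 ≤ μ) (hμ2 : 2 * μ + 1 < 2 * β)
    (c0 : IsCoprime (1 + 2 * μ) (a - 1)) (c1 : IsCoprime (1 + 2 * μ) β)
    (h1 : (Int.gcd a β : ℤ) ∣ μ) (h2 : (Int.gcd (a + 2 * μ) (β - μ) : ℤ) ∣ μ) :
    SEq6 (BB 1 a β) (BB (1 + 2 * μ) (a + 2 * μ) (β - μ)) := by
  refine bbEdge (ν := 0) (l1 := 0) (i := 1) (μ := μ) (y := 2 * μ + 1) (κ := 1 + 2 * μ)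
    (W := 4 * μ + 4) (i' := 1 + 2 * μ) (y' := 1) (by ring) (by ring) (by ring) (by ring)
    (by ring) (by ring) (by ring) (by norm_num) (by norm_num) (by norm_num) (by norm_num) ha
    (by linarith) hμ2 (by linarith) (by linarith) (by norm_num) isCoprime_one_right
    ⟨-2, 1, by ring⟩ isCoprime_one_left ?_ ⟨2 * μ + 1, -μ, by ring⟩ ?_ isCoprime_one_left ?_ ?_
  · rw [add_comm]; exact c1
  · obtain ⟨x, y, hxy⟩ := c0
    exact ⟨x - y, y, by linear_combination hxy⟩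
  · rw [show 0 * (2 * μ + 1) - 1 * μ = -μ by ring, dvd_neg]; exact h1
  · rw [show 0 * (2 * μ + 1) - 1 * μ = -μ by ring, dvd_neg]; exact h2

/-- **Z'**: the torus `β` grows -/
theorem bbZ' {a β s : ℤ} (hβ : 0 < β) (hs : 0 ≤ s) (hs2 : 6 * s + 1 < a)
    (c0 : IsCoprime (6 * s + 1) a) (c1 : IsCoprime (1 + 2 * s) (2 * β - 1))
    (h1 : (Int.gcd a β : ℤ) ∣ 2 * s) (h2 : (Int.gcd (a - 6 * s) (β + s) : ℤ) ∣ 2 * s) :
    SEq6 (BB 1 a β) (BB (1 + 2 * s) (a - 6 * s) (β + s)) := by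
  refine bbEdge (ν := 0) (l1 := 2 * s) (i := 6 * s + 1) (μ := 0) (y := 1) (κ := 1 + 2 * s)
    (W := 6 * s + 4) (i' := 1) (y' := 1 + 2 * s) (by ring) (by ring) (by ring) (by ring)
    (by ring) (by ring) (by ring) ⟨s, by ring⟩ ⟨3 * s + 1, by ring⟩ (by norm_num) (by linarith)
    hs2 (by norm_num) (by linarith) (by linarith) (by norm_num) (by linarith)
    ⟨-3, 1, by ring⟩ isCoprime_one_right c0 isCoprime_one_left ⟨-3, 1, by ring⟩
    isCoprime_one_left ?_ ?_ ?_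
  · obtain ⟨x, y, hxy⟩ := c1
    exact ⟨x - y, 2 * y, by linear_combination hxy⟩
  · rw [show 2 * s * 1 - (6 * s + 1) * 0 = 2 * s by ring]; exact h1
  · rw [show 2 * s * 1 - (6 * s + 1) * 0 = 2 * s by ring]; exact h2

end Pool.Agent.H4G.Six
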