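import Pool.Agent.H4G.Six.Can.DX

/-!
# The states over a cocyclic torus and the double of a cocyclic torus (helper81)
-/

set_option autoImplicit false

open scoped MatrixGroups

namespace Pool.Agent.H4G.Six

open Pool.Agent.H4G

/-- multiplication by two -/
def dbl : Z2 →+ Z2 where
  toFun x := (2 : ℤ) • x
  map_zero' := smul_zero _
  map_add' := fun x y => smul_add _ x y

theorem dbl_apply (x : Z2) : dbl x = (2 : ℤ) • x := rfl

/-- the double of `Ld m β` -/
def Md (m : Z2) (β : ℤ) : AddSubgroup Z2 := (Ld m β).map dbl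

theorem lat_dbl (l p : Z2) : lat ((2 : ℤ) • l) ((2 : ℤ) • p) = (lat l p).map dbl := by
  show AddSubgroup.closure _ = (AddSubgroup.closure _).map dbl
  rw [AddMonoidHom.map_closure, Set.image_pair]
  rfl

theorem lat_dbl_Md {l p : Z2} (hl : IsCoprime l.1 l.2) :
    lat ((2 : ℤ) • l) ((2 : ℤ) • p) = Md l (cr p l) := by
  rw [lat_dbl, lat_eq_Ld hl]; rfl

theorem Md_act (g : SL(2, ℤ)) (m : Z2) (β : ℤ) : (Md m β).map (act g) = Md (act g m) β := by
  unfold Md
  rw [← map_Ld, AddSubgroup.map_map, AddSubgroup.map_map]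
  congr 1
  ext x
  · show (act g ((2 : ℤ) • x)).1 = ((2 : ℤ) • act g x).1
    rw [map_zsmul]
  · show (act g ((2 : ℤ) • x)).2 = ((2 : ℤ) • act g x).2
    rw [map_zsmul]

/-- the state of the tori `ℝ² / ⟨(a,0), (0,1)⟩` and `ℝ² / ⟨(2β,0), (0,2)⟩` -/
def BB (A a β : ℤ) : St6 := ⟨Ld (0, 1) a, lat (2 * β, 0) (0, 2), (1, 0), (0, A)⟩

theorem Md_std (β : ℤ) : Md (0, 1) β = lat (2 * β, 0) (0, 2) := by
  have h1 := lat_dbl_Md (l := (0, 1)) (p := (β, 0)) isCoprime_one_right
  have e1 : cr ((β, 0) : Z2) (0, 1) = β := by simp [cr]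
  rw [e1] at h1
  rw [← h1]
  refine closure_pair_eq (α := 0) (β := 1) (γ := 1) (δ := 0) ?_ ?_ (Or.inr (by norm_num))
  · ext <;> simp
  · ext <;> simp

/-- the normal form of two vectors modulo `SL₂(ℤ)` -/
theorem exists_sl {u l m : Z2} {a a1 : ℤ} (hu : IsCoprime u.1 u.2)
    (hla : IsCoprime (cr u l) a) (hma : IsCoprime (cr u m) a1)
    (hz : (Int.gcd a a1 : ℤ) ∣ cr l m) :
    ∃ g : SL(2, ℤ), act g u = (1, 0) ∧ Ld (act g l) a = Ld (0, 1) a ∧
      Ld (act g m) a1 = Ld (0, 1) a1 := by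
  obtain ⟨s, t, hst⟩ := hu
  set g0 : SL(2, ℤ) := ⟨!![s, t; -u.2, u.1], by rw [Matrix.det_fin_two_of]; linarith⟩ with hg0
  have e0 : ∀ p : Z2, H4G.act g0 p = (s * p.1 + t * p.2, cr u p) := by
    intro p
    rw [act_apply]
    ext
    · simp [hg0]
    · simp only [hg0, cr]
      simp
      ring
  set i : ℤ := cr u l with hi
  set j : ℤ := cr u m with hj
  set l1 : ℤ := s * l.1 + t * l.2 with hl1
  set m1 : ℤ := s * m.1 + t * m.2 with hm1
  have hlm : cr l m = l1 * j - m1 * i := by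
    have := cr_act g0 l m
    rw [e0, e0] at this
    rw [← this]
    show l1 * j - i * m1 = _
    ring
  obtain ⟨x1, y1, hxy1⟩ := hla
  obtain ⟨x2, y2, hxy2⟩ := hma
  have hgc : (Int.gcd a a1 : ℤ) ∣ (-(x2 * m1)) - (-(x1 * l1)) := by
    set g : ℤ := (Int.gcd a a1 : ℤ) with hg
    have ga : g ∣ a := Int.gcd_dvd_left ..
    have ga1 : g ∣ a1 := Int.gcd_dvd_right ..
    have e : (-(x2 * m1)) - (-(x1 * l1)) =
        x1 * x2 * (cr l m) + a * (y1 * (x2 * (- m1))) + a1 * (y2 * (x1 * l1)) := by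
      rw [hlm]
      linear_combination (-(x2 * (- m1))) * hxy1 - (x1 * l1) * hxy2
    rw [e]
    exact dvd_add (dvd_add (hz.mul_left _) (ga.mul_right _)) (ga1.mul_right _)
  obtain ⟨w, hw1, hw2⟩ := crt2 hgc
  have hwl : a ∣ l1 + w * i := by
    obtain ⟨n, hn⟩ := hw1
    refine ⟨n * i + y1 * l1, ?_⟩
    linear_combination i * hn + (-l1) * hxy1
  have hwm : a1 ∣ m1 + w * j := by
    obtain ⟨n, hn⟩ := hw2
    refine ⟨n * j + y2 * m1, ?_⟩
    linear_combination j * hn + (-m1) * hxy2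
  set g : SL(2, ℤ) := shH w * g0 with hg
  have eg : ∀ p : Z2, H4G.act g p = ((s * p.1 + t * p.2) + w * cr u p, cr u p) := by
    intro p
    rw [hg, act_mul, e0, act_shH]
  refine ⟨g, ?_, ?_, ?_⟩
  · rw [eg, cr_self]
    simp only [mul_zero, add_zero]
    ext
    · simp only; linarith
    · rfl
  · apply Ld_congr
    intro x
    rw [eg]
    have e1 : cr x (s * l.1 + t * l.2 + w * cr u l, cr u l) = x.1 * i - x.2 * (l1 + w * i) := rfl
    have e2 : cr x (0, 1) = x.1 := by simp [cr]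
    rw [e1, e2]
    constructor
    · intro h
      have h5 : a ∣ x.1 * i := by
        have := dvd_add h (hwl.mul_left x.2)
        rwa [sub_add_cancel] at this
      have : x.1 = x1 * (x.1 * i) + a * (y1 * x.1) := by linear_combination (-x.1) * hxy1
      rw [this]
      exact dvd_add (h5.mul_left _) (dvd_mul_right _ _)
    · intro h
      exact dvd_sub (h.mul_right _) (hwl.mul_left _)
  · apply Ld_congr
    intro x
    rw [eg]
    have e1 : cr x (s * m.1 + t * m.2 + w * cr u m, cr u m) = x.1 * j - x.2 * (m1 + w * j) := rfl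
    have e2 : cr x (0, 1) = x.1 := by simp [cr]
    rw [e1, e2]
    constructor
    · intro h
      have h5 : a1 ∣ x.1 * j := by
        have := dvd_add h (hwm.mul_left x.2)
        rwa [sub_add_cancel] at this
      have : x.1 = x2 * (x.1 * j) + a1 * (y2 * x.1) := by linear_combination (-x.1) * hxy2
      rw [this]
      exact dvd_add (h5.mul_left _) (dvd_mul_right _ _)
    · intro h
      exact dvd_sub (h.mul_right _) (hwm.mul_left _)

/-- **the normal form `BB`** -/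
theorem BB.gen {u v l m : Z2} {a β : ℤ} (hok : St6.Ok ⟨Ld l a, Md m β, u, v⟩)
    (hu : IsCoprime u.1 u.2) (hla : IsCoprime (cr u l) a) (hma : IsCoprime (cr u m) β)
    (hz : (Int.gcd a β : ℤ) ∣ cr l m) :
    SEq6 ⟨Ld l a, Md m β, u, v⟩ (BB (cr u v) a β) := by
  obtain ⟨g, g1, g2, g3⟩ := exists_sl hu hla hma hz
  have s1 := SEq6.act g hok
  have e5 : St6.act g ⟨Ld l a, Md m β, u, v⟩ =
      ⟨Ld (0, 1) a, lat (2 * β, 0) (0, 2), (1, 0), H4G.act g v⟩ := by
    simp only [St6.act, map_Ld, Md_act, g1, g2]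
    have : Md (act g m) β = Md (0, 1) β := by unfold Md; rw [g3]
    rw [this, Md_std]
  rw [e5] at s1
  refine s1.trans ?_
  have hv2 : (H4G.act g v).2 = cr u v := by
    have := cr_act g u v
    rw [g1] at this
    rw [← this]
    simp [cr]
  have := SEq6.tv s1.ok' (-(H4G.act g v).1)
  have ev : H4G.act g v + (-(H4G.act g v).1) • ((1, 0) : Z2) = (0, cr u v) := by
    ext
    · simp
    · simp [hv2]
  rw [ev] at this
  exact this

/-- **PAR**: the exit along parallel vectors with `u' × l = 2`, followed by `dx` -/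
theorem par {A a β ι : ℤ} (hA : 0 < A) (hA2 : ¬ (2 : ℤ) ∣ A) (hi : 0 < ι)
    (h4 : (4 : ℤ) ∣ A - ι - 2) (ha2 : (2 : ℤ) ∣ a) (c0 : IsCoprime ι A) (c1 : IsCoprime ι a)
    (c2 : IsCoprime ι β) (h1 : ι < a) (h2 : ι < 2 * β) (h3 : 6 < A + 3 * ι) :
    SEq6 (BB A a β) (PG (A + 3 * ι - 4) (a - ι + 1) (2 * (2 * β - ι) + 3) 0) := by
  obtain ⟨x, y, hxy⟩ := c0
  obtain ⟨d, hd⟩ := h4
  obtain ⟨a2, ha2⟩ := ha2
  -- `ι` is odd
  have hi2 : ¬ (2 : ℤ) ∣ ι := by omega
  obtain ⟨c, hc⟩ : ∃ c : ℤ, A + 3 * ι = 2 * c := ⟨(A + 3 * ι) / 2, by omega⟩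
  have hc2 : ¬ (2 : ℤ) ∣ c := by omega
  obtain ⟨H, hH⟩ : ∃ H : ℤ, A + 3 * ι - 6 = 4 * H := ⟨(A + 3 * ι - 6) / 4, by omega⟩
  set u : Z2 := (1, 0) with hu
  set v : Z2 := (2 * x - 1, A) with hv
  set l : Z2 := (-(2 * y), ι) with hl
  set u0 : Z2 := (x - 3 * y, c) with hu0
  set u' : Z2 := (2 : ℤ) • u0 with hu'
  have cl : IsCoprime l.1 l.2 := by
    have e2 : IsCoprime (2 : ℤ) ι := by
      obtain ⟨n, hn⟩ : ∃ n : ℤ, ι = 2 * n + 1 := ⟨(ι - 1) / 2, by omega⟩
      exact ⟨-n, 1, by rw [hn]; ring⟩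
    have e1 : IsCoprime y ι := ⟨A, x, by linarith⟩
    show IsCoprime (-(2 * y)) ι
    exact (e2.mul_left e1).neg_left
  have k0 : cr u v = A := by simp [hu, hv, cr]
  have k1 : cr u l = ι := by simp [hu, hl, cr]
  have k2 : cr u0 l = 1 := by
    show (x - 3 * y) * ι - c * (-(2 * y)) = 1
    linear_combination hxy - y * hc
  have k3 : cr v l = 2 - ι := by
    show (2 * x - 1) * ι - A * (-(2 * y)) = 2 - ι
    linear_combination 2 * hxy
  have k4 : cr u0 v = 2 * H := by
    show (x - 3 * y) * A - c * (2 * x - 1) = 2 * H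
    have e : 2 * ((x - 3 * y) * A - c * (2 * x - 1)) = 2 * (2 * H) := by
      linear_combination (2 * x - 1) * hc - 6 * hxy + hH
    linarith
  have k5 : cr u' l = 2 := by rw [hu', cr_smul_left, k2]; norm_num
  have k6 : cr u' v = 4 * H := by rw [hu', cr_smul_left, k4]; ring
  have hu'e : u' = u + (v + l + (2 : ℤ) • l) := by
    ext
    · show (2 : ℤ) * (x - 3 * y) = 1 + (2 * x - 1 + -(2 * y) + 2 * (-(2 * y)))
      ring
    · show (2 : ℤ) * c = 0 + (A + ι + 2 * ι)
      linarith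
  obtain ⟨p0, hp0⟩ := exists_dual cl
  have eL : lat l (a • p0) = Ld l a := by rw [lat_eq_Ld cl, cr_smul_left, hp0, mul_one]
  have eM : lat ((2 : ℤ) • l) ((2 : ℤ) • (β • p0)) = Md l β := by
    rw [lat_dbl_Md cl, cr_smul_left, hp0, mul_one]
  have f1 : cr (a • p0) l = a := by rw [cr_smul_left, hp0, mul_one]
  have f2 : cr ((2 : ℤ) • (β • p0)) ((2 : ℤ) • l) = 4 * β := by
    simp only [cr_smul_left, cr_smul_right, hp0]; ring
  -- the exit
  have s1 := SEq6.pencil (L := Ld l a) (M := Md l β) (u := u) (v := v) (u' := u') (v' := v)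
    (l := l) (p := a • p0) (m := (2 : ℤ) • l) (p' := (2 : ℤ) • (β • p0)) (by rw [k0]; exact hA) eL
    (by rw [k1]; exact hi) (by rw [k1, f1]; exact h1) eM (by rw [cr_smul_right, k1]; linarith)
    (by rw [cr_smul_right, k1, f2]; linarith) (by rw [k6]; linarith) (by rw [k5]; norm_num)
    (by rw [cr_smul_right, k5]; norm_num)
    (by
      refine closure_pair_eq (α := 1) (β := -1) (γ := 0) (δ := 1) ?_ ?_ (Or.inl (by ring))
      · rw [hu'e]; module
      · module)
  -- the source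
  have s0 := BB.gen s1.ok (by exact isCoprime_one_left) (by rw [k1]; exact c1)
    (by rw [k1]; exact c2) (by rw [cr_self]; exact dvd_zero _)
  rw [k0] at s0
  -- the target
  set a' : ℤ := a - ι + 2 with ha'
  set c1' : ℤ := 2 * β - ι + 2 with hc1'
  set w : Z2 := l + (a' * c1') • u0 with hw
  have g1 : cr u0 w = 1 := by
    rw [hw, cr_add_right, cr_smul_right, cr_self, k2]; ring
  have cw := cop_of_cr_right g1
  have t1 : lat l (a • p0 + (u' - u)) = Ld w a' := by
    rw [lat_eq_Ld cl]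
    have e1 : cr (a • p0 + (u' - u)) l = a' := by
      rw [cr_add_left, cr_sub_left, f1, k5, k1, ha']; ring
    rw [e1]
    apply Ld_congr
    intro z
    have e2 : cr z w = cr z l + a' * (c1' * cr z u0) := by
      rw [hw, cr_add_right, cr_smul_right]; ring
    rw [e2]
    exact (dvd_add_left (dvd_mul_right _ _)).symm
  have hu0u : cr u0 u = -c := by
    show (x - 3 * y) * 0 - c * 1 = -c
    ring
  have t2 : lat ((2 : ℤ) • l) ((2 : ℤ) • (β • p0) + (u' - u)) = Ld w (2 * c1') := by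
    set q : Z2 := (2 : ℤ) • (β • p0) + (u' - u) with hq
    have e1 : cr q l = c1' := by
      rw [hq, cr_add_left, cr_sub_left, k5, k1, cr_smul_left, cr_smul_left, hp0, hc1']; ring
    obtain ⟨t, ht⟩ : ∃ t : ℤ, cr u0 q = 2 * t + 1 := by
      have e : cr u0 q = 2 * (β * cr u0 p0) + c := by
        rw [hq, cr_add_right, cr_sub_right, cr_smul_right, cr_smul_right, hu0u, hu',
          cr_smul_right, cr_self]
        ring
      exact ⟨(cr u0 q - 1) / 2, by omega⟩
    have hb := basis_one k2 q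
    rw [e1, ht] at hb
    obtain ⟨s, hs⟩ : ∃ s : ℤ, 1 - a' * (2 * t + 1) = 2 * s := by
      refine ⟨(1 - a' * (2 * t + 1)) / 2, ?_⟩
      have h5 : ¬ (2 : ℤ) ∣ a' := by omega
      obtain ⟨b, hb⟩ : ∃ b : ℤ, a' = 2 * b + 1 := ⟨(a' - 1) / 2, by omega⟩
      rw [hb]
      have e : 1 - (2 * b + 1) * (2 * t + 1) = 2 * (-(2 * b * t + b + t)) := by ring
      rw [e]; omega
    have e3 : lat ((2 : ℤ) • l) q = lat w ((2 * c1') • u0) := by
      refine (closure_pair_eq (α := s) (β := a') (γ := -(2 * t + 1)) (δ := 2) ?_ ?_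
        (Or.inl ?_)).symm
      · rw [hb, hw]
        have : s • (2 : ℤ) • l + a' • (c1' • u0 + (2 * t + 1) • l) =
            (2 * s + a' * (2 * t + 1)) • l + (a' * c1') • u0 := by module
        rw [this, ← hs]
        module
      · rw [hb]; module
      · linarith
    rw [e3, lat_eq_Ld cw, cr_smul_left, g1, mul_one]
  rw [t1, t2] at s1
  have hodd : ¬ (2 : ℤ) ∣ cr v w := by
    have e : cr v w = 2 - ι - 2 * (a' * c1' * H) := by
      rw [hw, cr_add_right, cr_smul_right, k3, cr_swap v u0, k4]; ring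
    rw [e]; omega
  have s2 := dx' (u0 := u0) (w := w) (v := v) (a := a') (a1 := 2 * c1') g1 k4 hodd (by linarith)
    (by linarith) (by linarith)
  have s3 := s0.symm.trans (s1.trans s2)
  have e1 : 2 * (2 * H) + 2 = A + 3 * ι - 4 := by linarith
  have e2 : a' - 1 = a - ι + 1 := by rw [ha']; ring
  have e3 : 2 * c1' - 1 = 2 * (2 * β - ι) + 3 := by rw [hc1']; ring
  rw [e1, e2, e3] at s3
  exact s3

end Pool.Agent.H4G.Six
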