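import Pool.Agent.H4G.Six.Can.Hub

/-!
# C11: the line `l₁ = h`, `i ≡ -1/z₁` modulo `G` (helper35)

`z = h z₁`, `g = h G`, `(z₁, G) = 1`: there is `i` prime to `a` in every window of length `G J`
with `g ∣ z i + h`.
-/

set_option autoImplicit false

namespace Pool.Agent.H4G.Six

open Pool.Agent.H4G

variable {N : ℤ} {J Z : ℕ}

/-- the line `l₁ = h` in a window -/
theorem alWindow (hB : Bg N J Z) {a h G z1 : ℤ} (ha : 0 < a) (haN : a ≤ N) (hG : 0 < G)
    (hzG : IsCoprime z1 G) (hga : h * G ∣ a) (i0 : ℤ) :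
    ∃ i : ℤ, i0 ≤ i ∧ i < i0 + G * J ∧ IsCoprime i a ∧ IsCoprime h i ∧
      h * G ∣ (h * z1) * i + h := by
  have hN1 := hB.N1
  obtain ⟨x, y, hxy⟩ := hzG
  obtain ⟨i, i1, i2, i3, i4⟩ := sieveQ (k := 1) (e := 1) hB.cap (D0 := a) ha
    (hB.le (n := 1) (by norm_num) (by rw [pow_one]; linarith)) (by norm_num)
    ![fun p => p ∣ a] ![1] ![0] hG (-x)
    (by
      intro p _ i hi
      fin_cases i
      exact hi)
    (by
      intro p hp _
      refine ⟨1, fun i _ => ?_⟩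
      fin_cases i
      intro h
      exact prime_not_dvd_one hp (by simpa using h))
    (by
      intro p hp hpG i _
      fin_cases i
      intro h
      have h1 : (p : ℤ) ∣ 1 * (-x) + 0 := h
      have h2 : (p : ℤ) ∣ x := by
        have e : 1 * (-x) + 0 = -x := by ring
        rw [e] at h1
        exact (dvd_neg).1 h1
      refine prime_not_dvd_one hp ?_
      rw [← hxy]
      exact dvd_add (h2.mul_right _) (hpG.mul_left _)) i0
  rw [pow_one] at i2
  have hia : IsCoprime i a := by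
    refine isCoprime_of_prime fun p hp h1 h2 => ?_
    refine i4 p hp 0 h1 ?_
    show (p : ℤ) ∣ 1 * i + 0
    rw [one_mul, add_zero]; exact h2
  refine ⟨i, i1, i2, hia, ?_, ?_⟩
  · exact (hia.of_isCoprime_of_dvd_right ((dvd_mul_right h G).trans hga)).symm
  · obtain ⟨n, hn⟩ := i3
    refine ⟨z1 * n + y, ?_⟩
    linear_combination (h * z1) * hn - h * hxy

/-- **AL** -/
theorem alLine (hB : Bg N J Z) {A a h G z1 : ℤ} (ha : 0 < a) (haN : a ≤ N) (hG : 0 < G)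
    (hzG : IsCoprime z1 G) (hga : h * G ∣ a)
    (hroom : (A + 1) * h * (J : ℤ) ^ 3 + G * J ≤ a) :
    ∃ i : ℤ, (A + 1) * h * (J : ℤ) ^ 3 ≤ i ∧ i < a ∧ IsCoprime i a ∧ IsCoprime h i ∧
      h * G ∣ (h * z1) * i + h := by
  obtain ⟨i, i1, i2, i3, i4, i5⟩ := alWindow hB ha haN hG hzG hga ((A + 1) * h * (J : ℤ) ^ 3)
  exact ⟨i, i1, lt_of_lt_of_le i2 hroom, i3, i4, i5⟩

/-- **AL**, the form used in the assembly -/
theorem clsLine (hB : Bg N J Z) {A a g z h : ℤ} (hA : 0 < A) (ha : 0 < a) (haN : a ≤ N)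
    (hg : g ∣ a) (hg0 : 0 < g) (hh : h = (Int.gcd z g : ℤ))
    (hroom : (A + 1) * h * (J : ℤ) ^ 3 + (g / h) * J ≤ a) :
    ∃ l1 i : ℤ, l1 ≠ 0 ∧ (A + 1) * |l1| * (J : ℤ) ^ 3 ≤ i ∧ i < a ∧ IsCoprime i a ∧
      IsCoprime l1 i ∧ g ∣ z * i + l1 := by
  have hh0 : 0 < h := by
    rw [hh]
    exact_mod_cast Int.gcd_pos_of_ne_zero_right z hg0.ne'
  obtain ⟨G, hG⟩ : h ∣ g := by rw [hh]; exact Int.gcd_dvd_right z g
  obtain ⟨z1, hz1⟩ : h ∣ z := by rw [hh]; exact Int.gcd_dvd_left z g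
  have hgh : g / h = G := by rw [hG]; exact Int.mul_ediv_cancel_left G hh0.ne'
  have hG0 : 0 < G := by
    by_contra h1
    push Not at h1
    have : h * G ≤ 0 := mul_nonpos_of_nonneg_of_nonpos hh0.le h1
    linarith
  have hco : IsCoprime z1 G := by
    rw [Int.isCoprime_iff_gcd_eq_one]
    have h1 : Int.gcd (h * z1) (h * G) = h.natAbs * Int.gcd z1 G := Int.gcd_mul_left _ _ _
    rw [← hz1, ← hG] at h1
    have h2 : h = h * (Int.gcd z1 G : ℤ) := by
      conv_lhs => rw [hh, h1]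
      push_cast; rw [abs_of_pos hh0]
    have h3 : h * ((Int.gcd z1 G : ℤ) - 1) = 0 := by linear_combination -h2
    rcases mul_eq_zero.1 h3 with h5 | h5
    · exact absurd h5 hh0.ne'
    · exact_mod_cast (show (Int.gcd z1 G : ℤ) = 1 by linarith)
  rw [hgh] at hroom
  obtain ⟨i, i1, i2, i3, i4, i5⟩ := alLine hB ha haN hG0 hco (by rw [← hG]; exact hg) hroom
  refine ⟨h, i, hh0.ne', by rw [abs_of_pos hh0]; exact i1, i2, i3, i4, ?_⟩
  rw [hG, hz1]; exact i5

end Pool.Agent.H4G.Six
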