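import Pool.Agent.H4G.Six.Can.Ev3
import Mathlib.NumberTheory.DiophantineApproximation.Basic

/-!
# A direction with a large ordinate and a small error (helper77, for helper19)

`dirLine`: for a residue `z` modulo `a` which is not too close to a rational number with a small
denominator, there is `i < a` prime to `a` with `z i + l₁ = 0` modulo `a`, `l₁` small against `i`.
-/

set_option autoImplicit false

namespace Pool.Agent.H4G.Six

open Pool.Agent.H4G

variable {N : ℤ} {J Z : ℕ}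

/-- Dirichlet's theorem for `z / a` in integers -/
theorem dir_int {a z : ℤ} (ha : 0 < a) {Q : ℕ} (hQ : 0 < Q) :
    ∃ r i0 : ℤ, 0 < i0 ∧ i0 ≤ (Q : ℤ) ∧ IsCoprime r i0 ∧ |a * r - z * i0| * ((Q : ℤ) + 1) ≤ a := by
  obtain ⟨q, h1, h2⟩ := Real.exists_rat_abs_sub_le_and_den_le ((z : ℝ) / a) hQ
  refine ⟨q.num, q.den, by exact_mod_cast q.pos, by exact_mod_cast h2, ?_, ?_⟩
  · rw [Int.isCoprime_iff_gcd_eq_one]
    exact q.reduced
  · have ha' : (0 : ℝ) < a := by exact_mod_cast ha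
    have hd : (0 : ℝ) < q.den := by exact_mod_cast q.pos
    have hQ' : (0 : ℝ) < (Q : ℝ) + 1 := by positivity
    have hq : (q : ℝ) = (q.num : ℝ) / q.den := by exact_mod_cast (Rat.num_div_den q).symm
    have e : (z : ℝ) / a - q = -((a * q.num - z * q.den) / (a * q.den)) := by
      rw [hq]
      field_simp
      ring
    rw [e, abs_neg, abs_div, abs_of_pos (mul_pos ha' hd), div_le_div_iff₀ (mul_pos ha' hd)
      (mul_pos hQ' hd), one_mul] at h1
    have h3 : |(a : ℝ) * q.num - z * q.den| * ((Q : ℝ) + 1) ≤ a := by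
      have h4 : (|(a : ℝ) * q.num - z * q.den| * ((Q : ℝ) + 1)) * q.den ≤ a * q.den := by
        calc _ = |(a : ℝ) * q.num - z * q.den| * (((Q : ℝ) + 1) * q.den) := by ring
          _ ≤ _ := h1
      exact le_of_mul_le_mul_right h4 hd
    have h5 : ((|a * q.num - z * (q.den : ℤ)| * ((Q : ℤ) + 1) : ℤ) : ℝ) ≤ ((a : ℤ) : ℝ) := by
      push_cast
      exact h3
    exact_mod_cast h5

/-- **Direction.** -/
theorem dirLine (hB : Bg N J Z) {A a z : ℤ} (hA : 0 < A) (haN : a ≤ N)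
    (hroom : (A + 1) * (J : ℤ) ^ 12 ≤ a)
    (hnz : ∀ i0, 0 < i0 → i0 ≤ (A + 1) * (J : ℤ) ^ 7 → ¬ (a ∣ z * i0)) :
    ∃ l1 i : ℤ, l1 ≠ 0 ∧ (A + 1) * |l1| * (J : ℤ) ^ 3 ≤ i ∧ i < a ∧ IsCoprime i a ∧
      IsCoprime l1 i ∧ a ∣ z * i + l1 := by
  have hJ := hB.J20
  have hJ0 : (0 : ℤ) < J := by linarith
  have hN1 := hB.N1
  have hA1 : 0 < A + 1 := by linarith
  have hpos : ∀ n : ℕ, 0 < (J : ℤ) ^ n := fun n => pow_pos hJ0 n
  have ha : 0 < a := lt_of_lt_of_le (mul_pos hA1 (hpos 12)) hroom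
  obtain ⟨Q, hQ⟩ : ∃ Q : ℕ, (Q : ℤ) = (A + 1) * (J : ℤ) ^ 7 :=
    ⟨((A + 1) * (J : ℤ) ^ 7).toNat, Int.toNat_of_nonneg (mul_pos hA1 (hpos 7)).le⟩
  have hQ0 : 0 < Q := by
    have : (0 : ℤ) < Q := by rw [hQ]; exact mul_pos hA1 (hpos 7)
    exact_mod_cast this
  obtain ⟨r, i0, hi0, hiQ, hri, hx⟩ := dir_int (z := z) ha hQ0
  rw [hQ] at hiQ hx
  obtain ⟨x1, hx1⟩ : ∃ x1, x1 = a * r - z * i0 := ⟨_, rfl⟩
  rw [← hx1] at hx
  have hx0 : x1 ≠ 0 := by
    intro h0
    refine hnz i0 hi0 hiQ ⟨r, ?_⟩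
    rw [h0] at hx1
    linarith
  have hX : 0 < |x1| := abs_pos.2 hx0
  obtain ⟨X, hXd⟩ : ∃ X, X = |x1| := ⟨_, rfl⟩
  rw [← hXd] at hX hx
  -- sizes
  have hp1 := hB.pows 1
  have hp2 := hB.pows 2
  norm_num at hp1 hp2
  have hXa : X ≤ a := by
    have h1 : 0 < X * ((A + 1) * (J : ℤ) ^ 7) := mul_pos hX (mul_pos hA1 (hpos 7))
    linarith
  -- the Bezout numbers
  obtain ⟨ris, y0, hb⟩ := hri
  obtain ⟨is, ys, his⟩ : ∃ is ys : ℤ, r * is - i0 * ys = 1 := ⟨ris, -y0, by linarith⟩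
  have hri : IsCoprime r i0 := ⟨ris, y0, hb⟩
  -- the choice of `n'`
  obtain ⟨n', n1, n2, n3, n4⟩ : ∃ n' : ℤ, 0 < n' ∧ n' ≤ X ∧ IsCoprime n' i0 ∧
      ((X ≤ (J : ℤ) ^ 2 ∧ n' = 1) ∨ ((J : ℤ) ^ 2 < X ∧ X ≤ 4 * n')) := by
    by_cases hXJ : X ≤ (J : ℤ) ^ 2
    · exact ⟨1, one_pos, by linarith, isCoprime_one_left, Or.inl ⟨hXJ, rfl⟩⟩
    · push Not at hXJ
      obtain ⟨n', s1, s2, s3⟩ := sieveP (k := 1) (e := 1) hB.cap (D0 := i0) hi0 (by
        refine hB.le (n := 1) (by norm_num) ?_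
        rw [pow_one]
        have h1 : (A + 1) * (J : ℤ) ^ 7 ≤ (A + 1) * (J : ℤ) ^ 12 :=
          mul_le_mul_of_nonneg_left (pow_le_pow_right₀ hB.J1 (by norm_num)) hA1.le
        linarith) (by norm_num) ![fun p => p ∣ i0] ![1] ![0]
        (by
          intro p _ i hi
          fin_cases i
          exact hi)
        (by
          intro p hp
          refine ⟨1, fun i _ => ?_⟩
          fin_cases i
          intro h
          have h1 : (p : ℤ) ∣ 1 * 1 + 0 := h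
          exact prime_not_dvd_one hp (by simpa using h1)) (X / 4 + 1)
      rw [pow_one] at s2
      have hd1 : 4 * (X / 4) ≤ X := by omega
      have hd2 : X < 4 * (X / 4) + 4 := by omega
      have hd3 : 0 ≤ X / 4 := by omega
      have hJ2 : (J : ℤ) ^ 2 = J * J := by ring
      have hJJ : 4 * (J : ℤ) ≤ (J : ℤ) ^ 2 := by rw [hJ2]; nlinarith
      refine ⟨n', by linarith, by omega, ?_, Or.inr ⟨hXJ, by linarith⟩⟩
      refine isCoprime_of_prime fun p hp h1 h2 => s3 p hp 0 h1 ?_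
      show (p : ℤ) ∣ 1 * n' + 0
      rw [one_mul, add_zero]
      exact h2
  -- the sign
  obtain ⟨e, he, heX⟩ : ∃ e : ℤ, (e = 1 ∨ e = -1) ∧ x1 = e * X := by
    rcases lt_or_gt_of_ne hx0 with h | h
    · exact ⟨-1, Or.inr rfl, by rw [hXd, abs_of_neg h]; ring⟩
    · exact ⟨1, Or.inl rfl, by rw [hXd, abs_of_pos h]; ring⟩
  obtain ⟨n, hn⟩ : ∃ n, n = e * n' := ⟨_, rfl⟩
  have hnn : ∀ p : ℤ, p ∣ n ↔ p ∣ n' := by
    intro p
    rcases he with rfl | rfl
    · rw [hn, one_mul]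
    · rw [hn, neg_one_mul, dvd_neg]
  -- the choice of `t`
  obtain ⟨b, hb1⟩ : ∃ b, b = n' * a / X := ⟨_, rfl⟩
  have hb2 : X * b ≤ n' * a := by rw [hb1]; exact Int.mul_ediv_self_le hX.ne'
  have hb3 : n' * a < X * b + X := by
    have := Int.lt_mul_ediv_self_add (x := n' * a) hX
    rwa [← hb1] at this
  obtain ⟨t0, ht0⟩ : ∃ t0, t0 = (b - n * is) / i0 - J - 1 := ⟨_, rfl⟩
  have ht1 : i0 * (t0 + J + 1) ≤ b - n * is := by
    have := Int.mul_ediv_self_le (x := b - n * is) hi0.ne'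
    have e1 : t0 + J + 1 = (b - n * is) / i0 := by rw [ht0]; ring
    rwa [e1]
  have ht2 : b - n * is < i0 * (t0 + J + 1) + i0 := by
    have := Int.lt_mul_ediv_self_add (x := b - n * is) hi0
    have e1 : t0 + J + 1 = (b - n * is) / i0 := by rw [ht0]; ring
    rwa [e1]
  obtain ⟨t, t1, t2, t3⟩ := sieveP (k := 2) (e := 1) hB.cap (D0 := a * n') (mul_pos ha n1) (by
      refine hB.le (n := 1 + 1) (by norm_num) (mul_le_pow2 n1 ?_ ?_ (by linarith))
      · rw [pow_one]; linarith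
      · rw [pow_one]; linarith) (by norm_num)
    ![fun p => p ∣ a, fun p => p ∣ n'] ![i0, 1] ![n * is, 0]
    (by
      intro p _ i hi
      fin_cases i
      · exact Dvd.dvd.mul_right hi _
      · exact Dvd.dvd.mul_left hi _)
    (by
      intro p hp
      have hp' := Nat.prime_iff_prime_int.1 hp
      have key : ∃ y : ℤ, ¬ (p : ℤ) ∣ i0 * y + n * is ∧ ((p : ℤ) ∣ n' → ¬ (p : ℤ) ∣ y) := by
        by_cases h1 : (p : ℤ) ∣ n'
        · have h2 : ¬ (p : ℤ) ∣ i0 := fun h => not_dvd_of_isCoprime n3 hp h h1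
          refine ⟨1, fun h => h2 ?_, fun _ => prime_not_dvd_one hp⟩
          have := dvd_sub h (((hnn p).2 h1).mul_right is)
          rwa [add_sub_cancel_right, mul_one] at this
        · by_cases h2 : (p : ℤ) ∣ n * is
          · have h3 : (p : ℤ) ∣ is := (hp'.dvd_or_dvd h2).resolve_left fun h => h1 ((hnn p).1 h)
            refine ⟨1, fun h => ?_, fun h => absurd h h1⟩
            have h4 := dvd_sub h h2
            rw [add_sub_cancel_right, mul_one] at h4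
            refine prime_not_dvd_one hp ?_
            rw [← his]
            exact dvd_sub (h3.mul_left _) (h4.mul_right _)
          · exact ⟨0, by rwa [mul_zero, zero_add], fun h => absurd h h1⟩
      obtain ⟨y, y1, y2⟩ := key
      refine ⟨y, fun i hi => ?_⟩
      fin_cases i
      · exact y1
      · intro h
        have h1 : (p : ℤ) ∣ 1 * y + 0 := h
        rw [one_mul, add_zero] at h1
        exact y2 hi h1) t0
  rw [pow_one] at t2
  obtain ⟨i, hi⟩ : ∃ i, i = n * is + t * i0 := ⟨_, rfl⟩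
  obtain ⟨y, hy⟩ : ∃ y, y = n * ys + t * r := ⟨_, rfl⟩
  obtain ⟨l1, hl1⟩ : ∃ l1, l1 = a * y - z * i := ⟨_, rfl⟩
  have e1 : r * i - i0 * y = n := by
    rw [hi, hy]
    linear_combination n * his
  have e2 : i0 * l1 = e * (X * i - n' * a) := by
    have : i0 * l1 = x1 * i - n * a := by
      rw [hl1, hx1]
      linear_combination (-a) * e1
    rw [this, heX, hn]
    ring
  have s0 : ∀ p : ℕ, p.Prime → (p : ℤ) ∣ a → ¬ (p : ℤ) ∣ i := fun p hp hd h =>
    t3 p hp 0 hd (by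
      show (p : ℤ) ∣ i0 * t + n * is
      rw [show i0 * t + n * is = i by rw [hi]; ring]
      exact h)
  have s1 : ∀ p : ℕ, p.Prime → (p : ℤ) ∣ n' → ¬ (p : ℤ) ∣ t := fun p hp hd h =>
    t3 p hp 1 hd (by
      show (p : ℤ) ∣ 1 * t + 0
      rw [one_mul, add_zero]
      exact h)
  -- bounds for `i`
  have hJn : (J : ℤ) + 2 ≤ 2 * J := by linarith
  have hi1 : i ≤ b - 2 * i0 := by
    have h1 : i0 * t ≤ i0 * (t0 + J - 1) := mul_le_mul_of_nonneg_left (by linarith) hi0.le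
    rw [hi]
    linarith
  have hi2 : b - i0 * (J + 2) < i := by
    have h1 : i0 * t0 ≤ i0 * t := mul_le_mul_of_nonneg_left t1 hi0.le
    rw [hi]
    linarith
  have hd1 : 2 * i0 * X ≤ n' * a - X * i := by
    have h1 : X * i ≤ X * (b - 2 * i0) := mul_le_mul_of_nonneg_left hi1 hX.le
    linarith
  have hd2 : n' * a - X * i < X * i0 * (J + 3) := by
    have h1 : X * (b - i0 * (J + 2)) < X * i := mul_lt_mul_of_pos_left hi2 hX
    have h2 : X ≤ X * i0 := le_mul_of_one_le_right hX.le hi0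
    linarith
  have habs : i0 * |l1| = n' * a - X * i := by
    have h1 : |i0 * l1| = |X * i - n' * a| := by
      rw [e2, abs_mul]
      rcases he with rfl | rfl <;> simp
    rw [abs_mul, abs_of_pos hi0] at h1
    rw [h1, abs_sub_comm, abs_of_nonneg]
    exact le_trans (by positivity) hd1
  have hl2 : |l1| ≤ X * (J + 3) := by
    have h1 : i0 * |l1| ≤ i0 * (X * (J + 3)) := by rw [habs]; linarith
    exact le_of_mul_le_mul_left h1 hi0
  have hl0 : l1 ≠ 0 := by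
    rintro h0
    rw [h0, abs_zero, mul_zero] at habs
    have : 0 < 2 * i0 * X := by positivity
    linarith
  have hba : b ≤ a := by
    have h1 : X * b ≤ X * a := hb2.trans (mul_le_mul_of_nonneg_right n2 ha.le)
    exact le_of_mul_le_mul_left h1 hX
  have hia : i < a := by linarith
  have hcia : IsCoprime i a := isCoprime_of_prime fun p hp h1 h2 => s0 p hp h1 h2
  refine ⟨l1, i, hl0, ?_, hia, hcia, ?_, ⟨y, by rw [hl1]; ring⟩⟩
  · -- sizes
    have hpw : ∀ m : ℕ, (A + 1) * (J : ℤ) ^ m > 0 := fun m => mul_pos hA1 (hpos m)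
    -- `i0 (J + 2) ≤ 2 (A + 1) J ^ 8`
    have g1 : i0 * (J + 2) ≤ 2 * ((A + 1) * (J : ℤ) ^ 8) := by
      calc i0 * (J + 2) ≤ ((A + 1) * (J : ℤ) ^ 7) * (2 * J) :=
            mul_le_mul hiQ hJn (by linarith) (hpw 7).le
        _ = 2 * ((A + 1) * (J : ℤ) ^ 8) := by ring
    have g2 : (A + 1) * |l1| * (J : ℤ) ^ 3 ≤ (A + 1) * (X * (2 * J)) * (J : ℤ) ^ 3 := by
      refine mul_le_mul_of_nonneg_right (mul_le_mul_of_nonneg_left (hl2.trans ?_) hA1.le) (hpos 3).le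
      exact mul_le_mul_of_nonneg_left (by linarith) hX.le
    have k8 : 1000 * ((A + 1) * (J : ℤ) ^ 8) ≤ (A + 1) * (J : ℤ) ^ 9 := by
      have : (A + 1) * (J : ℤ) ^ 9 = J * ((A + 1) * (J : ℤ) ^ 8) := by ring
      rw [this]
      exact mul_le_mul_of_nonneg_right (by linarith) (hpw 8).le
    have k9 : (A + 1) * (J : ℤ) ^ 9 ≤ (A + 1) * (J : ℤ) ^ 12 :=
      mul_le_mul_of_nonneg_left (pow_le_pow_right₀ hB.J1 (by norm_num)) hA1.le
    have kone : 1 ≤ (A + 1) * (J : ℤ) ^ 8 := hpw 8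
    rcases n4 with ⟨m1, m2⟩ | ⟨m1, m2⟩
    · -- `X ≤ J ^ 2`, `n' = 1`
      have hJ2 := hpos 2
      -- `J ^ 2 (b + 1) > a`
      have h1 : a < (J : ℤ) ^ 2 * (b + 1) := by
        have hb0 : 0 ≤ b + 1 := by
          by_contra hc
          push Not at hc
          have : X * (b + 1) < 0 := mul_neg_of_pos_of_neg hX hc
          rw [m2] at hb3
          linarith
        have h3 : X * (b + 1) ≤ (J : ℤ) ^ 2 * (b + 1) := mul_le_mul_of_nonneg_right m1 hb0
        rw [m2] at hb3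
        linarith
      have h4 : (J : ℤ) ^ 2 * (i0 * (J + 2)) ≤ 2 * ((A + 1) * (J : ℤ) ^ 10) := by
        calc (J : ℤ) ^ 2 * (i0 * (J + 2)) ≤ (J : ℤ) ^ 2 * (2 * ((A + 1) * (J : ℤ) ^ 8)) :=
              mul_le_mul_of_nonneg_left g1 hJ2.le
          _ = 2 * ((A + 1) * (J : ℤ) ^ 10) := by ring
      have h5 : (J : ℤ) ^ 2 ≤ (A + 1) * (J : ℤ) ^ 10 := by
        calc (J : ℤ) ^ 2 ≤ (J : ℤ) ^ 10 := pow_le_pow_right₀ hB.J1 (by norm_num)
          _ ≤ (A + 1) * (J : ℤ) ^ 10 := le_mul_of_one_le_left (hpos 10).le hA1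
      have h6 : 1000 * ((A + 1) * (J : ℤ) ^ 10) ≤ a := by
        have : (A + 1) * (J : ℤ) ^ 11 = J * ((A + 1) * (J : ℤ) ^ 10) := by ring
        have h7 : 1000 * ((A + 1) * (J : ℤ) ^ 10) ≤ (A + 1) * (J : ℤ) ^ 11 := by
          rw [this]
          exact mul_le_mul_of_nonneg_right (by linarith) (hpw 10).le
        have h8 : (A + 1) * (J : ℤ) ^ 11 ≤ (A + 1) * (J : ℤ) ^ 12 :=
          mul_le_mul_of_nonneg_left (pow_le_pow_right₀ hB.J1 (by norm_num)) hA1.le
        linarith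
      have h9 : a - 3 * ((A + 1) * (J : ℤ) ^ 10) ≤ (J : ℤ) ^ 2 * i := by
        have h10 : (J : ℤ) ^ 2 * (b - i0 * (J + 2) + 1) ≤ (J : ℤ) ^ 2 * i :=
          mul_le_mul_of_nonneg_left (by linarith) hJ2.le
        linarith
      have h11 : (A + 1) * (X * (2 * J)) * (J : ℤ) ^ 3 ≤ 2 * ((A + 1) * (J : ℤ) ^ 6) := by
        calc (A + 1) * (X * (2 * J)) * (J : ℤ) ^ 3
            = X * (2 * ((A + 1) * (J : ℤ) ^ 4)) := by ring
          _ ≤ (J : ℤ) ^ 2 * (2 * ((A + 1) * (J : ℤ) ^ 4)) :=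
              mul_le_mul_of_nonneg_right m1 (by have := hpw 4; linarith)
          _ = 2 * ((A + 1) * (J : ℤ) ^ 6) := by ring
      have h12 : (J : ℤ) ^ 2 * ((A + 1) * |l1| * (J : ℤ) ^ 3) ≤ (J : ℤ) ^ 2 * i := by
        have h13 : (J : ℤ) ^ 2 * ((A + 1) * |l1| * (J : ℤ) ^ 3) ≤
            2 * ((A + 1) * (J : ℤ) ^ 8) := by
          calc _ ≤ (J : ℤ) ^ 2 * (2 * ((A + 1) * (J : ℤ) ^ 6)) :=
                mul_le_mul_of_nonneg_left (g2.trans h11) hJ2.le
            _ = 2 * ((A + 1) * (J : ℤ) ^ 8) := by ring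
        have h14 : (A + 1) * (J : ℤ) ^ 8 ≤ (A + 1) * (J : ℤ) ^ 10 :=
          mul_le_mul_of_nonneg_left (pow_le_pow_right₀ hB.J1 (by norm_num)) hA1.le
        linarith
      exact le_of_mul_le_mul_left h12 hJ2
    · -- `X > J ^ 2`
      have h1 : a ≤ 4 * (b + 1) := by
        have h2 : X * a ≤ X * (4 * (b + 1)) := by
          have h3 : X * a ≤ 4 * n' * a := mul_le_mul_of_nonneg_right m2 ha.le
          linarith
        exact le_of_mul_le_mul_left h2 hX
      have h4 : a ≤ 8 * i := by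
        have h5 : b - 2 * ((A + 1) * (J : ℤ) ^ 8) < i := by linarith
        linarith
      have h6 : (A + 1) * (X * (2 * J)) * (J : ℤ) ^ 3 * (J : ℤ) ^ 3 ≤ 2 * a := by
        have h7 : X * ((A + 1) * (J : ℤ) ^ 7) ≤ a := by linarith
        calc (A + 1) * (X * (2 * J)) * (J : ℤ) ^ 3 * (J : ℤ) ^ 3
            = 2 * (X * ((A + 1) * (J : ℤ) ^ 7)) := by ring
          _ ≤ 2 * a := by linarith
      have h8 : 16 * ((A + 1) * (X * (2 * J)) * (J : ℤ) ^ 3) ≤
          (A + 1) * (X * (2 * J)) * (J : ℤ) ^ 3 * (J : ℤ) ^ 3 := by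
        have h9 : 0 ≤ (A + 1) * (X * (2 * J)) * (J : ℤ) ^ 3 := by positivity
        have h10 : (16 : ℤ) ≤ (J : ℤ) ^ 3 := by
          calc (16 : ℤ) ≤ (J : ℤ) ^ 1 := by rw [pow_one]; linarith
            _ ≤ (J : ℤ) ^ 3 := pow_le_pow_right₀ hB.J1 (by norm_num)
        calc _ = (A + 1) * (X * (2 * J)) * (J : ℤ) ^ 3 * 16 := by ring
          _ ≤ _ := mul_le_mul_of_nonneg_left h10 h9
      linarith
  · refine isCoprime_of_prime fun p hp h2 h1 => ?_
    have hp' := Nat.prime_iff_prime_int.1 hp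
    have h3 : ¬ (p : ℤ) ∣ a := fun h => s0 p hp h h2
    have h4 : (p : ℤ) ∣ a * y := by
      have : a * y = l1 + z * i := by rw [hl1]; ring
      rw [this]
      exact dvd_add h1 (h2.mul_left _)
    have h5 : (p : ℤ) ∣ y := (hp'.dvd_or_dvd h4).resolve_left h3
    have h6 : (p : ℤ) ∣ n := by
      rw [← e1]
      exact dvd_sub (h2.mul_left _) (h5.mul_left _)
    have h7 : (p : ℤ) ∣ n' := (hnn p).1 h6
    have h8 : (p : ℤ) ∣ t * i0 := by
      have : t * i0 = i - n * is := by rw [hi]; ring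
      rw [this]
      exact dvd_sub h2 (h6.mul_right _)
    rcases hp'.dvd_or_dvd h8 with h9 | h9
    · exact s1 p hp h7 h9
    · exact not_dvd_of_isCoprime n3 hp h9 h7

end Pool.Agent.H4G.Six
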