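import Pool.Agent.H4G.Six.Can.Fork
import Pool.Agent.H4G.Six.Can.Ev3

/-!
# Type A, gcd `2 h`, `z = h` odd: the state is equivalent to an even good state (helper11)
-/

set_option autoImplicit false

namespace Pool.Agent.H4G.Six

open Pool.Agent.H4G

variable {N : ℤ} {J Z : ℕ}

/-- (E1) if `a₁ / 2` is odd -/
theorem e1odd (hB : Bg N J Z) {A a g h : ℤ} (hA : 0 < A) (hA2 : (2 : ℤ) ∣ A)
    (hN : A + a + 2 * g = N) (hho : ¬ (2 : ℤ) ∣ h) (hgo : ¬ (2 : ℤ) ∣ g)
    (hg : (Int.gcd a (2 * g) : ℤ) = 2 * h) (hJa : (J : ℤ) ^ 5 ≤ a) (hJa1 : (J : ℤ) ^ 5 ≤ 2 * g) :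
    ∃ A' a' a1' : ℤ, GdE N A' a' a1' ∧ SEq6 (PG A a (2 * g) h) (PG A' a' a1' 1) := by
  have hJ := hB.J20
  have hN1 := hB.N1
  have hp1 := hB.pows 1
  have hp2 := hB.pows 2
  have hp3 := hB.pows 3
  have hp4 := hB.pows 4
  norm_num at hp1 hp2 hp3 hp4
  have hga : 2 * h ∣ a := by rw [← hg]; exact Int.gcd_dvd_left _ _
  have hgg : 2 * h ∣ 2 * g := by rw [← hg]; exact Int.gcd_dvd_right _ _
  have ha2 : (2 : ℤ) ∣ a := (Dvd.intro _ rfl).trans hga
  obtain ⟨β, hβ⟩ : h ∣ g := by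
    obtain ⟨x, hx⟩ := hgg
    exact ⟨x, by linarith⟩
  have hβo : ¬ (2 : ℤ) ∣ β := fun h1 => hgo (by rw [hβ]; exact h1.mul_left _)
  have ha0 : 0 < a := by linarith
  have hg0 : 0 < g := by linarith
  have haN : a ≤ N := by linarith
  have hgN : g ≤ N := by linarith
  have hAN : A ≤ N := by linarith
  -- the choice of `q`
  obtain ⟨q, q1, q2, q3⟩ := exists_cop hB (D := A * a * g) (by positivity) (n := 1 + 1 + 1)
    (by norm_num) (mul_le_pow2 hg0 (mul_le_pow2 ha0 (by rw [pow_one]; linarith)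
      (by rw [pow_one]; linarith) (by linarith)) (by rw [pow_one]; linarith) (by linarith))
    ((J : ℤ) ^ 3)
  have cqA : IsCoprime q (A * a) := q3.of_mul_right_left
  have cqg : IsCoprime q g := q3.of_mul_right_right
  have hqo : ¬ (2 : ℤ) ∣ q := by
    intro h1
    exact not_dvd_of_isCoprime cqA Nat.prime_two (by push_cast; exact hA2.mul_right _)
      (by exact_mod_cast h1)
  have hq0 : 0 < q := by linarith
  have hqa : q < a := by linarith
  have hqg : q < g := by linarith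
  -- the source
  have s1 : SEq6 (FK A a 2 g q 1) (PG A a (2 * g) h) := by
    refine forkSrc hA (by norm_num) hq0 hqa hqg cqA cqg ?_ ?_ ?_
    · obtain ⟨x, hx⟩ := hA2
      rw [Int.isCoprime_iff_gcd_eq_one, Int.gcd_comm, ← Int.isCoprime_iff_gcd_eq_one]
      rcases Int.even_or_odd q with h1 | ⟨r, hr⟩
      · exact absurd (even_iff_two_dvd.1 h1) hqo
      · exact ⟨1, -(r - x * g), by rw [hr, hx]; ring⟩
    · rw [hg]; exact ⟨1, by ring⟩
    · rw [hg]
      have e : h * (q * (q * 1 - A * g)) - g = h * (q * (q - A * g) - β) := by rw [hβ]; ring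
      rw [e, mul_comm 2 h]
      refine mul_dvd_mul_left h ?_
      obtain ⟨x, hx⟩ := hA2
      rcases Int.even_or_odd q with h1 | ⟨r, hr⟩
      · exact absurd (even_iff_two_dvd.1 h1) hqo
      rcases Int.even_or_odd β with h1 | ⟨y, hy⟩
      · exact absurd (even_iff_two_dvd.1 h1) hβo
      refine ⟨2 * r * r + 2 * r - q * x * g - y, ?_⟩
      rw [hx, hy]
      have : q * q = 4 * r * r + 4 * r + 1 := by rw [hr]; ring
      linear_combination this
  -- the choice of `k`
  have hag : a - g ≠ 0 := fun h1 => hgo (by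
    have : g = a := by linarith
    rw [this]; exact ha2)
  have hag0 : 0 < |a - g| := abs_pos.2 hag
  have hagN : |a - g| ≤ N := by
    rw [abs_le]; constructor <;> linarith
  obtain ⟨k, k1, k2, k3, k4⟩ := sieveQ (k := 2) (e := 1) hB.cap
    (D0 := (A + (1 + 2) * q) * (a - q) * (g - q) * |a - g|) (by
      have : 0 < a - q := by linarith
      have : 0 < g - q := by linarith
      positivity) (by
      refine hB.le (n := 1 + 1 + 1 + 1) (by norm_num) (mul_le_pow2 hag0 (mul_le_pow2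
        (by linarith) (mul_le_pow2 (by linarith) ?_ ?_ (by linarith)) ?_ (by linarith)) ?_
        (by linarith)) <;>
      · rw [pow_one]; linarith) (by norm_num)
    ![fun p => p ∣ (A + (1 + 2) * q) * (a - q) * (g - q), fun p => p ∣ a - g]
    ![1, 1] ![-q, -a] (m := 2) (by norm_num) 0
    (by
      intro p _ i hi
      fin_cases i
      · exact Dvd.dvd.mul_right hi _
      · exact Dvd.dvd.mul_left ((dvd_abs _ _).2 hi) _)
    (by
      intro p hp hp2
      have hp2' : p ≠ 2 := by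
        rintro rfl
        exact hp2 (by norm_num)
      obtain ⟨y, y1, y2⟩ := avoid2 hp hp2' q a
      refine ⟨y, fun i _ => ?_⟩
      fin_cases i
      · intro h
        have h1 : (p : ℤ) ∣ 1 * y + -q := h
        rw [one_mul, ← sub_eq_add_neg] at h1
        exact y1 h1
      · intro h
        have h1 : (p : ℤ) ∣ 1 * y + -a := h
        rw [one_mul, ← sub_eq_add_neg] at h1
        exact y2 h1)
    (by
      intro p hp hp2 i hi
      have hp2' : p = 2 := by
        rcases two_or_odd hp with h | ⟨_, h⟩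
        · exact h
        · exact absurd hp2 h
      subst hp2'
      fin_cases i
      · intro h
        have h1 : ((2 : ℕ) : ℤ) ∣ 1 * 0 + -q := h
        push_cast at h1
        omega
      · intro _
        have h1 : ((2 : ℕ) : ℤ) ∣ a - g := hi
        push_cast at h1
        omega) 0
  rw [pow_one, zero_add] at k2
  rw [sub_zero] at k3
  have hk : k < q := by linarith
  have r0 : ∀ p : ℕ, p.Prime → (p : ℤ) ∣ (A + (1 + 2) * q) * (a - q) * (g - q) →
      ¬ (p : ℤ) ∣ q - k := fun p hp hd h => k4 p hp 0 hd (by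
    show (p : ℤ) ∣ 1 * k + -q
    have e : 1 * k + -q = -(q - k) := by ring
    rw [e]; exact (dvd_neg).2 h)
  have r1 : ∀ p : ℕ, p.Prime → (p : ℤ) ∣ a - g → ¬ (p : ℤ) ∣ a - k := fun p hp hd h =>
    k4 p hp 1 hd (by
      show (p : ℤ) ∣ 1 * k + -a
      have e : 1 * k + -a = -(a - k) := by ring
      rw [e]; exact (dvd_neg).2 h)
  -- the line
  obtain ⟨z', s2⟩ := forkUp (s := 1) hA (by norm_num : (0 : ℤ) < 2) k1 hk hqa hqg r0 (by
    intro p hp hp2
    have hp2' : p = 2 := by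
      rcases two_or_odd hp with h | ⟨_, h⟩
      · exact h
      · exact absurd hp2 h
    subst hp2'
    push_cast
    intro h1
    obtain ⟨x, hx⟩ := hA2
    obtain ⟨y, hy⟩ := k3
    have e : q * 1 - A * g + k * (A + q - g - 1) =
        q + 2 * (-(x * g) + y * (A + q - g - 1)) := by rw [hx, hy]; ring
    rw [e] at h1
    exact hqo (by
      have := dvd_sub h1 (Dvd.intro _ rfl : (2 : ℤ) ∣ 2 * (-(x * g) + y * (A + q - g - 1)))
      rwa [add_sub_cancel_right] at this))
  have hG : G2 (a - k) (2 * (g - k)) := by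
    refine ⟨by omega, Dvd.intro _ rfl, fun h4 => ?_, fun p hp hp2 h1 h2 => ?_⟩
    · have h5 := h4.2
      omega
    · have hp' := Nat.prime_iff_prime_int.1 hp
      have h3 := (hp'.dvd_or_dvd h2).resolve_left hp2
      refine r1 p hp ?_ h1
      have := dvd_sub h1 h3
      have e : a - k - (g - k) = a - g := by ring
      rwa [e] at this
  have hA' : (2 : ℤ) ∣ A + (1 + 2) * k := by omega
  have hA0' : 0 < A + (1 + 2) * k := by linarith
  have hak : 3 < a - k := by linarith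
  have hgk : 1 < 2 * (g - k) := by linarith
  refine ⟨A + (1 + 2) * k, a - k, 2 * (g - k), ⟨hA0', hA', by linarith, by linarith,
    by linarith, hG, Or.inl hak⟩, ?_⟩
  exact PG.to_one (s1.symm.trans s2) ((PG.inv_even hA2 ha2 (Dvd.intro _ rfl)).2 hho) hA0' hA'
    (by linarith) hgk hG

/-- **(E1)** -/
theorem e1 (hB : Bg N J Z) {A a a1 h : ℤ} (hA : 0 < A) (hA2 : (2 : ℤ) ∣ A)
    (hN : A + a + a1 = N) (_h0 : 0 < h) (hho : ¬ (2 : ℤ) ∣ h)
    (hg : (Int.gcd a a1 : ℤ) = 2 * h) (hJa : (J : ℤ) ^ 5 ≤ a) (hJa1 : (J : ℤ) ^ 5 ≤ a1) :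
    ∃ A' a' a1' : ℤ, GdE N A' a' a1' ∧ SEq6 (PG A a a1 h) (PG A' a' a1' 1) := by
  have hJ := hB.J20
  have hp0 := hB.pows 0
  have hp1 := hB.pows 1
  have hp2 := hB.pows 2
  have hp3 := hB.pows 3
  have hp4 := hB.pows 4
  norm_num at hp0 hp1 hp2 hp3 hp4
  have hga : 2 * h ∣ a := by rw [← hg]; exact Int.gcd_dvd_left _ _
  have hgg : 2 * h ∣ a1 := by rw [← hg]; exact Int.gcd_dvd_right _ _
  obtain ⟨b, hb⟩ : (2 : ℤ) ∣ a := (Dvd.intro _ rfl).trans hga
  obtain ⟨b1, hb1⟩ : (2 : ℤ) ∣ a1 := (Dvd.intro _ rfl).trans hgg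
  by_cases h1 : (2 : ℤ) ∣ b1
  · have h2 : ¬ (2 : ℤ) ∣ b := by
      intro h2
      have h3 : (4 : ℤ) ∣ (Int.gcd a a1 : ℤ) := by
        refine Int.dvd_coe_gcd ?_ ?_ <;> omega
      rw [hg] at h3
      omega
    have s0 : SEq6 (PG A a a1 h) (PG A a1 a h) :=
      PG.swap hA (by linarith) (by linarith) (by rw [hg]; exact ⟨1, by ring⟩)
    obtain ⟨A', a', a1', h3, h4⟩ := e1odd hB (A := A) (a := a1) (g := b) hA hA2
      (by linarith) hho h2 (by rw [← hb, Int.gcd_comm]; exact hg) hJa1 (by linarith)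
    rw [← hb] at h4
    exact ⟨A', a', a1', h3, s0.trans h4⟩
  · obtain ⟨A', a', a1', h3, h4⟩ := e1odd hB (A := A) (a := a) (g := b1) hA hA2
      (by linarith) hho h1 (by rw [← hb1]; exact hg) hJa (by linarith)
    rw [← hb1] at h4
    exact ⟨A', a', a1', h3, h4⟩

end Pool.Agent.H4G.Six
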