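import Pool.Agent.H4G.Six.Can.Half
import Pool.Agent.H4G.Six.Can.B1

/-!
# C11: the fork line (helper35)

`PG A a a₁ z` with `a = h α`, `a₁ = h n`, `z = h z₁`. For `l = (a s, q) ∈ L` the vector `m = n l` is
in `M`: a parallel pair. The vector `u' = j u + (j q - 1) w`, `w = v + l + m`, has `u' × l = 1`,
`u' × m = n`. The content of `u' × M'` is one for a suitable `j`, always.
-/

set_option autoImplicit false

namespace Pool.Agent.H4G.Six

open Pool.Agent.H4G

variable {N : ℤ} {J Z : ℕ}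

/-- **the fork line** -/
theorem gaStep {A a a1 z h α n z1 q s ν : ℤ} (hA : 0 < A) (ha : 1 < a) (ha1 : 1 < a1)
    (hn : 0 < n)
    (e1 : a = h * α) (e2 : a1 = h * n) (e3 : z = h * z1) (hq1 : 1 < q) (hqa : q < a)
    (hqh : q < h) (hqc : IsCoprime q a) (hν : ν * q - A * (a * s) = -1)
    (hy : IsCoprime (α * s - z1 * q) n) :
    ∃ z' : ℤ, SEq6 (PG A a a1 z) (PG (A + (q - 1) * (1 + n)) (a - (q - 1)) (a1 - n * (q - 1)) z') := by
  -- the vectors
  have hlc : IsCoprime (a * s) q := by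
    refine ⟨A, -ν, ?_⟩
    linear_combination -hν
  have hqs : IsCoprime q s := by
    refine ⟨-ν, A * a, ?_⟩
    linear_combination -hν
  obtain ⟨p0, hp0⟩ := exists_dual (l := ((a * s, q) : Z2)) hlc
  obtain ⟨l, hl⟩ : ∃ l : Z2, l = (a * s, q) := ⟨_, rfl⟩
  rw [← hl] at hp0
  obtain ⟨y1, hy1⟩ : ∃ y1 : ℤ, y1 = α * s - z1 * q := ⟨_, rfl⟩
  rw [← hy1] at hy
  -- `y₁` and `n q` are coprime
  have hyq : IsCoprime y1 q := by
    obtain ⟨x, y, hxy⟩ := hlc
    -- `x (h α s) + y q = 1`, `α s = y₁ + z₁ q`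
    refine ⟨x * h, y + x * h * z1, ?_⟩
    rw [e1] at hxy
    rw [hy1]
    linear_combination hxy
  have hynq : IsCoprime (n * q) y1 := (hy.mul_right hyq).symm
  obtain ⟨y2, x2, hxy⟩ := hynq
  -- `y₂ (n q) + x₂ y₁ = 1`
  obtain ⟨m, hm⟩ : ∃ m : Z2, m = n • l := ⟨_, rfl⟩
  obtain ⟨p', hp'⟩ : ∃ p' : Z2, p' = (-x2) • ((z, 1) : Z2) + y2 • ((a1, 0) : Z2) := ⟨_, rfl⟩
  obtain ⟨v, hv⟩ : ∃ v : Z2, v = (ν, A) := ⟨_, rfl⟩
  obtain ⟨u, hu⟩ : ∃ u : Z2, u = (1, 0) := ⟨_, rfl⟩
  -- products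
  have cuv : cr u v = A := by rw [hu, hv]; simp [cr]
  have cul : cr u l = q := by rw [hu, hl]; simp [cr]
  have cum : cr u m = n * q := by rw [hm, cr_smul_right, cul]
  have cvl : cr v l = -1 := by
    rw [hv, hl]
    show ν * q - A * (a * s) = -1
    exact hν
  have cpl : cr (a • p0) l = a := by rw [cr_smul_left, hp0, mul_one]
  have hp'1 : p' = (-x2 * z + y2 * a1, -x2) := by
    rw [hp']
    ext
    · simp
    · simp
  have hm1 : m = (n * (a * s), n * q) := by
    rw [hm, hl]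
    ext
    · simp
    · simp
  have cpm : cr p' m = a1 := by
    rw [hp'1, hm1]
    show (-x2 * z + y2 * a1) * (n * q) - (-x2) * (n * (a * s)) = a1
    rw [e2, e3, e1]
    rw [hy1] at hxy
    linear_combination (h * n) * hxy
  have cup : cr u p' = -x2 := by rw [hu, hp'1]; simp [cr]
  have cvp : cr v p' = ν * (-x2) - A * (-x2 * z + y2 * a1) := by rw [hv, hp'1]; rfl
  have clp : cr l p' = -h := by
    have e : n * cr l p' = n * (-h) := by
      rw [← cr_smul_left, ← hm, cr_swap, cpm, e2]; ring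
    exact mul_left_cancel₀ hn.ne' e
  -- the lattices
  have hL : lat l (a • p0) = Ld (0, 1) a := by
    rw [lat_eq_Ld (by rw [hl]; exact hlc), cpl]
    apply Ld_congr
    intro x
    have f1 : cr x l = x.1 * q - x.2 * (a * s) := by rw [hl]; rfl
    have f2 : cr x (0, 1) = x.1 := by simp [cr]
    rw [f1, f2]
    have ha2 : a ∣ x.2 * (a * s) := ⟨x.2 * s, by ring⟩
    constructor
    · intro h5
      have h6 : a ∣ x.1 * q := by
        have := dvd_add h5 ha2
        rwa [sub_add_cancel] at this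
      exact hqc.symm.dvd_of_dvd_mul_right h6
    · intro h5
      exact dvd_sub (h5.mul_right _) ha2
  have hM : lat m p' = Ld (z, 1) a1 := by
    have k1 : lat ((z, 1) : Z2) (a1, 0) = Ld (z, 1) a1 := by
      rw [lat_eq_Ld (show IsCoprime ((z, 1) : Z2).1 ((z, 1) : Z2).2 from isCoprime_one_right)]
      simp [cr]
    rw [← k1]
    refine closure_pair_eq (α := n * q) (β := y1) (γ := -x2) (δ := y2) ?_ hp' (Or.inl ?_)
    · rw [hm1]
      ext
      · simp only [Prod.fst_add, Prod.smul_fst, smul_eq_mul]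
        rw [hy1, e1, e2, e3]; ring
      · simp
    · linear_combination hxy
  -- the new vectors
  obtain ⟨w, hw⟩ : ∃ w : Z2, w = v + l + m := ⟨_, rfl⟩
  obtain ⟨W, hW⟩ : ∃ W : ℤ, W = A + q + n * q := ⟨_, rfl⟩
  have cuw : cr u w = W := by
    rw [hw, cr_add_right, cr_add_right, cuv, cul, cum, hW]
  have cll : cr l l = 0 := cr_self _
  have cml : cr m l = 0 := by rw [hm, cr_smul_left, cll, mul_zero]
  have cwl : cr w l = -1 := by
    rw [hw, cr_add_left, cr_add_left, cvl, cll, cml]; ring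
  have cwm : cr w m = -n := by
    rw [hm, cr_smul_right, cwl]; ring
  have cwu : cr w u = -W := by rw [cr_swap, cuw]
  have cmp : cr m p' = -a1 := by rw [cr_swap, cpm]
  obtain ⟨R, hR⟩ : ∃ R : ℤ, R = cr w p' + W := ⟨_, rfl⟩
  have hR' : R = ν * (-x2) - A * (-x2 * z + y2 * a1) - h - a1 + W := by
    rw [hR, hw, cr_add_left, cr_add_left, cvp, clp, cmp]; ring
  -- the choice of `j`
  obtain ⟨j, hj⟩ : ∃ j : ℤ, IsCoprime (-R + (-(h - q) * W) * j) n := by
    refine coprime_shift _ _ n hn.ne' fun p hp d1 d2 d3 => ?_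
    have d3' : (p : ℤ) ∣ R := (dvd_neg).1 d3
    have d2' : (p : ℤ) ∣ (h - q) * W := by
      rw [neg_mul] at d2
      exact (dvd_neg).1 d2
    obtain ⟨k, hk⟩ := d1
    have key : (1 : ℤ) = q * y1 * R + y1 * ((h - q) * W) + p * (k * (q * y2)) := by
      have kn : (p : ℤ) * (k * (q * y2)) = n * q * y2 := by rw [hk]; ring
      rw [kn, hR', hW, e2, e3]
      rw [e1] at hν
      linear_combination (x2 * y1) * hν + (A * h * y1 - 1) * hxy - (A * h * x2 * y1) * hy1
    refine prime_not_dvd_one hp ?_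
    rw [key]
    exact dvd_add (dvd_add (d3'.mul_left _) (d2'.mul_left _)) (dvd_mul_right _ _)
  obtain ⟨u', hu'⟩ : ∃ u' : Z2, u' = j • u + (j * q - 1) • w := ⟨_, rfl⟩
  obtain ⟨v', hv'⟩ : ∃ v' : Z2, v' = u + q • w - l - m := ⟨_, rfl⟩
  have cu'l : cr u' l = 1 := by
    rw [hu', cr_add_left, cr_smul_left, cr_smul_left, cul, cwl]; ring
  have cu'm : cr u' m = n := by
    rw [hm, cr_smul_right, cu'l, mul_one]
  have cu'v : cr u' v' = A + (q - 1) * (1 + n) := by
    rw [hv', cr_sub_right, cr_sub_right, cu'l, cu'm, cr_add_right, cr_smul_right, hu',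
      cr_add_left, cr_add_left, cr_smul_left, cr_smul_left, cr_smul_left, cr_smul_left,
      cr_self, cr_self, cuw, cwu, hW]
    ring
  have cu'u : cr u' u = -(j * q - 1) * W := by
    rw [hu', cr_add_left, cr_smul_left, cr_smul_left, cr_self, cwu]; ring
  have hqn : 0 < n * q := by positivity
  have hqa1 : n * q < a1 := by rw [e2]; nlinarith
  have hlat : lat u (v + l + m) = lat u' (v' + l + m) := by
    have f1 : v' + l + m = u + q • w := by rw [hv']; abel
    rw [f1, ← hw]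
    refine (closure_pair_eq (α := j) (β := j * q - 1) (γ := 1) (δ := q) ?_ ?_
      (Or.inl (by ring))).symm
    · rw [hu']
    · rw [one_smul]
  have hA' : 0 < A + (q - 1) * (1 + n) := by
    have : 0 < q - 1 := by linarith
    positivity
  have s1 := SEq6.pencil (L := Ld (0, 1) a) (M := Ld (z, 1) a1) (u := u) (v := v) (u' := u')
    (v' := v') (l := l) (p := a • p0) (m := m) (p' := p') (by rw [cuv]; exact hA) hL
    (by rw [cul]; linarith) (by rw [cul, cpl]; exact hqa) hM (by rw [cum]; exact hqn)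
    (by rw [cum, cpm]; exact hqa1) (by rw [cu'v]; exact hA') (by rw [cu'l]; norm_num)
    (by rw [cu'm]; exact hn) hlat
  -- the target
  obtain ⟨z', hz'⟩ := gen2 s1.ok' rfl rfl (a := a - (q - 1)) (a1 := a1 - n * (q - 1)) (by
      rw [cr_add_left, cr_sub_left, cpl, cu'l, cul]; ring) (by
      rw [cr_add_left, cr_sub_left, cpm, cu'm, cum]; ring)
    (by rw [cu'l]; exact isCoprime_one_left) (by
      rw [cu'm, cr_add_right, cr_sub_right, cr_self, cu'u]
      have f1 : cr u' p' = j * (-x2) + (j * q - 1) * (R - W) := by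
        rw [hu', cr_add_left, cr_smul_left, cr_smul_left, cup, hR]; ring
      have f2 : cr u' p' + (0 - -(j * q - 1) * W) = -R + (-(h - q) * W) * j := by
        rw [e1] at hν
        rw [f1, hR', hW, e2, e3]
        linear_combination j * (-x2 * hν + A * x2 * h * hy1 - A * h * hxy)
      rw [f2]
      exact hj.symm)
  rw [cu'v] at hz'
  -- the source
  have s2 : SEq6 (PG A a a1 z) ⟨Ld (0, 1) a, Ld (z, 1) a1, u, v⟩ := by
    have := SEq6.tv (PG.ok (z := z) hA ha ha1) ν
    have ev : ((0, A) : Z2) + ν • ((1, 0) : Z2) = v := by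
      rw [hv]
      ext
      · simp
      · simp
    rw [ev] at this
    rw [hu]
    exact this
  exact ⟨z', (s2.trans s1).trans hz'⟩

/-- `s` and `ν` for a given `q` -/
theorem gaStep' {A a a1 z h α n z1 q : ℤ} (hA : 0 < A) (ha : 1 < a) (ha1 : 1 < a1)
    (hn : 0 < n) (e1 : a = h * α) (e2 : a1 = h * n) (e3 : z = h * z1) (hq1 : 1 < q) (hqa : q < a)
    (hqh : q < h) (hqc : IsCoprime q a) (hqA : IsCoprime q A)
    (hc : ∀ p : ℕ, p.Prime → (p : ℤ) ∣ α → (p : ℤ) ∣ n → ¬ (p : ℤ) ∣ z1) :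
    ∃ z' : ℤ, SEq6 (PG A a a1 z)
      (PG (A + (q - 1) * (1 + n)) (a - (q - 1)) (a1 - n * (q - 1)) z') := by
  obtain ⟨ν0, s0, h0⟩ : IsCoprime q (A * a) := hqA.mul_right hqc
  -- `ν₀ q + s₀ A a = 1`
  obtain ⟨t, ht⟩ : ∃ t : ℤ, IsCoprime ((α * s0 - z1 * q) + (α * q) * t) n := by
    refine coprime_shift _ _ n hn.ne' fun p hp d1 d2 d3 => ?_
    have hp' := Nat.prime_iff_prime_int.1 hp
    rcases hp'.dvd_or_dvd d2 with d4 | d4
    · have d5 : (p : ℤ) ∣ z1 * q := by
        have := dvd_sub (d4.mul_right s0) d3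
        rwa [sub_sub_cancel] at this
      rcases hp'.dvd_or_dvd d5 with d6 | d6
      · exact hc p hp d4 d1 d6
      · exact not_dvd_of_isCoprime hqc hp (by rw [e1]; exact d4.mul_left _) d6
    · have d5 : (p : ℤ) ∣ α * s0 := by
        have := dvd_add d3 (d4.mul_left z1)
        rwa [sub_add_cancel] at this
      refine prime_not_dvd_one hp ?_
      have e : (1 : ℤ) = ν0 * q + A * h * (α * s0) := by
        rw [e1] at h0
        linear_combination -h0
      rw [e]
      exact dvd_add (d4.mul_left _) (d5.mul_left _)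
  refine gaStep (s := s0 + q * t) (ν := -ν0 + A * a * t) hA ha ha1 hn e1 e2 e3 hq1 hqa hqh hqc
    ?_ ?_
  · linear_combination -h0
  · have e : α * (s0 + q * t) - z1 * q = (α * s0 - z1 * q) + (α * q) * t := by ring
    rw [e]; exact ht

/-- **GA**: the fork line, `h` large -/
theorem ga (hB : Bg N J Z) {A a a1 z h α n z1 : ℤ} (hA : 0 < A) (hN : A + a + a1 = N)
    (e1 : a = h * α) (e2 : a1 = h * n) (e3 : z = h * z1) (hα : 2 ≤ α) (hn : 1 ≤ n)
    (hc : ∀ p : ℕ, p.Prime → (p : ℤ) ∣ α → (p : ℤ) ∣ n → ¬ (p : ℤ) ∣ z1) (hh : 5 * (J : ℤ) ≤ h) :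
    ∃ q z' : ℤ, 1 < q ∧ q ≤ 4 * J + 2 ∧ SEq6 (PG A a a1 z)
      (PG (A + (q - 1) * (1 + n)) (a - (q - 1)) (a1 - n * (q - 1)) z') ∧
      (IsCoprime (a - (q - 1)) (a1 - n * (q - 1)) ∨
        ((2 : ℤ) ∣ a ∧ (2 : ℤ) ∣ a1 ∧ ¬ (2 : ℤ) ∣ q ∧ G2 (a - (q - 1)) (a1 - n * (q - 1)))) := by
  have hN1 := hB.N1
  have hJ := hB.J20
  have hh0 : 0 < h := by linarith
  have hah : 2 * h ≤ a := by rw [e1]; nlinarith
  have hna : h ≤ a1 := by rw [e2]; nlinarith
  have hnN : n ≤ a1 := by rw [e2]; nlinarith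
  have hD : 0 < a * A * (n * (a - h)) := by
    have h1 : 0 < a - h := by linarith
    have h2 : 0 < a := by linarith
    positivity
  have hsz : a * A * (n * (a - h)) ≤ (Z : ℤ) := by
    refine hB.le (n := 1 + 1 + 2) (by norm_num) ?_
    have h1 : 0 < n * (a - h) := by
      have h1 : 0 < a - h := by linarith
      positivity
    refine mul_le_pow2 h1 (mul_le_pow2 hA ?_ ?_ (by linarith)) ?_ (by linarith)
    · rw [pow_one]; linarith
    · rw [pow_one]; linarith
    · have h2 : n * (a - h) ≤ N * N := by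
        apply mul_le_mul <;> linarith
      nlinarith
  -- the conclusion for a given `q`
  have fin : ∀ q : ℤ, 1 < q → q ≤ 4 * J + 2 → IsCoprime q a → IsCoprime q A →
      (IsCoprime (a - (q - 1)) (a1 - n * (q - 1)) ∨
        ((2 : ℤ) ∣ a ∧ (2 : ℤ) ∣ a1 ∧ ¬ (2 : ℤ) ∣ q ∧ G2 (a - (q - 1)) (a1 - n * (q - 1)))) →
      ∃ q z' : ℤ, 1 < q ∧ q ≤ 4 * J + 2 ∧ SEq6 (PG A a a1 z)
      (PG (A + (q - 1) * (1 + n)) (a - (q - 1)) (a1 - n * (q - 1)) z') ∧
      (IsCoprime (a - (q - 1)) (a1 - n * (q - 1)) ∨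
        ((2 : ℤ) ∣ a ∧ (2 : ℤ) ∣ a1 ∧ ¬ (2 : ℤ) ∣ q ∧
          G2 (a - (q - 1)) (a1 - n * (q - 1)))) := by
    intro q q1 q2 qa qA h5
    obtain ⟨z', hz'⟩ := gaStep' hA (by linarith) (by linarith) (by linarith) e1 e2 e3 q1
      (by linarith) (by linarith) qa qA hc
    exact ⟨q, z', q1, q2, hz', h5⟩
  -- primes
  have odd_part : ∀ q : ℤ, ∀ p : ℕ, p.Prime →
      ((p : ℤ) ∣ n * (a - h) → ¬ (p : ℤ) ∣ q - (1 + a)) →
      (p : ℤ) ∣ a - (q - 1) → ¬ (p : ℤ) ∣ a1 - n * (q - 1) := by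
    intro q p hp hq h1 h2
    have hp' := Nat.prime_iff_prime_int.1 hp
    have e4 : a1 - n * (q - 1) = n * (h - (q - 1)) := by rw [e2]; ring
    have h3 : (p : ℤ) ∣ q - (1 + a) := by
      have e5 : q - (1 + a) = -(a - (q - 1)) := by ring
      rw [e5]; exact (dvd_neg).2 h1
    rw [e4] at h2
    rcases hp'.dvd_or_dvd h2 with h4 | h4
    · exact hq (h4.mul_right _) h3
    · refine hq (Dvd.dvd.mul_left ?_ _) h3
      have := dvd_sub h1 h4
      rwa [show a - (q - 1) - (h - (q - 1)) = a - h by ring] at this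
  by_cases hpar : (2 : ℤ) ∣ a ∧ (2 : ℤ) ∣ a1
  · obtain ⟨q, q1, q2, q3, q4⟩ := sieveQ (k := 2) (e := 1) hB.cap hD hsz (by norm_num)
      ![fun p => p ∣ a * A, fun p => ¬ p ∣ 2 ∧ p ∣ n * (a - h)] ![1, 1] ![0, -(1 + a)]
      (m := 4) (by norm_num) (a + 3)
      (by
        intro p _ i hi
        fin_cases i
        · exact hi.mul_right _
        · exact hi.2.mul_left _)
      (by
        intro p hp hp4
        have hp2 : p ≠ 2 := by
          rintro rfl
          exact hp4 (by norm_num)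
        obtain ⟨y, y1, y2⟩ := avoid2 hp hp2 0 (1 + a)
        refine ⟨y, fun i hi => ?_⟩
        fin_cases i
        · intro h1
          have h2 : (p : ℤ) ∣ 1 * y + 0 := h1
          exact y1 (by simpa using h2)
        · intro h1
          have h2 : (p : ℤ) ∣ 1 * y + -(1 + a) := h1
          rw [one_mul, ← sub_eq_add_neg] at h2
          exact y2 h2)
      (by
        intro p hp hp4 i hi
        have hp2 : (p : ℤ) ∣ 2 := by
          have h22 : (4 : ℤ) = 2 * 2 := by norm_num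
          rw [h22] at hp4
          rcases (Nat.prime_iff_prime_int.1 hp).dvd_or_dvd hp4 with h' | h' <;> exact h'
        fin_cases i
        · intro h1
          have h2 : (p : ℤ) ∣ 1 * (a + 3) + 0 := h1
          rw [one_mul, add_zero] at h2
          have hpe : p = 2 := by
            have : p ∣ 2 := by exact_mod_cast hp2
            exact (Nat.prime_dvd_prime_iff_eq hp Nat.prime_two).1 this
          subst hpe
          push_cast at h2
          omega
        · exact (hi.1 hp2).elim) 2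
    rw [pow_one] at q2
    have k0 : ∀ p : ℕ, p.Prime → (p : ℤ) ∣ a * A → ¬ (p : ℤ) ∣ q := fun p hp hd h1 =>
      q4 p hp 0 hd (by
        show (p : ℤ) ∣ 1 * q + 0
        rw [one_mul, add_zero]; exact h1)
    have k1 : ∀ p : ℕ, p.Prime → ¬ (p : ℤ) ∣ 2 → (p : ℤ) ∣ n * (a - h) →
        ¬ (p : ℤ) ∣ q - (1 + a) := fun p hp h2 hd h1 =>
      q4 p hp 1 ⟨h2, hd⟩ (by
        show (p : ℤ) ∣ 1 * q + -(1 + a)
        rw [one_mul, ← sub_eq_add_neg]; exact h1)
    obtain ⟨w, hw⟩ := q3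
    have hqo : ¬ (2 : ℤ) ∣ q := by omega
    have he2 : (2 : ℤ) ∣ a1 - n * (q - 1) := by
      have h1 : (2 : ℤ) ∣ n * (q - 1) := Dvd.dvd.mul_left (by omega) _
      exact dvd_sub hpar.2 h1
    refine fin q (by linarith) (by linarith)
      (isCoprime_of_prime fun p hp h1 h2 => k0 p hp (h1.mul_right _) h2)
      (isCoprime_of_prime fun p hp h1 h2 => k0 p hp (h1.mul_left _) h2)
      (Or.inr ⟨hpar.1, hpar.2, hqo, ⟨by omega, he2, fun h4 => ?_, fun p hp h2 h3 => ?_⟩⟩)
    · have := h4.1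
      omega
    · exact odd_part q p hp (k1 p hp h2) h3
  · obtain ⟨q, q1, q2, q4⟩ := sieveP (k := 2) (e := 1) hB.cap hD hsz (by norm_num)
      ![fun p => p ∣ a * A, fun p => p ∣ n * (a - h)] ![1, 1] ![0, -(1 + a)]
      (by
        intro p _ i hi
        fin_cases i
        · exact hi.mul_right _
        · exact hi.mul_left _)
      (by
        intro p hp
        rcases two_or_odd hp with rfl | ⟨hp2, _⟩
        · refine ⟨1, fun i hi => ?_⟩
          fin_cases i
          · intro h1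
            have h2 : (2 : ℤ) ∣ 1 * 1 + 0 := h1
            omega
          · intro h1
            have h2 : (2 : ℤ) ∣ 1 * 1 + -(1 + a) := h1
            have h3 : (2 : ℤ) ∣ n * (a - h) := hi
            have ha2 : (2 : ℤ) ∣ a := by omega
            apply hpar
            refine ⟨ha2, ?_⟩
            rcases Int.prime_two.dvd_or_dvd h3 with h4 | h4
            · rw [e2]; exact h4.mul_left _
            · rw [e2]; exact Dvd.dvd.mul_right (by omega) _
        · obtain ⟨y, y1, y2⟩ := avoid2 hp hp2 0 (1 + a)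
          refine ⟨y, fun i hi => ?_⟩
          fin_cases i
          · intro h1
            have h2 : (p : ℤ) ∣ 1 * y + 0 := h1
            exact y1 (by simpa using h2)
          · intro h1
            have h2 : (p : ℤ) ∣ 1 * y + -(1 + a) := h1
            rw [one_mul, ← sub_eq_add_neg] at h2
            exact y2 h2) 2
    rw [pow_one] at q2
    have k0 : ∀ p : ℕ, p.Prime → (p : ℤ) ∣ a * A → ¬ (p : ℤ) ∣ q := fun p hp hd h1 =>
      q4 p hp 0 hd (by
        show (p : ℤ) ∣ 1 * q + 0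
        rw [one_mul, add_zero]; exact h1)
    have k1 : ∀ p : ℕ, p.Prime → (p : ℤ) ∣ n * (a - h) →
        ¬ (p : ℤ) ∣ q - (1 + a) := fun p hp hd h1 =>
      q4 p hp 1 hd (by
        show (p : ℤ) ∣ 1 * q + -(1 + a)
        rw [one_mul, ← sub_eq_add_neg]; exact h1)
    exact fin q (by linarith) (by linarith)
      (isCoprime_of_prime fun p hp h1 h2 => k0 p hp (h1.mul_right _) h2)
      (isCoprime_of_prime fun p hp h1 h2 => k0 p hp (h1.mul_left _) h2)
      (Or.inl (isCoprime_of_prime fun p hp h1 h2 => odd_part q p hp (k1 p hp) h2 h1))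

end Pool.Agent.H4G.Six
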