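import Pool.Agent.H4G.Six.Can.Hub

/-!
# Edges between the states with `A`, `a`, `a₁` even, `gcd (a, a₁) = 2`, `z = 1` (helper19)
-/

set_option autoImplicit false

namespace Pool.Agent.H4G.Six

open Pool.Agent.H4G

variable {N : ℤ} {J Z : ℕ}

/-- `gcd (a, a₁) = 2` -/
structure G2 (a a1 : ℤ) : Prop where
  e : (2 : ℤ) ∣ a
  e' : (2 : ℤ) ∣ a1
  n4 : ¬ ((4 : ℤ) ∣ a ∧ (4 : ℤ) ∣ a1)
  odd : ∀ p : ℕ, p.Prime → ¬ (p : ℤ) ∣ 2 → (p : ℤ) ∣ a → ¬ (p : ℤ) ∣ a1

theorem G2.swap {a a1 : ℤ} (h : G2 a a1) : G2 a1 a :=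
  ⟨h.e', h.e, fun h4 => h.n4 h4.symm, fun p hp h2 h3 h4 => h.odd p hp h2 h4 h3⟩

theorem g2_iff {a a1 : ℤ} : G2 a a1 ↔ Int.gcd a a1 = 2 := by
  constructor
  · rintro ⟨⟨x, rfl⟩, ⟨y, rfl⟩, n4, h⟩
    rw [Int.gcd_mul_left]
    have h1 : IsCoprime x y := by
      refine isCoprime_of_prime fun p hp h1 h2 => ?_
      rcases two_or_odd hp with rfl | ⟨_, h3⟩
      · apply n4
        have h1' : (2 : ℤ) ∣ y := by exact_mod_cast h1
        have h2' : (2 : ℤ) ∣ x := by exact_mod_cast h2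
        constructor
        · have := mul_dvd_mul_left 2 h2'
          norm_num at this
          exact this
        · have := mul_dvd_mul_left 2 h1'
          norm_num at this
          exact this
      · exact h p hp h3 (h2.mul_left _) (h1.mul_left _)
    rw [Int.isCoprime_iff_gcd_eq_one.1 h1]
    rfl
  · intro h
    have h1 := Int.gcd_dvd_left a a1
    have h2 := Int.gcd_dvd_right a a1
    rw [h] at h1 h2
    refine ⟨by exact_mod_cast h1, by exact_mod_cast h2, fun ⟨h3, h4⟩ => ?_, fun p _ h3 h4 h5 => ?_⟩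
    · have := Int.dvd_coe_gcd h3 h4
      rw [h] at this
      norm_num at this
    · have := Int.dvd_coe_gcd h4 h5
      rw [h] at this
      exact h3 (by exact_mod_cast this)

theorem G2.dvd {a a1 x : ℤ} (h : G2 a a1) (hx : (2 : ℤ) ∣ x) : (Int.gcd a a1 : ℤ) ∣ x := by
  rw [g2_iff.1 h]
  exact_mod_cast hx

/-- coprimality of an odd number -/
theorem cop_of_odd2 {a b : ℤ} (ha : ¬ (2 : ℤ) ∣ a)
    (h : ∀ p : ℕ, p.Prime → ¬ (p : ℤ) ∣ 2 → (p : ℤ) ∣ b → ¬ (p : ℤ) ∣ a) : IsCoprime a b := by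
  refine isCoprime_of_prime fun p hp h1 h2 => ?_
  rcases two_or_odd hp with rfl | ⟨_, h3⟩
  · exact ha (by exact_mod_cast h2)
  · exact h p hp h3 h1 h2

/-- **(U) for the even states** -/
theorem uEdge2 (hB : Bg N J Z) {A a a1 K : ℤ} (hA : 0 < A) (ha : 1 < a)
    (ha1 : 1 < a1) (hN : A + a + a1 = N) (hc : G2 a a1) (hK : 0 ≤ K)
    (hw : (A + 1) * (K + 4 * J) + 1 < a) :
    ∃ k : ℤ, K ≤ k ∧ k < K + 4 * J ∧ (2 : ℤ) ∣ k ∧ G2 (a - (A + 1) * k) (a1 + k) ∧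
      SEq6 (PG A a a1 1) (PG ((1 + k) * A) (a - (A + 1) * k) (a1 + k) 1) := by
  have hN1 := hB.N1
  have hR : 0 < a + (A + 1) * a1 := by positivity
  have hsz : (A + a) * (a1 - 1) * (a + (A + 1) * a1) ≤ (Z : ℤ) := by
    refine hB.le (n := 1 + 1 + 2) (by norm_num) ?_
    refine mul_le_pow2 hR (mul_le_pow2 (by linarith) ?_ ?_ (by linarith)) ?_ (by linarith)
    · rw [pow_one]; linarith
    · rw [pow_one]; linarith
    · have h1 : (A + 1) * a1 ≤ N * N := by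
        apply mul_le_mul <;> linarith
      nlinarith
  obtain ⟨k, k1, k2, k3', k3⟩ := sieveQ (k := 2) (e := 1) hB.cap
    (D0 := (A + a) * (a1 - 1) * (a + (A + 1) * a1)) (by
      have : 0 < a1 - 1 := by linarith
      positivity) hsz (by norm_num)
    ![fun p => p ∣ (A + a) * (a1 - 1) ∧ ¬ p ∣ 2, fun p => p ∣ a + (A + 1) * a1 ∧ ¬ p ∣ 2]
    ![1, 1] ![1, a1] (m := 4) (by norm_num) 0
    (by
      intro p _ i hi
      fin_cases i
      · exact hi.1.mul_right _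
      · exact hi.1.mul_left _)
    (by
      intro p hp _
      refine ⟨0, fun i hi => ?_⟩
      fin_cases i
      · simpa using prime_not_dvd_one hp
      · intro h
        have h1 : (p : ℤ) ∣ a1 := by simpa using h
        have h2 : (p : ℤ) ∣ a + (A + 1) * a1 := hi.1
        have h3 : (p : ℤ) ∣ a := by
          have := dvd_sub h2 (h1.mul_left (A + 1))
          simpa using this
        exact hc.odd p hp hi.2 h3 h1)
    (by
      intro p hp hp4 i hi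
      have hp2 : (p : ℤ) ∣ 2 := by
        have h22 : (4 : ℤ) = 2 * 2 := by norm_num
        rw [h22] at hp4
        rcases (Nat.prime_iff_prime_int.1 hp).dvd_or_dvd hp4 with h' | h' <;> exact h'
      fin_cases i
      · exact (hi.2 hp2).elim
      · exact (hi.2 hp2).elim) K
  rw [pow_one] at k2
  rw [sub_zero] at k3'
  obtain ⟨w, hw4⟩ := k3'
  have q0 : ∀ p : ℕ, p.Prime → ¬ (p : ℤ) ∣ 2 → (p : ℤ) ∣ (A + a) * (a1 - 1) →
      ¬ (p : ℤ) ∣ 1 + k := by
    intro p hp h2 hd h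
    refine k3 p hp 0 ⟨hd, h2⟩ ?_
    simpa [add_comm] using h
  have q1 : ∀ p : ℕ, p.Prime → ¬ (p : ℤ) ∣ 2 → (p : ℤ) ∣ a + (A + 1) * a1 →
      ¬ (p : ℤ) ∣ a1 + k := by
    intro p hp h2 hd h
    refine k3 p hp 1 ⟨hd, h2⟩ ?_
    simpa [add_comm] using h
  have hk0 : 0 ≤ k := hK.trans k1
  have hcc : G2 (a - (A + 1) * k) (a1 + k) := by
    refine ⟨?_, ?_, fun ⟨h3, h4⟩ => hc.n4 ⟨?_, ?_⟩, fun p hp h2 h3 h4 => q1 p hp h2 ?_ h4⟩
    · refine dvd_sub hc.e (Dvd.dvd.mul_left ?_ _)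
      rw [hw4]; exact ⟨2 * w, by ring⟩
    · refine dvd_add hc.e' ?_
      rw [hw4]; exact ⟨2 * w, by ring⟩
    · have : a = (a - (A + 1) * k) + 4 * ((A + 1) * w) := by rw [hw4]; ring
      rw [this]; exact dvd_add h3 (dvd_mul_right _ _)
    · have : a1 = (a1 + k) - 4 * w := by rw [hw4]; ring
      rw [this]; exact dvd_sub h4 (dvd_mul_right _ _)
    · have : a + (A + 1) * a1 = (a - (A + 1) * k) + (A + 1) * (a1 + k) := by ring
      rw [this]
      exact dvd_add h3 (h4.mul_left _)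
  have hlt : (A + 1) * k + 1 < a := by
    have : (A + 1) * k ≤ (A + 1) * (K + 4 * J) := mul_le_mul_of_nonneg_left k2.le (by linarith)
    linarith
  have hk2 : ¬ (2 : ℤ) ∣ 1 + k := by omega
  refine ⟨k, k1, k2, ⟨2 * w, by rw [hw4]; ring⟩, hcc, ?_⟩
  refine edge (ν := 0) (l1 := 1) (m1 := 0) (i := a - 1) (j := 1) (k := k) (W := A + a)
    (κ := 1 + k) (i' := a - 1 - k * (A + 1)) (j' := 1 + k) (by ring) (by ring) (by ring) (by ring)
    (by ring) (by ring) (by ring) hA (by linarith) (by linarith) (by norm_num) ha1 (by positivity)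
    (by linarith) (by linarith) isCoprime_one_left isCoprime_one_right ⟨-1, 1, by ring⟩
    isCoprime_one_left ?_ ⟨-1, 1, by ring⟩ ?_ (hc.dvd ?_) (hcc.dvd ?_)
  · refine cop_of_odd2 hk2 fun p hp h2 h3 h4 => ?_
    rcases (Nat.prime_iff_prime_int.1 hp).dvd_or_dvd h3 with h | h
    · have := dvd_sub h4 h
      rw [show 1 + k - k = 1 by ring] at this
      exact prime_not_dvd_one hp this
    · exact q0 p hp h2 (h.mul_right _) h4
  · refine cop_of_odd2 hk2 fun p hp h2 h3 h4 => ?_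
    refine q0 p hp h2 (Dvd.dvd.mul_left ?_ _) h4
    have := dvd_sub h3 h4
    rw [show a1 + k - (1 + k) = a1 - 1 by ring] at this
    exact this
  · have : (1 : ℤ) * ((a - 1) * 1) + (1 * 1 - (a - 1) * 0) = a := by ring
    rw [this]; exact hc.e
  · obtain ⟨x, hx⟩ := hc.e
    refine ⟨(x - 2 * w * (A + 1)) * (1 + k) - 2 * w, ?_⟩
    rw [hx, hw4]; ring

/-- **(R) for the even states** -/
theorem rEdge2 (hB : Bg N J Z) {A a a1 i V : ℤ} (hA : 0 < A) (hA2 : (2 : ℤ) ∣ A) (ha : 1 < a)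
    (ha1 : 1 < a1) (hN : A + a + a1 = N) (hc : G2 a a1) (hi : 1 < i) (hia : i < a)
    (hci : IsCoprime i a) (hR : a - A - 1 - i * (a1 + 1) ≠ 0) (hV : 0 ≤ V)
    (hw : (V + 4 * (J : ℤ) ^ 2) * (i + 1) ≤ 2 * A) (hw' : A + 1 < (1 + V) * i) :
    ∃ ν : ℤ, V ≤ ν ∧ ν < V + 4 * (J : ℤ) ^ 2 ∧ G2 (a + ν * i - A - 1) (a1 + 1 + ν) ∧
      (2 : ℤ) ∣ 2 * A - ν * (i + 1) ∧
      SEq6 (PG A a a1 1) (PG (2 * A - ν * (i + 1)) (a + ν * i - A - 1) (a1 + 1 + ν) 1) := by
  have hN1 := hB.N1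
  have hio : ¬ (2 : ℤ) ∣ i := by
    intro h
    exact not_dvd_of_isCoprime hci Nat.prime_two (by exact_mod_cast hc.e) (by exact_mod_cast h)
  have habs : 0 < |a - A - 1 - i * (a1 + 1)| := abs_pos.2 hR
  have hne : 0 < a - i := by linarith
  have hsz : (a - i) * (A + i + 1) * (a1 - 1) * |a - A - 1 - i * (a1 + 1)| ≤ (Z : ℤ) := by
    refine hB.le (n := 1 + 1 + 1 + 2) (by norm_num) ?_
    refine mul_le_pow2 habs (mul_le_pow2 (by linarith) (mul_le_pow2 (by linarith) ?_ ?_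
      (by linarith)) ?_ (by linarith)) ?_ (by linarith)
    · rw [pow_one]; linarith
    · rw [pow_one]; linarith
    · rw [pow_one]; linarith
    · have h1 : i * (a1 + 1) ≤ N * N := by
        apply mul_le_mul <;> linarith
      have h2 : 0 ≤ i * (a1 + 1) := by positivity
      have h3 : N ≤ N * N := by nlinarith
      rw [abs_le]
      constructor <;> nlinarith
  -- the class of `ν`
  obtain ⟨c, hc1, hc2⟩ : ∃ c : ℤ, ¬ (2 : ℤ) ∣ c ∧ ¬ (4 : ℤ) ∣ a1 + 1 + c := by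
    by_cases h4 : (4 : ℤ) ∣ a1
    · exact ⟨1, by norm_num, by omega⟩
    · exact ⟨3, by norm_num, by omega⟩
  obtain ⟨ν, k1, k2, k3', k3⟩ := sieveQ (k := 3) (e := 2) hB.cap
    (D0 := (a - i) * (A + i + 1) * (a1 - 1) * |a - A - 1 - i * (a1 + 1)|) (by
      have h1 : 0 < a1 - 1 := by linarith
      positivity) hsz (by norm_num)
    ![fun p => p ∣ a - i ∧ ¬ p ∣ 2, fun p => p ∣ (A + i + 1) * (a1 - 1) ∧ ¬ p ∣ 2,
      fun p => p ∣ a - A - 1 - i * (a1 + 1) ∧ ¬ p ∣ 2]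
    ![i, 1, 1] ![i - A - 1, 2, a1 + 1] (m := 4) (by norm_num) c
    (by
      intro p _ o ho
      fin_cases o
      · exact ((ho.1.mul_right _).mul_right _).mul_right _
      · obtain ⟨x, hx⟩ := ho.1
        refine Dvd.dvd.mul_right ⟨(a - i) * x, ?_⟩ _
        rw [mul_assoc, hx]; ring
      · exact Dvd.dvd.mul_left ((dvd_abs _ _).2 ho.1) _)
    (by
      intro p hp hp4
      have hp2 : p ≠ 2 := by
        rintro rfl
        exact hp4 (by norm_num)
      -- the two classes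
      have hr : ∃ r : ℤ, ∀ y : ℤ, ¬ (p : ℤ) ∣ y - r →
          ((p : ℤ) ∣ a - i → ¬ (p : ℤ) ∣ i * y + (i - A - 1)) ∧
          ((p : ℤ) ∣ a - A - 1 - i * (a1 + 1) → ¬ (p : ℤ) ∣ y + (a1 + 1)) := by
        by_cases h : (p : ℤ) ∣ a - i
        · have hpi : ¬ (p : ℤ) ∣ i := by
            intro h1
            have h3 : (p : ℤ) ∣ a := by
              have := dvd_add h h1
              rwa [sub_add_cancel] at this
            exact not_dvd_of_isCoprime hci hp h3 h1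
          obtain ⟨r, hr⟩ := lin_class hp (α := i - A - 1) (β := i) (fun h1 => (hpi h1).elim)
          refine ⟨r, fun y hy => ⟨fun _ h2 => hr y hy ?_, fun h2 h3 => hr y hy ?_⟩⟩
          · rwa [add_comm] at h2
          · have e : i - A - 1 + i * y = (a - A - 1 - i * (a1 + 1)) - (a - i) +
                i * (y + (a1 + 1)) := by ring
            rw [e]
            exact dvd_add (dvd_sub h2 h) (h3.mul_left _)
        · refine ⟨-(a1 + 1), fun y hy => ⟨fun h2 => (h h2).elim, fun _ h3 => hy ?_⟩⟩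
          rwa [sub_neg_eq_add]
      obtain ⟨r, hr⟩ := hr
      obtain ⟨y, y1, y2⟩ := avoid2 hp hp2 r (-2)
      refine ⟨y, fun i hi => ?_⟩
      fin_cases i
      · exact (hr y y1).1 hi.1
      · intro h
        refine y2 ?_
        have h3 : (p : ℤ) ∣ 1 * y + 2 := h
        rw [one_mul] at h3
        rwa [sub_neg_eq_add]
      · intro h
        refine (hr y y1).2 hi.1 ?_
        have h3 : (p : ℤ) ∣ 1 * y + (a1 + 1) := h
        rwa [one_mul] at h3)
    (by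
      intro p hp hp4 i hi
      have hp2 : (p : ℤ) ∣ 2 := by
        have h22 : (4 : ℤ) = 2 * 2 := by norm_num
        rw [h22] at hp4
        rcases (Nat.prime_iff_prime_int.1 hp).dvd_or_dvd hp4 with h' | h' <;> exact h'
      fin_cases i
      · exact (hi.2 hp2).elim
      · exact (hi.2 hp2).elim
      · exact (hi.2 hp2).elim) V
  obtain ⟨w, hw4⟩ := k3'
  have hν2 : ¬ (2 : ℤ) ∣ ν := by omega
  have q0 : ∀ p : ℕ, p.Prime → ¬ (p : ℤ) ∣ 2 → (p : ℤ) ∣ a - i →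
      ¬ (p : ℤ) ∣ (1 + ν) * i - A - 1 := by
    intro p hp h2 hd h
    refine k3 p hp 0 ⟨hd, h2⟩ ?_
    show (p : ℤ) ∣ i * ν + (i - A - 1)
    rw [show i * ν + (i - A - 1) = (1 + ν) * i - A - 1 by ring]; exact h
  have q1 : ∀ p : ℕ, p.Prime → ¬ (p : ℤ) ∣ 2 → (p : ℤ) ∣ (A + i + 1) * (a1 - 1) →
      ¬ (p : ℤ) ∣ 2 + ν := by
    intro p hp h2 hd h
    refine k3 p hp 1 ⟨hd, h2⟩ ?_
    show (p : ℤ) ∣ 1 * ν + 2
    rw [show 1 * ν + 2 = 2 + ν by ring]; exact h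
  have q2 : ∀ p : ℕ, p.Prime → ¬ (p : ℤ) ∣ 2 → (p : ℤ) ∣ a - A - 1 - i * (a1 + 1) →
      ¬ (p : ℤ) ∣ a1 + 1 + ν := by
    intro p hp h2 hd h
    refine k3 p hp 2 ⟨hd, h2⟩ ?_
    show (p : ℤ) ∣ 1 * ν + (a1 + 1)
    rw [show 1 * ν + (a1 + 1) = a1 + 1 + ν by ring]; exact h
  have hν0 : 0 ≤ ν := hV.trans k1
  obtain ⟨x, hx⟩ := hc.e
  obtain ⟨y, hy⟩ := hc.e'
  obtain ⟨s, hs⟩ := hA2
  obtain ⟨r, hr⟩ : ∃ r, ν = 2 * r + 1 := ⟨ν / 2, by omega⟩
  obtain ⟨n, hn⟩ : ∃ n, i = 2 * n + 1 := ⟨i / 2, by omega⟩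
  have hcc : G2 (a + ν * i - A - 1) (a1 + 1 + ν) := by
    refine ⟨⟨x + (2 * r * n + r + n) - s, by rw [hx, hr, hn, hs]; ring⟩,
      ⟨y + r + 1, by rw [hy, hr]; ring⟩, fun ⟨h3, h4⟩ => hc2 ?_, fun p hp h2 h3 h4 => ?_⟩
    · have : a1 + 1 + c = (a1 + 1 + ν) - (ν - c) := by ring
      rw [this, hw4]
      exact dvd_sub h4 (dvd_mul_right _ _)
    · refine q2 p hp h2 ?_ h4
      have : a - A - 1 - i * (a1 + 1) = (a + ν * i - A - 1) - i * (a1 + 1 + ν) := by ring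
      rw [this]
      exact dvd_sub h3 (h4.mul_left _)
  have hi' : 0 < (1 + ν) * i - A - 1 := by
    have : (1 + V) * i ≤ (1 + ν) * i := mul_le_mul_of_nonneg_right (by linarith) (by linarith)
    linarith
  have hA' : 0 < 2 * A - ν * (i + 1) := by
    have : ν * (i + 1) < (V + 4 * (J : ℤ) ^ 2) * (i + 1) :=
      mul_lt_mul_of_pos_right k2 (by linarith)
    linarith
  have hκ2 : ¬ (2 : ℤ) ∣ 2 + ν := by omega
  refine ⟨ν, k1, k2, hcc, ⟨A - ν * (n + 1), by rw [hn]; ring⟩, ?_⟩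
  refine edge (ν := ν) (l1 := 1) (m1 := 0) (i := i) (j := 1) (k := 1) (W := A + i + 1)
    (κ := 2 + ν) (i' := (1 + ν) * i - A - 1) (j' := 2 + ν) (by ring) (by ring) (by ring)
    (by ring) (by ring) (by ring) (by ring) hA (by linarith) hia (by norm_num) ha1 hA'
    hi' (by linarith) isCoprime_one_left isCoprime_one_right hci
    isCoprime_one_left ?_ ?_ ?_ (hc.dvd ?_) (hcc.dvd ?_)
  · refine cop_of_odd2 hκ2 fun p hp h2 h3 h4 => ?_
    rw [one_mul] at h3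
    exact q1 p hp h2 (h3.mul_right _) h4
  · refine cop_of_odd2 ?_ fun p hp h2 h3 h4 => ?_
    · rw [hr, hn, hs]
      rintro ⟨t, ht⟩
      have : 2 * (2 * r * n + r + 2 * n + 1 - s - t) = 1 := by linear_combination ht
      omega
    · refine q0 p hp h2 ?_ h4
      have := dvd_sub h3 h4
      rw [show a + ν * i - A - 1 - ((1 + ν) * i - A - 1) = a - i by ring] at this
      exact this
  · refine cop_of_odd2 hκ2 fun p hp h2 h3 h4 => ?_
    refine q1 p hp h2 (Dvd.dvd.mul_left ?_ _) h4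
    have := dvd_sub h3 h4
    rw [show a1 + 1 + ν - (2 + ν) = a1 - 1 by ring] at this
    exact this
  · exact ⟨n + 1, by rw [hn]; ring⟩
  · refine ⟨(2 * r * n + r + 2 * n + 1 - s) * (2 + ν) - r - 1, ?_⟩
    rw [hr, hn, hs]; ring

end Pool.Agent.H4G.Six
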