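import Pool.Agent.H4G.Six.Can.C11K
import Pool.Agent.H4G.Six.Can.Ev

/-!
# The pencil which makes `z = h`, `gcd = 2 h` for the even states with `z` odd (helper19)
-/

set_option autoImplicit false

namespace Pool.Agent.H4G.Six

open Pool.Agent.H4G

variable {N : ℤ} {J Z : ℕ}

/-- **K2** -/
theorem kLineA (hB : Bg N J Z) {A a a1 z l1 i : ℤ} (hA : 0 < A) (ha1 : 1 < a1)
    (hN : A + a + a1 = N) (hroom : (A + 1) * |l1| * (J : ℤ) ^ 8 ≤ i) (hia : i < a)
    (cia : IsCoprime i a) (cl : IsCoprime l1 i) (hl0 : l1 ≠ 0)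
    (hz : (Int.gcd a a1 : ℤ) ∣ z * i + l1) (ha2 : (2 : ℤ) ∣ a)
    (ha2' : (2 : ℤ) ∣ a1) (hz2 : ¬ (2 : ℤ) ∣ z) :
    ∃ T : ℤ, (J : ℤ) ^ 5 ≤ T ∧ (A + 1) * T * J ≤ i ∧ (2 : ℤ) ∣ T ∧
      (Int.gcd (a - (A + 1) * T) (a1 + T) : ℤ) = 2 * Int.gcd z (Int.gcd a a1 : ℤ) ∧
      SEq6 (PG A a a1 z) (PG (A * (1 + T)) (a - (A + 1) * T) (a1 + T)
        (Int.gcd z (Int.gcd a a1 : ℤ))) := by
  have hJ := hB.J20
  have hp0 := hB.pows 0
  have hp1 := hB.pows 1
  have hp2 := hB.pows 2
  have hp3 := hB.pows 3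
  have hp4 := hB.pows 4
  have hp5 := hB.pows 5
  have hp6 := hB.pows 6
  norm_num at hp0 hp1 hp2 hp3 hp4 hp5 hp6
  have hN1 := hB.N1
  obtain ⟨lam, hlam⟩ : ∃ lam : ℤ, lam = |l1| := ⟨_, rfl⟩
  have hlam0 : 0 < lam := by rw [hlam]; exact abs_pos.2 hl0
  obtain ⟨ε, hε, hl⟩ : ∃ ε : ℤ, ε * ε = 1 ∧ l1 = ε * lam := by
    rcases abs_cases l1 with ⟨h1, h2⟩ | ⟨h1, h2⟩
    · exact ⟨1, by norm_num, by rw [hlam, h1]; ring⟩
    · exact ⟨-1, by norm_num, by rw [hlam, h1]; ring⟩
  rw [← hlam] at hroom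
  have hi0 : 0 < i := lt_of_lt_of_le (by positivity) hroom
  have ha : 0 < a := by linarith
  -- parities
  have hg2 : (2 : ℤ) ∣ (Int.gcd a a1 : ℤ) := Int.dvd_coe_gcd ha2 ha2'
  have hi2 : ¬ (2 : ℤ) ∣ i := by
    have := not_dvd_of_isCoprime cia Nat.prime_two (by exact_mod_cast ha2)
    exact_mod_cast this
  have hl2 : ¬ (2 : ℤ) ∣ l1 := by
    intro h1
    have h2 := dvd_sub (hg2.trans hz) h1
    rw [add_sub_cancel_right] at h2
    rcases Int.prime_two.dvd_or_dvd h2 with h3 | h3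
    · exact hz2 h3
    · exact hi2 h3
  have hlam2 : ¬ (2 : ℤ) ∣ lam := by rw [hlam]; exact fun h1 => hl2 ((dvd_abs _ _).1 h1)
  -- the gcds
  obtain ⟨h, hh⟩ : ∃ h : ℤ, h = (Int.gcd z (Int.gcd a a1 : ℤ) : ℤ) := ⟨_, rfl⟩
  have hg0 : (Int.gcd a a1 : ℤ) ≠ 0 := by
    have := Int.gcd_pos_of_ne_zero_left a1 (by omega : a ≠ 0)
    omega
  have hh0 : 0 < h := by
    rw [hh]
    have := Int.gcd_pos_of_ne_zero_right z hg0
    omega
  have hhg : h ∣ (Int.gcd a a1 : ℤ) := by rw [hh]; exact Int.gcd_dvd_right z _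
  have hhz : h ∣ z := by rw [hh]; exact Int.gcd_dvd_left z _
  have hh2 : ¬ (2 : ℤ) ∣ h := fun h1 => hz2 (h1.trans hhz)
  obtain ⟨α, hα⟩ : h ∣ a := hhg.trans (Int.gcd_dvd_left a a1)
  obtain ⟨β, hβ⟩ : h ∣ a1 := hhg.trans (Int.gcd_dvd_right a a1)
  obtain ⟨σ, hσ⟩ : h ∣ l1 := by
    have := dvd_sub (hhg.trans hz) (hhz.mul_right i)
    rwa [add_sub_cancel_left] at this
  obtain ⟨s, hs⟩ : ∃ s : ℤ, s = ε * σ := ⟨_, rfl⟩
  have hls : lam = h * s := by
    rw [hs]
    have : lam = ε * l1 := by rw [hl]; linear_combination (-lam) * hε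
    rw [this, hσ]; ring
  have hα2 : (2 : ℤ) ∣ α := by
    rw [hα] at ha2
    exact (Int.prime_two.dvd_or_dvd ha2).resolve_left hh2
  have hβ2 : (2 : ℤ) ∣ β := by
    rw [hβ] at ha2'
    exact (Int.prime_two.dvd_or_dvd ha2').resolve_left hh2
  have hs2 : ¬ (2 : ℤ) ∣ s := fun h1 => hlam2 (by rw [hls]; exact h1.mul_left _)
  have hα0 : 0 < α := by
    by_contra h1
    push Not at h1
    have : h * α ≤ 0 := mul_nonpos_of_nonneg_of_nonpos hh0.le h1
    linarith
  have hβ0 : 0 < β := by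
    by_contra h1
    push Not at h1
    have : h * β ≤ 0 := mul_nonpos_of_nonneg_of_nonpos hh0.le h1
    linarith
  have hαN : α ≤ a := by rw [hα]; nlinarith
  have hβN : β ≤ a1 := by rw [hβ]; nlinarith
  have hps : ∀ p : ℕ, p.Prime → (p : ℤ) ∣ α → (p : ℤ) ∣ β → ¬ (p : ℤ) ∣ s := by
    intro p hp h1 h2 h3
    have hp' := Nat.prime_iff_prime_int.1 hp
    rw [hs] at h3
    rcases hp'.dvd_or_dvd h3 with h4 | h4
    · exact prime_not_dvd_one hp (h4.trans ⟨ε, hε.symm⟩)
    · exact gcd3_prime hh hh0 hα hβ hσ cia hz hp h1 h2 h4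
  have hR : 0 < α + (A + 1) * β := by positivity
  -- the class modulo 4
  obtain ⟨c, hc2, hc4⟩ : ∃ c : ℤ, (2 : ℤ) ∣ c ∧ ¬ (4 : ℤ) ∣ β + c * s := by
    by_cases h4 : (4 : ℤ) ∣ β
    · refine ⟨2, dvd_refl 2, fun h1 => hs2 ?_⟩
      omega
    · exact ⟨0, dvd_zero _, by simpa using h4⟩
  -- the sieve
  obtain ⟨k, k1, k2, k4, k3⟩ := sieveQ (k := 3) (e := 2) hB.cap
    (D0 := (A + i + 1) * (a1 - 1) * (a - i) * (α + (A + 1) * β)) (by
      have : 0 < a1 - 1 := by linarith
      have : 0 < a - i := by linarith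
      positivity) (by
      refine hB.le (n := 1 + 1 + 1 + 2) (by norm_num) (mul_le_pow2 hR (mul_le_pow2
        (by linarith) (mul_le_pow2 (by linarith) ?_ ?_ (by linarith)) ?_ (by linarith)) ?_
        (by linarith))
      · rw [pow_one]; linarith
      · rw [pow_one]; linarith
      · rw [pow_one]; linarith
      · have e1 : A + 1 ≤ N := by linarith
        have e2 : β ≤ N := by linarith
        have h1 : (A + 1) * β ≤ N * N := mul_le_mul e1 e2 hβ0.le (by linarith only [hN1])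
        have e3 : α ≤ N := by linarith
        nlinarith only [h1, e3, hN1]) (by norm_num)
    ![fun p => p ∣ (A + i + 1) * (a1 - 1) ∧ ¬ p ∣ 2, fun p => p ∣ a - i,
      fun p => p ∣ α + (A + 1) * β ∧ ¬ p ∣ 2]
    ![lam, (A + 1) * lam, s] ![1, -i, β] (m := 4) (by norm_num) c
    (by
      intro p _ j hj
      fin_cases j
      · have h1 : (p : ℤ) ∣ (A + i + 1) * (a1 - 1) := hj.1
        exact (h1.mul_right _).mul_right _
      · have h1 : (p : ℤ) ∣ a - i := hj
        exact (h1.mul_left _).mul_right _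
      · exact Dvd.dvd.mul_left hj.1 _)
    (by
      intro p hp hp4
      have hp' := Nat.prime_iff_prime_int.1 hp
      have hp2' : ¬ (p : ℤ) ∣ 2 := fun h1 => hp4 (h1.trans (by norm_num))
      have hp2 : p ≠ 2 := fun h1 => hp2' (by rw [h1]; norm_num)
      have hpai : (p : ℤ) ∣ a - i → ¬ (p : ℤ) ∣ i := fun h1 h2 => by
        have h3 := dvd_add h1 h2
        rw [sub_add_cancel] at h3
        exact not_dvd_of_isCoprime cia hp h3 h2
      by_cases hb : (p : ℤ) ∣ β ∧ (p : ℤ) ∣ α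
      · obtain ⟨hb, hbα⟩ := hb
        have hs' := hps p hp hbα hb
        have hpa : (p : ℤ) ∣ a := by rw [hα]; exact hbα.mul_left _
        have hpa1 : (p : ℤ) ∣ a1 := by rw [hβ]; exact hb.mul_left _
        have hpi : ¬ (p : ℤ) ∣ i := not_dvd_of_isCoprime cia hp hpa
        have n2 : ¬ (p : ℤ) ∣ a - i := fun h1 => by
          have := dvd_sub hpa h1
          rw [sub_sub_cancel] at this
          exact hpi this
        have n1 : ¬ (p : ℤ) ∣ a1 - 1 := fun h1 => by
          have := dvd_sub hpa1 h1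
          rw [sub_sub_cancel] at this
          exact prime_not_dvd_one hp this
        have key : ∃ y : ℤ, ¬ (p : ℤ) ∣ y ∧ ¬ (p : ℤ) ∣ lam * y + 1 := by
          by_cases hl' : (p : ℤ) ∣ lam
          · refine ⟨1, prime_not_dvd_one hp, fun h1 => ?_⟩
            have := dvd_sub h1 (hl'.mul_right 1)
            rw [add_sub_cancel_left] at this
            exact prime_not_dvd_one hp this
          · -- the inverse of `lam`
            obtain ⟨x, y, hxy⟩ : IsCoprime lam (p : ℤ) :=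
              ((Prime.coprime_iff_not_dvd hp').2 hl').symm
            obtain ⟨w, w1, w2⟩ := avoid2 hp hp2 0 (-x)
            refine ⟨w, fun h1 => w1 (by rwa [sub_zero]), fun h1 => w2 ?_⟩
            have h2 : w - -x = x * (lam * w + 1) + p * (y * w) := by
              linear_combination (-w) * hxy
            rw [h2]
            exact dvd_add (h1.mul_left _) (dvd_mul_right _ _)
        obtain ⟨y, y1, y2⟩ := key
        refine ⟨y, fun j hj => ?_⟩
        fin_cases j
        · exact y2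
        · exact (n2 hj).elim
        · intro h1
          have h2 : (p : ℤ) ∣ s * y + β := h1
          have h3 : (p : ℤ) ∣ s * y := by
            have := dvd_sub h2 hb
            rwa [add_sub_cancel_right] at this
          rcases hp'.dvd_or_dvd h3 with h4 | h4
          · exact hs' h4
          · exact y1 h4
      · refine ⟨0, fun j hj => ?_⟩
        fin_cases j
        · intro h1
          have h2 : (p : ℤ) ∣ lam * 0 + 1 := h1
          rw [mul_zero, zero_add] at h2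
          exact prime_not_dvd_one hp h2
        · intro h1
          have h2 : (p : ℤ) ∣ (A + 1) * lam * 0 + -i := h1
          rw [mul_zero, zero_add, dvd_neg] at h2
          exact hpai hj h2
        · intro h1
          have h2 : (p : ℤ) ∣ s * 0 + β := h1
          rw [mul_zero, zero_add] at h2
          have h3 : (p : ℤ) ∣ α + (A + 1) * β := hj.1
          have h4 : (p : ℤ) ∣ α := by
            have := dvd_sub h3 (h2.mul_left (A + 1))
            rwa [add_sub_cancel_right] at this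
          exact hb ⟨h2, h4⟩)
    (by
      intro p hp hp4 j hj
      have hp2 : p = 2 := by
        have h1 : p ∣ 4 := by exact_mod_cast hp4
        have h2 : p ∣ 2 := (Nat.Prime.dvd_mul hp).1 (by simpa using h1) |>.elim id id
        exact (Nat.prime_dvd_prime_iff_eq hp Nat.prime_two).1 h2
      subst hp2
      push_cast at *
      fin_cases j
      · exact absurd (dvd_refl (2 : ℤ)) hj.2
      · have h1 : (2 : ℤ) ∣ a - i := hj
        omega
      · exact absurd (dvd_refl (2 : ℤ)) hj.2) ((J : ℤ) ^ 5)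
  have q0 : ∀ p : ℕ, p.Prime → ¬ (p : ℤ) ∣ 2 → (p : ℤ) ∣ (A + i + 1) * (a1 - 1) →
      ¬ (p : ℤ) ∣ 1 + k * lam := fun p hp hp2 hd h1 =>
    k3 p hp 0 ⟨hd, hp2⟩ (by
      show (p : ℤ) ∣ lam * k + 1
      rw [show lam * k + 1 = 1 + k * lam by ring]; exact h1)
  have q1 : ∀ p : ℕ, p.Prime → (p : ℤ) ∣ a - i → ¬ (p : ℤ) ∣ i - (A + 1) * (k * lam) :=
    fun p hp hd h1 => k3 p hp 1 hd (by
      show (p : ℤ) ∣ (A + 1) * lam * k + -i
      rw [show (A + 1) * lam * k + -i = -(i - (A + 1) * (k * lam)) by ring]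
      exact (dvd_neg).2 h1)
  have q2 : ∀ p : ℕ, p.Prime → ¬ (p : ℤ) ∣ 2 → (p : ℤ) ∣ α + (A + 1) * β →
      ¬ (p : ℤ) ∣ β + k * s :=
    fun p hp hp2 hd h1 => k3 p hp 2 ⟨hd, hp2⟩ (by
      show (p : ℤ) ∣ s * k + β
      rw [show s * k + β = β + k * s by ring]; exact h1)
  have hk4 : ¬ (4 : ℤ) ∣ β + k * s := by
    intro h1
    apply hc4
    have h2 := dvd_sub h1 (k4.mul_right s)
    rwa [show β + k * s - (k - c) * s = β + c * s by ring] at h2
  have hk2' : (2 : ℤ) ∣ k := by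
    obtain ⟨w, hw⟩ := k4
    obtain ⟨x, hx⟩ := hc2
    exact ⟨2 * w + x, by linarith⟩
  obtain ⟨T, hT⟩ : ∃ T : ℤ, T = k * lam := ⟨_, rfl⟩
  rw [← hT] at q0 q1
  have hk0 : 0 < k := lt_of_lt_of_le (by positivity) k1
  have hT0 : 0 < T := by rw [hT]; positivity
  have hTk : k ≤ T := by rw [hT]; nlinarith
  have hT2 : (2 : ℤ) ∣ T := by rw [hT]; exact hk2'.mul_right _
  have hk2 : k ≤ (J : ℤ) ^ 6 := by linarith
  have hTJ : (A + 1) * T * J ≤ i := by
    have h1 : (A + 1) * T * J = ((A + 1) * lam * J) * k := by rw [hT]; ring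
    have h2 : ((A + 1) * lam * J) * k ≤ ((A + 1) * lam * J) * ((J : ℤ) ^ 6) :=
      mul_le_mul_of_nonneg_left hk2 (by positivity)
    have h3 : ((A + 1) * lam * J) * ((J : ℤ) ^ 6) * J = (A + 1) * lam * (J : ℤ) ^ 8 := by
      ring
    have h4 : ((A + 1) * lam * J) * ((J : ℤ) ^ 6) ≤ ((A + 1) * lam * J) * ((J : ℤ) ^ 6) * J := by
      have h5 : 0 ≤ ((A + 1) * lam * J) * ((J : ℤ) ^ 6) := by positivity
      exact le_mul_of_one_le_right h5 hB.J1
    rw [h1]
    exact h2.trans (h4.trans (by rw [h3]; exact hroom))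
  have hTi : (A + 1) * T < i := by
    have h1 : 0 < (A + 1) * T := by positivity
    have h2 : (A + 1) * T * 2 ≤ (A + 1) * T * J :=
      mul_le_mul_of_nonneg_left (by linarith only [hJ]) h1.le
    linarith only [h1, h2, hTJ]
  have hx2 : (2 : ℤ) ∣ α - (A + 1) * (k * s) :=
    dvd_sub hα2 ((hk2'.mul_right s).mul_left _)
  have hy2 : (2 : ℤ) ∣ β + k * s := dvd_add hβ2 (hk2'.mul_right s)
  have hG2 : G2 (α - (A + 1) * (k * s)) (β + k * s) := by
    refine ⟨hx2, hy2, fun h1 => hk4 h1.2, fun p hp hp2 h1 h2 => q2 p hp hp2 ?_ h2⟩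
    have : α + (A + 1) * β = (α - (A + 1) * (k * s)) + (A + 1) * (β + k * s) := by ring
    rw [this]
    exact dvd_add h1 (h2.mul_left _)
  have hlg : (Int.gcd (a - (A + 1) * T) (a1 + T) : ℤ) = 2 * h := by
    have e1 : a - (A + 1) * T = h * (α - (A + 1) * (k * s)) := by
      rw [hT, hls]; linear_combination hα
    have e2 : a1 + T = h * (β + k * s) := by rw [hT, hls]; linear_combination hβ
    rw [e1, e2, Int.gcd_mul_left, g2_iff.1 hG2]
    push_cast
    rw [abs_of_pos hh0]; ring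
  rw [← hh]
  refine ⟨T, k1.trans hTk, hTJ, hT2, hlg, ?_⟩
  have hεk : ε * k * l1 = T := by rw [hl, hT]; linear_combination (k * lam) * hε
  have hT12 : ¬ (2 : ℤ) ∣ 1 + T := by omega
  have c1 : IsCoprime (1 + T) (A + i + 1) :=
    cop_of_odd2 hT12 fun p hp hp2 h2 h1 => q0 p hp hp2 (h2.mul_right _) h1
  have c2 : IsCoprime (1 + T) (ε * k) := ⟨1, -l1, by linear_combination hεk.symm⟩
  have c3 : IsCoprime (1 + T) (a1 + T) := by
    refine cop_of_odd2 hT12 fun p hp hp2 h2 h1 => q0 p hp hp2 ?_ h1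
    have := dvd_sub h2 h1
    rw [show a1 + T - (1 + T) = a1 - 1 by ring] at this
    exact this.mul_left _
  have c4 : IsCoprime (i - (A + 1) * T) (a - (A + 1) * T) := by
    refine isCoprime_of_prime fun p hp h2 h1 => q1 p hp ?_ h1
    have := dvd_sub h2 h1
    rwa [show a - (A + 1) * T - (i - (A + 1) * T) = a - i by ring] at this
  refine edge (ν := 0) (l1 := l1) (m1 := 0) (i := i) (j := 1) (k := ε * k) (W := A + i + 1)
    (κ := 1 + T) (i' := i - (A + 1) * T) (j' := 1 + T) (by ring) ?_ (by ring) ?_ (by ring)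
    (by ring) (by ring) hA hi0 hia (by norm_num) ha1 (by positivity) (by linarith)
    (by linarith) cl isCoprime_one_right cia isCoprime_one_left (c2.mul_right c1) c4 c3 ?_ ?_
  · linear_combination hεk.symm
  · linear_combination (-(A + i + 1)) * hεk.symm
  · have e : z * (i * 1) + (l1 * 1 - i * 0) = z * i + l1 := by ring
    rw [e]; exact hz
  · rw [hlg]
    have e : h * ((i - (A + 1) * T) * (1 + T)) + (l1 * 1 - i * 0) =
        h * ((i - (A + 1) * T) * (1 + T) + σ) := by rw [hσ]; ring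
    rw [e, mul_comm 2 h]
    have hσ2 : ¬ (2 : ℤ) ∣ σ := fun h1 => hl2 (by rw [hσ]; exact h1.mul_left _)
    refine mul_dvd_mul_left h ?_
    have h5 : (2 : ℤ) ∣ (A + 1) * T := hT2.mul_left _
    have h6 : ¬ (2 : ℤ) ∣ (i - (A + 1) * T) * (1 + T) := by
      intro h7
      rcases Int.prime_two.dvd_or_dvd h7 with h8 | h8
      · omega
      · exact hT12 h8
    omega

end Pool.Agent.H4G.Six
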