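import Pool.Agent.H4G.Six.Can.B15
import Pool.Agent.H4G.Six.Can.C11K2
import Pool.Agent.H4G.Six.Can.C11GA
import Pool.Agent.H4G.Six.Can.C11AL
import Pool.Agent.H4G.Six.Can.C11Dir
import Pool.Agent.H4G.Six.Can.C11E1

/-!
# States with contents one and `A` small are equivalent to generic end states (helper19)
-/

set_option autoImplicit false

namespace Pool.Agent.H4G.Six

open Pool.Agent.H4G

variable {N : ℤ} {J Z : ℕ}

/-- equivalent to a generic end state -/
def ToE (N : ℤ) (S : St6) : Prop :=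
  (∃ A a a1 : ℤ, Gd N A a a1 ∧ SEq6 S (PG A a a1 0)) ∨
    (∃ A a a1 : ℤ, GdE N A a a1 ∧ SEq6 S (PG A a a1 1))

theorem ToE.of {S S' : St6} (h : SEq6 S S') (h' : ToE N S') : ToE N S := by
  rcases h' with ⟨A, a, a1, h1, h2⟩ | ⟨A, a, a1, h1, h2⟩
  · exact Or.inl ⟨A, a, a1, h1, h.trans h2⟩
  · exact Or.inr ⟨A, a, a1, h1, h.trans h2⟩

/-- `z = 0` -/
theorem toE_zero (hB : Bg N J Z) {A a a1 z : ℤ} (hA : 0 < A) (ha : 1 < a) (ha1 : 1 < a1)
    (hN : A + a + a1 = N) (hz : (Int.gcd a a1 : ℤ) ∣ z) (hne : a ≠ a1) :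
    ToE N (PG A a a1 z) := by
  obtain ⟨A', a', a1', h1, h2⟩ := b15 hB hA ha ha1 hN hne
  refine Or.inl ⟨A', a', a1', h1, (PG.congr hA ha ha1 ?_).trans h2⟩
  rw [zero_sub, dvd_neg]; exact hz

/-- a proper divisor is at most one half -/
theorem two_mul_le_of_dvd {h g : ℤ} (hg : 0 < g) (hh : 0 < h) (hd : h ∣ g) (hne : h ≠ g) :
    2 * h ≤ g := by
  obtain ⟨k, hk⟩ := hd
  have hk0 : 0 < k := by
    by_contra h1
    push Not at h1
    have : h * k ≤ 0 := mul_nonpos_of_nonneg_of_nonpos hh.le h1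
    linarith
  have hk1 : k ≠ 1 := fun h1 => hne (by rw [hk, h1, mul_one])
  have hk2 : 2 ≤ k := by omega
  rw [hk]; nlinarith

/-- from a line to an end state -/
theorem toE_line (hB : Bg N J Z) {A a a1 z l1 i : ℤ} (hA : 0 < A) (ha1 : 1 < a1)
    (hN : A + a + a1 = N) (hJa : (J : ℤ) ^ 6 ≤ a) (hroom : (A + 1) * |l1| * (J : ℤ) ^ 8 ≤ i)
    (hia : i < a) (cia : IsCoprime i a) (cl : IsCoprime l1 i) (hl0 : l1 ≠ 0)
    (hz : (Int.gcd a a1 : ℤ) ∣ z * i + l1) (hz0 : ¬ (Int.gcd a a1 : ℤ) ∣ z) :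
    ToE N (PG A a a1 z) := by
  have hJ := hB.J20
  have hp0 := hB.pows 0
  have hp1 := hB.pows 1
  have hp2 := hB.pows 2
  have hp3 := hB.pows 3
  have hp4 := hB.pows 4
  have hp5 := hB.pows 5
  norm_num at hp0 hp1 hp2 hp3 hp4 hp5
  have ha : 0 < a := by linarith
  obtain ⟨h, hh⟩ : ∃ h : ℤ, h = (Int.gcd z (Int.gcd a a1 : ℤ) : ℤ) := ⟨_, rfl⟩
  obtain ⟨g, hg⟩ : ∃ g : ℤ, g = (Int.gcd a a1 : ℤ) := ⟨_, rfl⟩
  have hg0 : 0 < g := by
    have := Int.gcd_pos_of_ne_zero_left a1 (by omega : a ≠ 0)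
    omega
  have hh0 : 0 < h := by
    rw [hh]
    have := Int.gcd_pos_of_ne_zero_right z (by omega : (Int.gcd a a1 : ℤ) ≠ 0)
    omega
  have hhg : h ∣ g := by rw [hh, hg]; exact Int.gcd_dvd_right z _
  have hhz : h ∣ z := by rw [hh]; exact Int.gcd_dvd_left z _
  have hga : g ≤ a := by
    rw [hg]; exact Int.le_of_dvd ha (Int.gcd_dvd_left a a1)
  have h2h : 2 * h ≤ g := by
    refine two_mul_le_of_dvd hg0 hh0 hhg fun h1 => hz0 ?_
    rw [← hg, ← h1]; exact hhz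
  have hl0' : 0 < |l1| := abs_pos.2 hl0
  by_cases hA4 : (2 : ℤ) ∣ A ∧ (2 : ℤ) ∣ a ∧ (2 : ℤ) ∣ a1 ∧ ¬ (2 : ℤ) ∣ z
  · obtain ⟨h1, h2, h3, h4⟩ := hA4
    obtain ⟨T, t1, t2, t3, t4, t5⟩ := kLineA hB hA ha1 hN hroom hia cia cl hl0 hz h2 h3 h4
    rw [← hh] at t4 t5
    have hT0 : 0 < T := by linarith
    have hAT : 0 < (A + 1) * T := by positivity
    have hAT2 : (A + 1) * T * 2 ≤ (A + 1) * T * J :=
      mul_le_mul_of_nonneg_left (by linarith only [hJ]) hAT.le
    obtain ⟨A', a', a1', h5, h6⟩ := e1 hB (A := A * (1 + T)) (a := a - (A + 1) * T)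
      (a1 := a1 + T) (by positivity) (h1.mul_right _) (by linarith) hh0
      (fun h5 => h4 (h5.trans hhz)) t4 (by linarith) (by linarith)
    exact Or.inr ⟨A', a', a1', h5, t5.trans h6⟩
  · have hi0 : 0 ≤ (A + 1) * |l1| := by positivity
    obtain ⟨T, t1, t2, t3, t4⟩ := kLine hB hA ha1 hN
      ((mul_le_mul_of_nonneg_left (pow_le_pow_right₀ hB.J1 (by norm_num) :
        (J : ℤ) ^ 3 ≤ (J : ℤ) ^ 8) hi0).trans hroom)
      hia cia cl hl0 hz hA4
    rw [← hh] at t3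
    have hAT : 0 < (A + 1) * T := by positivity
    have hAT2 : (A + 1) * T * 16 ≤ (A + 1) * T * J :=
      mul_le_mul_of_nonneg_left (by linarith only [hJ]) hAT.le
    refine ToE.of t4 (toE_zero hB (by positivity) (by linarith) (by linarith) (by linarith)
      (dvd_zero _) fun h5 => ?_)
    rw [← h5, Int.gcd_self] at t3
    have h6 : (0 : ℤ) < a - (A + 1) * T := by linarith
    have h7 : ((a - (A + 1) * T).natAbs : ℤ) = a - (A + 1) * T := by
      rw [Int.natCast_natAbs, abs_of_pos h6]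
    rw [h7] at t3
    linarith

/-- `h` small, `g / h` small -/
theorem toE_cls (hB : Bg N J Z) {A a a1 z h : ℤ} (hA : 0 < A) (ha1 : 1 < a1)
    (hN : A + a + a1 = N) (hJa : (J : ℤ) ^ 6 ≤ a)
    (hh : h = (Int.gcd z (Int.gcd a a1 : ℤ) : ℤ))
    (hroom : (A + 1) * h * (J : ℤ) ^ 9 + ((Int.gcd a a1 : ℤ) / h) * J ≤ a)
    (hz0 : ¬ (Int.gcd a a1 : ℤ) ∣ z) : ToE N (PG A a a1 z) := by
  have hJ := hB.J20
  have hp0 := hB.pows 0
  have hp1 := hB.pows 1
  have hp2 := hB.pows 2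
  have hp3 := hB.pows 3
  have hp4 := hB.pows 4
  have hp5 := hB.pows 5
  norm_num at hp0 hp1 hp2 hp3 hp4 hp5
  have ha : 0 < a := by linarith
  have hg0 : (0 : ℤ) < (Int.gcd a a1 : ℤ) := by
    have := Int.gcd_pos_of_ne_zero_left a1 (by omega : a ≠ 0)
    omega
  have hJ6 : 0 < (A + 1) * (J : ℤ) ^ 6 - 1 := by nlinarith
  obtain ⟨l1, i, h1, h2, h3, h4, h5, h6⟩ := clsLine hB (A := (A + 1) * (J : ℤ) ^ 6 - 1) (a := a)
    (g := (Int.gcd a a1 : ℤ)) (z := z) (h := h) hJ6 ha (by linarith) (Int.gcd_dvd_left a a1) hg0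
    hh (by
      have e : ((A + 1) * (J : ℤ) ^ 6 - 1 + 1) * h * (J : ℤ) ^ 3 =
          (A + 1) * h * (J : ℤ) ^ 9 := by ring
      rw [e]; exact hroom)
  refine toE_line hB hA ha1 hN hJa ?_ h3 h4 h5 h1 h6 hz0
  have e : ((A + 1) * (J : ℤ) ^ 6 - 1 + 1) * |l1| * (J : ℤ) ^ 3 =
      (A + 1) * |l1| * (J : ℤ) ^ 8 * J := by ring
  rw [e] at h2
  refine le_trans ?_ h2
  exact le_mul_of_one_le_right (by positivity) hB.J1

/-- **C11**, for `a₁ ≤ a` -/
theorem c11a (hB : Bg N J Z) {A a a1 z : ℤ} (hA : 0 < A) (ha1 : 1 < a1)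
    (hle : a1 ≤ a) (hN : A + a + a1 = N) (hr : A * (J : ℤ) ^ 24 ≤ N)
    (hne : ¬ (a = a1 ∧ a ∣ z)) : ToE N (PG A a a1 z) := by
  have hJ := hB.J20
  have hJ1 := hB.J1
  have hp0 := hB.pows 0
  have hp1 := hB.pows 1
  have hp2 := hB.pows 2
  have hp3 := hB.pows 3
  have hp4 := hB.pows 4
  have hp5 := hB.pows 5
  norm_num at hp0 hp1 hp2 hp3 hp4 hp5
  have ha : 1 < a := by linarith
  have hN30 := hB.pw (n := 24) (by norm_num)
  -- `a` is large
  have hJ24 : (2 : ℤ) ≤ (J : ℤ) ^ 24 := by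
    calc (2 : ℤ) ≤ (J : ℤ) ^ 1 := by rw [pow_one]; linarith
      _ ≤ (J : ℤ) ^ 24 := pow_le_pow_right₀ hJ1 (by norm_num)
  have hA2 : 2 * A ≤ N := by
    have : A * 2 ≤ A * (J : ℤ) ^ 24 := mul_le_mul_of_nonneg_left hJ24 hA.le
    linarith
  have ha4 : N ≤ 4 * a := by linarith
  have hAa : A * (J : ℤ) ^ 24 ≤ 4 * a := hr.trans ha4
  have hA1 : (A + 1) * (J : ℤ) ^ 24 ≤ 8 * a := by
    have : (A + 1) * (J : ℤ) ^ 24 ≤ (2 * A) * (J : ℤ) ^ 24 :=
      mul_le_mul_of_nonneg_right (by linarith) (by positivity)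
    linarith
  have hpow : ∀ n m : ℕ, n + m = 24 → (A + 1) * (J : ℤ) ^ n * (J : ℤ) ^ m ≤ 8 * a := by
    intro n m hnm
    rw [mul_assoc, ← pow_add, hnm]; exact hA1
  have hJa : (J : ℤ) ^ 6 ≤ a := by
    have h1 : (J : ℤ) ^ 6 * 4 ≤ (J : ℤ) ^ 24 := by
      calc (J : ℤ) ^ 6 * 4 ≤ (J : ℤ) ^ 6 * (J : ℤ) ^ 18 :=
            mul_le_mul_of_nonneg_left (le_trans (by linarith : (4 : ℤ) ≤ (J : ℤ) ^ 1)
              (pow_le_pow_right₀ hJ1 (by norm_num))) (by positivity)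
        _ = (J : ℤ) ^ 24 := by ring
    linarith
  -- the gcds
  obtain ⟨h, hh⟩ : ∃ h : ℤ, h = (Int.gcd z (Int.gcd a a1 : ℤ) : ℤ) := ⟨_, rfl⟩
  obtain ⟨g, hg⟩ : ∃ g : ℤ, g = (Int.gcd a a1 : ℤ) := ⟨_, rfl⟩
  have hg0 : 0 < g := by
    have := Int.gcd_pos_of_ne_zero_left a1 (by omega : a ≠ 0)
    omega
  have hh0 : 0 < h := by
    rw [hh]
    have := Int.gcd_pos_of_ne_zero_right z (by omega : (Int.gcd a a1 : ℤ) ≠ 0)
    omega
  have hhg : h ∣ g := by rw [hh, hg]; exact Int.gcd_dvd_right z _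
  have hhz : h ∣ z := by rw [hh]; exact Int.gcd_dvd_left z _
  have hgda : g ∣ a := by rw [hg]; exact Int.gcd_dvd_left a a1
  have hgda1 : g ∣ a1 := by rw [hg]; exact Int.gcd_dvd_right a a1
  have hga : g ≤ a := Int.le_of_dvd (by linarith) hgda
  by_cases hz0 : (Int.gcd a a1 : ℤ) ∣ z
  · refine toE_zero hB hA ha ha1 hN hz0 fun h1 => hne ⟨h1, ?_⟩
    rw [← h1, Int.gcd_self, Int.natCast_natAbs, abs_of_pos (by linarith)] at hz0
    exact hz0
  have h2h : 2 * h ≤ g := by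
    refine two_mul_le_of_dvd hg0 hh0 hhg fun h1 => hz0 ?_
    rw [← hg, ← h1]; exact hhz
  obtain ⟨G, hG⟩ := hhg
  have hGd : g / h = G := by rw [hG]; exact Int.mul_ediv_cancel_left _ hh0.ne'
  have hG0 : 0 < G := by
    by_contra h1
    push Not at h1
    have : h * G ≤ 0 := mul_nonpos_of_nonneg_of_nonpos hh0.le h1
    linarith
  by_cases c1 : (A + 1) * h * (J : ℤ) ^ 9 * 2 ≤ a
  · by_cases c2 : G * J * 2 ≤ a
    · refine toE_cls hB hA ha1 hN hJa hh ?_ hz0
      rw [← hg, hGd]; linarith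
    · -- (β)
      push Not at c2
      obtain ⟨l1, i, h1, h2, h3, h4, h5, h6⟩ := dirLine hB (A := (A + 1) * (J : ℤ) ^ 6 - 1)
        (a := a) (z := z) (by nlinarith) (by linarith) (by
          have e : ((A + 1) * (J : ℤ) ^ 6 - 1 + 1) * (J : ℤ) ^ 12 =
              (A + 1) * (J : ℤ) ^ 18 := by ring
          rw [e]
          have h1 := hpow 18 6 (by norm_num)
          have h2 : (A + 1) * (J : ℤ) ^ 18 * 8 ≤ (A + 1) * (J : ℤ) ^ 18 * (J : ℤ) ^ 6 :=
            mul_le_mul_of_nonneg_left (by linarith) (by positivity)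
          linarith) (by
          intro i0 k1 k2 k3
          have e : ((A + 1) * (J : ℤ) ^ 6 - 1 + 1) * (J : ℤ) ^ 7 =
              (A + 1) * (J : ℤ) ^ 13 := by ring
          rw [e] at k2
          -- `G ∣ i0`
          obtain ⟨z1, hz1⟩ := hhz
          have k4 : h * G ∣ h * (z1 * i0) := by
            rw [← hG, ← mul_assoc, ← hz1]
            exact hgda.trans k3
          have k5 : G ∣ z1 * i0 := (mul_dvd_mul_iff_left hh0.ne').1 k4
          have k6 : IsCoprime G z1 := by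
            refine isCoprime_of_prime fun p hp p1 p2 => ?_
            have q1 : h * (p : ℤ) ∣ z := by rw [hz1]; exact mul_dvd_mul_left h p1
            have q2 : h * (p : ℤ) ∣ (Int.gcd a a1 : ℤ) := by
              rw [← hg, hG]; exact mul_dvd_mul_left h p2
            have q3 := Int.dvd_coe_gcd q1 q2
            rw [← hh] at q3
            have q4 := Int.le_of_dvd hh0 q3
            have q5 : (2 : ℤ) ≤ p := by exact_mod_cast hp.two_le
            nlinarith
          have k7 : G ∣ i0 := k6.dvd_of_dvd_mul_left k5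
          have k8 := Int.le_of_dvd k1 k7
          have k9 : a < (A + 1) * (J : ℤ) ^ 13 * J * 2 := by
            have : G * J * 2 ≤ (A + 1) * (J : ℤ) ^ 13 * J * 2 := by
              have := k8.trans k2
              nlinarith
            linarith
          have h1 := hpow 14 10 (by norm_num)
          have h2 : (A + 1) * (J : ℤ) ^ 14 * 16 ≤ (A + 1) * (J : ℤ) ^ 14 * (J : ℤ) ^ 10 :=
            mul_le_mul_of_nonneg_left (le_trans (by linarith : (16 : ℤ) ≤ (J : ℤ) ^ 1)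
              (pow_le_pow_right₀ hJ1 (by norm_num))) (by positivity)
          have e2 : (A + 1) * (J : ℤ) ^ 13 * J * 2 = (A + 1) * (J : ℤ) ^ 14 * 2 := by ring
          rw [e2] at k9
          linarith)
      refine toE_line hB hA ha1 hN hJa ?_ h3 h4 h5 h1 ((Int.gcd_dvd_left a a1).trans h6) hz0
      have e : ((A + 1) * (J : ℤ) ^ 6 - 1 + 1) * |l1| * (J : ℤ) ^ 3 =
          (A + 1) * |l1| * (J : ℤ) ^ 8 * J := by ring
      rw [e] at h2
      refine le_trans ?_ h2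
      exact le_mul_of_one_le_right (by positivity) hB.J1
  · -- (γ)
    push Not at c1
    obtain ⟨α, hα⟩ : h ∣ a := (Dvd.intro G hG.symm).trans hgda
    obtain ⟨n, hn⟩ : h ∣ a1 := (Dvd.intro G hG.symm).trans hgda1
    obtain ⟨z1, hz1⟩ := hhz
    have hα2 : 2 ≤ α := by
      by_contra h1
      push Not at h1
      have : h * α ≤ h * 1 := mul_le_mul_of_nonneg_left (by linarith) hh0.le
      linarith
    have hn1 : 1 ≤ n := by
      by_contra h1
      push Not at h1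
      have : h * n ≤ 0 := mul_nonpos_of_nonneg_of_nonpos hh0.le (by linarith)
      linarith
    -- `h` is large
    have hhJ : (J : ℤ) ^ 13 ≤ h := by
      have h1 := hpow 9 15 (by norm_num)
      have h2 : (A + 1) * (J : ℤ) ^ 9 * (J : ℤ) ^ 15 < (A + 1) * (J : ℤ) ^ 9 * (16 * h) := by
        have e : (A + 1) * (J : ℤ) ^ 9 * (16 * h) = 8 * ((A + 1) * h * (J : ℤ) ^ 9 * 2) := by
          ring
        rw [e]; linarith
      have h3 : (J : ℤ) ^ 15 < 16 * h := lt_of_mul_lt_mul_left h2 (by positivity)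
      have h4 : (J : ℤ) ^ 13 * 16 ≤ (J : ℤ) ^ 15 := by
        calc (J : ℤ) ^ 13 * 16 ≤ (J : ℤ) ^ 13 * (J : ℤ) ^ 2 :=
              mul_le_mul_of_nonneg_left (by nlinarith) (by positivity)
          _ = (J : ℤ) ^ 15 := by ring
      linarith
    have hJ13 : (J : ℤ) ^ 2 ≤ (J : ℤ) ^ 13 := pow_le_pow_right₀ hJ1 (by norm_num)
    obtain ⟨q, z', q1, q2, q3, q4⟩ := ga hB hA hN hα hn hz1 hα2 hn1 (by
      intro p hp p1 p2 p3
      have r1 : h * (p : ℤ) ∣ z := by rw [hz1]; exact mul_dvd_mul_left h p3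
      have r2 : h * (p : ℤ) ∣ (Int.gcd a a1 : ℤ) := by
        refine Int.dvd_coe_gcd ?_ ?_
        · rw [hα]; exact mul_dvd_mul_left h p1
        · rw [hn]; exact mul_dvd_mul_left h p2
      have r3 := Int.dvd_coe_gcd r1 r2
      rw [← hh] at r3
      have r4 := Int.le_of_dvd hh0 r3
      have r5 : (2 : ℤ) ≤ p := by exact_mod_cast hp.two_le
      nlinarith) (by linarith)
    -- sizes
    have hnh : n * h ≤ a := by linarith [hn, mul_comm h n]
    have hn2 : n ≤ (A + 1) * (J : ℤ) ^ 9 * 2 := by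
      have h1 : n * h < (A + 1) * (J : ℤ) ^ 9 * 2 * h := by
        have e : (A + 1) * (J : ℤ) ^ 9 * 2 * h = (A + 1) * h * (J : ℤ) ^ 9 * 2 := by ring
        rw [e]; linarith
      exact (lt_of_mul_lt_mul_right h1 hh0.le).le
    have hq8 : q - 1 ≤ 8 * J := by linarith
    have hJ9 : (1 : ℤ) ≤ (J : ℤ) ^ 9 := one_le_pow₀ hJ1
    have hA'1 : A + (q - 1) * (1 + n) + 1 ≤ (A + 1) * (J : ℤ) ^ 11 := by
      have h1 : (q - 1) * (1 + n) ≤ (8 * J) * (1 + (A + 1) * (J : ℤ) ^ 9 * 2) :=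
        mul_le_mul hq8 (by linarith) (by linarith) (by linarith)
      have h2 : (8 * J) * (1 + (A + 1) * (J : ℤ) ^ 9 * 2) ≤ (A + 1) * (J : ℤ) ^ 10 * 24 := by
        have h3 : (1 : ℤ) ≤ (A + 1) * (J : ℤ) ^ 9 := by nlinarith
        have e : (A + 1) * (J : ℤ) ^ 10 * 24 = (8 * J) * ((A + 1) * (J : ℤ) ^ 9 * 3) := by ring
        rw [e]
        exact mul_le_mul_of_nonneg_left (by linarith) (by linarith)
      have h3 : A + 1 ≤ (A + 1) * (J : ℤ) ^ 10 :=
        le_mul_of_one_le_right (by linarith) (one_le_pow₀ hJ1)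
      have h4 : (A + 1) * (J : ℤ) ^ 10 * 25 ≤ (A + 1) * (J : ℤ) ^ 10 * J :=
        mul_le_mul_of_nonneg_left (by linarith only [hJ]) (by positivity)
      have e : (A + 1) * (J : ℤ) ^ 11 = (A + 1) * (J : ℤ) ^ 10 * J := by ring
      rw [e]; linarith only [h1, h2, h3, h4]
    have ha' : a ≤ 2 * (a - (q - 1)) := by
      linarith only [hJa, hJ, hp1, hp2, hp3, hp4, hp5, hq8]
    have ha'1 : 1 < a - (q - 1) := by
      linarith only [hJa, hJ, hp1, hp2, hp3, hp4, hp5, hq8]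
    have hn'1 : 1 < a1 - n * (q - 1) := by
      have e : a1 - n * (q - 1) = n * (h - (q - 1)) := by rw [hn]; ring
      have h1 : 2 ≤ h - (q - 1) := by linarith only [hhJ, hJ13, hp1, hq8, hJ]
      rw [e]; nlinarith only [h1, hn1]
    have hA' : 0 < A + (q - 1) * (1 + n) := by
      have : 0 < (q - 1) * (1 + n) :=
        mul_pos (by linarith only [q1]) (by linarith only [hn1])
      linarith only [hA, this]
    have hN' : A + (q - 1) * (1 + n) + (a - (q - 1)) + (a1 - n * (q - 1)) = N := by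
      linear_combination hN
    have hJ62 : (J : ℤ) ^ 6 * 2 ≤ a := by
      have h3 : (J : ℤ) ^ 6 * 2 ≤ (J : ℤ) ^ 7 := by
        have e : (J : ℤ) ^ 7 = (J : ℤ) ^ 6 * J := by ring
        rw [e]
        exact mul_le_mul_of_nonneg_left (by linarith only [hJ]) (by positivity)
      have h4 : (J : ℤ) ^ 7 ≤ (J : ℤ) ^ 13 := pow_le_pow_right₀ hJ1 (by norm_num)
      linarith only [h3, h4, hhJ, h2h, hga, hh0]
    have hJ16 : 16 * (J : ℤ) ≤ a := by linarith only [hJa, hJ, hp1, hp2, hp3, hp4, hp5]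
    rcases q4 with q4 | ⟨q4, q5, q6, q7⟩
    · exact Or.inl ⟨_, _, _, ⟨hA', ha'1, hn'1, hN', q4⟩,
        q3.trans (PG.congr hA' ha'1 hn'1 (gcd_dvd_of_cop q4))⟩
    · refine ToE.of q3 ?_
      by_cases hz' : (2 : ℤ) ∣ z'
      · refine toE_zero hB hA' ha'1 hn'1 hN' (q7.dvd hz') fun h1 => ?_
        have h2 := g2_iff.1 q7
        rw [← h1, Int.gcd_self] at h2
        have h3 : a - (q - 1) ≤ 2 := by omega
        linarith only [h3, ha', hJ16, hJ]
      · by_cases hA2' : (2 : ℤ) ∣ A + (q - 1) * (1 + n)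
        · exact Or.inr ⟨_, _, _, ⟨hA', hA2', by linarith only [ha'1], by linarith only [hn'1],
            hN', q7, Or.inl (by linarith only [ha', hJ16, hJ])⟩,
            PG.congr hA' ha'1 hn'1 (q7.dvd (by omega))⟩
        · have hg2 : (Int.gcd (a - (q - 1)) (a1 - n * (q - 1)) : ℤ) = 2 := by
            exact_mod_cast g2_iff.1 q7
          have hz2 : (Int.gcd z' 2 : ℤ) = 1 := by
            have h1 : IsCoprime z' 2 := by
              refine isCoprime_of_prime fun p hp p1 p2 => ?_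
              have h3 : p = 2 := (Nat.prime_dvd_prime_iff_eq hp Nat.prime_two).1
                (by exact_mod_cast p1)
              subst h3
              exact hz' (by exact_mod_cast p2)
            exact_mod_cast Int.isCoprime_iff_gcd_eq_one.1 h1
          refine toE_cls hB (h := 1) hA' hn'1 hN' (by linarith only [hJ62, ha']) ?_ ?_ ?_
          · rw [hg2, hz2]
          · rw [hg2]
            have h1 := hpow 20 4 (by norm_num)
            have h2 : (A + (q - 1) * (1 + n) + 1) * 1 * (J : ℤ) ^ 9 ≤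
                (A + 1) * (J : ℤ) ^ 20 := by
              have h3 : (A + (q - 1) * (1 + n) + 1) * 1 * (J : ℤ) ^ 9 ≤
                  (A + 1) * (J : ℤ) ^ 11 * (J : ℤ) ^ 9 := by
                rw [mul_one]
                exact mul_le_mul_of_nonneg_right hA'1 (by positivity)
              have e : (A + 1) * (J : ℤ) ^ 20 = (A + 1) * (J : ℤ) ^ 11 * (J : ℤ) ^ 9 := by ring
              rw [e]; exact h3
            have h4 : (A + 1) * (J : ℤ) ^ 20 * 64 ≤ (A + 1) * (J : ℤ) ^ 20 * (J : ℤ) ^ 4 :=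
              mul_le_mul_of_nonneg_left (by linarith only [hJ, hp1, hp2, hp3]) (by positivity)
            have h5 : (2 : ℤ) / 1 * J ≤ 2 * J := by norm_num
            linarith only [h1, h2, h4, h5, ha', hJ16]
          · rw [hg2]; exact hz'

/-- **C11** -/
theorem c11 (hB : Bg N J Z) {A a a1 z : ℤ} (hA : 0 < A) (ha : 1 < a) (ha1 : 1 < a1)
    (hN : A + a + a1 = N) (hr : A * (J : ℤ) ^ 24 ≤ N) (hne : ¬ (a = a1 ∧ a ∣ z)) :
    ToE N (PG A a a1 z) := by
  rcases le_total a1 a with hle | hle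
  · exact c11a hB hA ha1 hle hN hr hne
  · refine ToE.of (PG.swap hA ha ha1 (z' := -z) (by simp)) (c11a hB hA ha hle (by linarith) hr
      fun h => hne ⟨h.1.symm, ?_⟩)
    have := h.2
    rw [h.1, dvd_neg] at this
    exact this

end Pool.Agent.H4G.Six
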