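import Pool.Agent.H4G.Six.Can.C11L2

/-!
# C11 without a size hypothesis on `A` (helper35)
-/

set_option autoImplicit false

namespace Pool.Agent.H4G.Six

open Pool.Agent.H4G

variable {N : ℤ} {J Z : ℕ}

/-- both cases of a short vector -/
theorem l2pos (hB : Bg N J Z) {A a a1 z g X x r n0 : ℤ} (hA : 0 < A) (hN : A + a + a1 = N)
    (hg : g = (Int.gcd a a1 : ℤ)) (hgJ : (J : ℤ) ^ 150 ≤ g) (hXg : X < g)
    (hX2 : g ≤ X * (J : ℤ) ^ 31) (hAX : X * (J : ℤ) ^ 5 ≤ A) (hag : g ≤ a) (hag1 : g ≤ a1)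
    (ha130 : a1 ≤ g * (J : ℤ) ^ 30) (hX0 : 0 < X) (hx0 : 0 < x)
    (hxX : x * (J : ℤ) ^ 2 ≤ X) (hr0 : 0 ≤ r) (hrX : r * X ≤ g * (J : ℤ) ^ 2)
    (hzx : z * x = g * n0 + r) (hnx : IsCoprime n0 x)
    (hnz : ∀ y : ℤ, 0 < y → y < (J : ℤ) ^ 34 → ¬ g ∣ z * y) : ToE N (PG A a a1 z) := by
  have hr33 : r ≤ (J : ℤ) ^ 33 := by
    have h1 : r * X ≤ (J : ℤ) ^ 33 * X := by
      have h2 : g * (J : ℤ) ^ 2 ≤ X * (J : ℤ) ^ 31 * (J : ℤ) ^ 2 :=
        mul_le_mul_of_nonneg_right hX2 (hB.ppos 2).le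
      have h3 : X * (J : ℤ) ^ 31 * (J : ℤ) ^ 2 = (J : ℤ) ^ 33 * X := by ring
      linarith
    exact le_of_mul_le_mul_right h1 hX0
  rcases lt_or_ge x ((J : ℤ) ^ 34) with hx | hx
  · have hr : 0 < r := by
      rcases hr0.lt_or_eq with h | h
      · exact h
      · exact absurd ⟨n0, by rw [hzx, ← h, add_zero]⟩ (hnz x hx0 hx)
    exact l2b hB hA hN hg hgJ hXg hX2 hAX hag hag1 ha130 hX0 hx0 hr hr33 hzx hnx hx
  · exact l2a hB hA hN hg hgJ hXg hX2 hAX hag hag1 ha130 hX0 hxX hr0 hr33 hzx hnx hx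

/-- `A` and `gcd (a, a₁)` large -/
theorem l2core (hB : Bg N J Z) {A a a1 z g X : ℤ} (hA : 0 < A) (ha : 1 < a) (ha1 : 1 < a1)
    (hN : A + a + a1 = N)
    (hg : g = (Int.gcd a a1 : ℤ)) (hgJ : (J : ℤ) ^ 150 ≤ g) (hXg : X < g)
    (hX2 : g ≤ X * (J : ℤ) ^ 31) (hAX : X * (J : ℤ) ^ 5 ≤ A)
    (ha30 : a ≤ g * (J : ℤ) ^ 30) (ha130 : a1 ≤ g * (J : ℤ) ^ 30)
    (hnz : ∀ y : ℤ, 0 < y → y < (J : ℤ) ^ 34 → ¬ g ∣ z * y) : ToE N (PG A a a1 z) := by
  have hJ := hB.J20
  have hg0 : 0 < g := lt_of_lt_of_le (hB.ppos 150) hgJ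
  have hag : g ≤ a := by
    rw [hg]; exact Int.le_of_dvd (by linarith) (Int.gcd_dvd_left a a1)
  have hag1 : g ≤ a1 := by
    rw [hg]; exact Int.le_of_dvd (by linarith) (Int.gcd_dvd_right a a1)
  have hX119 : (J : ℤ) ^ 119 ≤ X := by
    have h1 : (J : ℤ) ^ 119 * (J : ℤ) ^ 31 ≤ X * (J : ℤ) ^ 31 := by
      rw [← pow_add]; exact hgJ.trans hX2
    exact le_of_mul_le_mul_right h1 (hB.ppos 31)
  have hX0 : 0 < X := lt_of_lt_of_le (hB.ppos 119) hX119
  have hJ2 := hB.ppos 2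
  obtain ⟨q, hq⟩ : ∃ q : ℤ, q = X / (J : ℤ) ^ 2 := ⟨_, rfl⟩
  have e1 : q * (J : ℤ) ^ 2 ≤ X := by rw [hq]; exact Int.ediv_mul_le _ hJ2.ne'
  have e2 : X < (q + 1) * (J : ℤ) ^ 2 := by rw [hq]; exact Int.lt_ediv_add_one_mul_self _ hJ2
  have hq0 : 0 < q := by
    by_contra h
    push Not at h
    have h1 : (q + 1) * (J : ℤ) ^ 2 ≤ 1 * (J : ℤ) ^ 2 :=
      mul_le_mul_of_nonneg_right (by linarith) hJ2.le
    have h2 := hB.pmono (m := 2) (n := 119) (by norm_num)
    linarith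
  obtain ⟨Q, hQ⟩ : ∃ Q : ℕ, (Q : ℤ) = q := ⟨q.toNat, Int.toNat_of_nonneg hq0.le⟩
  obtain ⟨n0, x, x1, x2, x3, x4⟩ := dir_int (a := g) (z := z) hg0 (Q := Q) (by omega)
  rw [hQ] at x2 x4
  have hxX : x * (J : ℤ) ^ 2 ≤ X := (mul_le_mul_of_nonneg_right x2 hJ2.le).trans e1
  have hrX : |g * n0 - z * x| * X ≤ g * (J : ℤ) ^ 2 := by
    have h1 : |g * n0 - z * x| * X ≤ |g * n0 - z * x| * ((q + 1) * (J : ℤ) ^ 2) :=
      mul_le_mul_of_nonneg_left e2.le (abs_nonneg _)
    have h2 : |g * n0 - z * x| * ((q + 1) * (J : ℤ) ^ 2) =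
        (|g * n0 - z * x| * (q + 1)) * (J : ℤ) ^ 2 := by ring
    have h3 := mul_le_mul_of_nonneg_right x4 hJ2.le
    linarith
  rcases le_total (g * n0) (z * x) with h | h
  · refine l2pos hB (r := z * x - g * n0) (n0 := n0) hA hN hg hgJ hXg hX2 hAX hag hag1 ha130 hX0
      x1 hxX (by linarith) ?_ (by ring) x3 hnz
    rw [abs_of_nonpos (by linarith)] at hrX
    have e : z * x - g * n0 = -(g * n0 - z * x) := by ring
    rw [e]; exact hrX
  · have s1 : SEq6 (PG A a a1 z) (PG A a1 a (-z)) := PG.swap hA ha ha1 (by simp)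
    refine ToE.of s1 (l2pos hB (r := g * n0 - z * x) (n0 := -n0) hA (by linarith)
      (by rw [Int.gcd_comm]; exact hg) hgJ hXg hX2 hAX hag1 hag ha30 hX0
      x1 hxX (by linarith) ?_ (by ring) x3.neg_left ?_)
    · rw [abs_of_nonneg (by linarith)] at hrX
      exact hrX
    · intro y h1 h2 h3
      refine hnz y h1 h2 ?_
      rw [neg_mul, dvd_neg] at h3
      exact h3

/-- **C11**, `A` large -/
theorem c11Large (hB : Bg N J Z) {A a a1 z : ℤ} (hA : 0 < A) (ha : 1 < a) (ha1 : 1 < a1)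
    (hN : A + a + a1 = N) (hr : N < A * (J : ℤ) ^ 24)
    (hbig : (J : ℤ) ^ 155 ≤ a ∨ (J : ℤ) ^ 155 ≤ a1 ∨ (4 * J + 3) * (Int.gcd a a1 : ℤ) ≤ a ∨
      (4 * J + 3) * (Int.gcd a a1 : ℤ) ≤ a1)
    (hne : ¬ (a = a1 ∧ a ∣ z)) : ToE N (PG A a a1 z) := by
  have hJ := hB.J20
  have hN1 := hB.N1
  obtain ⟨g, hg⟩ : ∃ g : ℤ, g = (Int.gcd a a1 : ℤ) := ⟨_, rfl⟩
  rw [← hg] at hbig
  have hg0 : 0 < g := by
    have := Int.gcd_pos_of_ne_zero_left a1 (by omega : a ≠ 0)
    omega
  have hga : g ∣ a := by rw [hg]; exact Int.gcd_dvd_left a a1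
  have hga1 : g ∣ a1 := by rw [hg]; exact Int.gcd_dvd_right a a1
  have hag : g ≤ a := Int.le_of_dvd (by linarith) hga
  have hag1 : g ≤ a1 := Int.le_of_dvd (by linarith) hga1
  by_cases hgz : g ∣ z
  · refine toE_zero hB hA ha ha1 hN (by rw [← hg]; exact hgz) fun h => hne ⟨h, ?_⟩
    have h1 : g = a := by
      rw [hg, ← h, Int.gcd_self, Int.natCast_natAbs, abs_of_pos (by linarith)]
    rw [← h1]; exact hgz
  -- sizes
  have hJ24 := hB.ppos 24
  have hA170 : (J : ℤ) ^ 176 ≤ A := by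
    have h1 := hB.pw (n := 200) (by norm_num)
    have h2 : (J : ℤ) ^ 200 = (J : ℤ) ^ 176 * (J : ℤ) ^ 24 := by ring
    rw [h2] at h1
    exact le_of_mul_le_mul_right (h1.trans hr.le) hJ24
  obtain ⟨h, hh⟩ : ∃ h : ℤ, h = (Int.gcd z g : ℤ) := ⟨_, rfl⟩
  have hh0 : 0 < h := by
    have := Int.gcd_pos_of_ne_zero_right z (by omega : g ≠ 0)
    omega
  obtain ⟨G, hG⟩ : h ∣ g := by rw [hh]; exact Int.gcd_dvd_right z g
  obtain ⟨z1, hz1⟩ : h ∣ z := by rw [hh]; exact Int.gcd_dvd_left z g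
  have hG0 : 0 < G := by
    by_contra h1
    push Not at h1
    have : h * G ≤ 0 := mul_nonpos_of_nonneg_of_nonpos hh0.le h1
    linarith
  have hco : IsCoprime z1 G := by
    rw [Int.isCoprime_iff_gcd_eq_one]
    have h1 : Int.gcd (h * z1) (h * G) = h.natAbs * Int.gcd z1 G := Int.gcd_mul_left _ _ _
    rw [← hz1, ← hG] at h1
    have h2 : h = h * (Int.gcd z1 G : ℤ) := by
      conv_lhs => rw [hh, h1]
      push_cast; rw [abs_of_pos hh0]
    have h3 : h * ((Int.gcd z1 G : ℤ) - 1) = 0 := by linear_combination -h2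
    rcases mul_eq_zero.1 h3 with h5 | h5
    · exact absurd h5 hh0.ne'
    · exact_mod_cast (show (Int.gcd z1 G : ℤ) = 1 by linarith)
  obtain ⟨α, hα⟩ : h ∣ a := (Dvd.intro G hG.symm).trans hga
  obtain ⟨n, hn⟩ : h ∣ a1 := (Dvd.intro G hG.symm).trans hga1
  -- `h` large
  rcases le_or_gt (7 * (J : ℤ)) h with h7 | h7
  · have hα2 : 2 ≤ α := by
      by_contra h1
      push Not at h1
      have h2 : 0 < α := by
        by_contra h3
        push Not at h3
        have : h * α ≤ 0 := mul_nonpos_of_nonneg_of_nonpos hh0.le h3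
        linarith
      have h3 : α = 1 := by omega
      have h4 : a = h := by rw [hα, h3, mul_one]
      apply hgz
      have h5 : g ∣ h := by rw [← h4]; exact hga
      exact h5.trans (Dvd.intro z1 hz1.symm)
    have hn1 : 1 ≤ n := by
      by_contra h1
      push Not at h1
      have : h * n ≤ 0 := mul_nonpos_of_nonneg_of_nonpos hh0.le (by linarith)
      linarith
    have h2h : 2 * h ≤ a := by rw [hα]; nlinarith
    obtain ⟨q, z', q1, q2, q3, q4⟩ := ga hB hA hN hα hn hz1 hα2 hn1 (by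
      intro p hp h1 h2 h3
      have e1 : (p : ℤ) * h ∣ g := by
        rw [hg]
        refine Int.dvd_coe_gcd ?_ ?_
        · obtain ⟨w, hw⟩ := h1
          exact ⟨w, by rw [hα, hw]; ring⟩
        · obtain ⟨w, hw⟩ := h2
          exact ⟨w, by rw [hn, hw]; ring⟩
      have e2 : (p : ℤ) ∣ G := by
        obtain ⟨w, hw⟩ := e1
        refine ⟨w, ?_⟩
        have : h * G = h * (p * w) := by rw [← hG, hw]; ring
        exact mul_left_cancel₀ hh0.ne' this
      exact not_dvd_of_isCoprime hco hp e2 h3) (by linarith)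
    have hA' : A ≤ A + (q - 1) * (1 + n) := by
      have : 0 ≤ (q - 1) * (1 + n) := mul_nonneg (by linarith) (by linarith)
      linarith
    have ha' : 8 * (J : ℤ) + 6 ≤ a - (q - 1) := by linarith
    have ha1' : 1 < a1 - n * (q - 1) := by
      have e : a1 - n * (q - 1) = n * (h - (q - 1)) := by rw [hn]; ring
      rw [e]
      have h1 : 1 * (h - (q - 1)) ≤ n * (h - (q - 1)) :=
        mul_le_mul_of_nonneg_right hn1 (by linarith)
      linarith
    have hvol : A + (q - 1) * (1 + n) + (a - (q - 1)) + (a1 - n * (q - 1)) = N := by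
      rw [← hN]; ring
    refine ToE.of q3 ?_
    rcases q4 with q4 | ⟨q5, q6, q7, q8⟩
    · refine toE_zero hB (by linarith) (by linarith) ha1' hvol
        (by rw [Int.isCoprime_iff_gcd_eq_one.1 q4]; exact one_dvd _) fun h1 => ?_
      rw [h1] at q4
      have h2 := Int.isCoprime_iff_gcd_eq_one.1 q4
      rw [Int.gcd_self] at h2
      omega
    · by_cases hz' : (2 : ℤ) ∣ z'
      · refine toE_zero hB (by linarith) (by linarith) ha1' hvol (q8.dvd hz') fun h1 => ?_
        have h2 := g2_iff.1 q8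
        rw [← h1, Int.gcd_self] at h2
        omega
      · by_cases hAe : (2 : ℤ) ∣ A + (q - 1) * (1 + n)
        · refine Or.inr ⟨_, _, _, ⟨by linarith, hAe, by linarith, by linarith, hvol, q8,
            Or.inl (by linarith)⟩, PG.congr (by linarith) (by linarith) ha1' (q8.dvd (by omega))⟩
        · exact c11Big hB (h := 1) (G := 2) (z1 := z') (by linarith) ha1' hvol
            (by rw [g2_iff.1 q8]; norm_num) one_pos (by norm_num) (by ring)
            (by
              obtain ⟨w, hw⟩ : ∃ w, z' = 2 * w + 1 := ⟨z' / 2, by omega⟩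
              exact ⟨1, -w, by rw [hw]; ring⟩) (by linarith) (by
              have h1 := hB.pows 5
              have h2 := hB.pmono (m := 5 + 1) (n := 176) (by norm_num)
              linarith [hB.ppos 5])
  · -- `h` small
    have hG' : (Int.gcd a a1 : ℤ) = h * G := by rw [← hg]; exact hG
    by_cases hgA : g * (J : ℤ) ^ 5 ≤ A
    · rcases le_or_gt ((4 * J + 3) * g) a with h1 | h1
      · exact c11Big hB hA ha1 hN hG' hh0 hG0 hz1 hco (by rw [← hG]; exact h1)
          (by rw [← hG]; exact hgA)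
      rcases le_or_gt ((4 * J + 3) * g) a1 with h2 | h2
      · refine ToE.of (PG.swap (z' := -z) hA ha ha1 (by simp)) ?_
        exact c11Big hB (z1 := -z1) hA ha (by linarith) (by rw [Int.gcd_comm]; exact hG') hh0 hG0
          (by rw [hz1]; ring) hco.neg_left (by rw [← hG]; exact h2) (by rw [← hG]; exact hgA)
      have h30 : 4 * (J : ℤ) + 3 ≤ (J : ℤ) ^ 30 := by
        have h3 := hB.pows 1
        have h4 := hB.pmono (m := 1 + 1) (n := 30) (by norm_num)
        rw [pow_one] at h3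
        linarith
      have hg150 : (J : ℤ) ^ 150 ≤ g := by
        have h3 : (J : ℤ) ^ 155 ≤ (4 * J + 3) * g := by
          rcases hbig with h3 | h3 | h3 | h3 <;> linarith
        have h4 : (4 * (J : ℤ) + 3) * g ≤ (J : ℤ) ^ 2 * g := by
          have h5 := hB.pows 1
          norm_num at h5
          exact mul_le_mul_of_nonneg_right (by linarith) hg0.le
        have h5 : (J : ℤ) ^ 155 = (J : ℤ) ^ 153 * (J : ℤ) ^ 2 := by ring
        have h6 : (J : ℤ) ^ 153 ≤ g := by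
          have h7 : (J : ℤ) ^ 153 * (J : ℤ) ^ 2 ≤ g * (J : ℤ) ^ 2 := by linarith
          exact le_of_mul_le_mul_right h7 (hB.ppos 2)
        exact (hB.pmono (by norm_num)).trans h6
      refine l2core hB (X := g - 1) hA ha ha1 hN hg hg150 (by linarith) ?_ ?_ ?_ ?_ ?_
      · have h3 : 2 * g ≤ (J : ℤ) ^ 31 * g := by
          have h4 := hB.pmono (m := 1) (n := 31) (by norm_num)
          rw [pow_one] at h4
          exact mul_le_mul_of_nonneg_right (by linarith) hg0.le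
        have h5 : (J : ℤ) ^ 31 ≤ g := (hB.pmono (by norm_num)).trans hg150
        linarith
      · have : (0 : ℤ) < (J : ℤ) ^ 5 := hB.ppos 5
        linarith
      · have := mul_le_mul_of_nonneg_right h30 hg0.le
        linarith
      · have := mul_le_mul_of_nonneg_right h30 hg0.le
        linarith
      · intro y y1 y2 y3
        have h3 : g ∣ h * y := by
          have h4 : g ∣ (Int.gcd (z * y) (g * y) : ℤ) := Int.dvd_coe_gcd y3 (dvd_mul_right _ _)
          rw [Int.gcd_mul_right] at h4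
          push_cast at h4
          rw [← hh, abs_of_pos y1] at h4
          exact h4
        have h4 := Int.le_of_dvd (by positivity) h3
        have h5 : h * y ≤ (7 * J) * (J : ℤ) ^ 34 := mul_le_mul h7.le y2.le y1.le (by linarith)
        have h6 : (7 * J) * (J : ℤ) ^ 34 = 7 * (J : ℤ) ^ 35 := by ring
        have h7 := hB.pows 35
        have h8 := hB.pmono (m := 35 + 1) (n := 150) (by norm_num)
        linarith [hB.ppos 35]
    · push Not at hgA
      have hJ5 := hB.ppos 5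
      obtain ⟨X, hX⟩ : ∃ X : ℤ, X = A / (J : ℤ) ^ 5 := ⟨_, rfl⟩
      have e1 : X * (J : ℤ) ^ 5 ≤ A := by rw [hX]; exact Int.ediv_mul_le _ hJ5.ne'
      have e2 : A < (X + 1) * (J : ℤ) ^ 5 := by rw [hX]; exact Int.lt_ediv_add_one_mul_self _ hJ5
      have hXg : X < g := by
        by_contra h1
        push Not at h1
        have := mul_le_mul_of_nonneg_right h1 hJ5.le
        linarith
      have hX1 : 1 ≤ X := by
        by_contra h1
        push Not at h1
        have h2 : (X + 1) * (J : ℤ) ^ 5 ≤ 1 * (J : ℤ) ^ 5 :=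
          mul_le_mul_of_nonneg_right (by linarith) hJ5.le
        have h3 := hB.pmono (m := 5) (n := 176) (by norm_num)
        linarith
      have hN29 : N < g * (J : ℤ) ^ 29 := by
        have h1 : A * (J : ℤ) ^ 24 < g * (J : ℤ) ^ 5 * (J : ℤ) ^ 24 :=
          mul_lt_mul_of_pos_right hgA hJ24
        have h2 : g * (J : ℤ) ^ 5 * (J : ℤ) ^ 24 = g * (J : ℤ) ^ 29 := by ring
        linarith
      have h2930 : g * (J : ℤ) ^ 29 ≤ g * (J : ℤ) ^ 30 :=
        mul_le_mul_of_nonneg_left (hB.pmono (by norm_num)) hg0.le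
      have hg150 : (J : ℤ) ^ 150 ≤ g := by
        have h1 := hB.pw (n := 200) (by norm_num)
        have h2 : (J : ℤ) ^ 200 = (J : ℤ) ^ 171 * (J : ℤ) ^ 29 := by ring
        rw [h2] at h1
        have h3 := le_of_mul_le_mul_right (h1.trans hN29.le) (hB.ppos 29)
        exact (hB.pmono (by norm_num)).trans h3
      refine l2core hB (X := X) hA ha ha1 hN hg hg150 hXg ?_ e1 (by linarith) (by linarith) ?_
      · have h1 : A * (J : ℤ) ^ 24 < (X + 1) * (J : ℤ) ^ 5 * (J : ℤ) ^ 24 :=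
          mul_lt_mul_of_pos_right e2 hJ24
        have h2 : (X + 1) * (J : ℤ) ^ 5 * (J : ℤ) ^ 24 ≤ 2 * X * (J : ℤ) ^ 29 := by
          have h3 : (X + 1) * (J : ℤ) ^ 5 * (J : ℤ) ^ 24 = (X + 1) * (J : ℤ) ^ 29 := by ring
          rw [h3]
          exact mul_le_mul_of_nonneg_right (by linarith) (hB.ppos 29).le
        have h4 : 2 * X * (J : ℤ) ^ 29 ≤ X * (J : ℤ) ^ 31 := by
          have h5 := hB.pows 29
          have h6 := hB.pmono (m := 29 + 1) (n := 31) (by norm_num)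
          have h7 : 2 * (J : ℤ) ^ 29 ≤ (J : ℤ) ^ 31 := by linarith [hB.ppos 29]
          have := mul_le_mul_of_nonneg_left h7 (by linarith : (0 : ℤ) ≤ X)
          linarith
        linarith
      · intro y y1 y2 y3
        have h3 : g ∣ h * y := by
          have h4 : g ∣ (Int.gcd (z * y) (g * y) : ℤ) := Int.dvd_coe_gcd y3 (dvd_mul_right _ _)
          rw [Int.gcd_mul_right] at h4
          push_cast at h4
          rw [← hh, abs_of_pos y1] at h4
          exact h4
        have h4 := Int.le_of_dvd (by positivity) h3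
        have h5 : h * y ≤ (7 * J) * (J : ℤ) ^ 34 := mul_le_mul h7.le y2.le y1.le (by linarith)
        have h6 : (7 * J) * (J : ℤ) ^ 34 = 7 * (J : ℤ) ^ 35 := by ring
        have h7 := hB.pows 35
        have h8 := hB.pmono (m := 35 + 1) (n := 150) (by norm_num)
        linarith [hB.ppos 35]

/-- **C11**, all sizes: a state with contents one and `L ≠ M` is equivalent to a generic end
state, unless `A` is large and both tori are tiny -/
theorem c11all (hB : Bg N J Z) {A a a1 z : ℤ} (hA : 0 < A) (ha : 1 < a) (ha1 : 1 < a1)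
    (hN : A + a + a1 = N)
    (hbig : A * (J : ℤ) ^ 24 ≤ N ∨ (J : ℤ) ^ 155 ≤ a ∨ (J : ℤ) ^ 155 ≤ a1 ∨
      (4 * J + 3) * (Int.gcd a a1 : ℤ) ≤ a ∨ (4 * J + 3) * (Int.gcd a a1 : ℤ) ≤ a1)
    (hne : ¬ (a = a1 ∧ a ∣ z)) : ToE N (PG A a a1 z) := by
  rcases le_or_gt (A * (J : ℤ) ^ 24) N with h | h
  · exact c11 hB hA ha ha1 hN h hne
  · refine c11Large hB hA ha ha1 hN h ?_ hne
    rcases hbig with h1 | h1
    · exact absurd h1 (not_le.2 h)
    · exact h1

end Pool.Agent.H4G.Six
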