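import Pool.Agent.H4G.Six.Can.C11Nu
import Pool.Agent.H4G.Six.Can.C11AL
import Pool.Agent.H4G.Six.Can.B15

/-!
# C11: `A` large against `gcd (a, a₁)` (helper35)
-/

set_option autoImplicit false

namespace Pool.Agent.H4G.Six

open Pool.Agent.H4G

variable {N : ℤ} {J Z : ℕ}

/-- the choice of `i`, with parity -/
theorem iWin (hB : Bg N J Z) {a h G z1 : ℤ} (ha : 0 < a) (haN : a ≤ N) (hG : 0 < G)
    (hzG : IsCoprime z1 G) (hga : h * G ∣ a) (i0 : ℤ) :
    ∃ i : ℤ, i0 ≤ i ∧ i < i0 + 2 * G * J ∧ IsCoprime i a ∧ IsCoprime h i ∧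
      h * G ∣ (h * z1) * i + h ∧ (¬ (2 : ℤ) ∣ a → (2 : ℤ) ∣ i) := by
  have hN1 := hB.N1
  have hJ := hB.J20
  by_cases h2 : (2 : ℤ) ∣ a
  · obtain ⟨i, i1, i2, i3, i4, i5⟩ := alWindow hB ha haN hG hzG hga i0
    refine ⟨i, i1, lt_of_lt_of_le i2 ?_, i3, i4, i5, fun h => absurd h2 h⟩
    have : 0 ≤ G * J := by positivity
    linarith
  · obtain ⟨x, y, hxy⟩ := hzG
    have hGo : ¬ (2 : ℤ) ∣ G := fun h => h2 ((h.mul_left _).trans hga)
    obtain ⟨c, hc1, hc2⟩ : ∃ c : ℤ, G ∣ c + x ∧ (2 : ℤ) ∣ c := by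
      by_cases hx : (2 : ℤ) ∣ x
      · exact ⟨-x, by simp, by omega⟩
      · exact ⟨-x + G, ⟨1, by ring⟩, by omega⟩
    obtain ⟨i, i1, i2, i3, i4⟩ := sieveQ (k := 1) (e := 1) hB.cap (D0 := a) ha
      (hB.le (n := 1) (by norm_num) (by rw [pow_one]; linarith)) (by norm_num)
      ![fun p => p ∣ a] ![1] ![0] (m := 2 * G) (by linarith) c
      (by
        intro p _ i hi
        fin_cases i
        exact hi)
      (by
        intro p hp _
        refine ⟨1, fun i _ => ?_⟩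
        fin_cases i
        intro h
        exact prime_not_dvd_one hp (by simpa using h))
      (by
        intro p hp hpG i hi
        fin_cases i
        intro h
        have h1 : (p : ℤ) ∣ 1 * c + 0 := h
        rw [one_mul, add_zero] at h1
        have hi' : (p : ℤ) ∣ a := hi
        have hp2 : ¬ (p : ℤ) ∣ 2 := by
          intro h3
          have : p ∣ 2 := by exact_mod_cast h3
          have hpe := (Nat.prime_dvd_prime_iff_eq hp Nat.prime_two).1 this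
          subst hpe
          exact h2 (by exact_mod_cast hi')
        have hpG' := ((Nat.prime_iff_prime_int.1 hp).dvd_or_dvd hpG).resolve_left hp2
        have h3 : (p : ℤ) ∣ x := by
          have := dvd_sub (hpG'.trans hc1) h1
          rwa [add_sub_cancel_left] at this
        refine prime_not_dvd_one hp ?_
        rw [← hxy]
        exact dvd_add (h3.mul_right _) (hpG'.mul_left _)) i0
    rw [pow_one] at i2
    have hia : IsCoprime i a := by
      refine isCoprime_of_prime fun p hp h1 h3 => ?_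
      refine i4 p hp 0 h1 ?_
      show (p : ℤ) ∣ 1 * i + 0
      rw [one_mul, add_zero]; exact h3
    have hG2 : G ∣ i + x := by
      have h5 : G ∣ i - c := (Dvd.intro_left 2 rfl : G ∣ 2 * G).trans i3
      have := dvd_add h5 hc1
      rwa [show i - c + (c + x) = i + x by ring] at this
    refine ⟨i, i1, i2, hia, ?_, ?_, fun _ => ?_⟩
    · exact (hia.of_isCoprime_of_dvd_right ((dvd_mul_right h G).trans hga)).symm
    · obtain ⟨n, hn⟩ := hG2
      refine ⟨z1 * n + y, ?_⟩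
      linear_combination (h * z1) * hn - h * hxy
    · have h5 : (2 : ℤ) ∣ i - c := (Dvd.intro G rfl : (2 : ℤ) ∣ 2 * G).trans i3
      have := dvd_add h5 hc2
      rwa [sub_add_cancel] at this

/-- parities -/
theorem parNu : ∀ A a a1 i h : ZMod 2, (a = 0 → i ≠ 0) → (h = 0 → a = 0 ∧ a1 = 0) →
    (a ≠ 0 → i = 0) → ¬ (A = 0 ∧ a = 0 ∧ a1 = 0) → ∃ r : ZMod 2, (A + i + 1 = 0 → r ≠ 0) ∧
    (a - i = 0 → i * r - (A + i + 1) * h ≠ 0) ∧ (a1 - 1 = 0 → r ≠ 0) ∧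
    (1 * a - i * a1 - (A + i + 1) * h = 0 → i ≠ 0 →
      a - i + (i * r - (A + i + 1) * h) ≠ 0) ∧
    (1 * a - i * a1 - (A + i + 1) * h = 0 → i = 0 → a1 - 1 + r ≠ 0) := by
  decide

/-- **A large** -/
theorem c11Big (hB : Bg N J Z) {A a a1 z h G z1 : ℤ} (hA : 0 < A) (ha1 : 1 < a1)
    (hN : A + a + a1 = N) (hg : (Int.gcd a a1 : ℤ) = h * G) (h0 : 0 < h) (hG : 0 < G)
    (hz : z = h * z1) (hzG : IsCoprime z1 G) (r1 : (4 * J + 3) * (h * G) ≤ a)
    (r2 : (h * G) * (J : ℤ) ^ 5 ≤ A) :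
    (∃ A' a' a1' : ℤ, Gd N A' a' a1' ∧ SEq6 (PG A a a1 z) (PG A' a' a1' 0)) ∨
      (∃ A' a' a1' : ℤ, GdE N A' a' a1' ∧ SEq6 (PG A a a1 z) (PG A' a' a1' 1)) := by
  have hN1 := hB.N1
  have hJ := hB.J20
  have hp0 := hB.pows 0
  have hp1 := hB.pows 1
  have hp2 := hB.pows 2
  have hp3 := hB.pows 3
  have hp4 := hB.pows 4
  norm_num at hp0 hp1 hp2 hp3 hp4
  obtain ⟨g, hgg⟩ : ∃ g, g = h * G := ⟨_, rfl⟩
  rw [← hgg] at r1 r2 hg
  have hg0 : 0 < g := by rw [hgg]; positivity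
  have hGg : G ≤ g := by rw [hgg]; nlinarith
  have hhg : h ≤ g := by rw [hgg]; nlinarith
  have hJg : g ≤ J * g := by nlinarith
  have ha : 0 < a := by nlinarith
  have hga : h * G ∣ a := by rw [← hgg, ← hg]; exact Int.gcd_dvd_left a a1
  have hJG : G * J ≤ J * g := by nlinarith
  -- the choice of `i`
  obtain ⟨i, i1, i2, i3, i4, i5, i6, hD0⟩ : ∃ i : ℤ, 2 * g ≤ i ∧ i < (4 * J + 2) * g ∧
      IsCoprime i a ∧ IsCoprime h i ∧ h * G ∣ (h * z1) * i + h ∧ (¬ (2 : ℤ) ∣ a → (2 : ℤ) ∣ i) ∧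
      1 * a - i * a1 - (A + i + 1) * (h * 1 - i * 0) ≠ 0 := by
    obtain ⟨i, i1, i2, i3, i4, i5, i6⟩ := iWin hB ha (by linarith) hG hzG hga (2 * g)
    obtain ⟨i', i1', i2', i3', i4', i5', i6'⟩ := iWin hB ha (by linarith) hG hzG hga
      (2 * g + 2 * G * J)
    by_cases hD : 1 * a - i * a1 - (A + i + 1) * (h * 1 - i * 0) = 0
    · refine ⟨i', by nlinarith, by nlinarith, i3', i4', i5', i6', fun hD' => ?_⟩
      have h1 : (i' - i) * (a1 + h) = 0 := by linear_combination hD - hD'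
      rcases mul_eq_zero.1 h1 with h2 | h2
      · linarith
      · linarith
    · exact ⟨i, i1, by nlinarith, i3, i4, i5, i6, hD⟩
  have hi0 : 0 < i := by linarith
  have hia : i < a := by nlinarith
  obtain ⟨W, hW⟩ : ∃ W : ℤ, W = A + i + 1 := ⟨_, rfl⟩
  obtain ⟨D, hD⟩ : ∃ D : ℤ, D = 1 * a - i * a1 - W * (h * 1 - i * 0) := ⟨_, rfl⟩
  rw [← hW, ← hD] at hD0
  have hW0 : 0 < W := by rw [hW]; linarith
  have hWN : W ≤ 2 * N := by rw [hW]; linarith
  have hhN : h ≤ N := by nlinarith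
  have hDZ : |D| ≤ (2 * N) ^ 10 := by
    have e1 : i * a1 ≤ N * N := mul_le_mul (by linarith) (by linarith) (by linarith)
      (by linarith)
    have e2 : W * h ≤ 2 * N * N := mul_le_mul hWN hhN (by linarith) (by linarith)
    have e3 : 0 < i * a1 := by positivity
    have e4 : 0 < W * h := by positivity
    have e5 : |D| ≤ (2 * N) ^ 2 := by
      rw [abs_le, hD]
      constructor
      · nlinarith
      · nlinarith
    exact e5.trans (pow_le_pow_right₀ (by linarith) (by norm_num))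
  have hN2 : (1 : ℤ) < a1 := ha1
  -- parities
  obtain ⟨m, r, hm, r0', r1', r2', r3', r4', hmE⟩ : ∃ m r : ℤ, (m = 2 ∨ m = 4) ∧
      ((2 : ℤ) ∣ W → ¬ (2 : ℤ) ∣ r) ∧
      ((2 : ℤ) ∣ a - i → ¬ (2 : ℤ) ∣ i * r - W * h) ∧
      ((2 : ℤ) ∣ a1 - 1 → ¬ (2 : ℤ) ∣ 1 * r - W * 0) ∧
      (¬ ((2 : ℤ) ∣ A ∧ (2 : ℤ) ∣ a ∧ (2 : ℤ) ∣ a1) → (2 : ℤ) ∣ D → ¬ (2 : ℤ) ∣ i →
        ¬ (2 : ℤ) ∣ a - i + (i * r - W * h)) ∧
      (¬ ((2 : ℤ) ∣ A ∧ (2 : ℤ) ∣ a ∧ (2 : ℤ) ∣ a1) → (2 : ℤ) ∣ D → (2 : ℤ) ∣ i →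
        ¬ (2 : ℤ) ∣ a1 - 1 + (1 * r - W * 0)) ∧
      (((2 : ℤ) ∣ A ∧ (2 : ℤ) ∣ a ∧ (2 : ℤ) ∣ a1) → m = 4 ∧ r = 3 - a1) := by
    have hio : (2 : ℤ) ∣ a → ¬ (2 : ℤ) ∣ i := fun h1 h2 =>
      not_dvd_of_isCoprime i3 Nat.prime_two (by exact_mod_cast h1) (by exact_mod_cast h2)
    have hho : (2 : ℤ) ∣ h → (2 : ℤ) ∣ a ∧ (2 : ℤ) ∣ a1 := fun h1 => by
      have h2 : (2 : ℤ) ∣ (Int.gcd a a1 : ℤ) := by rw [hg, hgg]; exact h1.mul_right _
      exact ⟨h2.trans (Int.gcd_dvd_left a a1), h2.trans (Int.gcd_dvd_right a a1)⟩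
    by_cases hE : (2 : ℤ) ∣ A ∧ (2 : ℤ) ∣ a ∧ (2 : ℤ) ∣ a1
    · have hi2 := hio hE.2.1
      obtain ⟨e1, e2, e3⟩ := hE
      refine ⟨4, 3 - a1, Or.inr rfl, fun _ => by omega, fun h1 => by omega, fun h1 => by omega,
        fun h1 => absurd ⟨e1, e2, e3⟩ h1, fun h1 => absurd ⟨e1, e2, e3⟩ h1, fun _ => ⟨rfl, rfl⟩⟩
    · have c2 : ∀ x : ℤ, (2 : ℤ) ∣ x ↔ (x : ZMod 2) = 0 := fun x => by
        rw [ZMod.intCast_zmod_eq_zero_iff_dvd]; norm_num
      obtain ⟨r, q0, q1, q2, q3, q4⟩ := parNu (A : ZMod 2) (a : ZMod 2) (a1 : ZMod 2)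
        (i : ZMod 2) (h : ZMod 2) (fun h1 h2 => hio ((c2 a).2 h1) ((c2 i).2 h2))
        (fun h1 => ⟨(c2 a).1 (hho ((c2 h).2 h1)).1, (c2 a1).1 (hho ((c2 h).2 h1)).2⟩)
        (fun h1 => (c2 i).1 (i6 fun h2 => h1 ((c2 a).1 h2)))
        (fun h1 => hE ⟨(c2 A).2 h1.1, (c2 a).2 h1.2.1, (c2 a1).2 h1.2.2⟩)
      obtain ⟨s, hs⟩ : ∃ s : ℤ, (s : ZMod 2) = r := ⟨r.val, by simp⟩
      have hWc : (W : ZMod 2) = A + i + 1 := by rw [hW]; push_cast; rfl
      have hDc : (D : ZMod 2) = 1 * a - i * a1 - (A + i + 1) * h := by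
        rw [hD, hW]; push_cast; ring
      refine ⟨2, s, Or.inl rfl, fun h1 h2 => ?_, fun h1 h2 => ?_, fun h1 h2 => ?_,
        fun _ h1 h3 h2 => ?_, fun _ h1 h3 h2 => ?_, fun h1 => absurd h1 hE⟩
      · rw [c2] at h1 h2
        rw [hWc] at h1
        rw [hs] at h2
        exact q0 h1 h2
      · rw [c2] at h1 h2
        push_cast at h1 h2
        rw [hWc, hs] at h2
        exact q1 h1 h2
      · rw [c2] at h1 h2
        push_cast at h1 h2
        rw [hs] at h2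
        exact q2 h1 (by simpa using h2)
      · rw [c2] at h1 h2 h3
        push_cast at h1 h2
        rw [hWc, hs] at h2
        rw [hDc] at h1
        exact q3 h1 h3 h2
      · rw [c2] at h1 h2 h3
        push_cast at h1 h2
        rw [hs] at h2
        rw [hDc] at h1
        exact q4 h1 h3 (by simpa using h2)
  -- the sieve
  obtain ⟨κ, k1, k2, k3, k4, k5, k6, k7⟩ := kapSieve hB (A := A) (a := a) (a1 := a1) (i := i)
    (j := 1) (l1 := h) (m1 := 0) (W := W) (D := D) (m := m) (r := r)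
    (E := (2 : ℤ) ∣ A ∧ (2 : ℤ) ∣ a ∧ (2 : ℤ) ∣ a1) hW hD hA hi0 hia one_pos ha1 hN i3
    isCoprime_one_left isCoprime_one_right hD0 hDZ hm r0' r1' r2' r3' r4' (W * h / i + 1)
  have d1 : W * h / i * i ≤ W * h := Int.ediv_mul_le _ hi0.ne'
  have d2 : W * h < (W * h / i + 1) * i := Int.lt_ediv_add_one_mul_self _ hi0
  obtain ⟨Q, hQ⟩ : ∃ Q : ℤ, Q = W * h / i := ⟨_, rfl⟩
  rw [← hQ] at k1 k2 d1 d2
  have hWh : 0 < W * h := by positivity
  have hQ0 : 0 ≤ Q := by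
    rw [hQ]; exact Int.ediv_nonneg hWh.le hi0.le
  have hQ2 : 2 * Q ≤ W := by
    have h1 : Q * (2 * h) ≤ W * h := le_trans (mul_le_mul_of_nonneg_left (by linarith) hQ0) d1
    have h2 : (2 * Q) * h ≤ W * h := by linarith
    exact le_of_mul_le_mul_right h2 h0
  have g1 : W * h < i * κ := by
    have h1 : (Q + 1) * i ≤ κ * i := mul_le_mul_of_nonneg_right k1 hi0.le
    linarith
  have hκ0 : 0 < κ := by linarith
  obtain ⟨T, hT⟩ : ∃ T : ℤ, T = (J : ℤ) ^ 3 * (i + 1) := ⟨_, rfl⟩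
  have hsm : 8 * T < W := by
    have h1 : i + 1 ≤ 5 * J * g := by nlinarith
    have h2 : T ≤ (J : ℤ) ^ 3 * (5 * J * g) := by
      rw [hT]; exact mul_le_mul_of_nonneg_left h1 (by positivity)
    have h3 : (J : ℤ) ^ 3 * (5 * J * g) = 5 * ((J : ℤ) ^ 4 * g) := by ring
    have h4 : 40 * ((J : ℤ) ^ 4 * g) ≤ g * (J : ℤ) ^ 5 := by
      have h5 : 40 * (J : ℤ) ^ 4 ≤ (J : ℤ) ^ 5 := by
        have : (0 : ℤ) ≤ (J : ℤ) ^ 4 := by positivity
        linarith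
      have := mul_le_mul_of_nonneg_right h5 hg0.le
      linarith
    linarith
  have hTi : i + 1 ≤ T := by
    have h5 : (1 : ℤ) ≤ (J : ℤ) ^ 3 := one_le_pow₀ hB.J1
    have := mul_le_mul_of_nonneg_right h5 (by linarith : (0 : ℤ) ≤ i + 1)
    rw [hT]; linarith
  have g0 : κ * (i + 1) < W * (1 + h + 0) := by
    have h1 : κ ≤ Q + 4 * (J : ℤ) ^ 3 := by linarith
    have h2 : κ * (i + 1) ≤ (Q + 4 * (J : ℤ) ^ 3) * (i + 1) :=
      mul_le_mul_of_nonneg_right h1 (by linarith)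
    have h3 : (Q + 4 * (J : ℤ) ^ 3) * (i + 1) = Q * i + Q + 4 * T := by rw [hT]; ring
    have h4 : W * (1 + h + 0) = W + W * h := by ring
    linarith
  have hgz : (Int.gcd a a1 : ℤ) ∣ z * (i * 1) + (h * 1 - i * 0) := by
    rw [hg, hgg, hz]
    have e : h * z1 * (i * 1) + (h * 1 - i * 0) = (h * z1) * i + h := by ring
    rw [e]; exact i5
  have hκbig : 2 < κ := by
    have h1 : W ≤ W * h := by
      have : 1 ≤ h := h0
      have := mul_le_mul_of_nonneg_left this hW0.le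
      linarith
    by_contra h3
    push Not at h3
    have h4 : i * κ ≤ i * 2 := mul_le_mul_of_nonneg_left h3 hi0.le
    linarith
  have step := fun (z' : ℤ) (hz' : (Int.gcd (a - i + (i * κ - W * h)) (a1 - 1 + (1 * κ - W * 0)) :
      ℤ) ∣ z' * ((i * κ - W * h) * (1 * κ - W * 0)) + (h * 1 - i * 0)) =>
    kapEdge (z := z) (z' := z') hW hA hi0 hia one_pos ha1 i3 isCoprime_one_left i4
      isCoprime_one_right hgz g0 g1 (by linarith) k4 k5 k6 hz'
  have hvol : W * (1 + h + 0) - κ * (i + 1) + (a - i + (i * κ - W * h)) +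
      (a1 - 1 + (1 * κ - W * 0)) = N := by rw [← hN, hW]; ring
  have hA' : 0 < W * (1 + h + 0) - κ * (i + 1) := by linarith
  have ha' : 1 < a - i + (i * κ - W * h) := by linarith
  have ha1' : 3 < a1 - 1 + (1 * κ - W * 0) := by linarith
  by_cases hE : (2 : ℤ) ∣ A ∧ (2 : ℤ) ∣ a ∧ (2 : ℤ) ∣ a1
  · -- all areas even
    obtain ⟨hm4, hr⟩ := hmE hE
    obtain ⟨e1, e2, e3⟩ := hE
    have hi2 : ¬ (2 : ℤ) ∣ i := fun h2 =>
      not_dvd_of_isCoprime i3 Nat.prime_two (by exact_mod_cast e2) (by exact_mod_cast h2)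
    rw [hm4, hr] at k3
    obtain ⟨w, hw⟩ := k3
    have hκo : ¬ (2 : ℤ) ∣ κ := by omega
    have hW2 : (2 : ℤ) ∣ W := by omega
    have hiκ : ¬ (2 : ℤ) ∣ i * κ := fun h1 => by
      rcases Int.prime_two.dvd_or_dvd h1 with h2 | h2
      · exact hi2 h2
      · exact hκo h2
    have hWh2 : (2 : ℤ) ∣ W * h := hW2.mul_right _
    have g2 : G2 (a - i + (i * κ - W * h)) (a1 - 1 + (1 * κ - W * 0)) := by
      refine ⟨by omega, by omega, fun h4 => ?_, fun p hp h2 h3 => k7 p hp (Or.inl h2) h3⟩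
      have := h4.2
      omega
    have hi'2 : ¬ (2 : ℤ) ∣ i * κ - W * h := by omega
    by_cases hh2 : (2 : ℤ) ∣ h
    · have s1 := step 0 (g2.dvd (by
        have e : 0 * ((i * κ - W * h) * (1 * κ - W * 0)) + (h * 1 - i * 0) = h := by ring
        rw [e]; exact hh2))
      obtain ⟨A', a', a1', h1, h2⟩ := b15 hB hA' ha' (by linarith) hvol (by
        intro h5
        rw [h5] at g2
        have h6 := g2_iff.1 g2
        rw [Int.gcd_self] at h6
        omega)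
      exact Or.inl ⟨A', a', a1', h1, s1.trans h2⟩
    · have s1 := step 1 (g2.dvd (by
        have e : 1 * ((i * κ - W * h) * (1 * κ - W * 0)) + (h * 1 - i * 0) =
            (i * κ - W * h) * κ + h := by ring
        rw [e]
        have h5 : ¬ (2 : ℤ) ∣ (i * κ - W * h) * κ := fun h6 => by
          rcases Int.prime_two.dvd_or_dvd h6 with h7 | h7
          · exact hi'2 h7
          · exact hκo h7
        omega))
      refine Or.inr ⟨_, _, _, ⟨hA', ?_, by linarith, by linarith, hvol, g2,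
        Or.inr ha1'⟩, s1⟩
      have h5 : (2 : ℤ) ∣ W * (1 + h + 0) := hW2.mul_right _
      have h6 : (2 : ℤ) ∣ κ * (i + 1) := Dvd.dvd.mul_left (by omega) _
      exact dvd_sub h5 h6
  · have hcop : IsCoprime (a - i + (i * κ - W * h)) (a1 - 1 + (1 * κ - W * 0)) :=
      isCoprime_of_prime fun p hp h2 h1 => k7 p hp (Or.inr hE) h1 h2
    have s1 := step 0 (by
      rw [Int.isCoprime_iff_gcd_eq_one.1 hcop]; exact one_dvd _)
    exact Or.inl ⟨_, _, _, ⟨hA', ha', by linarith, hvol, hcop⟩, s1⟩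

end Pool.Agent.H4G.Six
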