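import Pool.Agent.H4G.Six.Can.B1

/-!
# The pencil which makes `z = 0` (helper19)
-/

set_option autoImplicit false

namespace Pool.Agent.H4G.Six

open Pool.Agent.H4G

variable {N : ℤ} {J Z : ℕ}

/-- facts on `h = gcd (z, gcd (a, a₁))` -/
theorem gcd3_prime {a a1 z h α β σ l1 i : ℤ} (hh : h = (Int.gcd z (Int.gcd a a1 : ℤ) : ℤ))
    (hh0 : 0 < h) (hα : a = h * α) (hβ : a1 = h * β) (hσ : l1 = h * σ) (cia : IsCoprime i a)
    (hz : (Int.gcd a a1 : ℤ) ∣ z * i + l1) {p : ℕ} (hp : p.Prime) (h1 : (p : ℤ) ∣ α)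
    (h2 : (p : ℤ) ∣ β) : ¬ (p : ℤ) ∣ σ := by
  intro h3
  have hp' := Nat.prime_iff_prime_int.1 hp
  obtain ⟨x, hx⟩ := h1
  obtain ⟨y, hy⟩ := h2
  obtain ⟨w, hw⟩ := h3
  have e1 : (p : ℤ) * h ∣ a := ⟨x, by rw [hα, hx]; ring⟩
  have e2 : (p : ℤ) * h ∣ a1 := ⟨y, by rw [hβ, hy]; ring⟩
  have e3 : (p : ℤ) * h ∣ (Int.gcd a a1 : ℤ) := Int.dvd_coe_gcd e1 e2
  have e4 : (p : ℤ) * h ∣ z * i := by
    have h5 := e3.trans hz
    have h6 : (p : ℤ) * h ∣ l1 := ⟨w, by rw [hσ, hw]; ring⟩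
    have := dvd_sub h5 h6
    rwa [add_sub_cancel_right] at this
  have hzh : h ∣ z := by rw [hh]; exact Int.gcd_dvd_left z _
  obtain ⟨z1, hz1⟩ := hzh
  have e5 : (p : ℤ) ∣ z1 * i := by
    obtain ⟨u, hu⟩ := e4
    refine ⟨u, ?_⟩
    have : h * (z1 * i) = h * ((p : ℤ) * u) := by rw [hz1] at hu; linarith
    exact mul_left_cancel₀ hh0.ne' this
  have hpi : ¬ (p : ℤ) ∣ i := not_dvd_of_isCoprime cia hp
    ((Dvd.intro _ rfl : (p : ℤ) ∣ p * h).trans e1)
  obtain ⟨v, hv⟩ := (hp'.dvd_or_dvd e5).resolve_right hpi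
  have e6 : (p : ℤ) * h ∣ h := by
    have h7 : (p : ℤ) * h ∣ z := ⟨v, by rw [hz1, hv]; ring⟩
    have h8 := Int.dvd_coe_gcd h7 e3
    rwa [← hh] at h8
  have h9 := Int.le_of_dvd hh0 e6
  have h10 : (2 : ℤ) ≤ p := by exact_mod_cast hp.two_le
  nlinarith

/-- **K1** -/
theorem kLine (hB : Bg N J Z) {A a a1 z l1 i : ℤ} (hA : 0 < A) (ha1 : 1 < a1)
    (hN : A + a + a1 = N) (hroom : (A + 1) * |l1| * (J : ℤ) ^ 3 ≤ i) (hia : i < a)
    (cia : IsCoprime i a) (cl : IsCoprime l1 i) (hl0 : l1 ≠ 0)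
    (hz : (Int.gcd a a1 : ℤ) ∣ z * i + l1)
    (hnA : ¬ ((2 : ℤ) ∣ A ∧ (2 : ℤ) ∣ a ∧ (2 : ℤ) ∣ a1 ∧ ¬ (2 : ℤ) ∣ z)) :
    ∃ T : ℤ, 0 < T ∧ (A + 1) * T * J ≤ 2 * i ∧
      (Int.gcd (a - (A + 1) * T) (a1 + T) : ℤ) = Int.gcd z (Int.gcd a a1 : ℤ) ∧
      SEq6 (PG A a a1 z) (PG (A * (1 + T)) (a - (A + 1) * T) (a1 + T) 0) := by
  have hJ := hB.J20
  have hp0 := hB.pows 0
  have hp1 := hB.pows 1
  have hp2 := hB.pows 2
  norm_num at hp0 hp1 hp2
  have hN1 := hB.N1
  obtain ⟨lam, hlam⟩ : ∃ lam : ℤ, lam = |l1| := ⟨_, rfl⟩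
  have hlam0 : 0 < lam := by rw [hlam]; exact abs_pos.2 hl0
  obtain ⟨ε, hε, hl⟩ : ∃ ε : ℤ, ε * ε = 1 ∧ l1 = ε * lam := by
    rcases abs_cases l1 with ⟨h1, h2⟩ | ⟨h1, h2⟩
    · exact ⟨1, by norm_num, by rw [hlam, h1]; ring⟩
    · exact ⟨-1, by norm_num, by rw [hlam, h1]; ring⟩
  rw [← hlam] at hroom
  have hi0 : 0 < i := lt_of_lt_of_le (by positivity) hroom
  have ha : 0 < a := by linarith
  -- the gcds
  obtain ⟨h, hh⟩ : ∃ h : ℤ, h = (Int.gcd z (Int.gcd a a1 : ℤ) : ℤ) := ⟨_, rfl⟩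
  have hg0 : (Int.gcd a a1 : ℤ) ≠ 0 := by
    have := Int.gcd_pos_of_ne_zero_left a1 (by omega : a ≠ 0)
    omega
  have hh0 : 0 < h := by
    rw [hh]
    have := Int.gcd_pos_of_ne_zero_right z hg0
    omega
  have hhg : h ∣ (Int.gcd a a1 : ℤ) := by rw [hh]; exact Int.gcd_dvd_right z _
  have hhz : h ∣ z := by rw [hh]; exact Int.gcd_dvd_left z _
  obtain ⟨α, hα⟩ : h ∣ a := hhg.trans (Int.gcd_dvd_left a a1)
  obtain ⟨β, hβ⟩ : h ∣ a1 := hhg.trans (Int.gcd_dvd_right a a1)
  obtain ⟨σ, hσ⟩ : h ∣ l1 := by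
    have := dvd_sub (hhg.trans hz) (hhz.mul_right i)
    rwa [add_sub_cancel_left] at this
  obtain ⟨s, hs⟩ : ∃ s : ℤ, s = ε * σ := ⟨_, rfl⟩
  have hls : lam = h * s := by
    rw [hs]
    have : lam = ε * l1 := by rw [hl]; linear_combination (-lam) * hε
    rw [this, hσ]; ring
  have hα0 : 0 < α := by
    by_contra h1
    push Not at h1
    have : h * α ≤ 0 := mul_nonpos_of_nonneg_of_nonpos hh0.le h1
    linarith
  have hβ0 : 0 < β := by
    by_contra h1
    push Not at h1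
    have : h * β ≤ 0 := mul_nonpos_of_nonneg_of_nonpos hh0.le h1
    linarith
  have hαN : α ≤ a := by rw [hα]; nlinarith
  have hβN : β ≤ a1 := by rw [hβ]; nlinarith
  have hps : ∀ p : ℕ, p.Prime → (p : ℤ) ∣ α → (p : ℤ) ∣ β → ¬ (p : ℤ) ∣ s := by
    intro p hp h1 h2 h3
    have hp' := Nat.prime_iff_prime_int.1 hp
    rw [hs] at h3
    rcases hp'.dvd_or_dvd h3 with h4 | h4
    · exact prime_not_dvd_one hp (h4.trans ⟨ε, hε.symm⟩)
    · exact gcd3_prime hh hh0 hα hβ hσ cia hz hp h1 h2 h4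
  have hR : 0 < α + (A + 1) * β := by positivity
  -- the sieve
  obtain ⟨k, k1, k2, k3⟩ := sieveP (k := 3) (e := 2) hB.cap
    (D0 := (A + i + 1) * (a1 - 1) * (a - i) * (α + (A + 1) * β)) (by
      have : 0 < a1 - 1 := by linarith
      have : 0 < a - i := by linarith
      positivity) (by
      refine hB.le (n := 1 + 1 + 1 + 2) (by norm_num) (mul_le_pow2 hR (mul_le_pow2
        (by linarith) (mul_le_pow2 (by linarith) ?_ ?_ (by linarith)) ?_ (by linarith)) ?_
        (by linarith))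
      · rw [pow_one]; linarith
      · rw [pow_one]; linarith
      · rw [pow_one]; linarith
      · have e1 : A + 1 ≤ N := by linarith
        have e2 : β ≤ N := by linarith
        have h1 : (A + 1) * β ≤ N * N := mul_le_mul e1 e2 hβ0.le (by linarith only [hN1])
        have e3 : α ≤ N := by linarith
        nlinarith only [h1, e3, hN1]) (by norm_num)
    ![fun p => p ∣ (A + i + 1) * (a1 - 1), fun p => p ∣ a - i, fun p => p ∣ α + (A + 1) * β]
    ![lam, (A + 1) * lam, s] ![1, -i, β]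
    (by
      intro p _ j hj
      fin_cases j
      · have h1 : (p : ℤ) ∣ (A + i + 1) * (a1 - 1) := hj
        exact (h1.mul_right _).mul_right _
      · have h1 : (p : ℤ) ∣ a - i := hj
        exact (h1.mul_left _).mul_right _
      · exact Dvd.dvd.mul_left hj _)
    (by
      intro p hp
      have hp' := Nat.prime_iff_prime_int.1 hp
      have hpai : (p : ℤ) ∣ a - i → ¬ (p : ℤ) ∣ i := fun h1 h2 => by
        have h3 := dvd_add h1 h2
        rw [sub_add_cancel] at h3
        exact not_dvd_of_isCoprime cia hp h3 h2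
      by_cases hb : (p : ℤ) ∣ β ∧ (p : ℤ) ∣ α
      · obtain ⟨hb, hbα⟩ := hb
        have hs' := hps p hp hbα hb
        have hpa : (p : ℤ) ∣ a := by rw [hα]; exact hbα.mul_left _
        have hpa1 : (p : ℤ) ∣ a1 := by rw [hβ]; exact hb.mul_left _
        have hpi : ¬ (p : ℤ) ∣ i := not_dvd_of_isCoprime cia hp hpa
        have n2 : ¬ (p : ℤ) ∣ a - i := fun h1 => by
          have := dvd_sub hpa h1
          rw [sub_sub_cancel] at this
          exact hpi this
        have n1 : ¬ (p : ℤ) ∣ a1 - 1 := fun h1 => by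
          have := dvd_sub hpa1 h1
          rw [sub_sub_cancel] at this
          exact prime_not_dvd_one hp this
        have key : ∃ y : ℤ, ¬ (p : ℤ) ∣ y ∧ ((p : ℤ) ∣ A + i + 1 → ¬ (p : ℤ) ∣ lam * y + 1) := by
          rcases two_or_odd hp with rfl | ⟨hp2, hp2'⟩
          · push_cast at *
            refine ⟨1, by norm_num, fun h1 h2 => ?_⟩
            apply hnA
            refine ⟨by omega, hpa, hpa1, fun h3 => ?_⟩
            have h4 : (2 : ℤ) ∣ (Int.gcd a a1 : ℤ) := Int.dvd_coe_gcd hpa hpa1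
            have h5 := h4.trans hz
            have h6 : (2 : ℤ) ∣ l1 := by
              have := dvd_sub h5 (h3.mul_right i)
              rwa [add_sub_cancel_left] at this
            have h7 : (2 : ℤ) ∣ lam := by rw [hlam]; exact (dvd_abs _ _).2 h6
            omega
          · by_cases hl' : (p : ℤ) ∣ lam
            · refine ⟨1, prime_not_dvd_one hp, fun _ h1 => ?_⟩
              have := dvd_sub h1 (hl'.mul_right 1)
              rw [add_sub_cancel_left] at this
              exact prime_not_dvd_one hp this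
            · -- the inverse of `lam`
              obtain ⟨x, y, hxy⟩ : IsCoprime lam (p : ℤ) :=
                ((Prime.coprime_iff_not_dvd hp').2 hl').symm
              obtain ⟨w, w1, w2⟩ := avoid2 hp hp2 0 (-x)
              refine ⟨w, fun h1 => w1 (by rwa [sub_zero]), fun _ h1 => w2 ?_⟩
              have h2 : w - -x = x * (lam * w + 1) + p * (y * w) := by
                linear_combination (-w) * hxy
              rw [h2]
              exact dvd_add (h1.mul_left _) (dvd_mul_right _ _)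
        obtain ⟨y, y1, y2⟩ := key
        refine ⟨y, fun j hj => ?_⟩
        fin_cases j
        · have h1 : (p : ℤ) ∣ (A + i + 1) * (a1 - 1) := hj
          exact y2 ((hp'.dvd_or_dvd h1).resolve_right n1)
        · exact (n2 hj).elim
        · intro h1
          have h2 : (p : ℤ) ∣ s * y + β := h1
          have h3 : (p : ℤ) ∣ s * y := by
            have := dvd_sub h2 hb
            rwa [add_sub_cancel_right] at this
          rcases hp'.dvd_or_dvd h3 with h4 | h4
          · exact hs' h4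
          · exact y1 h4
      · refine ⟨0, fun j hj => ?_⟩
        fin_cases j
        · intro h1
          have h2 : (p : ℤ) ∣ lam * 0 + 1 := h1
          rw [mul_zero, zero_add] at h2
          exact prime_not_dvd_one hp h2
        · intro h1
          have h2 : (p : ℤ) ∣ (A + 1) * lam * 0 + -i := h1
          rw [mul_zero, zero_add, dvd_neg] at h2
          exact hpai hj h2
        · intro h1
          have h2 : (p : ℤ) ∣ s * 0 + β := h1
          rw [mul_zero, zero_add] at h2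
          have h3 : (p : ℤ) ∣ α + (A + 1) * β := hj
          have h4 : (p : ℤ) ∣ α := by
            have := dvd_sub h3 (h2.mul_left (A + 1))
            rwa [add_sub_cancel_right] at this
          exact hb ⟨h2, h4⟩) 1
  have q0 : ∀ p : ℕ, p.Prime → (p : ℤ) ∣ (A + i + 1) * (a1 - 1) →
      ¬ (p : ℤ) ∣ 1 + k * lam := fun p hp hd h1 =>
    k3 p hp 0 hd (by
      show (p : ℤ) ∣ lam * k + 1
      rw [show lam * k + 1 = 1 + k * lam by ring]; exact h1)
  have q1 : ∀ p : ℕ, p.Prime → (p : ℤ) ∣ a - i → ¬ (p : ℤ) ∣ i - (A + 1) * (k * lam) :=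
    fun p hp hd h1 => k3 p hp 1 hd (by
      show (p : ℤ) ∣ (A + 1) * lam * k + -i
      rw [show (A + 1) * lam * k + -i = -(i - (A + 1) * (k * lam)) by ring]
      exact (dvd_neg).2 h1)
  have q2 : ∀ p : ℕ, p.Prime → (p : ℤ) ∣ α + (A + 1) * β → ¬ (p : ℤ) ∣ β + k * s :=
    fun p hp hd h1 => k3 p hp 2 hd (by
      show (p : ℤ) ∣ s * k + β
      rw [show s * k + β = β + k * s by ring]; exact h1)
  obtain ⟨T, hT⟩ : ∃ T : ℤ, T = k * lam := ⟨_, rfl⟩
  rw [← hT] at q0 q1
  have hT0 : 0 < T := by rw [hT]; positivity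
  have hk2 : k ≤ 2 * (J : ℤ) ^ 2 := by nlinarith
  have hTJ : (A + 1) * T * J ≤ 2 * i := by
    have h1 : (A + 1) * T * J = ((A + 1) * lam * J) * k := by rw [hT]; ring
    have h2 : ((A + 1) * lam * J) * k ≤ ((A + 1) * lam * J) * (2 * (J : ℤ) ^ 2) :=
      mul_le_mul_of_nonneg_left hk2 (by positivity)
    have h3 : ((A + 1) * lam * J) * (2 * (J : ℤ) ^ 2) = 2 * ((A + 1) * lam * (J : ℤ) ^ 3) := by
      ring
    linarith
  have hTi : (A + 1) * T < i := by
    have h1 : 0 < (A + 1) * T := by positivity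
    nlinarith
  have hlg : (Int.gcd (a - (A + 1) * T) (a1 + T) : ℤ) = h := by
    have e1 : a - (A + 1) * T = h * (α - (A + 1) * (k * s)) := by
      rw [hT, hls]; linear_combination hα
    have e2 : a1 + T = h * (β + k * s) := by rw [hT, hls]; linear_combination hβ
    have h1 : IsCoprime (α - (A + 1) * (k * s)) (β + k * s) := by
      refine isCoprime_of_prime fun p hp h2 h1 => q2 p hp ?_ h2
      have : α + (A + 1) * β = (α - (A + 1) * (k * s)) + (A + 1) * (β + k * s) := by ring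
      rw [this]
      exact dvd_add h1 (h2.mul_left _)
    rw [e1, e2, Int.gcd_mul_left, Int.isCoprime_iff_gcd_eq_one.1 h1]
    push_cast
    rw [abs_of_pos hh0, mul_one]
  refine ⟨T, hT0, hTJ, by rw [hlg, hh], ?_⟩
  have hεk : ε * k * l1 = T := by rw [hl, hT]; linear_combination (k * lam) * hε
  have c1 : IsCoprime (1 + T) (A + i + 1) :=
    isCoprime_of_prime fun p hp h2 h1 => q0 p hp (h2.mul_right _) h1
  have c2 : IsCoprime (1 + T) (ε * k) := ⟨1, -l1, by linear_combination hεk.symm⟩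
  have c3 : IsCoprime (1 + T) (a1 + T) := by
    refine isCoprime_of_prime fun p hp h2 h1 => q0 p hp ?_ h1
    have := dvd_sub h2 h1
    rw [show a1 + T - (1 + T) = a1 - 1 by ring] at this
    exact this.mul_left _
  have c4 : IsCoprime (i - (A + 1) * T) (a - (A + 1) * T) := by
    refine isCoprime_of_prime fun p hp h2 h1 => q1 p hp ?_ h1
    have := dvd_sub h2 h1
    rwa [show a - (A + 1) * T - (i - (A + 1) * T) = a - i by ring] at this
  refine edge (ν := 0) (l1 := l1) (m1 := 0) (i := i) (j := 1) (k := ε * k) (W := A + i + 1)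
    (κ := 1 + T) (i' := i - (A + 1) * T) (j' := 1 + T) (by ring) ?_ (by ring) ?_ (by ring)
    (by ring) (by ring) hA hi0 hia (by norm_num) ha1 (by positivity) (by linarith)
    (by linarith) cl isCoprime_one_right cia isCoprime_one_left (c2.mul_right c1) c4 c3 ?_ ?_
  · linear_combination hεk.symm
  · linear_combination (-(A + i + 1)) * hεk.symm
  · have e : z * (i * 1) + (l1 * 1 - i * 0) = z * i + l1 := by ring
    rw [e]; exact hz
  · rw [hlg]
    have e : (0 : ℤ) * ((i - (A + 1) * T) * (1 + T)) + (l1 * 1 - i * 0) = l1 := by ring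
    rw [e, hσ]
    exact dvd_mul_right _ _

end Pool.Agent.H4G.Six
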