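import Pool.Agent.H4G.Six.Can.C11Pair
import Pool.Agent.H4G.Six.Can.C11Big

/-!
# C11: `A` large, all cases (helper35)
-/

set_option autoImplicit false

namespace Pool.Agent.H4G.Six

open Pool.Agent.H4G

variable {N : ℤ} {J Z : ℕ}

/-- the sieve on a row of `{(j, δ) : z i j = δ mod g}` -/
theorem rowSieve (hB : Bg N J Z) {a1 g i x j1 δ1 r ε : ℤ} (ha1 : 0 < a1) (a1N : a1 ≤ N)
    (i0 : 0 < i) (iN : i ≤ N) (hio : ¬ (2 : ℤ) ∣ i) (hjx : IsCoprime j1 x)
    (hrel : x * δ1 = ε * g + i * r * j1) (hε : ε = 1 ∨ ε = -1) (t0 : ℤ) :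
    ∃ t : ℤ, t0 ≤ t ∧ t < t0 + 2 * J ∧ IsCoprime (j1 + x * t) a1 ∧ IsCoprime (j1 + x * t) i ∧
      (¬ (2 : ℤ) ∣ a1 → ¬ (2 : ℤ) ∣ g → (2 : ℤ) ∣ δ1 + i * r * t ∨ (2 : ℤ) ∣ j1 + x * t) := by
  have hN1 := hB.N1
  have hjx2 : (2 : ℤ) ∣ x → ¬ (2 : ℤ) ∣ j1 := fun h1 h2 =>
    not_dvd_of_isCoprime hjx Nat.prime_two (by exact_mod_cast h1) (by exact_mod_cast h2)
  -- the class modulo 2
  obtain ⟨c, hc1, hc2⟩ : ∃ c : ℤ, ((2 : ℤ) ∣ a1 → ¬ (2 : ℤ) ∣ j1 + x * c) ∧
      (¬ (2 : ℤ) ∣ a1 → ¬ (2 : ℤ) ∣ g → (2 : ℤ) ∣ δ1 + i * r * c ∨ (2 : ℤ) ∣ j1 + x * c) := by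
    by_cases h2 : (2 : ℤ) ∣ a1
    · refine ⟨1 + j1, fun _ h => ?_, fun h => absurd h2 h⟩
      by_cases hx : (2 : ℤ) ∣ x
      · apply hjx2 hx
        have := dvd_sub h (hx.mul_right (1 + j1))
        rwa [add_sub_cancel_right] at this
      · obtain ⟨w, hw⟩ : ∃ w, x = 2 * w + 1 := ⟨x / 2, by omega⟩
        obtain ⟨v, hv⟩ := h
        rw [hw] at hv
        have : 2 * (v - w * (1 + j1) - j1) = 1 := by linear_combination -hv
        omega
    · by_cases hx : (2 : ℤ) ∣ x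
      · refine ⟨δ1, fun h => absurd h h2, fun _ hg => Or.inl ?_⟩
        have h3 : ¬ (2 : ℤ) ∣ i * r := by
          intro h4
          apply hg
          have h5 : (2 : ℤ) ∣ ε * g := by
            have h6 : ε * g = x * δ1 - i * r * j1 := by linarith
            rw [h6]
            exact dvd_sub (hx.mul_right _) (h4.mul_right _)
          rcases hε with h7 | h7
          · rw [h7, one_mul] at h5; exact h5
          · rw [h7] at h5
            have h8 : (2 : ℤ) ∣ -g := by rwa [neg_one_mul] at h5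
            exact (dvd_neg).1 h8
        have h4 : (2 : ℤ) ∣ 1 + i * r := by omega
        have e : δ1 + i * r * δ1 = (1 + i * r) * δ1 := by ring
        rw [e]; exact h4.mul_right _
      · refine ⟨j1, fun h => absurd h h2, fun _ _ => Or.inr ?_⟩
        have h4 : (2 : ℤ) ∣ 1 + x := by omega
        have e : j1 + x * j1 = (1 + x) * j1 := by ring
        rw [e]; exact h4.mul_right _
  obtain ⟨t, t1, t2, t3, t4⟩ := sieveQ (k := 1) (e := 1) hB.cap (D0 := a1 * i)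
    (by positivity) (hB.le (n := 1 + 1) (by norm_num) (mul_le_pow2 i0
      (by rw [pow_one]; linarith) (by rw [pow_one]; linarith) (by linarith))) (by norm_num)
    ![fun p => p ∣ a1 * i] ![x] ![j1] (m := 2) (by norm_num) c
    (by
      intro p _ s hs
      fin_cases s
      exact hs)
    (by
      intro p hp hp2
      have hp' := Nat.prime_iff_prime_int.1 hp
      by_cases hx : (p : ℤ) ∣ x
      · refine ⟨0, fun s _ => ?_⟩
        fin_cases s
        intro h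
        have h1 : (p : ℤ) ∣ x * 0 + j1 := h
        rw [mul_zero, zero_add] at h1
        exact not_dvd_of_isCoprime hjx hp hx h1
      · by_cases hj : (p : ℤ) ∣ j1
        · refine ⟨1, fun s _ => ?_⟩
          fin_cases s
          intro h
          have h1 : (p : ℤ) ∣ x * 1 + j1 := h
          have h2 := dvd_sub h1 hj
          rw [add_sub_cancel_right, mul_one] at h2
          exact hx h2
        · refine ⟨0, fun s _ => ?_⟩
          fin_cases s
          intro h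
          have h1 : (p : ℤ) ∣ x * 0 + j1 := h
          rw [mul_zero, zero_add] at h1
          exact hj h1)
    (by
      intro p hp hpm s hs
      fin_cases s
      intro h
      have hpe : p = 2 := by
        have : p ∣ 2 := by exact_mod_cast hpm
        exact (Nat.prime_dvd_prime_iff_eq hp Nat.prime_two).1 this
      subst hpe
      have h1 : (2 : ℤ) ∣ x * c + j1 := h
      have h2 : (2 : ℤ) ∣ a1 * i := hs
      have h3 : (2 : ℤ) ∣ a1 := (Int.prime_two.dvd_or_dvd h2).resolve_right hio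
      exact hc1 h3 (by rwa [add_comm] at h1)) t0
  rw [pow_one] at t2
  have q0 : ∀ p : ℕ, p.Prime → (p : ℤ) ∣ a1 * i → ¬ (p : ℤ) ∣ j1 + x * t := fun p hp hd h =>
    t4 p hp 0 hd (by
      show (p : ℤ) ∣ x * t + j1
      rw [add_comm]; exact h)
  refine ⟨t, t1, t2, isCoprime_of_prime fun p hp h1 h2 => q0 p hp (h1.mul_right _) h2,
    isCoprime_of_prime fun p hp h1 h2 => q0 p hp (h1.mul_left _) h2, fun h1 h2 => ?_⟩
  obtain ⟨w, hw⟩ := t3
  have ht : t = c + 2 * w := by linarith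
  rcases hc2 h1 h2 with h3 | h3
  · left
    have e : δ1 + i * r * t = (δ1 + i * r * c) + 2 * (i * r * w) := by rw [ht]; ring
    rw [e]; exact dvd_add h3 (dvd_mul_right _ _)
  · right
    have e : j1 + x * t = (j1 + x * c) + 2 * (x * w) := by rw [ht]; ring
    rw [e]; exact dvd_add h3 (dvd_mul_right _ _)

/-- the coprimality of `δ` on a row -/
theorem row_cop {a a1 g i j x δ r ε : ℤ} (hga : g ∣ a) (hga1 : g ∣ a1)
    (hrel : x * δ = ε * g + i * r * j) (hε : ε = 1 ∨ ε = -1) (cia : IsCoprime i a)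
    (cja : IsCoprime j a1) : IsCoprime δ i ∧ IsCoprime δ j := by
  have hg : ∀ p : ℕ, p.Prime → (p : ℤ) ∣ δ → (p : ℤ) ∣ i * r * j → (p : ℤ) ∣ g := by
    intro p hp h1 h2
    have h3 : (p : ℤ) ∣ ε * g := by
      have h4 : ε * g = x * δ - i * r * j := by linarith
      rw [h4]; exact dvd_sub (h1.mul_left _) h2
    rcases hε with h5 | h5
    · rwa [h5, one_mul] at h3
    · rw [h5, neg_one_mul] at h3; exact (dvd_neg).1 h3
  refine ⟨isCoprime_of_prime fun p hp h1 h2 => ?_, isCoprime_of_prime fun p hp h1 h2 => ?_⟩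
  · have h3 := hg p hp h2 ((h1.mul_right _).mul_right _)
    exact not_dvd_of_isCoprime cia hp (h3.trans hga) h1
  · have h3 := hg p hp h2 (h1.mul_left _)
    exact not_dvd_of_isCoprime cja hp (h3.trans hga1) h1

/-- powers of `J` -/
theorem Bg.pmono (hB : Bg N J Z) {m n : ℕ} (h : m ≤ n) : (J : ℤ) ^ m ≤ (J : ℤ) ^ n :=
  pow_le_pow_right₀ hB.J1 h

theorem Bg.ppos (hB : Bg N J Z) (n : ℕ) : 0 < (J : ℤ) ^ n :=
  pow_pos (lt_of_lt_of_le one_pos hB.J1) n

/-- a short vector `(x, r)` with `x` not tiny: `i = 1` -/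
theorem l2a (hB : Bg N J Z) {A a a1 z g X x r n0 : ℤ} (hA : 0 < A) (hN : A + a + a1 = N)
    (hg : g = (Int.gcd a a1 : ℤ)) (hgJ : (J : ℤ) ^ 150 ≤ g) (hXg : X < g)
    (hX2 : g ≤ X * (J : ℤ) ^ 31) (hAX : X * (J : ℤ) ^ 5 ≤ A) (hag : g ≤ a) (hag1 : g ≤ a1)
    (ha130 : a1 ≤ g * (J : ℤ) ^ 30) (hX0 : 0 < X)
    (hxX : x * (J : ℤ) ^ 2 ≤ X) (hr0 : 0 ≤ r) (hr33 : r ≤ (J : ℤ) ^ 33)
    (hzx : z * x = g * n0 + r) (hnx : IsCoprime n0 x) (hx34 : (J : ℤ) ^ 34 ≤ x) :
    ToE N (PG A a a1 z) := by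
  have hN1 := hB.N1
  have hJ := hB.J20
  have hg0 : 0 < g := lt_of_lt_of_le (hB.ppos 150) hgJ
  have hx0 : 0 < x := lt_of_lt_of_le (hB.ppos 34) hx34
  obtain ⟨u, v, huv⟩ := hnx
  -- sizes
  have hX119 : (J : ℤ) ^ 119 ≤ X := by
    have h1 : (J : ℤ) ^ 119 * (J : ℤ) ^ 31 ≤ X * (J : ℤ) ^ 31 := by
      rw [← pow_add]; exact hgJ.trans hX2
    exact le_of_mul_le_mul_right h1 (hB.ppos 31)
  have hX30 : 2 * (J : ℤ) ^ 30 ≤ X := by
    have h1 := hB.pows 30
    have h2 := hB.pmono (m := 30 + 1) (n := 119) (by norm_num)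
    have h3 := hB.ppos 30
    linarith
  have h4r : 4 * r ≤ x := by
    have h1 := hB.pows 33
    norm_num at h1
    have h3 := hB.ppos 33
    linarith
  have h4g : 8 * g ≤ x * X := by
    have h1 := hB.pows 31
    have h2 := hB.pmono (m := 31 + 1) (n := 34) (by norm_num)
    have h3 := hB.ppos 31
    have h4 : 8 * (J : ℤ) ^ 31 ≤ x := by linarith
    have h5 := mul_le_mul_of_nonneg_left h4 hX0.le
    linarith
  have hJx : 4 * (J * x) ≤ X := by
    have h1 : (J : ℤ) ^ 2 = J * J := by ring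
    have h2 : 4 * (J * x) ≤ J * (J * x) := by
      have : 0 < J * x := by positivity
      nlinarith
    rw [h1] at hxX
    linarith
  obtain ⟨H, hH⟩ : ∃ H : ℤ, H = X / 2 := ⟨_, rfl⟩
  obtain ⟨t, t1, t2, t3, t4, t5⟩ := rowSieve hB (a1 := a1) (g := g) (i := 1) (x := x) (j1 := u)
    (δ1 := z * u + g * v) (r := r) (ε := 1) (by linarith) (by linarith) one_pos hN1 (by norm_num)
    ⟨n0, v, by linear_combination huv⟩
    (by linear_combination u * hzx + g * huv) (Or.inl rfl) ((H - u) / x + 1)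
  have e1 : (H - u) / x * x ≤ H - u := Int.ediv_mul_le _ hx0.ne'
  have e2 : H - u < ((H - u) / x + 1) * x := Int.lt_ediv_add_one_mul_self _ hx0
  obtain ⟨q, hq⟩ : ∃ q : ℤ, q = (H - u) / x := ⟨_, rfl⟩
  rw [← hq] at e1 e2 t1 t2
  obtain ⟨j, hj⟩ : ∃ j : ℤ, j = u + x * t := ⟨_, rfl⟩
  obtain ⟨δ, hδ⟩ : ∃ δ : ℤ, δ = z * u + g * v + 1 * r * t := ⟨_, rfl⟩
  rw [← hj] at t3 t4 t5
  rw [← hδ] at t5
  have hrel : x * δ = 1 * g + 1 * r * j := by
    rw [hδ, hj]; linear_combination u * hzx + g * huv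
  have hjH : H < j := by
    have h1 : (q + 1) * x ≤ t * x := mul_le_mul_of_nonneg_right t1 hx0.le
    rw [hj]; linarith
  have hjX2 : X < 2 * j := by omega
  have hj0 : 0 < j := by linarith
  have hjX : j ≤ X := by
    have h1 : t ≤ q + 2 * J := by linarith
    have h2 : t * x ≤ (q + 2 * J) * x := mul_le_mul_of_nonneg_right h1 hx0.le
    have h3 : (q + 2 * J) * x = q * x + 2 * (J * x) := by ring
    have h4 : 2 * H ≤ X := by omega
    rw [hj]; linarith
  have hrj : 0 ≤ r * j := by positivity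
  have hδ0 : 0 < δ := by
    have h1 : 0 < x * δ := by rw [hrel]; linarith
    exact (mul_pos_iff_of_pos_left hx0).1 h1
  have hδj : 2 * δ ≤ j := by
    have h1 : x * (2 * δ) ≤ x * j := by
      have h2 : x * (2 * δ) = 2 * g + 2 * (r * j) := by
        have : x * (2 * δ) = 2 * (x * δ) := by ring
        rw [this, hrel]; ring
      have h3 : (4 * r) * j ≤ x * j := mul_le_mul_of_nonneg_right h4r hj0.le
      have h4 : x * X ≤ x * (2 * j) := mul_le_mul_of_nonneg_left hjX2.le hx0.le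
      linarith
    exact le_of_mul_le_mul_left h1 hx0
  obtain ⟨c1, c2⟩ := row_cop (a := a) (a1 := a1) (g := g) (i := 1) (j := j) (x := x) (δ := δ)
    (r := r) (ε := 1) (by rw [hg]; exact Int.gcd_dvd_left a a1)
    (by rw [hg]; exact Int.gcd_dvd_right a a1) hrel (Or.inl rfl) isCoprime_one_left t3
  refine pairEnd hB (i := 1) (j := j) (δ := δ) (X := X) hA hN one_pos (by linarith) hj0 hjX
    (by linarith) (by linarith) hδ0 hδj isCoprime_one_left t3 isCoprime_one_left c1 c2 ?_ ?_ hAX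
    ?_
  · rw [← hg]
    refine ⟨n0 * t - v, ?_⟩
    rw [hδ, hj]
    linear_combination t * hzx
  · have h1 : (J : ℤ) ^ 30 ≤ j := by linarith
    have h2 : g * (J : ℤ) ^ 30 ≤ a * j := mul_le_mul hag h1 (hB.ppos 30).le (by linarith)
    linarith
  · intro _ h2 h3
    rcases t5 h3 (fun h4 => h2 (h4.trans (by rw [hg]; exact Int.gcd_dvd_left a a1))) with h4 | h4
    · exact Or.inl h4
    · exact Or.inr (Or.inr h4)

/-- a short vector `(x, r)` with `x` tiny: `i ~ J ^ 38` -/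
theorem l2b (hB : Bg N J Z) {A a a1 z g X x r n0 : ℤ} (hA : 0 < A) (hN : A + a + a1 = N)
    (hg : g = (Int.gcd a a1 : ℤ)) (hgJ : (J : ℤ) ^ 150 ≤ g) (hXg : X < g)
    (hX2 : g ≤ X * (J : ℤ) ^ 31) (hAX : X * (J : ℤ) ^ 5 ≤ A) (hag : g ≤ a) (hag1 : g ≤ a1)
    (ha130 : a1 ≤ g * (J : ℤ) ^ 30) (hX0 : 0 < X) (hx0 : 0 < x)
    (hr0 : 0 < r) (hr33 : r ≤ (J : ℤ) ^ 33)
    (hzx : z * x = g * n0 + r) (hnx : IsCoprime n0 x) (hx34 : x < (J : ℤ) ^ 34) :
    ToE N (PG A a a1 z) := by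
  have hN1 := hB.N1
  have hJ := hB.J20
  have hg0 : 0 < g := lt_of_lt_of_le (hB.ppos 150) hgJ
  -- sizes
  have hX119 : (J : ℤ) ^ 119 ≤ X := by
    have h1 : (J : ℤ) ^ 119 * (J : ℤ) ^ 31 ≤ X * (J : ℤ) ^ 31 := by
      rw [← pow_add]; exact hgJ.trans hX2
    exact le_of_mul_le_mul_right h1 (hB.ppos 31)
  have hxX : x ≤ N := by
    have h1 := hB.pmono (m := 34) (n := 119) (by norm_num)
    linarith
  -- the choice of `i`
  obtain ⟨i, i1, i2, i3⟩ := exists_cop hB (D := 2 * (a * x))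
    (by have : 0 < a := by linarith
        positivity) (n := 2) (by norm_num) (by
      have h1 : a * x ≤ N * N := mul_le_mul (by linarith) hxX hx0.le (by linarith)
      have h2 : (2 * N) ^ 2 = 4 * (N * N) := by ring
      have h3 : 0 ≤ N * N := by positivity
      rw [h2]; linarith) ((J : ℤ) ^ 38)
  have hi2 : ¬ (2 : ℤ) ∣ i := by
    have h1 := odd_of_cop i3
    rwa [← Int.not_even_iff_odd, even_iff_two_dvd] at h1
  have cia : IsCoprime i a := i3.of_mul_right_right.of_mul_right_left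
  have cix : IsCoprime i x := i3.of_mul_right_right.of_mul_right_right
  have hi0 : 0 < i := lt_of_lt_of_le (hB.ppos 38) i1
  have hiJ : i ≤ 2 * (J : ℤ) ^ 38 := by
    have h1 := hB.pmono (m := 1) (n := 38) (by norm_num)
    rw [pow_one] at h1
    linarith
  obtain ⟨u, v, huv⟩ : IsCoprime (i * n0) x := cix.mul_left hnx
  -- `i r`
  obtain ⟨ρ, hρ⟩ : ∃ ρ : ℤ, ρ = i * r := ⟨_, rfl⟩
  have hρ0 : 0 < ρ := by rw [hρ]; positivity
  have hρ1 : (J : ℤ) ^ 38 ≤ ρ := by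
    rw [hρ]
    have : i * 1 ≤ i * r := mul_le_mul_of_nonneg_left hr0 hi0.le
    linarith
  have hρ2 : ρ ≤ 2 * (J : ℤ) ^ 71 := by
    have h1 : i * r ≤ (2 * (J : ℤ) ^ 38) * (J : ℤ) ^ 33 :=
      mul_le_mul hiJ hr33 hr0.le (by linarith [hB.ppos 38])
    have h2 : (2 * (J : ℤ) ^ 38) * (J : ℤ) ^ 33 = 2 * (J : ℤ) ^ 71 := by ring
    rw [hρ]; linarith
  obtain ⟨G, hG⟩ : ∃ G : ℤ, G = g / ρ := ⟨_, rfl⟩
  have f1 : G * ρ ≤ g := by rw [hG]; exact Int.ediv_mul_le _ hρ0.ne'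
  have f2 : g < (G + 1) * ρ := by rw [hG]; exact Int.lt_ediv_add_one_mul_self _ hρ0
  have hG0 : 0 ≤ G := by rw [hG]; exact Int.ediv_nonneg hg0.le hρ0.le
  have hGbig : (J : ℤ) ^ 78 < G + 1 := by
    by_contra h
    push Not at h
    have h1 : (G + 1) * ρ ≤ (J : ℤ) ^ 78 * (2 * (J : ℤ) ^ 71) :=
      mul_le_mul h hρ2 hρ0.le (hB.ppos 78).le
    have h2 : (J : ℤ) ^ 78 * (2 * (J : ℤ) ^ 71) = 2 * (J : ℤ) ^ 149 := by ring
    have h3 := hB.pows 149
    norm_num at h3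
    linarith [hB.ppos 149]
  have hGX : 4 * G ≤ X := by
    have h1 : G * (J : ℤ) ^ 38 ≤ X * (J : ℤ) ^ 31 :=
      ((mul_le_mul_of_nonneg_left hρ1 hG0).trans f1).trans hX2
    have h2 : (J : ℤ) ^ 38 = (J : ℤ) ^ 7 * (J : ℤ) ^ 31 := by ring
    rw [h2, ← mul_assoc] at h1
    have h3 := le_of_mul_le_mul_right h1 (hB.ppos 31)
    have h4 := hB.pmono (m := 1) (n := 7) (by norm_num)
    rw [pow_one] at h4
    nlinarith
  have hJx : 8 * (J * x) + 4 ≤ X := by
    have h1 : J * x ≤ J * (J : ℤ) ^ 34 := mul_le_mul_of_nonneg_left hx34.le (by linarith)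
    have h2 : J * (J : ℤ) ^ 34 = (J : ℤ) ^ 35 := by ring
    have h3 := hB.pows 35
    have h4 := hB.pmono (m := 35 + 1) (n := 119) (by norm_num)
    have h5 := hB.ppos 35
    linarith
  obtain ⟨t, t1, t2, t3, t4, t5⟩ := rowSieve hB (a1 := a1) (g := g) (i := i) (x := x)
    (j1 := -u) (δ1 := -(z * i * u) - g * v) (r := r) (ε := -1) (by linarith) (by linarith) hi0
    (by
      have h1 := hB.pmono (m := 38) (n := 119) (by norm_num)
      have h2 := hB.pows 38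
      have h3 := hB.pmono (m := 38 + 1) (n := 119) (by norm_num)
      linarith [hB.ppos 38]) hi2
    ⟨-(i * n0), v, by linear_combination huv⟩
    (by linear_combination (-(i * u)) * hzx - g * huv) (Or.inr rfl) ((G + 1 - -u) / x + 1)
  have e1 : (G + 1 - -u) / x * x ≤ G + 1 - -u := Int.ediv_mul_le _ hx0.ne'
  have e2 : G + 1 - -u < ((G + 1 - -u) / x + 1) * x := Int.lt_ediv_add_one_mul_self _ hx0
  obtain ⟨q, hq⟩ : ∃ q : ℤ, q = (G + 1 - -u) / x := ⟨_, rfl⟩
  rw [← hq] at e1 e2 t1 t2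
  obtain ⟨j, hj⟩ : ∃ j : ℤ, j = -u + x * t := ⟨_, rfl⟩
  obtain ⟨δ, hδ⟩ : ∃ δ : ℤ, δ = -(z * i * u) - g * v + i * r * t := ⟨_, rfl⟩
  rw [← hj] at t3 t4 t5
  rw [← hδ] at t5
  have hrel : x * δ = (-1) * g + i * r * j := by
    rw [hδ, hj]; linear_combination (-(i * u)) * hzx - g * huv
  have hjG : G + 1 < j := by
    have h1 : (q + 1) * x ≤ t * x := mul_le_mul_of_nonneg_right t1 hx0.le
    rw [hj]; linarith
  have hj0 : 0 < j := by linarith
  have hj2 : j ≤ G + 1 + 2 * (J * x) := by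
    have h1 : t ≤ q + 2 * J := by linarith
    have h2 : t * x ≤ (q + 2 * J) * x := mul_le_mul_of_nonneg_right h1 hx0.le
    have h3 : (q + 2 * J) * x = q * x + 2 * (J * x) := by ring
    rw [hj]; linarith
  have hjX : j ≤ X := by linarith
  have hρj : i * r * j = ρ * j := by rw [hρ]
  have hδ0 : 0 < δ := by
    have h1 : 0 < x * δ := by
      rw [hrel, hρj]
      have : (G + 1) * ρ ≤ j * ρ := mul_le_mul_of_nonneg_right hjG.le hρ0.le
      linarith
    exact (mul_pos_iff_of_pos_left hx0).1 h1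
  have hδj : 2 * δ ≤ j := by
    have h1 : x * (2 * δ) ≤ x * j := by
      have h2 : x * (2 * δ) = 2 * (ρ * j) - 2 * g := by
        have : x * (2 * δ) = 2 * (x * δ) := by ring
        rw [this, hrel, hρj]; ring
      have h3 : ρ * j ≤ ρ * (G + 1 + 2 * (J * x)) := mul_le_mul_of_nonneg_left hj2 hρ0.le
      have h4 : ρ * (G + 1 + 2 * (J * x)) = G * ρ + ρ * (1 + 2 * (J * x)) := by ring
      have h5 : 1 + 2 * (J * x) ≤ 3 * (J * x) := by
        have : 1 ≤ J * x := by nlinarith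
        linarith
      have h6 : ρ * (1 + 2 * (J * x)) ≤ (2 * (J : ℤ) ^ 71) * (3 * (J * x)) :=
        mul_le_mul hρ2 h5 (by positivity) (by linarith [hB.ppos 71])
      have h7 : 2 * ((2 * (J : ℤ) ^ 71) * (3 * (J * x))) = x * (12 * (J : ℤ) ^ 72) := by ring
      have h8 : 12 * (J : ℤ) ^ 72 ≤ j := by
        have h9 := hB.pows 72
        have h10 := hB.pmono (m := 72 + 1) (n := 78) (by norm_num)
        linarith [hB.ppos 72]
      have h11 : x * (12 * (J : ℤ) ^ 72) ≤ x * j := mul_le_mul_of_nonneg_left h8 hx0.le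
      linarith
    exact le_of_mul_le_mul_left h1 hx0
  obtain ⟨c1, c2⟩ := row_cop (a := a) (a1 := a1) (g := g) (i := i) (j := j) (x := x) (δ := δ)
    (r := r) (ε := -1) (by rw [hg]; exact Int.gcd_dvd_left a a1)
    (by rw [hg]; exact Int.gcd_dvd_right a a1) hrel (Or.inr rfl) cia t3
  have hiX : i ≤ X := by
    have h2 := hB.pows 38
    have h3 := hB.pmono (m := 38 + 1) (n := 119) (by norm_num)
    linarith [hB.ppos 38]
  refine pairEnd hB (i := i) (j := j) (δ := δ) (X := X) hA hN hi0 hiX hj0 hjX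
    (by linarith) (by linarith) hδ0 hδj cia t3 t4.symm c1 c2 ?_ ?_ hAX ?_
  · rw [← hg]
    refine ⟨i * n0 * t + v, ?_⟩
    rw [hδ, hj]
    linear_combination (i * t) * hzx
  · have h1 : i * a1 ≤ (2 * (J : ℤ) ^ 38) * (g * (J : ℤ) ^ 30) :=
      mul_le_mul hiJ ha130 (by linarith) (by linarith [hB.ppos 38])
    have h2 : (2 * (J : ℤ) ^ 38) * (g * (J : ℤ) ^ 30) = 2 * (J : ℤ) ^ 68 * g := by ring
    have h3 : 2 * (J : ℤ) ^ 68 ≤ j := by
      have h9 := hB.pows 68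
      have h10 := hB.pmono (m := 68 + 1) (n := 78) (by norm_num)
      linarith [hB.ppos 68]
    have h4 : 2 * (J : ℤ) ^ 68 * g ≤ j * a := mul_le_mul h3 hag hg0.le hj0.le
    linarith
  · intro _ h2 h3
    rcases t5 h3 (fun h4 => h2 (h4.trans (by rw [hg]; exact Int.gcd_dvd_left a a1))) with h4 | h4
    · exact Or.inl h4
    · exact Or.inr (Or.inr h4)

end Pool.Agent.H4G.Six
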