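import Pool.Agent.H4G.Six.Can.Half
import Pool.Agent.H4G.Six.Can.B1

/-!
# C11: the edge with a free shear of `v`, `A` large (helper35)

`l = (l₁, i)`, `m = (m₁, j)`, `κ` (that is `ν = κ - 1 - l₁ - m₁`) is the variable of the sieve. At
every prime there are at most two different bad classes of `κ`.
-/

set_option autoImplicit false

namespace Pool.Agent.H4G.Six

open Pool.Agent.H4G

variable {N : ℤ} {J Z : ℕ}

/-- two linear conditions modulo an odd prime -/
theorem avoidLin {p : ℕ} (hp : p.Prime) (hp2 : p ≠ 2) {α β α' β' : ℤ} (h : ¬ (p : ℤ) ∣ α)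
    (h' : ¬ (p : ℤ) ∣ α') :
    ∃ y : ℤ, ¬ (p : ℤ) ∣ α * y + β ∧ ¬ (p : ℤ) ∣ α' * y + β' := by
  have hp' := Nat.prime_iff_prime_int.1 hp
  have inv : ∀ α : ℤ, ¬ (p : ℤ) ∣ α → ∃ x w : ℤ, x * α + w * p = 1 := fun α h =>
    ((Prime.coprime_iff_not_dvd hp').2 h).symm
  obtain ⟨x, w, hx⟩ := inv α h
  obtain ⟨x', w', hx'⟩ := inv α' h'
  obtain ⟨y, y1, y2⟩ := avoid2 hp hp2 (-(x * β)) (-(x' * β'))
  refine ⟨y, fun h3 => y1 ?_, fun h3 => y2 ?_⟩
  · have e : y - -(x * β) = x * (α * y + β) + p * (w * y) := by linear_combination (-y) * hx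
    rw [e]; exact dvd_add (h3.mul_left _) (dvd_mul_right _ _)
  · have e : y - -(x' * β') = x' * (α' * y + β') + p * (w' * y) := by
      linear_combination (-y) * hx'
    rw [e]; exact dvd_add (h3.mul_left _) (dvd_mul_right _ _)

/-- **the sieve for `κ`** -/
theorem kapSieve (hB : Bg N J Z) {A a a1 i j l1 m1 W D m r : ℤ} {E : Prop}
    (hW : W = A + i + j) (hD : D = j * a - i * a1 - W * (l1 * j - i * m1))
    (A0 : 0 < A) (i0 : 0 < i) (ia : i < a) (j0 : 0 < j) (ja : j < a1) (hN : A + a + a1 = N)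
    (cia : IsCoprime i a) (cja : IsCoprime j a1) (cij : IsCoprime i j) (hD0 : D ≠ 0)
    (hDZ : |D| ≤ (2 * N) ^ 10) (hm : m = 2 ∨ m = 4)
    (r0 : (2 : ℤ) ∣ W → ¬ (2 : ℤ) ∣ r)
    (r1 : (2 : ℤ) ∣ a - i → ¬ (2 : ℤ) ∣ i * r - W * l1)
    (r2 : (2 : ℤ) ∣ a1 - j → ¬ (2 : ℤ) ∣ j * r - W * m1)
    (r3 : ¬ E → (2 : ℤ) ∣ D → ¬ (2 : ℤ) ∣ i → ¬ (2 : ℤ) ∣ a - i + (i * r - W * l1))
    (r4 : ¬ E → (2 : ℤ) ∣ D → (2 : ℤ) ∣ i → ¬ (2 : ℤ) ∣ a1 - j + (j * r - W * m1)) (x0 : ℤ) :
    ∃ κ : ℤ, x0 ≤ κ ∧ κ < x0 + 4 * (J : ℤ) ^ 3 ∧ m ∣ κ - r ∧ IsCoprime κ W ∧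
      IsCoprime (i * κ - W * l1) (a - i + (i * κ - W * l1)) ∧
      IsCoprime (j * κ - W * m1) (a1 - j + (j * κ - W * m1)) ∧
      ∀ p : ℕ, p.Prime → (¬ (p : ℤ) ∣ 2 ∨ ¬ E) → (p : ℤ) ∣ a - i + (i * κ - W * l1) →
        ¬ (p : ℤ) ∣ a1 - j + (j * κ - W * m1) := by
  have hN1 := hB.N1
  have hJ := hB.J20
  have hW0 : 0 < W := by rw [hW]; linarith
  have hm0 : 0 < m := by rcases hm with h | h <;> rw [h] <;> norm_num
  have hm4 : m ≤ 4 := by rcases hm with h | h <;> rw [h] <;> norm_num
  have habs : 0 < |D| := abs_pos.2 hD0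
  have hD1 : 0 < W * (a - i) * (a1 - j) * |D| := by
    have h1 : 0 < a - i := by linarith
    have h2 : 0 < a1 - j := by linarith
    positivity
  have hsz : W * (a - i) * (a1 - j) * |D| ≤ (Z : ℤ) := by
    refine hB.le (n := 1 + 1 + 1 + 10) (by norm_num) ?_
    refine mul_le_pow2 habs (mul_le_pow2 (by linarith) (mul_le_pow2 (by linarith) ?_ ?_
      (by linarith)) ?_ (by linarith)) hDZ (by linarith)
    · rw [pow_one, hW]; linarith
    · rw [pow_one]; linarith
    · rw [pow_one]; linarith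
  have hia : ∀ p : ℕ, p.Prime → (p : ℤ) ∣ a - i → ¬ (p : ℤ) ∣ i := fun p hp h1 h2 => by
    have h3 := dvd_add h1 h2
    rw [sub_add_cancel] at h3
    exact not_dvd_of_isCoprime cia hp h3 h2
  have hja : ∀ p : ℕ, p.Prime → (p : ℤ) ∣ a1 - j → ¬ (p : ℤ) ∣ j := fun p hp h1 h2 => by
    have h3 := dvd_add h1 h2
    rw [sub_add_cancel] at h3
    exact not_dvd_of_isCoprime cja hp h3 h2
  have hij : ∀ p : ℕ, p.Prime → (p : ℤ) ∣ i → ¬ (p : ℤ) ∣ j := fun p hp h1 h2 =>
    not_dvd_of_isCoprime cij hp h2 h1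
  obtain ⟨κ, k1, k2, k3, k4⟩ := sieveQ (k := 5) (e := 3) hB.cap hD1 hsz (by norm_num)
    ![fun p => p ∣ W, fun p => p ∣ a - i, fun p => p ∣ a1 - j,
      fun p => p ∣ D ∧ ¬ p ∣ i ∧ (¬ p ∣ 2 ∨ ¬ E), fun p => p ∣ D ∧ p ∣ i ∧ (¬ p ∣ 2 ∨ ¬ E)]
    ![1, i, j, i, j] ![0, -(W * l1), -(W * m1), a - i - W * l1, a1 - j - W * m1] hm0 r
    (by
      intro p _ t ht
      fin_cases t
      · have h1 : (p : ℤ) ∣ W := ht
        exact ((h1.mul_right _).mul_right _).mul_right _
      · have h1 : (p : ℤ) ∣ a - i := ht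
        exact ((h1.mul_left _).mul_right _).mul_right _
      · have h1 : (p : ℤ) ∣ a1 - j := ht
        exact (h1.mul_left _).mul_right _
      · exact Dvd.dvd.mul_left ((dvd_abs _ _).2 ht.1) _
      · exact Dvd.dvd.mul_left ((dvd_abs _ _).2 ht.1) _)
    (by
      intro p hp hpm
      have hp' := Nat.prime_iff_prime_int.1 hp
      have hp2 : p ≠ 2 := by
        rintro rfl
        rcases hm with h | h
        · exact hpm (by rw [h]; norm_num)
        · exact hpm (by rw [h]; norm_num)
      -- it is enough to avoid the active classes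
      have key : ∃ y : ℤ, ((p : ℤ) ∣ W → ¬ (p : ℤ) ∣ y) ∧
          ((p : ℤ) ∣ a - i → ¬ (p : ℤ) ∣ i * y - W * l1) ∧
          ((p : ℤ) ∣ a1 - j → ¬ (p : ℤ) ∣ j * y - W * m1) ∧
          ((p : ℤ) ∣ D → ¬ (p : ℤ) ∣ i → ¬ (p : ℤ) ∣ i * y + (a - i - W * l1)) ∧
          ((p : ℤ) ∣ D → (p : ℤ) ∣ i → ¬ (p : ℤ) ∣ j * y + (a1 - j - W * m1)) := by
        by_cases hpW : (p : ℤ) ∣ W
        · have one : ¬ (p : ℤ) ∣ (1 : ℤ) := prime_not_dvd_one hp
          obtain ⟨y, y1, y3, y4⟩ : ∃ y : ℤ, ¬ (p : ℤ) ∣ y ∧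
              (¬ (p : ℤ) ∣ i → ¬ (p : ℤ) ∣ i * y + (a - i - W * l1)) ∧
              ((p : ℤ) ∣ i → ¬ (p : ℤ) ∣ j * y + (a1 - j - W * m1)) := by
            by_cases hpi : (p : ℤ) ∣ i
            · obtain ⟨y, y1, y2⟩ := avoidLin (β := 0) (β' := a1 - j - W * m1) hp hp2 one
                (hij p hp hpi)
              exact ⟨y, by simpa using y1, fun h => absurd hpi h, fun _ => y2⟩
            · obtain ⟨y, y1, y2⟩ := avoidLin (β := 0) (β' := a - i - W * l1) hp hp2 one hpi
              exact ⟨y, by simpa using y1, fun _ => y2, fun h => absurd h hpi⟩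
          refine ⟨y, fun _ => y1, fun h h1 => ?_, fun h h1 => ?_, fun _ => y3, fun _ => y4⟩
          · have h2 : (p : ℤ) ∣ i * y := by
              have := dvd_add h1 (hpW.mul_right l1)
              rwa [sub_add_cancel] at this
            rcases hp'.dvd_or_dvd h2 with h3 | h3
            · exact hia p hp h h3
            · exact y1 h3
          · have h2 : (p : ℤ) ∣ j * y := by
              have := dvd_add h1 (hpW.mul_right m1)
              rwa [sub_add_cancel] at this
            rcases hp'.dvd_or_dvd h2 with h3 | h3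
            · exact hja p hp h h3
            · exact y1 h3
        · by_cases hpi : (p : ℤ) ∣ a - i
          · have ni := hia p hp hpi
            by_cases hpj : (p : ℤ) ∣ a1 - j
            · have nj := hja p hp hpj
              obtain ⟨y, y1, y2⟩ := avoidLin (β := -(W * l1)) (β' := -(W * m1)) hp hp2 ni nj
              refine ⟨y, fun h => absurd h hpW, fun _ => by rwa [← sub_eq_add_neg] at y1,
                fun _ => by rwa [← sub_eq_add_neg] at y2, fun _ _ h => ?_,
                fun _ h => absurd h ni⟩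
              apply y1
              have := dvd_sub h hpi
              rwa [show i * y + (a - i - W * l1) - (a - i) = i * y + -(W * l1) by ring] at this
            · obtain ⟨y, y1, -⟩ := avoidLin (β := -(W * l1)) (β' := -(W * l1)) hp hp2 ni ni
              refine ⟨y, fun h => absurd h hpW, fun _ => by rwa [← sub_eq_add_neg] at y1,
                fun h => absurd h hpj, fun _ _ h => ?_, fun _ h => absurd h ni⟩
              apply y1
              have := dvd_sub h hpi
              rwa [show i * y + (a - i - W * l1) - (a - i) = i * y + -(W * l1) by ring] at this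
          · by_cases hpj : (p : ℤ) ∣ a1 - j
            · have nj := hja p hp hpj
              obtain ⟨y, y1, -⟩ := avoidLin (β := -(W * m1)) (β' := -(W * m1)) hp hp2 nj nj
              refine ⟨y, fun h => absurd h hpW, fun h => absurd h hpi,
                fun _ => by rwa [← sub_eq_add_neg] at y1, fun hd ni h => ?_, fun _ _ h => ?_⟩
              · -- multiply by `j`
                apply y1
                have e : i * (j * y + -(W * m1)) = j * (i * y + (a - i - W * l1)) - D -
                    i * (a1 - j) := by rw [hD]; ring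
                have h2 : (p : ℤ) ∣ i * (j * y + -(W * m1)) := by
                  rw [e]
                  exact dvd_sub (dvd_sub (h.mul_left _) hd) (hpj.mul_left _)
                exact (hp'.dvd_or_dvd h2).resolve_left ni
              · apply y1
                have := dvd_sub h hpj
                rwa [show j * y + (a1 - j - W * m1) - (a1 - j) = j * y + -(W * m1) by ring]
                  at this
            · by_cases ni : (p : ℤ) ∣ i
              · obtain ⟨y, y1, -⟩ := avoidLin (β := a1 - j - W * m1) (β' := 0) hp hp2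
                  (hij p hp ni) (hij p hp ni)
                exact ⟨y, fun h => absurd h hpW, fun h => absurd h hpi, fun h => absurd h hpj,
                  fun _ h => absurd ni h, fun _ _ => y1⟩
              · obtain ⟨y, y1, -⟩ := avoidLin (β := a - i - W * l1) (β' := 0) hp hp2 ni ni
                exact ⟨y, fun h => absurd h hpW, fun h => absurd h hpi, fun h => absurd h hpj,
                  fun _ _ => y1, fun _ h => absurd h ni⟩
      obtain ⟨y, y0, y1, y2, y3, y4⟩ := key
      refine ⟨y, fun t ht => ?_⟩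
      fin_cases t
      · intro h
        have h1 : (p : ℤ) ∣ 1 * y + 0 := h
        exact y0 ht (by simpa using h1)
      · intro h
        have h1 : (p : ℤ) ∣ i * y + -(W * l1) := h
        rw [← sub_eq_add_neg] at h1
        exact y1 ht h1
      · intro h
        have h1 : (p : ℤ) ∣ j * y + -(W * m1) := h
        rw [← sub_eq_add_neg] at h1
        exact y2 ht h1
      · exact y3 ht.1 ht.2.1
      · exact y4 ht.1 ht.2.1)
    (by
      intro p hp hpm t ht
      have hpe : p = 2 := by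
        have h2 : (p : ℤ) ∣ 2 := by
          rcases hm with h | h
          · rw [h] at hpm; exact hpm
          · rw [h] at hpm
            have h22 : (4 : ℤ) = 2 * 2 := by norm_num
            rw [h22] at hpm
            rcases (Nat.prime_iff_prime_int.1 hp).dvd_or_dvd hpm with h' | h' <;> exact h'
        have : p ∣ 2 := by exact_mod_cast h2
        exact (Nat.prime_dvd_prime_iff_eq hp Nat.prime_two).1 this
      subst hpe
      fin_cases t
      · intro h
        have h1 : (2 : ℤ) ∣ 1 * r + 0 := h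
        exact r0 ht (by simpa using h1)
      · intro h
        have h1 : (2 : ℤ) ∣ i * r + -(W * l1) := h
        rw [← sub_eq_add_neg] at h1
        exact r1 ht h1
      · intro h
        have h1 : (2 : ℤ) ∣ j * r + -(W * m1) := h
        rw [← sub_eq_add_neg] at h1
        exact r2 ht h1
      · intro h
        have h1 : (2 : ℤ) ∣ i * r + (a - i - W * l1) := h
        rw [show i * r + (a - i - W * l1) = a - i + (i * r - W * l1) by ring] at h1
        have hE : ¬ E := by
          rcases ht.2.2 with h5 | h5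
          · exact absurd (dvd_refl _) h5
          · exact h5
        exact r3 hE ht.1 ht.2.1 h1
      · intro h
        have h1 : (2 : ℤ) ∣ j * r + (a1 - j - W * m1) := h
        rw [show j * r + (a1 - j - W * m1) = a1 - j + (j * r - W * m1) by ring] at h1
        have hE : ¬ E := by
          rcases ht.2.2 with h5 | h5
          · exact absurd (dvd_refl _) h5
          · exact h5
        exact r4 hE ht.1 ht.2.1 h1) x0
  have q0 : ∀ p : ℕ, p.Prime → (p : ℤ) ∣ W → ¬ (p : ℤ) ∣ κ := fun p hp hd h =>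
    k4 p hp 0 hd (by
      show (p : ℤ) ∣ 1 * κ + 0
      rw [one_mul, add_zero]; exact h)
  have q1 : ∀ p : ℕ, p.Prime → (p : ℤ) ∣ a - i → ¬ (p : ℤ) ∣ i * κ - W * l1 := fun p hp hd h =>
    k4 p hp 1 hd (by
      show (p : ℤ) ∣ i * κ + -(W * l1)
      rw [← sub_eq_add_neg]; exact h)
  have q2 : ∀ p : ℕ, p.Prime → (p : ℤ) ∣ a1 - j → ¬ (p : ℤ) ∣ j * κ - W * m1 := fun p hp hd h =>
    k4 p hp 2 hd (by
      show (p : ℤ) ∣ j * κ + -(W * m1)
      rw [← sub_eq_add_neg]; exact h)
  refine ⟨κ, k1, lt_of_lt_of_le k2 ?_, k3, ?_, ?_, ?_, ?_⟩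
  · have h3 : (0 : ℤ) ≤ (J : ℤ) ^ 3 := by positivity
    nlinarith
  · exact isCoprime_of_prime q0
  · refine isCoprime_of_prime fun p hp h2 h1 => q1 p hp ?_ h1
    have := dvd_sub h2 h1
    rwa [add_sub_cancel_right] at this
  · refine isCoprime_of_prime fun p hp h2 h1 => q2 p hp ?_ h1
    have := dvd_sub h2 h1
    rwa [add_sub_cancel_right] at this
  · intro p hp hE h1 h2
    have hd : (p : ℤ) ∣ D := by
      have e : D = j * (a - i + (i * κ - W * l1)) - i * (a1 - j + (j * κ - W * m1)) := by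
        rw [hD]; ring
      rw [e]
      exact dvd_sub (h1.mul_left _) (h2.mul_left _)
    by_cases ni : (p : ℤ) ∣ i
    · refine k4 p hp 4 ⟨hd, ni, hE⟩ ?_
      show (p : ℤ) ∣ j * κ + (a1 - j - W * m1)
      rw [show j * κ + (a1 - j - W * m1) = a1 - j + (j * κ - W * m1) by ring]; exact h2
    · refine k4 p hp 3 ⟨hd, ni, hE⟩ ?_
      show (p : ℤ) ∣ i * κ + (a - i - W * l1)
      rw [show i * κ + (a - i - W * l1) = a - i + (i * κ - W * l1) by ring]; exact h1

/-- **the edge with the variable `κ`** -/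
theorem kapEdge {A a a1 z i j l1 m1 W κ z' : ℤ} (hW : W = A + i + j)
    (A0 : 0 < A) (i0 : 0 < i) (ia : i < a) (j0 : 0 < j) (ja : j < a1)
    (cia : IsCoprime i a) (cja : IsCoprime j a1) (cl : IsCoprime l1 i) (cm : IsCoprime m1 j)
    (hz : (Int.gcd a a1 : ℤ) ∣ z * (i * j) + (l1 * j - i * m1))
    (g0 : κ * (i + j) < W * (1 + l1 + m1)) (g1 : W * l1 < i * κ) (g2 : W * m1 < j * κ)
    (c0 : IsCoprime κ W) (c1 : IsCoprime (i * κ - W * l1) (a - i + (i * κ - W * l1)))
    (c2 : IsCoprime (j * κ - W * m1) (a1 - j + (j * κ - W * m1)))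
    (hz' : (Int.gcd (a - i + (i * κ - W * l1)) (a1 - j + (j * κ - W * m1)) : ℤ) ∣
      z' * ((i * κ - W * l1) * (j * κ - W * m1)) + (l1 * j - i * m1)) :
    SEq6 (PG A a a1 z) (PG (W * (1 + l1 + m1) - κ * (i + j)) (a - i + (i * κ - W * l1))
      (a1 - j + (j * κ - W * m1)) z') := by
  refine edge (ν := κ - 1 - l1 - m1) (l1 := l1) (m1 := m1) (i := i) (j := j) (k := 1) (W := W)
    (κ := κ) (i' := i * κ - W * l1) (j' := j * κ - W * m1) hW (by ring) ?_ (by ring) (by ring)
    rfl rfl A0 i0 ia j0 ja (by linarith) (by linarith) (by linarith) cl cm cia cja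
    (by rw [one_mul]; exact c0) c1 c2 hz hz'
  rw [hW]; ring

end Pool.Agent.H4G.Six
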