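import Pool.Agent.H4G.Six.Can.C11Nu
import Pool.Agent.H4G.Six.Can.C11

/-!
# C11: the end for a pair `(i, j)` with a small `z i j` (helper35)
-/

set_option autoImplicit false

namespace Pool.Agent.H4G.Six

open Pool.Agent.H4G

variable {N : ℤ} {J Z : ℕ}

/-- parities -/
theorem parPair : ∀ A a a1 i j l1 m1 : ZMod 2, (i = 0 → a ≠ 0) → (j = 0 → a1 ≠ 0) →
    (i = 0 → j ≠ 0) → (l1 = 0 → i ≠ 0) → (m1 = 0 → j ≠ 0) → ¬ (A = 0 ∧ a = 0 ∧ a1 = 0) →
    (A ≠ 0 → a ≠ 0 → a1 ≠ 0 → l1 * j - i * m1 = 0 ∨ i = 0 ∨ j = 0) →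
    ∃ r : ZMod 2, (A + i + j = 0 → r ≠ 0) ∧ (a - i = 0 → i * r - (A + i + j) * l1 ≠ 0) ∧
    (a1 - j = 0 → j * r - (A + i + j) * m1 ≠ 0) ∧
    (j * a - i * a1 - (A + i + j) * (l1 * j - i * m1) = 0 → i ≠ 0 →
      a - i + (i * r - (A + i + j) * l1) ≠ 0) ∧
    (j * a - i * a1 - (A + i + j) * (l1 * j - i * m1) = 0 → i = 0 →
      a1 - j + (j * r - (A + i + j) * m1) ≠ 0) := by
  have h2 : ∀ x : ZMod 2, x = 0 ∨ x = 1 := by decide
  intro A a a1 i j l1 m1 k1 k2 k3 k4 k5 k6 k7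
  rcases h2 A with rfl | rfl <;> rcases h2 a with rfl | rfl <;> rcases h2 a1 with rfl | rfl <;>
    rcases h2 i with rfl | rfl <;> rcases h2 j with rfl | rfl <;> rcases h2 l1 with rfl | rfl <;>
    rcases h2 m1 with rfl | rfl <;>
    first
    | exact absurd rfl (k1 rfl)
    | exact absurd rfl (k2 rfl)
    | exact absurd rfl (k3 rfl)
    | exact absurd rfl (k4 rfl)
    | exact absurd rfl (k5 rfl)
    | exact (k6 ⟨rfl, rfl, rfl⟩).elim
    | exact ⟨0, by decide, by decide, by decide, by decide, by decide⟩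
    | exact ⟨1, by decide, by decide, by decide, by decide, by decide⟩
    | exact absurd (k7 (by decide) (by decide) (by decide)) (by decide)

/-- **the end for a pair** -/
theorem pairEnd (hB : Bg N J Z) {A a a1 z i j δ X : ℤ} (hA : 0 < A) (hN : A + a + a1 = N)
    (i0 : 0 < i) (iX : i ≤ X) (j0 : 0 < j) (jX : j ≤ X) (hia : i < a) (hja : j < a1)
    (δ0 : 0 < δ) (δj : 2 * δ ≤ j) (cia : IsCoprime i a) (cja : IsCoprime j a1)
    (cij : IsCoprime i j) (cδi : IsCoprime δ i) (cδj : IsCoprime δ j)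
    (hz : (Int.gcd a a1 : ℤ) ∣ z * (i * j) - δ) (hD : i * a1 ≤ j * a)
    (hAX : X * (J : ℤ) ^ 5 ≤ A)
    (hpar : ¬ (2 : ℤ) ∣ A → ¬ (2 : ℤ) ∣ a → ¬ (2 : ℤ) ∣ a1 →
      (2 : ℤ) ∣ δ ∨ (2 : ℤ) ∣ i ∨ (2 : ℤ) ∣ j) : ToE N (PG A a a1 z) := by
  have hN1 := hB.N1
  have hJ := hB.J20
  have hp0 := hB.pows 0
  have hp1 := hB.pows 1
  have hp2 := hB.pows 2
  have hp3 := hB.pows 3
  have hp4 := hB.pows 4
  norm_num at hp0 hp1 hp2 hp3 hp4
  have hX0 : 0 < X := by linarith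
  -- the slopes
  obtain ⟨x', y', hxy⟩ := cij
  obtain ⟨l1, hl1⟩ : ∃ l1 : ℤ, l1 = -(δ * y') := ⟨_, rfl⟩
  obtain ⟨m1, hm1⟩ : ∃ m1 : ℤ, m1 = δ * x' := ⟨_, rfl⟩
  have hc : l1 * j - i * m1 = -δ := by rw [hl1, hm1]; linear_combination (-δ) * hxy
  have cl : IsCoprime l1 i := by
    rw [hl1]
    refine IsCoprime.neg_left (cδi.mul_left ⟨j, x', ?_⟩)
    linear_combination hxy
  have cm : IsCoprime m1 j := by
    rw [hm1]
    refine cδj.mul_left ⟨i, y', ?_⟩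
    linear_combination hxy
  obtain ⟨W, hW⟩ : ∃ W : ℤ, W = A + i + j := ⟨_, rfl⟩
  obtain ⟨D, hDe⟩ : ∃ D : ℤ, D = j * a - i * a1 - W * (l1 * j - i * m1) := ⟨_, rfl⟩
  have hW0 : 0 < W := by rw [hW]; linarith
  have hWN : W ≤ 2 * N := by rw [hW]; linarith
  have hWδ : 0 < W * δ := by positivity
  have hD' : D = j * a - i * a1 + W * δ := by rw [hDe, hc]; ring
  have hD0 : 0 < D := by rw [hD']; linarith
  have hDZ : |D| ≤ (2 * N) ^ 10 := by
    have e1 : j * a ≤ N * N := mul_le_mul (by linarith) (by linarith) (by linarith)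
      (by linarith)
    have e2 : W * δ ≤ 2 * N * N := mul_le_mul hWN (by linarith) (by linarith) (by linarith)
    have e3 : 0 < i * a1 := mul_pos i0 (by linarith)
    have e4 : D ≤ (2 * N) ^ 2 := by
      have e5 : (2 * N) ^ 2 = 4 * (N * N) := by ring
      have e6 : 0 ≤ N * N := by positivity
      rw [hD', e5]
      linarith
    rw [abs_of_pos hD0]
    exact e4.trans (pow_le_pow_right₀ (by linarith) (by norm_num))
  have par : ∀ x y : ℤ, IsCoprime x y → (2 : ℤ) ∣ x → ¬ (2 : ℤ) ∣ y := fun x y h h1 h2 =>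
    not_dvd_of_isCoprime h Nat.prime_two (by exact_mod_cast h2) (by exact_mod_cast h1)
  -- parities
  obtain ⟨m, r, hm, r0, r1, r2, r3, r4, hmE⟩ : ∃ m r : ℤ, (m = 2 ∨ m = 4) ∧
      ((2 : ℤ) ∣ W → ¬ (2 : ℤ) ∣ r) ∧
      ((2 : ℤ) ∣ a - i → ¬ (2 : ℤ) ∣ i * r - W * l1) ∧
      ((2 : ℤ) ∣ a1 - j → ¬ (2 : ℤ) ∣ j * r - W * m1) ∧
      (¬ ((2 : ℤ) ∣ A ∧ (2 : ℤ) ∣ a ∧ (2 : ℤ) ∣ a1) → (2 : ℤ) ∣ D → ¬ (2 : ℤ) ∣ i →
        ¬ (2 : ℤ) ∣ a - i + (i * r - W * l1)) ∧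
      (¬ ((2 : ℤ) ∣ A ∧ (2 : ℤ) ∣ a ∧ (2 : ℤ) ∣ a1) → (2 : ℤ) ∣ D → (2 : ℤ) ∣ i →
        ¬ (2 : ℤ) ∣ a1 - j + (j * r - W * m1)) ∧
      (((2 : ℤ) ∣ A ∧ (2 : ℤ) ∣ a ∧ (2 : ℤ) ∣ a1) → m = 4 ∧
        r = j * (2 - a1 + j + W * m1)) := by
    have hio := par i a cia
    have hjo := par j a1 cja
    have hijo := par i j ⟨x', y', hxy⟩
    by_cases hE : (2 : ℤ) ∣ A ∧ (2 : ℤ) ∣ a ∧ (2 : ℤ) ∣ a1
    · obtain ⟨e1, e2, e3⟩ := hE
      have hi2 : ¬ (2 : ℤ) ∣ i := fun h => hio h e2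
      have hj2 : ¬ (2 : ℤ) ∣ j := fun h => hjo h e3
      have hW2 : (2 : ℤ) ∣ W := by omega
      have hWm : (2 : ℤ) ∣ W * m1 := hW2.mul_right _
      refine ⟨4, j * (2 - a1 + j + W * m1), Or.inr rfl, fun _ h => ?_, fun h1 => by omega,
        fun h1 => by omega, fun h1 => absurd ⟨e1, e2, e3⟩ h1,
        fun h1 => absurd ⟨e1, e2, e3⟩ h1, fun _ => ⟨rfl, rfl⟩⟩
      rcases Int.prime_two.dvd_or_dvd h with h1 | h1
      · exact hj2 h1
      · omega
    · have c2 : ∀ x : ℤ, (2 : ℤ) ∣ x ↔ (x : ZMod 2) = 0 := fun x => by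
        rw [ZMod.intCast_zmod_eq_zero_iff_dvd]; norm_num
      have hcz : ((l1 : ZMod 2) * j - i * m1) = ((-δ : ℤ) : ZMod 2) := by
        rw [← hc]; push_cast; rfl
      obtain ⟨r, q0, q1, q2, q3, q4⟩ := parPair (A : ZMod 2) (a : ZMod 2) (a1 : ZMod 2)
        (i : ZMod 2) (j : ZMod 2) (l1 : ZMod 2) (m1 : ZMod 2)
        (fun h1 h2 => hio ((c2 i).2 h1) ((c2 a).2 h2))
        (fun h1 h2 => hjo ((c2 j).2 h1) ((c2 a1).2 h2))
        (fun h1 h2 => hijo ((c2 i).2 h1) ((c2 j).2 h2))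
        (fun h1 h2 => par _ _ cl ((c2 l1).2 h1) ((c2 i).2 h2))
        (fun h1 h2 => par _ _ cm ((c2 m1).2 h1) ((c2 j).2 h2))
        (fun h1 => hE ⟨(c2 A).2 h1.1, (c2 a).2 h1.2.1, (c2 a1).2 h1.2.2⟩)
        (fun h1 h2 h3 => by
          rcases hpar (fun h => h1 ((c2 A).1 h)) (fun h => h2 ((c2 a).1 h))
            (fun h => h3 ((c2 a1).1 h)) with h4 | h4 | h4
          · left
            rw [hcz, ← c2]
            exact (dvd_neg).2 h4
          · exact Or.inr (Or.inl ((c2 i).1 h4))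
          · exact Or.inr (Or.inr ((c2 j).1 h4)))
      obtain ⟨s, hs⟩ : ∃ s : ℤ, (s : ZMod 2) = r := ⟨r.val, by simp⟩
      have hWc : (W : ZMod 2) = A + i + j := by rw [hW]; push_cast; rfl
      have hDc : (D : ZMod 2) = j * a - i * a1 - (A + i + j) * (l1 * j - i * m1) := by
        rw [hDe, hW]; push_cast; ring
      refine ⟨2, s, Or.inl rfl, fun h1 h2 => ?_, fun h1 h2 => ?_, fun h1 h2 => ?_,
        fun _ h1 h3 h2 => ?_, fun _ h1 h3 h2 => ?_, fun h1 => absurd h1 hE⟩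
      · rw [c2] at h1 h2
        rw [hWc] at h1
        rw [hs] at h2
        exact q0 h1 h2
      · rw [c2] at h1 h2
        push_cast at h1 h2
        rw [hWc, hs] at h2
        exact q1 h1 h2
      · rw [c2] at h1 h2
        push_cast at h1 h2
        rw [hWc, hs] at h2
        exact q2 h1 h2
      · rw [c2] at h1 h2 h3
        push_cast at h1 h2
        rw [hWc, hs] at h2
        rw [hDc] at h1
        exact q3 h1 h3 h2
      · rw [c2] at h1 h2 h3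
        push_cast at h1 h2
        rw [hWc, hs] at h2
        rw [hDc] at h1
        exact q4 h1 h3 h2
  -- the sieve
  obtain ⟨κ, k1, k2, k3, k4, k5, k6, k7⟩ := kapSieve hB (A := A) (a := a) (a1 := a1) (i := i)
    (j := j) (l1 := l1) (m1 := m1) (W := W) (D := D) (m := m) (r := r)
    (E := (2 : ℤ) ∣ A ∧ (2 : ℤ) ∣ a ∧ (2 : ℤ) ∣ a1) hW hDe hA i0 hia j0 hja hN cia cja
    ⟨x', y', hxy⟩ hD0.ne' hDZ hm r0 r1 r2 r3 r4 (W * m1 / j + 1)
  have d1 : W * m1 / j * j ≤ W * m1 := Int.ediv_mul_le _ j0.ne'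
  have d2 : W * m1 < (W * m1 / j + 1) * j := Int.lt_ediv_add_one_mul_self _ j0
  obtain ⟨Q, hQ⟩ : ∃ Q : ℤ, Q = W * m1 / j := ⟨_, rfl⟩
  rw [← hQ] at k1 k2 d1 d2
  have g2 : W * m1 < j * κ := by
    have h1 : (Q + 1) * j ≤ κ * j := mul_le_mul_of_nonneg_right k1 j0.le
    linarith
  -- `i' j ≥ W δ`
  have g1' : W * δ < j * (i * κ - W * l1) := by
    have h1 : (W * m1) * i < (j * κ) * i := mul_lt_mul_of_pos_right g2 i0
    have h2 : j * (i * κ - W * l1) = (j * κ) * i - W * (l1 * j) := by ring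
    have h3 : l1 * j = i * m1 - δ := by linarith
    rw [h2, h3]
    linarith
  have g1 : 0 < i * κ - W * l1 := by
    by_contra h
    push Not at h
    have : j * (i * κ - W * l1) ≤ 0 := mul_nonpos_of_nonneg_of_nonpos j0.le h
    linarith
  have hJ5 : (J : ℤ) ^ 5 ≤ X * (J : ℤ) ^ 5 := by
    have : (0 : ℤ) ≤ (J : ℤ) ^ 5 := by positivity
    nlinarith
  obtain ⟨T, hT⟩ : ∃ T : ℤ, T = (J : ℤ) ^ 3 * (i + j) := ⟨_, rfl⟩
  have hsm : 8 * T < W := by
    have h2 : T ≤ (J : ℤ) ^ 3 * (2 * X) := by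
      rw [hT]; exact mul_le_mul_of_nonneg_left (by linarith) (by positivity)
    have h4 : 16 * (X * (J : ℤ) ^ 3) ≤ X * (J : ℤ) ^ 5 := by
      have h5 : 16 * (J : ℤ) ^ 3 ≤ (J : ℤ) ^ 5 := by
        have : (0 : ℤ) ≤ (J : ℤ) ^ 3 := by positivity
        linarith
      have := mul_le_mul_of_nonneg_left h5 hX0.le
      linarith
    linarith
  have g0 : κ * (i + j) < W * (1 + l1 + m1) := by
    have h1 : κ ≤ Q + 4 * (J : ℤ) ^ 3 := by linarith
    have h2 : κ * j ≤ (Q + 4 * (J : ℤ) ^ 3) * j := mul_le_mul_of_nonneg_right h1 j0.le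
    have h3 : κ * j ≤ W * m1 + 4 * (J : ℤ) ^ 3 * j := by linarith
    have h4 : κ * j * (i + j) ≤ (W * m1 + 4 * (J : ℤ) ^ 3 * j) * (i + j) :=
      mul_le_mul_of_nonneg_right h3 (by linarith)
    have h5 : (W * m1 + 4 * (J : ℤ) ^ 3 * j) * (i + j) = W * m1 * (i + j) + 4 * (j * T) := by
      rw [hT]; ring
    have h6 : j * (W * (1 + l1 + m1)) = W * (j - δ) + W * m1 * (i + j) := by
      have h3 : l1 * j = i * m1 - δ := by linarith
      have : j * (W * (1 + l1 + m1)) = W * (j + l1 * j + j * m1) := by ring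
      rw [this, h3]; ring
    have h7 : j * (8 * T) < j * W := mul_lt_mul_of_pos_left hsm j0
    have h8 : W * (2 * δ) ≤ W * j := mul_le_mul_of_nonneg_left δj hW0.le
    have h9 : j * (κ * (i + j)) < j * (W * (1 + l1 + m1)) := by
      rw [h6]
      have e1 : W * (j - δ) = W * j - W * δ := by ring
      have e2 : W * (2 * δ) = 2 * (W * δ) := by ring
      linarith
    exact lt_of_mul_lt_mul_left h9 j0.le
  have hgz : (Int.gcd a a1 : ℤ) ∣ z * (i * j) + (l1 * j - i * m1) := by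
    rw [hc, ← sub_eq_add_neg]; exact hz
  have step := fun (z' : ℤ) (hz' : (Int.gcd (a - i + (i * κ - W * l1))
      (a1 - j + (j * κ - W * m1)) : ℤ) ∣
      z' * ((i * κ - W * l1) * (j * κ - W * m1)) + (l1 * j - i * m1)) =>
    kapEdge (z := z) (z' := z') hW hA i0 hia j0 hja cia cja cl cm hgz g0 (by linarith) g2
      k4 k5 k6 hz'
  have hvol : W * (1 + l1 + m1) - κ * (i + j) + (a - i + (i * κ - W * l1)) +
      (a1 - j + (j * κ - W * m1)) = N := by rw [← hN, hW]; ring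
  have hA' : 0 < W * (1 + l1 + m1) - κ * (i + j) := by linarith
  have ha' : 3 < a - i + (i * κ - W * l1) := by
    by_contra h
    push Not at h
    have h1 : i * κ - W * l1 ≤ 2 := by linarith
    have h2 : j * (i * κ - W * l1) ≤ j * 2 := mul_le_mul_of_nonneg_left h1 j0.le
    have h3 : W ≤ W * δ := by nlinarith
    have h4 : j ≤ T := by
      have h5 : (1 : ℤ) ≤ (J : ℤ) ^ 3 := one_le_pow₀ hB.J1
      have := mul_le_mul_of_nonneg_right h5 (by linarith : (0 : ℤ) ≤ i + j)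
      rw [hT]; linarith
    linarith
  have ha1' : 1 < a1 - j + (j * κ - W * m1) := by linarith
  by_cases hE : (2 : ℤ) ∣ A ∧ (2 : ℤ) ∣ a ∧ (2 : ℤ) ∣ a1
  · -- all areas even
    obtain ⟨hm4, hr⟩ := hmE hE
    obtain ⟨e1, e2, e3⟩ := hE
    have hi2 : ¬ (2 : ℤ) ∣ i := fun h => par _ _ cia h e2
    have hj2 : ¬ (2 : ℤ) ∣ j := fun h => par _ _ cja h e3
    have hW2 : (2 : ℤ) ∣ W := by omega
    rw [hm4] at k3
    have hrr := r0 hW2
    have hκo : ¬ (2 : ℤ) ∣ κ := by omega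
    have hiκ : ¬ (2 : ℤ) ∣ i * κ := fun h1 => by
      rcases Int.prime_two.dvd_or_dvd h1 with h2 | h2
      · exact hi2 h2
      · exact hκo h2
    have hWl : (2 : ℤ) ∣ W * l1 := hW2.mul_right _
    -- `a₁' = 2` modulo `4`
    have h4 : ∃ w : ℤ, a1 - j + (j * κ - W * m1) = 2 + 4 * w := by
      obtain ⟨w, hw⟩ := k3
      obtain ⟨s, hs⟩ : ∃ s : ℤ, j = 2 * s + 1 := ⟨j / 2, by omega⟩
      refine ⟨j * w + (s ^ 2 + s) * (2 - a1 + j + W * m1), ?_⟩
      have hκ : κ = j * (2 - a1 + j + W * m1) + 4 * w := by linarith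
      rw [hκ]
      have hj4 : j * j = 4 * (s ^ 2 + s) + 1 := by rw [hs]; ring
      linear_combination (2 - a1 + j + W * m1) * hj4
    obtain ⟨w, hw⟩ := h4
    have g2' : G2 (a - i + (i * κ - W * l1)) (a1 - j + (j * κ - W * m1)) :=
      ⟨by omega, by omega, fun h4 => by have := h4.2; omega,
        fun p hp h2 h3 => k7 p hp (Or.inl h2) h3⟩
    have hi'2 : ¬ (2 : ℤ) ∣ i * κ - W * l1 := by omega
    have hj'2 : ¬ (2 : ℤ) ∣ j * κ - W * m1 := by omega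
    by_cases hh2 : (2 : ℤ) ∣ δ
    · have s1 := step 0 (g2'.dvd (by
        rw [zero_mul, zero_add, hc]; exact (dvd_neg).2 hh2))
      exact ToE.of s1 (toE_zero hB hA' (by linarith) ha1' hvol (dvd_zero _) (by
        intro h5
        rw [h5] at g2' ha'
        have h6 := g2_iff.1 g2'
        rw [Int.gcd_self] at h6
        omega))
    · have s1 := step 1 (g2'.dvd (by
        rw [one_mul, hc]
        have h5 : ¬ (2 : ℤ) ∣ (i * κ - W * l1) * (j * κ - W * m1) := fun h6 => by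
          rcases Int.prime_two.dvd_or_dvd h6 with h7 | h7
          · exact hi'2 h7
          · exact hj'2 h7
        omega))
      refine Or.inr ⟨_, _, _, ⟨hA', ?_, by linarith, by linarith, hvol, g2',
        Or.inl ha'⟩, s1⟩
      have h5 : (2 : ℤ) ∣ W * (1 + l1 + m1) := hW2.mul_right _
      have h6 : (2 : ℤ) ∣ κ * (i + j) := Dvd.dvd.mul_left (by omega) _
      exact dvd_sub h5 h6
  · have hcop : IsCoprime (a - i + (i * κ - W * l1)) (a1 - j + (j * κ - W * m1)) :=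
      isCoprime_of_prime fun p hp h2 h1 => k7 p hp (Or.inr hE) h1 h2
    have s1 := step 0 (by
      rw [Int.isCoprime_iff_gcd_eq_one.1 hcop]; exact one_dvd _)
    exact Or.inl ⟨_, _, _, ⟨hA', by linarith, ha1', hvol, hcop⟩, s1⟩

end Pool.Agent.H4G.Six
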