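import Pool.Agent.H4G.Six.Can.Hub

/-!
# All good states of the same volume and type are equivalent (helper19)
-/

set_option autoImplicit false

namespace Pool.Agent.H4G.Six

open Pool.Agent.H4G

variable {N : ℤ} {J Z : ℕ}

/-- a non-tiny even state of level one in a window -/
theorem exists_even (hB : Bg N J Z) (hN3 : 3 ≤ N) (z0 : ℤ) : ∃ a z : ℤ, 2 * z0 ≤ a ∧
    a < 2 * z0 + 2 * J ∧ Even a ∧ GZ a (N - 1 - a) z := by
  obtain ⟨y, y1, y2, y3⟩ := exists_cop hB (D := 2 * (N - 1)) (by linarith) (n := 1)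
    (by norm_num) (by rw [pow_one]; linarith) z0
  have hyo := odd_of_cop y3
  have hy := y3.of_mul_right_right
  rcases Int.even_or_odd (N - 1) with he | ho
  · obtain ⟨M, hM⟩ := he
    refine ⟨2 * y, 1, by linarith, by linarith, even_two_mul y, Or.inr ⟨?_, rfl⟩⟩
    have e : N - 1 - 2 * y = 2 * (M - y) := by rw [hM]; ring
    rw [e, Int.gcd_mul_left]
    have h1 : IsCoprime y (M - y) := by
      have h2 : IsCoprime y (2 * M) := by
        rw [show 2 * M = N - 1 by rw [hM]; ring]; exact hy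
      obtain ⟨x, w, hxw⟩ := h2.of_mul_right_right
      exact ⟨x + w, w, by linear_combination hxw⟩
    rw [Int.isCoprime_iff_gcd_eq_one.1 h1]
    rfl
  · refine ⟨2 * y, 0, by linarith, by linarith, even_two_mul y, Or.inl ⟨?_, rfl⟩⟩
    rw [← Int.isCoprime_iff_gcd_eq_one]
    have h2 : IsCoprime (2 * y) (N - 1) := by
      refine IsCoprime.mul_left ?_ hy
      obtain ⟨r, hr⟩ := ho
      exact ⟨-r, 1, by linarith⟩
    obtain ⟨x, w, hxw⟩ := h2
    exact ⟨x + w, w, by linear_combination hxw⟩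

/-- **all states of level one with an even torus are equivalent to one state** -/
theorem levelS (hB : Bg N J Z) : ∃ b : ℤ, ∀ a a1 z : ℤ, L1 N J a a1 z → (Even a ∨ Even a1) →
    SEq6 (PG 1 a a1 z) (PG 4 b (N - 4 - b) 0) := by
  obtain ⟨s1, s2, s3, s4⟩ := hB.sizes
  have hJ2 : 1 ≤ (J : ℤ) ^ 2 := by linarith
  -- the three hubs
  have hub : ∀ z0 : ℤ, ∃ b : ℤ, z0 ≤ b ∧ b < z0 + J ∧ Odd b ∧ IsCoprime b (N - 4) := by
    intro z0
    obtain ⟨y, y1, y2, y3⟩ := exists_cop hB (D := 2 * (N - 4)) (by linarith) (n := 1)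
      (by norm_num) (by rw [pow_one]; linarith) z0
    exact ⟨y, y1, y2, odd_of_cop y3, y3.of_mul_right_right⟩
  obtain ⟨q, hq, hq'⟩ : ∃ q : ℤ, 5 * q ≤ 3 * N ∧ 3 * N < 5 * q + 5 :=
    ⟨3 * N / 5, by omega, by omega⟩
  obtain ⟨b0, h1, h2, h3, h4⟩ := hub (4 * (J : ℤ) ^ 2)
  obtain ⟨b1, g1, g2, g3, g4⟩ := hub q
  obtain ⟨b2, f1, f2, f3, f4⟩ := hub (N - 3 * (J : ℤ) ^ 2)
  -- the stars
  have star0 : ∀ a a1 z : ℤ, 1 + a + a1 = N → GZ a a1 z → Even a → (J : ℤ) ^ 4 ≤ a →
      2 * a ≤ N → SEq6 (PG 1 a a1 z) (PG 4 b0 (N - 4 - b0) 0) := by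
    intro a a1 z k1 k2 k3 k4 k5
    exact hubS hB k1 k2 k3 h3 h4 (by linarith) (by linarith) (by linarith) (by linarith)
      (by linarith) (by linarith)
  have star1 : ∀ a a1 z : ℤ, 1 + a + a1 = N → GZ a a1 z → Even a → 12 * N ≤ 25 * a →
      50 * a ≤ 39 * N → SEq6 (PG 1 a a1 z) (PG 4 b1 (N - 4 - b1) 0) := by
    intro a a1 z k1 k2 k3 k4 k5
    exact hubS hB k1 k2 k3 g3 g4 (by linarith) (by linarith) (by linarith) (by linarith)
      (by linarith) (by linarith)
  have star2 : ∀ a a1 z : ℤ, 1 + a + a1 = N → GZ a a1 z → Even a → 76 * N ≤ 100 * a →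
      (J : ℤ) ^ 4 ≤ a1 → SEq6 (PG 1 a a1 z) (PG 4 b2 (N - 4 - b2) 0) := by
    intro a a1 z k1 k2 k3 k4 k5
    exact hubS hB k1 k2 k3 f3 f4 (by linarith) (by linarith) (by linarith) (by linarith)
      (by linarith) (by linarith)
  -- the connections of the hubs
  have conn1 : SEq6 (PG 4 b1 (N - 4 - b1) 0) (PG 4 b0 (N - 4 - b0) 0) := by
    obtain ⟨a, z, a1, a2, a3, a4⟩ := exists_even hB (by linarith) (6 * N / 25 + 1)
    have t0 := star0 a (N - 1 - a) z (by ring) a4 a3 (by omega) (by omega)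
    have t1 := star1 a (N - 1 - a) z (by ring) a4 a3 (by omega) (by omega)
    exact t1.symm.trans t0
  have conn2 : SEq6 (PG 4 b2 (N - 4 - b2) 0) (PG 4 b1 (N - 4 - b1) 0) := by
    obtain ⟨a, z, a1, a2, a3, a4⟩ := exists_even hB (by linarith) (38 * N / 100 + 1)
    have t0 := star1 a (N - 1 - a) z (by ring) a4 a3 (by omega) (by omega)
    have t1 := star2 a (N - 1 - a) z (by ring) a4 a3 (by omega) (by omega)
    exact t1.symm.trans t0
  have main : ∀ a a1 z : ℤ, 1 + a + a1 = N → GZ a a1 z → Even a → (J : ℤ) ^ 4 ≤ a →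
      (J : ℤ) ^ 4 ≤ a1 → SEq6 (PG 1 a a1 z) (PG 4 b0 (N - 4 - b0) 0) := by
    intro a a1 z k1 k2 k3 k4 k5
    by_cases h : 2 * a ≤ N
    · exact star0 a a1 z k1 k2 k3 k4 h
    · by_cases h' : 50 * a ≤ 39 * N
      · exact (star1 a a1 z k1 k2 k3 (by linarith) h').trans conn1
      · exact (star2 a a1 z k1 k2 k3 (by linarith) k5).trans (conn2.trans conn1)
  refine ⟨b0, fun a a1 z h hor => ?_⟩
  by_cases ha : Even a
  · exact main a a1 z h.vol h.gz ha h.big h.big'
  · have ha1 : Even a1 := hor.resolve_left ha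
    have hp : 1 < a := by linarith [h.big]
    have hp' : 1 < a1 := by linarith [h.big']
    have hz : z = 0 ∧ Int.gcd a a1 = 1 := by
      rcases h.gz with h5 | h5
      · exact ⟨h5.2, h5.1⟩
      · exfalso
        apply ha
        rw [even_iff_two_dvd]
        have := Int.gcd_dvd_left a a1
        rw [h5.1] at this
        exact_mod_cast this
    obtain ⟨rfl, hg⟩ := hz
    refine (PG.swap one_pos hp hp' (z' := 0) (by simp)).trans ?_
    exact main a1 a 0 (by linarith [h.vol]) (Or.inl ⟨by rw [Int.gcd_comm]; exact hg, rfl⟩) ha1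
      h.big' h.big

/-- **CANONICAL FORM, `N` odd and `A` odd** -/
theorem canA (hB : Bg N J Z) (hN : Odd N) : ∃ b : ℤ, ∀ A a a1 : ℤ, Gd N A a a1 → Odd A →
    SEq6 (PG A a a1 0) (PG 3 b (N - 3 - b) 0) := by
  obtain ⟨b, hb⟩ := levelA hB hN
  refine ⟨b, fun A a a1 h hA => ?_⟩
  obtain ⟨a', a1', z, h1, h2, h3, h4⟩ := red hB h
  have hz : z = 0 := by
    rcases h1.gz with h5 | h5
    · exact h5.2
    · exact absurd ((h2 hN).1 h5.2) (Int.not_even_iff_odd.2 hA)
  subst hz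
  exact h4.trans (hb a' a1' 0 h1 rfl)

/-- **CANONICAL FORM, the other good states** -/
theorem canS (hB : Bg N J Z) : ∃ b : ℤ, ∀ A a a1 : ℤ, Gd N A a a1 → (Odd N → Even A) →
    SEq6 (PG A a a1 0) (PG 4 b (N - 4 - b) 0) := by
  obtain ⟨b, hb⟩ := levelS hB
  refine ⟨b, fun A a a1 h hA => ?_⟩
  obtain ⟨a', a1', z, h1, h2, h3, h4⟩ := red hB h
  refine h4.trans (hb a' a1' z h1 ?_)
  have hv := h1.vol
  rcases Int.even_or_odd N with hN | hN
  · obtain ⟨n, hn⟩ := hN
    by_cases he : Even a'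
    · exact Or.inl he
    · obtain ⟨r, hr⟩ := Int.not_even_iff_odd.1 he
      exact Or.inr ⟨n - r - 1, by linarith⟩
  · have hz := (h2 hN).2 (hA hN)
    rcases h1.gz with h5 | h5
    · exact absurd (h5.2.symm.trans hz) (by norm_num)
    · left
      rw [even_iff_two_dvd]
      have := Int.gcd_dvd_left a' a1'
      rw [h5.1] at this
      exact_mod_cast this

/-- **two good states of the same volume and the same parity of `A` (for `N` odd) are
equivalent** -/
theorem can (hB : Bg N J Z) {A a a1 A' a' a1' : ℤ} (h : Gd N A a a1) (h' : Gd N A' a' a1')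
    (hp : Odd N → (Even A ↔ Even A')) : SEq6 (PG A a a1 0) (PG A' a' a1' 0) := by
  rcases Int.even_or_odd N with hN | hN
  · have hno : ¬ Odd N := Int.not_odd_iff_even.2 hN
    obtain ⟨b, hb⟩ := canS hB
    exact (hb A a a1 h (fun h => absurd h hno)).trans
      (hb A' a' a1' h' (fun h => absurd h hno)).symm
  · rcases Int.even_or_odd A with hA | hA
    · obtain ⟨b, hb⟩ := canS hB
      exact (hb A a a1 h (fun _ => hA)).trans (hb A' a' a1' h' (fun _ => (hp hN).1 hA)).symm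
    · obtain ⟨b, hb⟩ := canA hB hN
      have hA' : Odd A' := by
        rw [← Int.not_even_iff_odd, ← hp hN, Int.not_even_iff_odd]; exact hA
      exact (hb A a a1 h hA).trans (hb A' a' a1' h' hA').symm

end Pool.Agent.H4G.Six
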