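import Pool.Agent.H4G.Six.Can.Lat
import Pool.Agent.H4G.Six.Pencil6

/-!
# The edge lemma between generic states (helper19)
-/

set_option autoImplicit false

namespace Pool.Agent.H4G.Six

open Pool.Agent.H4G

/-- the pencil lemma for the states `GS` -/
theorem GS.pencil {u v u' v' l m : Z2} {a a1 a' a1' : ℤ} (hl : IsCoprime l.1 l.2)
    (hm : IsCoprime m.1 m.2) (h0 : 0 < cr u v) (h1 : 0 < cr u l) (h2 : cr u l < a)
    (h3 : 0 < cr u m) (h4 : cr u m < a1) (g0 : 0 < cr u' v') (g1 : 0 < cr u' l)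
    (g2 : 0 < cr u' m) (h : lat u (v + l + m) = lat u' (v' + l + m))
    (ha : a' = a + cr (u' - u) l) (ha1 : a1' = a1 + cr (u' - u) m) :
    SEq6 (GS u v l m a a1) (GS u' v' l m a' a1') :=
  SEq6.pencilA hl hm h0 h1 h2 h3 h4 g0 g1 g2 h ha ha1

/-- **EDGE.** -/
theorem edge {A a a1 z ν l1 m1 i j k W κ A' i' j' a' a1' z' : ℤ} (hW : W = A + i + j)
    (hκ : κ = 1 + k * (ν + l1 + m1)) (hA' : A' = κ * A - k * W * ν)
    (hi' : i' = κ * i - k * W * l1) (hj' : j' = κ * j - k * W * m1)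
    (ha' : a' = a - i + i') (ha1' : a1' = a1 - j + j')
    (pA : 0 < A) (p1 : 0 < i) (p2 : i < a) (p3 : 0 < j) (p4 : j < a1)
    (pA' : 0 < A') (p1' : 0 < i') (p3' : 0 < j')
    (cl : IsCoprime l1 i) (cm : IsCoprime m1 j) (cia : IsCoprime i a) (cja : IsCoprime j a1)
    (cu : IsCoprime κ (k * W)) (cia' : IsCoprime i' a') (cja' : IsCoprime j' a1')
    (hz : (Int.gcd a a1 : ℤ) ∣ z * (i * j) + (l1 * j - i * m1))
    (hz' : (Int.gcd a' a1' : ℤ) ∣ z' * (i' * j') + (l1 * j - i * m1)) :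
    SEq6 (PG A a a1 z) (PG A' a' a1' z') := by
  have e0 : cr ((1, 0) : Z2) (ν, A) = A := by simp [cr]
  have e1 : cr ((1, 0) : Z2) (l1, i) = i := by simp [cr]
  have e2 : cr ((1, 0) : Z2) (m1, j) = j := by simp [cr]
  have e3 : cr ((l1, i) : Z2) (m1, j) = l1 * j - i * m1 := rfl
  have f0 : cr ((κ, k * W) : Z2) (ν, A) = A' := by
    show κ * A - k * W * ν = A'
    rw [hA']
  have f1 : cr ((κ, k * W) : Z2) (l1, i) = i' := by
    show κ * i - k * W * l1 = i'
    rw [hi']
  have f2 : cr ((κ, k * W) : Z2) (m1, j) = j' := by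
    show κ * j - k * W * m1 = j'
    rw [hj']
  have s1 := GS.gen (u := (1, 0)) (v := (ν, A)) (l := (l1, i)) (m := (m1, j)) (a := a) (a1 := a1)
    (z := z) isCoprime_one_left (by rw [e0]; exact pA) cl (by rw [e1]; exact p1)
    (by rw [e1]; exact p2) cm (by rw [e2]; exact p3) (by rw [e2]; exact p4)
    (by rw [e1]; exact cia) (by rw [e2]; exact cja) (by rw [e1, e2, e3]; exact hz)
  rw [e0] at s1
  have s2 := GS.gen (u := (κ, k * W)) (v := (ν, A)) (l := (l1, i)) (m := (m1, j)) (a := a')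
    (a1 := a1') (z := z') cu (by rw [f0]; exact pA') cl (by rw [f1]; exact p1')
    (by rw [f1, ha']; linarith) cm (by rw [f2]; exact p3') (by rw [f2, ha1']; linarith)
    (by rw [f1]; exact cia') (by rw [f2]; exact cja') (by rw [f1, f2, e3]; exact hz')
  rw [f0] at s2
  have s3 := GS.pencil (u := (1, 0)) (v := (ν, A)) (u' := (κ, k * W)) (v' := (ν, A))
    (l := (l1, i)) (m := (m1, j)) (a := a) (a1 := a1) (a' := a') (a1' := a1') cl cm
    (by rw [e0]; exact pA) (by rw [e1]; exact p1) (by rw [e1]; exact p2) (by rw [e2]; exact p3)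
    (by rw [e2]; exact p4) (by rw [f0]; exact pA') (by rw [f1]; exact p1')
    (by rw [f2]; exact p3')
    (by
      have ex : ((ν, A) : Z2) + (l1, i) + (m1, j) = (ν + l1 + m1, W) := by
        rw [hW]; rfl
      rw [ex]
      refine closure_pair_eq (α := 1) (β := -k) (γ := 0) (δ := 1) ?_ ?_ (Or.inl (by ring))
      · ext
        · simp only [Prod.fst_add, Prod.smul_fst, smul_eq_mul]
          rw [hκ]; ring
        · simp only [Prod.snd_add, Prod.smul_snd, smul_eq_mul]
          ring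
      · simp)
    (by rw [cr_sub_left, f1, e1, ha']; ring) (by rw [cr_sub_left, f2, e2, ha1']; ring)
  exact (s1.symm.trans s3).trans s2

end Pool.Agent.H4G.Six
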