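import Pool.Agent.H4G.Six.Can.Half

/-!
# Fork lines with one primitive leg (helper19)

`FK A a n g q s`: `L = {a ∣ x}`, `M = ⟨(0, n), (g, s)⟩`, `u = (q, A)`, `v = (-1, 0)`.  The vectors
`(0, 1) ∈ L` and `(0, n) ∈ M` are parallel; the areas are `A`, `a`, `n g`.
-/

set_option autoImplicit false

namespace Pool.Agent.H4G.Six

open Pool.Agent.H4G

/-- the fork state -/
def FK (A a n g q s : ℤ) : St6 := ⟨Ld (0, 1) a, lat (0, n) (g, s), (q, A), (-1, 0)⟩

theorem FK.latL (a : ℤ) : lat ((0, 1) : Z2) (a, 0) = Ld (0, 1) a := by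
  rw [lat_eq_Ld isCoprime_one_right]
  simp [cr]

theorem FK.ok {A a n g q s : ℤ} (hA : 0 < A) (hn : 0 < n) (hq : 0 < q) (hqa : q < a)
    (hqg : q < g) : (FK A a n g q s).Ok := by
  have e0 : cr ((q, A) : Z2) (-1, 0) = A := by simp [cr]
  have e1 : cr ((q, A) : Z2) (0, 1) = q := by simp [cr]
  have e2 : cr ((a, 0) : Z2) (0, 1) = a := by simp [cr]
  have e3 : cr ((q, A) : Z2) (0, n) = q * n := by simp [cr]
  have e4 : cr ((g, s) : Z2) (0, n) = g * n := by simp [cr]
  have b1 : Blk6 (Ld (0, 1) a) (q, A) (0, 1) ((a, 0) - (q, A)) :=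
    blk6_mk (FK.latL a) (by rw [e1]; exact hq) (by rw [e1, e2]; exact hqa)
  have b2 : Blk6 (lat (0, n) (g, s)) (q, A) (0, n) ((g, s) - (q, A)) :=
    blk6_mk rfl (by rw [e3]; positivity) (by
      rw [e3, e4]; exact mul_lt_mul_of_pos_right hqg hn)
  exact ⟨((q, A), (-1, 0), (0, 1), (a, 0) - (q, A), (0, n), (g, s) - (q, A)), rfl, rfl,
    by rw [← e0] at hA; exact hA, b1, b2⟩

/-- a lattice with coprime heights, explicit generator -/
theorem lat_eq_gen {u l p : Z2} {a α β : ℤ} (ha : cr p l = a)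
    (hab : α * cr u l + β * cr u p = 1) : lat l p = Ld (α • l + β • p) a := by
  have h1 : cr u (α • l + β • p) = 1 := by
    rw [cr_add_right, cr_smul_right, cr_smul_right]; linarith
  have hc : IsCoprime (α • l + β • p).1 (α • l + β • p).2 := by
    refine ⟨-u.2, u.1, ?_⟩
    have : u.1 * (α • l + β • p).2 - u.2 * (α • l + β • p).1 = 1 := h1
    linarith
  have e1 : lat (α • l + β • p) (-(cr u p) • l + cr u l • p) = lat l p := by
    refine closure_pair_eq (α := α) (β := β) (γ := -(cr u p)) (δ := cr u l) rfl rfl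
      (Or.inl ?_)
    linarith
  rw [← e1, lat_eq_Ld hc]
  have e2 : cr (-(cr u p) • l + cr u l • p) (α • l + β • p) = a := by
    simp only [cr_add_left, cr_add_right, cr_smul_left, cr_smul_right, cr_self]
    have e3 : cr l p = -a := by rw [cr_swap, ha]
    rw [e3, ha]
    linear_combination a * hab
  rw [e2]

/-- **FORK SOURCE**: the fork state is a generic state -/
theorem forkSrc {A a n g q s z : ℤ} (hA : 0 < A) (hn : 0 < n) (hq : 0 < q)
    (hqa : q < a) (hqg : q < g) (c1 : IsCoprime q (A * a)) (c2 : IsCoprime q g)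
    (c3 : IsCoprime n (q * s - A * g)) (hz1 : (Int.gcd a (n * g) : ℤ) ∣ z * n)
    (hz2 : (Int.gcd a (n * g) : ℤ) ∣ z * (q * (q * s - A * g)) - g) :
    SEq6 (FK A a n g q s) (PG A a (n * g) z) := by
  have e0 : cr ((q, A) : Z2) (-1, 0) = A := by simp [cr]
  have hok := FK.ok (s := s) hA hn hq hqa hqg
  -- the generator of `L`
  obtain ⟨y, x, hxy⟩ := c1
  have eL : Ld ((0, 1) : Z2) a = Ld (-(a * x), y) a := by
    apply Ld_congr
    intro w
    have e1 : cr w (0, 1) = w.1 := by simp [cr]
    have e2 : cr w (-(a * x), y) = w.1 * y - w.2 * -(a * x) := rfl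
    rw [e1, e2]
    constructor
    · intro h
      exact dvd_sub (h.mul_right _) ⟨-(w.2 * x), by ring⟩
    · intro h
      have h3 : a ∣ w.1 * y := by
        have := dvd_add h (⟨-(w.2 * x), by ring⟩ : a ∣ w.2 * -(a * x))
        rwa [sub_add_cancel] at this
      have h4 : w.1 = q * (w.1 * y) + a * (x * A * w.1) := by linear_combination (-w.1) * hxy
      rw [h4]
      exact dvd_add (h3.mul_left _) (dvd_mul_right _ _)
  -- the generator of `M`
  have c4 : IsCoprime (q * n) (q * s - A * g) := by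
    refine IsCoprime.mul_left ?_ c3
    have h1 : IsCoprime q (A * g) := by
      refine IsCoprime.mul_right ⟨y, x * a, by linear_combination hxy⟩ c2
    obtain ⟨b1, b2, hb⟩ := h1
    exact ⟨b1 + b2 * s, -b2, by linear_combination hb⟩
  obtain ⟨α, β, hab⟩ := c4
  have e3 : cr ((q, A) : Z2) (0, n) = q * n := by simp [cr]
  have e4 : cr ((g, s) : Z2) (0, n) = n * g := by simp [cr]; ring
  have e5 : cr ((q, A) : Z2) (g, s) = q * s - A * g := rfl
  have eM : lat ((0, n) : Z2) (g, s) = Ld (α • (0, n) + β • (g, s)) (n * g) :=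
    lat_eq_gen (u := (q, A)) e4 (by rw [e3, e5]; exact hab)
  have em : (α • ((0, n) : Z2) + β • ((g, s) : Z2)) = (β * g, α * n + β * s) := by
    ext <;> simp
  rw [em] at eM
  have eF : FK A a n g q s =
      GS (q, A) (-1, 0) (-(a * x), y) (β * g, α * n + β * s) a (n * g) := by
    simp only [FK, GS, eL, eM]
  rw [eF] at hok ⊢
  have f1 : cr ((q, A) : Z2) (-(a * x), y) = 1 := by
    show q * y - A * -(a * x) = 1
    linear_combination hxy
  have f2 : cr ((q, A) : Z2) (β * g, α * n + β * s) = 1 := by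
    show q * (α * n + β * s) - A * (β * g) = 1
    linear_combination hab
  have hu : IsCoprime ((q, A) : Z2).1 ((q, A) : Z2).2 := ⟨y, a * x, by
    show y * q + a * x * A = 1
    linear_combination hxy⟩
  have key := GS.gen' (z := z) hok hu (by rw [f1]; exact isCoprime_one_left)
    (by rw [f2]; exact isCoprime_one_left) (by
      rw [f1, f2]
      have ga : (Int.gcd a (n * g) : ℤ) ∣ a := Int.gcd_dvd_left _ _
      have e6 : cr ((-(a * x), y) : Z2) (β * g, α * n + β * s) =
          -(a * x) * (α * n + β * s) - y * (β * g) := rfl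
      rw [e6]
      have e7 : z * (1 * 1) + (-(a * x) * (α * n + β * s) - y * (β * g)) =
          y * β * (z * (q * (q * s - A * g)) - g) + (z * n) * (α * q) +
            a * (z * (x * A) * (β * (q * s - A * g)) - x * (α * n + β * s)) := by
        linear_combination (-z) * hab - z * (β * (q * s - A * g)) * hxy
      rw [e7]
      exact dvd_add (dvd_add (hz2.mul_left _) (hz1.mul_right _)) (ga.mul_right _))
  rw [e0] at key
  exact key

/-- **FORK LINE** -/
theorem forkUp {A a n g q s k : ℤ} (hA : 0 < A) (hn : 0 < n) (hk : 0 ≤ k) (hkq : k < q)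
    (hqa : q < a) (hqg : q < g)
    (c1 : ∀ p : ℕ, p.Prime → (p : ℤ) ∣ (A + (1 + n) * q) * (a - q) * (g - q) →
      ¬ (p : ℤ) ∣ q - k)
    (c2 : ∀ p : ℕ, p.Prime → (p : ℤ) ∣ n →
      ¬ (p : ℤ) ∣ (q * s - A * g) + k * (A + q - g - s)) :
    ∃ z' : ℤ, SEq6 (FK A a n g q s) (PG (A + (1 + n) * k) (a - k) (n * (g - k)) z') := by
  have hok := FK.ok (s := s) hA hn (by linarith) hqa hqg
  have e0 : cr ((q, A) : Z2) (-1, 0) = A := by simp [cr]
  have e1 : cr ((q, A) : Z2) (0, 1) = q := by simp [cr]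
  have e2 : cr ((a, 0) : Z2) (0, 1) = a := by simp [cr]
  have e3 : cr ((q, A) : Z2) (0, n) = q * n := by simp [cr]
  have e4 : cr ((g, s) : Z2) (0, n) = g * n := by simp [cr]
  have hu' : ((q - k, A + (1 + n) * k) : Z2) = (q, A) + k • ((-1, 0) + (0, 1) + (0, n)) := by
    ext
    · simp; ring
    · simp; ring
  have f0 : cr ((q - k, A + (1 + n) * k) : Z2) (-1, 0) = A + (1 + n) * k := by simp [cr]
  have f1 : cr ((q - k, A + (1 + n) * k) : Z2) (0, 1) = q - k := by simp [cr]
  have f3 : cr ((q - k, A + (1 + n) * k) : Z2) (0, n) = (q - k) * n := by simp [cr]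
  have hA' : 0 < A + (1 + n) * k := by nlinarith
  have eL : cr ((q - k, A + (1 + n) * k) : Z2)
      ((a, 0) + ((q - k, A + (1 + n) * k) - (q, A))) =
        (q - k) * ((1 + n) * k) - (A + (1 + n) * k) * (a - k) := by
    have : ((a, 0) + ((q - k, A + (1 + n) * k) - (q, A)) : Z2) = (a - k, (1 + n) * k) := by
      ext
      · simp; ring
      · simp
    rw [this]; rfl
  have eM : cr ((q - k, A + (1 + n) * k) : Z2)
      ((g, s) + ((q - k, A + (1 + n) * k) - (q, A))) =
        (q - k) * (s + (1 + n) * k) - (A + (1 + n) * k) * (g - k) := by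
    have : ((g, s) + ((q - k, A + (1 + n) * k) - (q, A)) : Z2) = (g - k, s + (1 + n) * k) := by
      ext
      · simp; ring
      · simp
    rw [this]; rfl
  refine half (L := Ld (0, 1) a) (M := lat (0, n) (g, s)) (u := (q, A)) (v := (-1, 0))
    (u' := (q - k, A + (1 + n) * k)) (l := (0, 1)) (p := (a, 0)) (m := (0, n)) (p' := (g, s))
    (k := k) (by rw [e0]; exact hA) (FK.latL a) (by rw [e1]; linarith) (by rw [e1, e2]; exact hqa)
    rfl (by rw [e3]; exact mul_pos (by linarith) hn)
    (by rw [e3, e4]; exact mul_lt_mul_of_pos_right hqg hn) hu' f0 (by rw [e2, e1, f1]; ring)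
    (by rw [e4, e3, f3]; ring) hA' (by rw [f1]; linarith) (by
      rw [f3]; exact mul_pos (by linarith) hn) ?_ ?_
  · rw [f1, eL]
    refine isCoprime_of_prime fun p hp h2 h1 => ?_
    have h3 : (p : ℤ) ∣ (A + (1 + n) * q) * (a - q) := by
      have e : (A + (1 + n) * q) * (a - q) =
          -((q - k) * ((1 + n) * k) - (A + (1 + n) * k) * (a - k)) +
            (q - k) * ((1 + n) * k + (1 + n) * (a - k) - (A + (1 + n) * q)) := by ring
      rw [e]
      exact dvd_add ((dvd_neg).2 h2) (h1.mul_right _)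
    exact c1 p hp (h3.mul_right _) h1
  · rw [f3, eM]
    refine isCoprime_of_prime fun p hp h2 h1 => ?_
    have hp' := Nat.prime_iff_prime_int.1 hp
    rcases hp'.dvd_or_dvd h1 with h3 | h3
    · have h4 : (p : ℤ) ∣ (A + (1 + n) * q) * (g - q) := by
        have e : (A + (1 + n) * q) * (g - q) =
            -((q - k) * (s + (1 + n) * k) - (A + (1 + n) * k) * (g - k)) +
              (q - k) * (s + (1 + n) * k + (1 + n) * (g - k) - (A + (1 + n) * q)) := by ring
        rw [e]
        exact dvd_add ((dvd_neg).2 h2) (h3.mul_right _)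
      refine c1 p hp ?_ h3
      have e : (A + (1 + n) * q) * (a - q) * (g - q) = (A + (1 + n) * q) * (g - q) * (a - q) := by
        ring
      rw [e]
      exact h4.mul_right _
    · refine c2 p hp h3 ?_
      have e : (q * s - A * g) + k * (A + q - g - s) =
          ((q - k) * (s + (1 + n) * k) - (A + (1 + n) * k) * (g - k)) -
            n * (k * (q - k) - k * (g - k)) := by ring
      rw [e]
      exact dvd_sub h2 (h3.mul_right _)

end Pool.Agent.H4G.Six
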