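import Pool.Agent.H4G.Six.Can.Up
import Pool.Agent.H4G.Six.Can.Ev
import Pool.Agent.H4G.Six.Lam6

/-!
# Half edges: from an arbitrary state to a generic state (helper19)
-/

set_option autoImplicit false

namespace Pool.Agent.H4G.Six

open Pool.Agent.H4G

variable {N : ℤ} {J Z : ℕ}

/-- the relation between three vectors -/
theorem cr_three (u l p : Z2) : cr u l • p = cr p l • u + cr u p • l := by
  ext
  · simp only [Prod.smul_fst, Prod.fst_add, smul_eq_mul, cr]; ring
  · simp only [Prod.smul_snd, Prod.snd_add, smul_eq_mul, cr]; ring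

/-- content one from a coprime area -/
theorem cop_cont {u l p : Z2} (hu : IsCoprime u.1 u.2) (h : IsCoprime (cr u l) (cr p l)) :
    IsCoprime (cr u l) (cr u p) := by
  refine isCoprime_of_prime fun q hq h1 h2 => ?_
  have h3 := cr_three u l p
  have e1 : (q : ℤ) ∣ cr p l * u.1 := by
    have := congrArg Prod.fst h3
    simp only [Prod.smul_fst, Prod.fst_add, smul_eq_mul] at this
    have e : cr p l * u.1 = cr u l * p.1 - cr u p * l.1 := by linarith
    rw [e]; exact dvd_sub (h2.mul_right _) (h1.mul_right _)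
  have e2 : (q : ℤ) ∣ cr p l * u.2 := by
    have := congrArg Prod.snd h3
    simp only [Prod.smul_snd, Prod.snd_add, smul_eq_mul] at this
    have e : cr p l * u.2 = cr u l * p.2 - cr u p * l.2 := by linarith
    rw [e]; exact dvd_sub (h2.mul_right _) (h1.mul_right _)
  have hq' := Nat.prime_iff_prime_int.1 hq
  have h4 : ¬ (q : ℤ) ∣ cr p l := fun h5 => not_dvd_of_isCoprime h hq h5 h2
  have h5 := (hq'.dvd_or_dvd e1).resolve_left h4
  have h6 := (hq'.dvd_or_dvd e2).resolve_left h4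
  exact not_dvd_of_isCoprime hu hq h6 h5

/-- the same if `u × l` and the area may have common factors `2` -/
theorem cop_cont2 {u l p : Z2} (hu : IsCoprime u.1 u.2)
    (h : ∀ q : ℕ, q.Prime → ¬ (q : ℤ) ∣ 2 → (q : ℤ) ∣ cr p l → ¬ (q : ℤ) ∣ cr u l)
    (h2 : ¬ (2 : ℤ) ∣ cr u p) : IsCoprime (cr u l) (cr u p) := by
  refine (cop_of_odd2 h2 fun q hq hq2 h1 h2 => ?_).symm
  have h3 := cr_three u l p
  have e1 : (q : ℤ) ∣ cr p l * u.1 := by
    have := congrArg Prod.fst h3
    simp only [Prod.smul_fst, Prod.fst_add, smul_eq_mul] at this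
    have e : cr p l * u.1 = cr u l * p.1 - cr u p * l.1 := by linarith
    rw [e]; exact dvd_sub (h1.mul_right _) (h2.mul_right _)
  have e2 : (q : ℤ) ∣ cr p l * u.2 := by
    have := congrArg Prod.snd h3
    simp only [Prod.smul_snd, Prod.snd_add, smul_eq_mul] at this
    have e : cr p l * u.2 = cr u l * p.2 - cr u p * l.2 := by linarith
    rw [e]; exact dvd_sub (h1.mul_right _) (h2.mul_right _)
  have hq' := Nat.prime_iff_prime_int.1 hq
  have h4 : ¬ (q : ℤ) ∣ cr p l := fun h5 => h q hq hq2 h5 h1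
  have h5 := (hq'.dvd_or_dvd e1).resolve_left h4
  have h6 := (hq'.dvd_or_dvd e2).resolve_left h4
  exact not_dvd_of_isCoprime hu hq h6 h5

/-- a lattice whose heights over `u` are all integers is `Ld l₀ a` with `u × l₀ = 1` -/
theorem exists_gen {u l p : Z2} {a : ℤ} (ha : cr p l = a) (h : IsCoprime (cr u l) (cr u p)) :
    ∃ l0 : Z2, cr u l0 = 1 ∧ IsCoprime l0.1 l0.2 ∧ lat l p = Ld l0 a := by
  obtain ⟨α, β, hab⟩ := h
  refine ⟨α • l + β • p, ?_, ?_, ?_⟩
  · rw [cr_add_right, cr_smul_right, cr_smul_right]; linarith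
  · have h1 : cr u (α • l + β • p) = 1 := by
      rw [cr_add_right, cr_smul_right, cr_smul_right]; linarith
    refine ⟨-u.2, u.1, ?_⟩
    have : u.1 * (α • l + β • p).2 - u.2 * (α • l + β • p).1 = 1 := h1
    linarith
  · have hc : IsCoprime (α • l + β • p).1 (α • l + β • p).2 := by
      have h1 : cr u (α • l + β • p) = 1 := by
        rw [cr_add_right, cr_smul_right, cr_smul_right]; linarith
      refine ⟨-u.2, u.1, ?_⟩
      have : u.1 * (α • l + β • p).2 - u.2 * (α • l + β • p).1 = 1 := h1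
      linarith
    have e1 : lat (α • l + β • p) (-(cr u p) • l + cr u l • p) = lat l p := by
      refine closure_pair_eq (α := α) (β := β) (γ := -(cr u p)) (δ := cr u l) rfl rfl
        (Or.inl ?_)
      linarith
    rw [← e1, lat_eq_Ld hc]
    have e2 : cr (-(cr u p) • l + cr u l • p) (α • l + β • p) = a := by
      simp only [cr_add_left, cr_add_right, cr_smul_left, cr_smul_right, cr_self]
      have e3 : cr l p = -a := by rw [cr_swap, ha]
      rw [e3, ha]
      linear_combination a * hab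
    rw [e2]

/-- `z` matters only modulo `gcd (a, a₁)` -/
theorem PG.congr {A a a1 z z' : ℤ} (hA : 0 < A) (ha : 1 < a) (ha1 : 1 < a1)
    (h : (Int.gcd a a1 : ℤ) ∣ z' - z) : SEq6 (PG A a a1 z) (PG A a a1 z') := by
  have h0 : cr ((1, 0) : Z2) (0, A) = A := by simp [cr]
  have k1 : ∀ z : ℤ, cr ((1, 0) : Z2) (z, 1) = 1 := fun z => by simp [cr]
  have k2 : cr ((0, 1) : Z2) (z, 1) = -z := by simp [cr]
  have := GS.gen' (u := (1, 0)) (v := (0, A)) (l := (0, 1)) (m := (z, 1)) (a := a) (a1 := a1)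
    (z := z') (PG.ok hA ha ha1) isCoprime_one_left (by rw [k1]; exact isCoprime_one_left)
    (by rw [k1]; exact isCoprime_one_left) (by
      rw [k1, k1, k2, mul_one, mul_one, ← sub_eq_add_neg]; exact h)
  rw [h0] at this
  exact this

/-- **a state with contents one is generic** -/
theorem gen2 {L M : AddSubgroup Z2} {u v l p m p' : Z2} {a a1 : ℤ} (hok : St6.Ok ⟨L, M, u, v⟩)
    (hL : lat l p = L) (hM : lat m p' = M) (ha : cr p l = a) (ha1 : cr p' m = a1)
    (cl : IsCoprime (cr u l) (cr u p)) (cm : IsCoprime (cr u m) (cr u p')) :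
    ∃ z : ℤ, SEq6 ⟨L, M, u, v⟩ (PG (cr u v) a a1 z) := by
  obtain ⟨l0, h1, h2, h3⟩ := exists_gen ha cl
  obtain ⟨m0, g1, g2, g3⟩ := exists_gen ha1 cm
  have hu : IsCoprime u.1 u.2 := by
    refine ⟨l0.2, -l0.1, ?_⟩
    have : u.1 * l0.2 - u.2 * l0.1 = 1 := h1
    linarith
  have e : (⟨L, M, u, v⟩ : St6) = GS u v l0 m0 a a1 := by
    rw [GS, ← h3, ← g3, hL, hM]
  rw [e] at hok ⊢
  refine ⟨-cr l0 m0, GS.gen' hok hu (by rw [h1]; exact isCoprime_one_left)
    (by rw [g1]; exact isCoprime_one_left) (by rw [h1, g1]; simp)⟩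

/-- the same with coprime areas -/
theorem gen2' {L M : AddSubgroup Z2} {u v l p m p' : Z2} {a a1 : ℤ} (hok : St6.Ok ⟨L, M, u, v⟩)
    (hL : lat l p = L) (hM : lat m p' = M) (ha : cr p l = a) (ha1 : cr p' m = a1)
    (cl : IsCoprime (cr u l) (cr u p)) (cm : IsCoprime (cr u m) (cr u p'))
    (hA : 0 < cr u v) (h2 : 1 < a) (h2' : 1 < a1) (hc : IsCoprime a a1) :
    SEq6 ⟨L, M, u, v⟩ (PG (cr u v) a a1 0) := by
  obtain ⟨z, hz⟩ := gen2 hok hL hM ha ha1 cl cm
  exact hz.trans (PG.congr hA h2 h2' (gcd_dvd_of_cop hc))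

/-- **HALF EDGE**: from an arbitrary state (bases `l, p` and `m, p'` in the windows) by
`u' = u + k (v + l + m)` to a generic state -/
theorem half {L M : AddSubgroup Z2} {u v u' l p m p' : Z2} {k A' a' a1' : ℤ} (h0 : 0 < cr u v)
    (hL : lat l p = L) (h1 : 0 < cr u l) (h2 : cr u l < cr p l)
    (hM : lat m p' = M) (h3 : 0 < cr u m) (h4 : cr u m < cr p' m)
    (hu' : u' = u + k • (v + l + m)) (hA' : cr u' v = A')
    (ha' : a' = cr p l - cr u l + cr u' l) (ha1' : a1' = cr p' m - cr u m + cr u' m)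
    (g0 : 0 < A') (g1 : 0 < cr u' l) (g2 : 0 < cr u' m)
    (cl : IsCoprime (cr u' l) (cr u' (p + (u' - u))))
    (cm : IsCoprime (cr u' m) (cr u' (p' + (u' - u)))) :
    ∃ z : ℤ, SEq6 ⟨L, M, u, v⟩ (PG A' a' a1' z) := by
  have s1 := SEq6.pencil (u' := u') (v' := v) h0 hL h1 h2 hM h3 h4 (by rw [hA']; exact g0) g1 g2
    (by
      rw [hu']
      refine closure_pair_eq (α := 1) (β := -k) (γ := 0) (δ := 1) ?_ ?_ (Or.inl (by ring))
      · module
      · module)
  obtain ⟨z, hz⟩ := gen2 s1.ok' rfl rfl (a := a') (a1 := a1') (by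
      rw [ha', cr_add_left, cr_sub_left]; ring) (by
      rw [ha1', cr_add_left, cr_sub_left]; ring) cl cm
  rw [hA'] at hz
  exact ⟨z, s1.trans hz⟩

/-! ## The parity of `z` -/

theorem lamL_Ld (l : Z2) (hl : IsCoprime l.1 l.2) {a : ℤ} (ha : (2 : ℤ) ∣ a) :
    lamL (Ld l a) = m2 l := by
  obtain ⟨p0, hp0⟩ := exists_dual hl
  have e : cr (a • p0) l = a := by rw [cr_smul_left, hp0, mul_one]
  have e2 : lat l (a • p0) = Ld l a := by rw [lat_eq_Ld hl, e]
  rw [← e2, lamL_lat]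
  have h0 : m2 (a • p0) = 0 := by
    have h3 : (a : ZMod 2) = 0 := (ZMod.intCast_zmod_eq_zero_iff_dvd _ 2).2 (by exact_mod_cast ha)
    unfold m2
    ext
    · simp [h3]
    · simp [h3]
  unfold lam
  rw [h0]
  have key : ∀ x : F2, lam2 x 0 = x := by decide
  exact key _

theorem lam_uv {A : ℤ} (hA : (2 : ℤ) ∣ A) : lam (1, 0) (0, A) = (1, 0) := by
  have h3 : (A : ZMod 2) = 0 := (ZMod.intCast_zmod_eq_zero_iff_dvd _ 2).2 (by exact_mod_cast hA)
  unfold lam
  have e1 : m2 ((1, 0) : Z2) = (1, 0) := by unfold m2; simp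
  have e2 : m2 ((0, A) : Z2) = (0, 0) := by unfold m2; simp [h3]
  rw [e1, e2]
  decide

/-- the parity invariant of the even generic states -/
theorem PG.inv_even {A a a1 z : ℤ} (hA : (2 : ℤ) ∣ A) (ha : (2 : ℤ) ∣ a) (ha1 : (2 : ℤ) ∣ a1) :
    (PG A a a1 z).inv = 0 ↔ ¬ (2 : ℤ) ∣ z := by
  have e : (PG A a a1 z).inv = lam (1, 0) (0, A) + lamL (Ld (0, 1) a) + lamL (Ld (z, 1) a1) := rfl
  rw [e, lam_uv hA, lamL_Ld (0, 1) isCoprime_one_right ha, lamL_Ld (z, 1) isCoprime_one_right ha1]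
  have e1 : m2 ((0, 1) : Z2) = (0, 1) := by unfold m2; simp
  have e2 : m2 ((z, 1) : Z2) = ((z : ZMod 2), 1) := by unfold m2; simp
  rw [e1, e2]
  have hz : (2 : ℤ) ∣ z ↔ (z : ZMod 2) = 0 := by
    rw [ZMod.intCast_zmod_eq_zero_iff_dvd]; norm_num
  rw [hz]
  generalize (z : ZMod 2) = w
  revert w
  decide

/-- an even generic state with invariant `0` and `gcd (a, a₁) = 2` is `PG A a a₁ 1` -/
theorem PG.to_one {S : St6} {A a a1 z : ℤ} (h : SEq6 S (PG A a a1 z)) (hS : S.inv = 0)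
    (hA0 : 0 < A) (hA : (2 : ℤ) ∣ A) (ha0 : 1 < a) (ha0' : 1 < a1) (hg : G2 a a1) :
    SEq6 S (PG A a a1 1) := by
  have h1 := (PG.inv_even hA hg.e hg.e').1 (h.inv_zero.1 hS)
  exact h.trans (PG.congr hA0 ha0 ha0' (hg.dvd (by omega)))

end Pool.Agent.H4G.Six
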