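import Pool.Agent.H4G.Six.Can.Red2

/-!
# Hubs: the states of level one with the same parities are equivalent (helper19)
-/

set_option autoImplicit false

namespace Pool.Agent.H4G.Six

open Pool.Agent.H4G

variable {N : ℤ} {J Z : ℕ}

/-- a number prime to `D` in a window of length `J` -/
theorem exists_cop (hB : Bg N J Z) {D : ℤ} (hD : 0 < D) {n : ℕ} (hn : n ≤ 20)
    (hDN : D ≤ (2 * N) ^ n) (z0 : ℤ) :
    ∃ y : ℤ, z0 ≤ y ∧ y < z0 + J ∧ IsCoprime y D := by
  obtain ⟨y, y1, y2, y3⟩ := sieveP (k := 1) (e := 1) hB.cap hD (hB.le hn hDN) (by norm_num)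
    ![fun p => p ∣ D] ![1] ![0]
    (by
      intro p _ i hi
      fin_cases i
      exact hi)
    (by
      intro p hp
      refine ⟨1, fun i hi => ?_⟩
      fin_cases i
      intro h
      exact prime_not_dvd_one hp (by simpa using h)) z0
  rw [pow_one] at y2
  exact ⟨y, y1, y2, isCoprime_of_prime fun p hp h1 h2 => y3 p hp 0 h1 (by simpa using h2)⟩

theorem odd_of_cop {y D : ℤ} (h : IsCoprime y (2 * D)) : Odd y := by
  rw [← Int.not_even_iff_odd, even_iff_two_dvd]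
  intro h2
  exact not_dvd_of_isCoprime h Nat.prime_two (by push_cast; exact dvd_mul_right _ _)
    (by exact_mod_cast h2)

/-- the star of a hub, both tori odd -/
theorem hubA (hB : Bg N J Z) {a a1 b : ℤ} (hN : Odd N) (h : 1 + a + a1 = N)
    (hg : Int.gcd a a1 = 1) (hb : Odd b) (hcb : IsCoprime b (N - 3)) (pa : 0 < a) (pa1 : 0 < a1)
    (c1 : 2 * b + 4 + (J : ℤ) ^ 2 < 3 * a) (c2 : 3 * a ≤ N - 1 + 2 * b - (J : ℤ) ^ 2)
    (c3 : (J : ℤ) ^ 2 + 1 < b) (c4 : 2 * b ≤ N) (c5 : 2 * (J : ℤ) ^ 2 + 20 ≤ N) :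
    SEq6 (PG 1 a a1 0) (PG 3 b (N - 3 - b) 0) := by
  have hJ := hB.J1
  have hJ2 : 1 ≤ (J : ℤ) ^ 2 := one_le_pow₀ hJ
  have hao : Odd a := by
    rw [← Int.not_even_iff_odd]
    intro he
    have h1 : (2 : ℤ) ∣ a := even_iff_two_dvd.1 he
    have h2 : (2 : ℤ) ∣ a1 := by
      obtain ⟨r, hr⟩ := hN
      omega
    have := Int.dvd_coe_gcd h1 h2
    rw [hg] at this
    norm_num at this
  obtain ⟨r, hr⟩ := hao
  obtain ⟨s, hs⟩ := hb
  have hcb' : IsCoprime b (N - 3 - b) := by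
    obtain ⟨x, y, hxy⟩ := hcb
    exact ⟨x + y, y, by linear_combination hxy⟩
  have hE : Odd (b - a + 1) := ⟨s - r, by linarith⟩
  have e1 : (3 : ℤ) = 1 + 2 := by norm_num
  have e2 : IsCoprime (1 : ℤ) (b - a + 1) := isCoprime_one_left
  rw [e1]
  rcases le_or_gt a b with hle | hle
  · exact yEdge hB (j0 := b - a + 1 + 2) (by norm_num) hE e2 (by ring)
      (by linarith) h pa pa1 (by linarith) (by linarith) (Or.inl ⟨hg, rfl⟩) hcb'
      (fun h => absurd h (by decide)) (by linarith) (by linarith) (by linarith) (by linarith)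
      (by linarith) (by linarith)
  · exact yEdge hB (j0 := 2 * (a - b)) (by norm_num) hE e2 (by ring)
      (by linarith) h pa pa1 (by linarith) (by linarith) (Or.inl ⟨hg, rfl⟩) hcb'
      (fun h => absurd h (by decide)) (by linarith) (by linarith) (by linarith) (by linarith)
      (by linarith) (by linarith)

/-- the star of a hub, at least one torus even -/
theorem hubS (hB : Bg N J Z) {a a1 b z : ℤ} (h : 1 + a + a1 = N)
    (hg : GZ a a1 z) (ha : Even a) (hb : Odd b) (hcb : IsCoprime b (N - 4)) (pa : 0 < a)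
    (pa1 : 0 < a1)
    (c1 : 3 * b + 10 + 2 * (J : ℤ) ^ 2 < 4 * a) (c2 : 2 * a ≤ N - 1 + b - (J : ℤ) ^ 2)
    (c3 : 2 * (J : ℤ) ^ 2 + 2 < b) (c4 : b + 5 + (J : ℤ) ^ 2 ≤ N) :
    SEq6 (PG 1 a a1 z) (PG 4 b (N - 4 - b) 0) := by
  have hJ := hB.J1
  have hJ2 : 1 ≤ (J : ℤ) ^ 2 := one_le_pow₀ hJ
  obtain ⟨r, hr⟩ := ha
  have hb' := hb
  obtain ⟨s, hs⟩ := hb
  have hcb' : IsCoprime b (N - 4 - b) := by
    obtain ⟨x, y, hxy⟩ := hcb
    exact ⟨x + y, y, by linear_combination hxy⟩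
  have hE : Odd (b - a + 2) := ⟨s - r + 1, by linarith⟩
  have e1 : (4 : ℤ) = 2 + 2 := by norm_num
  have e2 : IsCoprime (2 : ℤ) (b - a + 2) := by
    obtain ⟨t, ht⟩ := hE
    exact ⟨-t, 1, by linarith⟩
  rw [e1]
  rcases le_total a (b + 2) with hle | hle
  · exact yEdge hB (j0 := b - a + 2 + 2) (by norm_num) hE e2 (by ring)
      (by linarith) h pa pa1 (by linarith) (by linarith) hg hcb'
      (fun _ => hb') (by linarith) (by linarith) (by linarith) (by linarith)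
      (by linarith) (by linarith)
  · exact yEdge hB (j0 := a - b) (by norm_num) hE e2 (by ring)
      (by linarith) h pa pa1 (by linarith) (by linarith) hg hcb'
      (fun _ => hb') (by linarith) (by linarith) (by linarith) (by linarith)
      (by linarith) (by linarith)

/-- the sizes -/
theorem Bg.sizes (hB : Bg N J Z) : 100 ≤ (J : ℤ) ∧ 100 * (J : ℤ) ≤ (J : ℤ) ^ 2 ∧
    100 * (J : ℤ) ^ 2 ≤ (J : ℤ) ^ 4 ∧ 100 * (J : ℤ) ^ 4 ≤ N := by
  have hJ := hB.J20
  have h100 : (100 : ℤ) ≤ (J : ℤ) := by linarith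
  set X : ℤ := (J : ℤ) with hX
  have hX2 : 100 * X ≤ X ^ 2 := by nlinarith
  have hX3 : 100 * X ^ 2 ≤ X ^ 3 := by nlinarith [sq_nonneg X]
  have hX4 : 100 * X ^ 3 ≤ X ^ 4 := by nlinarith [pow_nonneg (show (0 : ℤ) ≤ X by linarith) 3]
  have hX5 : 100 * X ^ 4 ≤ X ^ 5 := by nlinarith [pow_nonneg (show (0 : ℤ) ≤ X by linarith) 4]
  have := hB.pw (n := 5) (by norm_num)
  exact ⟨h100, hX2, by linarith [sq_nonneg X], by linarith⟩

/-- **all states of level one with two odd tori are equivalent to one state** -/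
theorem levelA (hB : Bg N J Z) (hN : Odd N) : ∃ b : ℤ, ∀ a a1 z : ℤ, L1 N J a a1 z → z = 0 →
    SEq6 (PG 1 a a1 0) (PG 3 b (N - 3 - b) 0) := by
  obtain ⟨s1, s2, s3, s4⟩ := hB.sizes
  have hJ2 : 1 ≤ (J : ℤ) ^ 2 := by linarith
  -- the two hubs
  have hub : ∀ z0 : ℤ, ∃ b : ℤ, z0 ≤ b ∧ b < z0 + J ∧ Odd b ∧ IsCoprime b (N - 3) := by
    intro z0
    obtain ⟨y, y1, y2, y3⟩ := exists_cop hB (D := 2 * (N - 3)) (by linarith) (n := 1)
      (by norm_num) (by rw [pow_one]; linarith) z0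
    exact ⟨y, y1, y2, odd_of_cop y3, y3.of_mul_right_right⟩
  obtain ⟨b0, h1, h2, h3, h4⟩ := hub (4 * (J : ℤ) ^ 2)
  obtain ⟨b1, g1, g2, g3, g4⟩ := hub (N / 4 + (J : ℤ) ^ 2)
  obtain ⟨q, hq, hq'⟩ : ∃ q : ℤ, 4 * q ≤ N ∧ N < 4 * q + 4 := ⟨N / 4, by omega, by omega⟩
  have hqe : N / 4 = q := by omega
  rw [hqe] at g1 g2
  -- the stars
  have star0 : ∀ a a1 : ℤ, 1 + a + a1 = N → Int.gcd a a1 = 1 → (J : ℤ) ^ 4 ≤ a → 4 * a ≤ N →
      SEq6 (PG 1 a a1 0) (PG 3 b0 (N - 3 - b0) 0) := by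
    intro a a1 k1 k2 k3 k4
    exact hubA hB hN k1 k2 h3 h4 (by linarith) (by linarith) (by linarith) (by linarith)
      (by linarith) (by linarith) (by linarith)
  have star1 : ∀ a a1 : ℤ, 1 + a + a1 = N → Int.gcd a a1 = 1 → N ≤ 5 * a → 2 * a ≤ N - 1 →
      SEq6 (PG 1 a a1 0) (PG 3 b1 (N - 3 - b1) 0) := by
    intro a a1 k1 k2 k3 k4
    exact hubA hB hN k1 k2 g3 g4 (by linarith) (by linarith) (by linarith) (by linarith)
      (by linarith) (by linarith) (by linarith)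
  -- the connection of the hubs
  have conn : SEq6 (PG 3 b1 (N - 3 - b1) 0) (PG 3 b0 (N - 3 - b0) 0) := by
    obtain ⟨y, y1, y2, y3⟩ := exists_cop hB (D := N - 1) (by linarith) (n := 1)
      (by norm_num) (by rw [pow_one]; linarith) (N / 5 + 1)
    have hgc : Int.gcd y (N - 1 - y) = 1 := by
      rw [← Int.isCoprime_iff_gcd_eq_one]
      obtain ⟨x, w, hxw⟩ := y3
      exact ⟨x + w, w, by linear_combination hxw⟩
    have t0 := star0 y (N - 1 - y) (by ring) hgc (by omega) (by omega)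
    have t1 := star1 y (N - 1 - y) (by ring) hgc (by omega) (by omega)
    exact t1.symm.trans t0
  have main : ∀ a a1 : ℤ, 1 + a + a1 = N → Int.gcd a a1 = 1 → (J : ℤ) ^ 4 ≤ a → 2 * a ≤ N - 1 →
      SEq6 (PG 1 a a1 0) (PG 3 b0 (N - 3 - b0) 0) := by
    intro a a1 k1 k2 k3 k4
    by_cases h : 4 * a ≤ N
    · exact star0 a a1 k1 k2 k3 h
    · exact (star1 a a1 k1 k2 (by linarith) k4).trans conn
  refine ⟨b0, fun a a1 z h hz => ?_⟩
  subst hz
  have hg : Int.gcd a a1 = 1 := by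
    rcases h.gz with h5 | h5
    · exact h5.1
    · exact absurd h5.2 (by norm_num)
  rcases le_total a a1 with hle | hle
  · exact main a a1 h.vol hg h.big (by linarith [h.vol])
  · have hp : 1 < a := by linarith [h.big]
    have hp' : 1 < a1 := by linarith [h.big']
    refine (PG.swap one_pos hp hp' (z' := 0) (by simp)).trans ?_
    exact main a1 a (by linarith [h.vol]) (by rw [Int.gcd_comm]; exact hg) h.big'
      (by linarith [h.vol])

end Pool.Agent.H4G.Six
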