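import Pool.Agent.H4G.Six.State6
import Pool.Agent.H4G.Six.Norm6

/-!
# Cocyclic lattices and generic states (helper19)

`Ld l a` is the lattice of all `x` with `a ∣ x × l`; for a primitive vector `l` this is the lattice
of index `a` which contains `l`. `PG A a a1 z` is the generic state `u = (1, 0)`, `v = (0, A)`,
`L = {a ∣ x}`, `M = {a1 ∣ x - z y}`.
-/

set_option autoImplicit false

namespace Pool.Agent.H4G.Six

open Pool.Agent.H4G Matrix MatrixGroups

/-- the lattice of all `x` with `a ∣ x × l` -/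
def Ld (l : Z2) (a : ℤ) : AddSubgroup Z2 where
  carrier := {x | a ∣ cr x l}
  zero_mem' := by simp [cr_zero_left]
  add_mem' := by
    intro x y hx hy
    show a ∣ cr (x + y) l
    rw [cr_add_left]; exact dvd_add hx hy
  neg_mem' := by
    intro x hx
    show a ∣ cr (-x) l
    rw [cr_neg_left]; exact (dvd_neg).2 hx

theorem mem_Ld {l x : Z2} {a : ℤ} : x ∈ Ld l a ↔ a ∣ cr x l := Iff.rfl

/-- a vector parallel to a primitive vector is a multiple of it -/
theorem par_prim {l y : Z2} (hl : IsCoprime l.1 l.2) (h : cr y l = 0) : ∃ k : ℤ, y = k • l := by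
  obtain ⟨s, t, hst⟩ := hl
  have h' : y.1 * l.2 = y.2 * l.1 := by
    have : y.1 * l.2 - y.2 * l.1 = 0 := h
    linarith
  refine ⟨s * y.1 + t * y.2, ?_⟩
  ext
  · show y.1 = (s * y.1 + t * y.2) * l.1
    linear_combination (-y.1) * hst + t * h'
  · show y.2 = (s * y.1 + t * y.2) * l.2
    linear_combination (-y.2) * hst - s * h'

theorem exists_dual {l : Z2} (hl : IsCoprime l.1 l.2) : ∃ p : Z2, cr p l = 1 := by
  obtain ⟨s, t, hst⟩ := hl
  exact ⟨(t, -s), by show t * l.2 - (-s) * l.1 = 1; linarith⟩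

theorem lat_eq_Ld {l p : Z2} (hl : IsCoprime l.1 l.2) : lat l p = Ld l (cr p l) := by
  apply le_antisymm
  · rw [AddSubgroup.closure_le]
    rintro w (rfl | rfl)
    · show cr p w ∣ cr w w
      rw [cr_self]; exact dvd_zero _
    · show cr w l ∣ cr w l
      exact dvd_refl _
  · intro x hx
    obtain ⟨n, hn⟩ := mem_Ld.1 hx
    have h0 : cr (x - n • p) l = 0 := by
      rw [cr_sub_left, cr_smul_left, hn]; ring
    obtain ⟨k, hk⟩ := par_prim hl h0
    exact mem_lat.2 ⟨k, n, by rw [← hk]; abel⟩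

theorem map_Ld (g : SL(2, ℤ)) (l : Z2) (a : ℤ) : (Ld l a).map (act g) = Ld (act g l) a := by
  ext x
  rw [AddSubgroup.mem_map]
  constructor
  · rintro ⟨y, hy, rfl⟩
    show a ∣ cr (act g y) (act g l)
    rw [cr_act]; exact hy
  · intro hx
    have e : act g (act g⁻¹ x) = x := by rw [← act_mul, mul_inv_cancel, act_one]
    refine ⟨act g⁻¹ x, ?_, e⟩
    have : a ∣ cr x (act g l) := hx
    rw [← e, cr_act] at this
    exact this

/-- the action on states -/
def St6.act (g : SL(2, ℤ)) (S : St6) : St6 :=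
  ⟨S.L.map (H4G.act g), S.M.map (H4G.act g), H4G.act g S.u, H4G.act g S.v⟩

theorem Blk6.act (g : SL(2, ℤ)) {L : AddSubgroup Z2} {u l q : Z2} (h : Blk6 L u l q) :
    Blk6 (L.map (H4G.act g)) (H4G.act g u) (H4G.act g l) (H4G.act g q) := by
  obtain ⟨h1, h2, h3⟩ := h
  refine ⟨by rw [cr_act]; exact h1, by rw [cr_act]; exact h2, ?_⟩
  rw [← map_add, ← map_lat, h3]

theorem SEq6.act (g : SL(2, ℤ)) {S : St6} (h : S.Ok) : SEq6 S (S.act g) := by
  obtain ⟨⟨u, v, l, q, m, s⟩, hc⟩ := h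
  have hp := hc.pos
  obtain ⟨h1, h2, h3, h4, h5⟩ := hc
  refine ⟨(u, v, l, q, m, s), C6.map (H4G.act g) (u, v, l, q, m, s), ⟨h1, h2, h3, h4, h5⟩, ?_, ?_⟩
  · refine ⟨by rw [h1]; rfl, by rw [h2]; rfl, ?_, h4.act g, h5.act g⟩
    show 0 < cr (H4G.act g S.u) (H4G.act g S.v)
    rw [cr_act]; exact h3
  · exact ceq6_act g hp

/-- the state of two primitive vectors -/
def GS (u v l m : Z2) (a a1 : ℤ) : St6 := ⟨Ld l a, Ld m a1, u, v⟩

/-- the generic state -/
def PG (A a a1 z : ℤ) : St6 := GS (1, 0) (0, A) (0, 1) (z, 1) a a1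

theorem blk6_Ld {u l : Z2} {a : ℤ} (hl : IsCoprime l.1 l.2) (h1 : 0 < cr u l)
    (h2 : cr u l < a) : ∃ p : Z2, cr p l = a ∧ lat l p = Ld l a ∧ Blk6 (Ld l a) u l (p - u) := by
  obtain ⟨p0, hp0⟩ := exists_dual hl
  have e : cr (a • p0) l = a := by rw [cr_smul_left, hp0, mul_one]
  have e2 : lat l (a • p0) = Ld l a := by rw [lat_eq_Ld hl, e]
  exact ⟨a • p0, e, e2, blk6_mk e2 h1 (by rw [e]; exact h2)⟩

theorem GS.ok {u v l m : Z2} {a a1 : ℤ} (h0 : 0 < cr u v) (hl : IsCoprime l.1 l.2)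
    (h1 : 0 < cr u l) (h2 : cr u l < a) (hm : IsCoprime m.1 m.2) (h3 : 0 < cr u m)
    (h4 : cr u m < a1) : (GS u v l m a a1).Ok := by
  obtain ⟨p, _, _, hp⟩ := blk6_Ld hl h1 h2
  obtain ⟨p', _, _, hp'⟩ := blk6_Ld hm h3 h4
  exact ⟨(u, v, l, p - u, m, p' - u), rfl, rfl, h0, hp, hp'⟩

theorem GS.act (g : SL(2, ℤ)) (u v l m : Z2) (a a1 : ℤ) :
    (GS u v l m a a1).act g = GS (H4G.act g u) (H4G.act g v) (H4G.act g l) (H4G.act g m) a a1 := by
  simp only [GS, St6.act, map_Ld]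

theorem Ld_congr {l l' : Z2} {a : ℤ} (h : ∀ x : Z2, a ∣ cr x l ↔ a ∣ cr x l') : Ld l a = Ld l' a := by
  ext x; exact h x

/-- a solution of two congruences -/
theorem crt2 {a a1 x y : ℤ} (h : (Int.gcd a a1 : ℤ) ∣ y - x) : ∃ t : ℤ, a ∣ t - x ∧ a1 ∣ t - y := by
  obtain ⟨n, hn⟩ := h
  have hb := Int.gcd_eq_gcd_ab a a1
  refine ⟨x + a * (Int.gcdA a a1 * n), ⟨Int.gcdA a a1 * n, by ring⟩, ⟨-(Int.gcdB a a1 * n), ?_⟩⟩
  have : y - x = (a * Int.gcdA a a1 + a1 * Int.gcdB a a1) * n := by rw [← hb]; exact hn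
  linear_combination (-1 : ℤ) * this

/-- **GENERIC LEMMA**, for a state which is known to be positive. -/
theorem GS.gen' {u v l m : Z2} {a a1 z : ℤ} (hok : (GS u v l m a a1).Ok)
    (hu : IsCoprime u.1 u.2) (hla : IsCoprime (cr u l) a) (hma : IsCoprime (cr u m) a1)
    (hz : (Int.gcd a a1 : ℤ) ∣ z * (cr u l * cr u m) + cr l m) :
    SEq6 (GS u v l m a a1) (PG (cr u v) a a1 z) := by
  -- `u` becomes horizontal
  obtain ⟨s, t, hst⟩ := hu
  set g0 : SL(2, ℤ) := ⟨!![s, t; -u.2, u.1], by rw [Matrix.det_fin_two_of]; linarith⟩ with hg0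
  have e0 : ∀ p : Z2, H4G.act g0 p = (s * p.1 + t * p.2, cr u p) := by
    intro p
    rw [act_apply]
    ext
    · simp [hg0]
    · simp only [hg0, cr]
      simp
      ring
  set i : ℤ := cr u l with hi
  set j : ℤ := cr u m with hj
  set l1 : ℤ := s * l.1 + t * l.2 with hl1
  set m1 : ℤ := s * m.1 + t * m.2 with hm1
  have hlm : cr l m = l1 * j - m1 * i := by
    have := cr_act g0 l m
    rw [e0, e0] at this
    rw [← this]
    show l1 * j - i * m1 = _
    ring
  -- the shear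
  obtain ⟨x1, y1, hxy1⟩ := hla
  obtain ⟨x2, y2, hxy2⟩ := hma
  have hgc : (Int.gcd a a1 : ℤ) ∣ (x2 * (z * j - m1)) - (-(x1 * l1)) := by
    set g : ℤ := (Int.gcd a a1 : ℤ) with hg
    have ga : g ∣ a := Int.gcd_dvd_left ..
    have ga1 : g ∣ a1 := Int.gcd_dvd_right ..
    -- multiply by `i j`, a unit modulo `g`
    have e : (x2 * (z * j - m1)) - (-(x1 * l1)) =
        x1 * x2 * (z * (i * j) + cr l m) + a * (y1 * (x2 * (z * j - m1))) +
          a1 * (y2 * (x1 * l1)) := by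
      rw [hlm]
      linear_combination (-(x2 * (z * j - m1))) * hxy1 - (x1 * l1) * hxy2
    rw [e]
    exact dvd_add (dvd_add (hz.mul_left _) (ga.mul_right _)) (ga1.mul_right _)
  obtain ⟨w, hw1, hw2⟩ := crt2 hgc
  have hwl : a ∣ l1 + w * i := by
    obtain ⟨n, hn⟩ := hw1
    refine ⟨n * i + y1 * l1, ?_⟩
    linear_combination i * hn + (-l1) * hxy1
  have hwm : a1 ∣ m1 + w * j - z * j := by
    obtain ⟨n, hn⟩ := hw2
    refine ⟨n * j - y2 * (z * j - m1), ?_⟩
    linear_combination j * hn + (z * j - m1) * hxy2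
  set g : SL(2, ℤ) := shH w * g0 with hg
  have eg : ∀ p : Z2, H4G.act g p = ((s * p.1 + t * p.2) + w * cr u p, cr u p) := by
    intro p
    rw [hg, act_mul, e0, act_shH]
  have s1 := SEq6.act g hok
  rw [GS.act] at s1
  have eu : H4G.act g u = (1, 0) := by
    rw [eg, cr_self]
    simp only [mul_zero, add_zero]
    ext
    · simp only; linarith
    · rfl
  have eL : Ld (H4G.act g l) a = Ld (0, 1) a := by
    apply Ld_congr
    intro x
    rw [eg]
    have e1 : cr x (s * l.1 + t * l.2 + w * cr u l, cr u l) = x.1 * i - x.2 * (l1 + w * i) := rfl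
    have e2 : cr x (0, 1) = x.1 := by simp [cr]
    rw [e1, e2]
    constructor
    · intro h
      have h5 : a ∣ x.1 * i := by
        have := dvd_add h (hwl.mul_left x.2)
        rwa [sub_add_cancel] at this
      have : x.1 = x1 * (x.1 * i) + a * (y1 * x.1) := by linear_combination (-x.1) * hxy1
      rw [this]
      exact dvd_add (h5.mul_left _) (dvd_mul_right _ _)
    · intro h
      exact dvd_sub (h.mul_right _) (hwl.mul_left _)
  have eM : Ld (H4G.act g m) a1 = Ld (z, 1) a1 := by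
    apply Ld_congr
    intro x
    rw [eg]
    have e1 : cr x (s * m.1 + t * m.2 + w * cr u m, cr u m) = x.1 * j - x.2 * (m1 + w * j) := rfl
    have e2 : cr x (z, 1) = x.1 - x.2 * z := by simp [cr]
    rw [e1, e2]
    have e3 : x.1 * j - x.2 * (m1 + w * j) =
        (x.1 - x.2 * z) * j - x.2 * (m1 + w * j - z * j) := by ring
    rw [e3]
    constructor
    · intro h
      have h5 : a1 ∣ (x.1 - x.2 * z) * j := by
        have := dvd_add h (hwm.mul_left x.2)
        rwa [sub_add_cancel] at this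
      have : x.1 - x.2 * z = x2 * ((x.1 - x.2 * z) * j) + a1 * (y2 * (x.1 - x.2 * z)) := by
        linear_combination (-(x.1 - x.2 * z)) * hxy2
      rw [this]
      exact dvd_add (h5.mul_left _) (dvd_mul_right _ _)
    · intro h
      exact dvd_sub (h.mul_right _) (hwm.mul_left _)
  have e5 : GS (H4G.act g u) (H4G.act g v) (H4G.act g l) (H4G.act g m) a a1 =
      ⟨Ld (0, 1) a, Ld (z, 1) a1, (1, 0), H4G.act g v⟩ := by
    simp only [GS, eL, eM, eu]
  rw [e5] at s1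
  refine s1.trans ?_
  have := SEq6.tv s1.ok' (-(s * v.1 + t * v.2 + w * cr u v))
  have ev : H4G.act g v + (-(s * v.1 + t * v.2 + w * cr u v)) • ((1, 0) : Z2) = (0, cr u v) := by
    rw [eg]
    ext
    · simp
    · simp
  rw [ev] at this
  exact this

/-- **GENERIC LEMMA.** -/
theorem GS.gen {u v l m : Z2} {a a1 z : ℤ} (hu : IsCoprime u.1 u.2) (h0 : 0 < cr u v)
    (hl : IsCoprime l.1 l.2) (h1 : 0 < cr u l) (h2 : cr u l < a) (hm : IsCoprime m.1 m.2)
    (h3 : 0 < cr u m) (h4 : cr u m < a1) (hla : IsCoprime (cr u l) a)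
    (hma : IsCoprime (cr u m) a1)
    (hz : (Int.gcd a a1 : ℤ) ∣ z * (cr u l * cr u m) + cr l m) :
    SEq6 (GS u v l m a a1) (PG (cr u v) a a1 z) :=
  GS.gen' (GS.ok h0 hl h1 h2 hm h3 h4) hu hla hma hz

/-- the swap of the two tori -/
theorem PG.swap {A a a1 : ℤ} (hA : 0 < A) (ha : 1 < a) (ha1 : 1 < a1) {z z' : ℤ}
    (hz : (Int.gcd a a1 : ℤ) ∣ z + z') : SEq6 (PG A a a1 z) (PG A a1 a z') := by
  have c01 : IsCoprime ((0, 1) : Z2).1 ((0, 1) : Z2).2 := isCoprime_one_right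
  have cz1 : ∀ z : ℤ, IsCoprime ((z, 1) : Z2).1 ((z, 1) : Z2).2 := fun z => isCoprime_one_right
  have k1 : ∀ z : ℤ, cr ((1, 0) : Z2) (z, 1) = 1 := fun z => by simp [cr]
  have hok : (PG A a a1 z).Ok := by
    refine GS.ok ?_ (cz1 0) ?_ ?_ (cz1 z) ?_ ?_
    · simp [cr]; exact hA
    · rw [k1]; norm_num
    · rw [k1]; exact ha
    · rw [k1]; norm_num
    · rw [k1]; exact ha1
  have s1 := SEq6.swap hok
  have s2 := SEq6.act (-1) s1.ok'
  have en : ∀ p : Z2, H4G.act (-1) p = -p := by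
    intro p
    rw [act_apply]
    ext <;> simp
  have e1 : ∀ (l : Z2) (a : ℤ), (Ld l a).map (H4G.act (-1)) = Ld l a := by
    intro l a
    rw [map_Ld, en]
    apply Ld_congr
    intro x
    rw [cr_neg_right, dvd_neg]
  have e2 : St6.act (-1) ⟨Ld (z, 1) a1, Ld (0, 1) a, -(1, 0), -(0, A)⟩ =
      GS (1, 0) (0, A) (z, 1) (0, 1) a1 a := by
    simp only [St6.act, e1, en, neg_neg]
    rfl
  rw [e2] at s2
  refine (s1.trans s2).trans ?_
  have h0 : cr ((1, 0) : Z2) (0, A) = A := by simp [cr]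
  have s3 := GS.gen (u := (1, 0)) (v := (0, A)) (l := (z, 1)) (m := (0, 1)) (a := a1) (a1 := a)
    (z := z') isCoprime_one_left (by rw [h0]; exact hA) (cz1 z) (by rw [k1]; norm_num)
    (by rw [k1]; exact ha1) (cz1 0) (by rw [k1]; norm_num) (by rw [k1]; exact ha)
    (by rw [k1]; exact isCoprime_one_left) (by rw [k1]; exact isCoprime_one_left) (by
      rw [k1, k1]
      have : cr ((z, 1) : Z2) (0, 1) = z := by simp [cr]
      rw [this, Int.gcd_comm]
      have e : z' * (1 * 1) + z = z + z' := by ring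
      rw [e]; exact hz)
  rw [h0] at s3
  exact s3

theorem PG.ok {A a a1 z : ℤ} (hA : 0 < A) (ha : 1 < a) (ha1 : 1 < a1) : (PG A a a1 z).Ok := by
  have k1 : ∀ z : ℤ, cr ((1, 0) : Z2) (z, 1) = 1 := fun z => by simp [cr]
  refine GS.ok ?_ (isCoprime_one_right) ?_ ?_ (isCoprime_one_right) ?_ ?_
  · simp [cr]; exact hA
  · rw [k1]; norm_num
  · rw [k1]; exact ha
  · rw [k1]; norm_num
  · rw [k1]; exact ha1

end Pool.Agent.H4G.Six
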