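import Pool.Agent.H4G.Six.Can.YEdge

/-!
# Every good state is equivalent to a state of level `A = 1` with large tori (helper19)
-/

set_option autoImplicit false

namespace Pool.Agent.H4G.Six

open Pool.Agent.H4G

variable {N : ℤ} {J Z : ℕ}

/-- a good state of volume `N` -/
structure Gd (N A a a1 : ℤ) : Prop where
  A0 : 0 < A
  a2 : 1 < a
  a2' : 1 < a1
  vol : A + a + a1 = N
  cop : IsCoprime a a1

theorem Gd.swap {A a a1 : ℤ} (h : Gd N A a a1) : Gd N A a1 a :=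
  ⟨h.A0, h.a2', h.a2, by linarith [h.vol], h.cop.symm⟩

theorem Gd.seq_swap {A a a1 : ℤ} (h : Gd N A a a1) : SEq6 (PG A a a1 0) (PG A a1 a 0) :=
  PG.swap h.A0 h.a2 h.a2' (by simp)

/-- not both tori are even -/
theorem Gd.par {A a a1 : ℤ} (h : Gd N A a a1) : ¬ ((2 : ℤ) ∣ a ∧ (2 : ℤ) ∣ a1) := fun ⟨h1, h2⟩ =>
  not_dvd_of_isCoprime h.cop Nat.prime_two (by exact_mod_cast h2) (by exact_mod_cast h1)

/-- the step (R): the area `A` becomes small -/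
theorem redR (hB : Bg N J Z) {A a a1 : ℤ} (h : Gd N A a a1) (hA : 2 * (J : ℤ) + 5 ≤ A) :
    ∃ t : ℤ, 0 ≤ t ∧ A ≤ 2 * t + 2 * J + 4 ∧ 2 * t + 3 ≤ A ∧
      Gd N (A - 2 * t) (a + t) (a1 + t) ∧
      SEq6 (PG A a a1 0) (PG (A - 2 * t) (a + t) (a1 + t) 0) := by
  have hJ := hB.J1
  obtain ⟨T, hT1, hT2⟩ : ∃ T : ℤ, A ≤ 2 * (T + J) + 4 ∧ 2 * (T + J) + 3 ≤ A := by
    refine ⟨(A - 3) / 2 - J, ?_, ?_⟩ <;> omega
  obtain ⟨t, h1, h2, h3, h4⟩ := rEdge hB (T := T) h.A0 h.a2 h.a2' h.vol h.cop (by omega)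
    (by linarith)
  refine ⟨t, by omega, by linarith, by linarith, ⟨by linarith, ?_, ?_, by linarith [h.vol], h3⟩,
    h4⟩
  · have := h.a2; omega
  · have := h.a2'; omega

/-- every good state is equivalent to a good state with `3 ≤ A ≤ 2 J + 4` and large tori -/
theorem red1 (hB : Bg N J Z) {A a a1 : ℤ} (h : Gd N A a a1) :
    ∃ A' a' a1' : ℤ, 3 ≤ A' ∧ A' ≤ 2 * J + 4 ∧ (J : ℤ) ^ 5 ≤ a' ∧ (J : ℤ) ^ 5 ≤ a1' ∧
      Gd N A' a' a1' ∧ (Odd N → (Even A' ↔ Even A)) ∧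
      SEq6 (PG A a a1 0) (PG A' a' a1' 0) := by
  have hJ := hB.J20
  have hJ1 := hB.J1
  set X : ℤ := (J : ℤ) with hX
  have hX5 : 100 * X ≤ X ^ 5 := by
    have h4 : 100 ≤ X ^ 4 := by
      calc (100 : ℤ) ≤ (2 ^ 20) ^ 4 := by norm_num
        _ ≤ X ^ 4 := pow_le_pow_left₀ (by norm_num) hJ 4
    calc 100 * X ≤ X ^ 4 * X := mul_le_mul_of_nonneg_right h4 (by linarith)
      _ = X ^ 5 := by ring
  have hX100 : 100 ≤ X := by linarith
  have hX11 : 100 * (X ^ 5 * X ^ 5) ≤ N := by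
    have h1 : 100 * (X ^ 5 * X ^ 5) ≤ X * (X ^ 5 * X ^ 5) :=
      mul_le_mul_of_nonneg_right hX100 (by positivity)
    have h2 : X * (X ^ 5 * X ^ 5) = X ^ 11 := by ring
    linarith [hB.pw (n := 11) (by norm_num)]
  have hX51 : X ^ 5 ≤ X ^ 5 * X ^ 5 := by
    have : 1 ≤ X ^ 5 := by linarith
    nlinarith
  -- the case of a large area
  have large : ∀ A a a1 : ℤ, Gd N A a a1 → X ^ 5 + 1 ≤ A → (3 * X ^ 5 ≤ A ∨ X ^ 5 ≤ a ∧ X ^ 5 ≤ a1) →
      ∃ A' a' a1' : ℤ, 3 ≤ A' ∧ A' ≤ 2 * X + 4 ∧ X ^ 5 ≤ a' ∧ X ^ 5 ≤ a1' ∧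
      Gd N A' a' a1' ∧ (Even A' ↔ Even A) ∧
      SEq6 (PG A a a1 0) (PG A' a' a1' 0) := by
    intro A a a1 h hA hor
    obtain ⟨t, h1, h2, h3, h4, h5⟩ := redR hB h (by linarith)
    have p1 := h.a2
    have p2 := h.a2'
    refine ⟨A - 2 * t, a + t, a1 + t, by linarith, by linarith, ?_, ?_, h4, ?_, h5⟩
    · rcases hor with h6 | h6 <;> linarith
    · rcases hor with h6 | h6 <;> linarith
    · rw [Int.even_sub]
      simp
  by_cases hA3 : 3 * X ^ 5 ≤ A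
  · obtain ⟨A', a', a1', h1, h2, h3, h4, h5, h6, h7⟩ := large A a a1 h (by linarith) (Or.inl hA3)
    exact ⟨A', a', a1', h1, h2, h3, h4, h5, fun _ => h6, h7⟩
  push Not at hA3
  -- the case of a small area
  have small : ∀ a a1 : ℤ, Gd N A a a1 → a1 ≤ a →
      ∃ A' a' a1' : ℤ, 3 ≤ A' ∧ A' ≤ 2 * X + 4 ∧ X ^ 5 ≤ a' ∧ X ^ 5 ≤ a1' ∧
      Gd N A' a' a1' ∧ (Odd N → (Even A' ↔ Even A)) ∧
      SEq6 (PG A a a1 0) (PG A' a' a1' 0) := by
    intro a a1 h hle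
    have hv := h.vol
    have p0 := h.A0
    have p2 := h.a2'
    have hw : (A + 1) * (X ^ 5 + X) ≤ 6 * (X ^ 5 * X ^ 5) := by
      have e1 : A + 1 ≤ 3 * X ^ 5 := by linarith
      have e2 : X ^ 5 + X ≤ 2 * X ^ 5 := by linarith
      calc (A + 1) * (X ^ 5 + X) ≤ (3 * X ^ 5) * (2 * X ^ 5) :=
            mul_le_mul e1 e2 (by linarith) (by linarith)
        _ = 6 * (X ^ 5 * X ^ 5) := by ring
    obtain ⟨k, k1, k2, k3, k4, k5⟩ := uEdge hB (K := X ^ 5) h.A0 h.a2 h.a2' h.vol h.cop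
      (by linarith) (by linarith)
    have hk0 : 0 ≤ k := by linarith
    have hka : (A + 1) * k ≤ (A + 1) * (X ^ 5 + X) :=
      mul_le_mul_of_nonneg_left k2.le (by linarith)
    have hAk : 1 + k ≤ (1 + k) * A := by nlinarith
    have g : Gd N ((1 + k) * A) (a - (A + 1) * k) (a1 + k) :=
      ⟨by linarith, by linarith, by linarith, by linarith, k3⟩
    obtain ⟨A', a', a1', h1, h2, h3, h4, h5, h6, h7⟩ := large _ _ _ g (by linarith)
      (Or.inr ⟨by linarith, by linarith⟩)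
    refine ⟨A', a', a1', h1, h2, h3, h4, h5, fun hN => ?_, k5.trans h7⟩
    rw [h6, Int.even_mul]
    constructor
    · rintro (h8 | h8)
      · by_contra hne
        have hodd : Odd A := Int.not_even_iff_odd.1 hne
        have hpar := h.par
        obtain ⟨r, hr⟩ := hN
        obtain ⟨s, hs⟩ := hodd
        have hd : (2 : ℤ) ∣ (A + a) * (a1 - 1) := by
          refine Dvd.dvd.mul_right ?_ _
          omega
        exact k4 hd (even_iff_two_dvd.1 h8)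
      · exact h8
    · intro h8
      exact Or.inr h8
  rcases le_total a1 a with hle | hle
  · exact small a a1 h hle
  · obtain ⟨A', a', a1', h1, h2, h3, h4, h5, h6, h7⟩ := small a1 a h.swap hle
    exact ⟨A', a', a1', h1, h2, h3, h4, h5, h6, h.seq_swap.trans h7⟩

end Pool.Agent.H4G.Six
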