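import Pool.Agent.H4G.Six.Can.Red

/-!
# From a small area to the level `A = 1` (helper19)
-/

set_option autoImplicit false

namespace Pool.Agent.H4G.Six

open Pool.Agent.H4G

variable {N : ℤ} {J Z : ℕ}

/-- a non-tiny state of level one -/
structure L1 (N X a a1 z : ℤ) : Prop where
  vol : 1 + a + a1 = N
  big : X ^ 4 ≤ a
  big' : X ^ 4 ≤ a1
  gz : GZ a a1 z

theorem red2 (hB : Bg N J Z) {l b b1 : ℤ} (h : Gd N (l + 2) b b1) (hl : 1 ≤ l)
    (hl' : l ≤ 2 * J + 2) (hb : (J : ℤ) ^ 5 ≤ b) (hb1 : (J : ℤ) ^ 5 ≤ b1)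
    (hpar : Even l → Odd b) :
    ∃ a a1 z : ℤ, L1 N J a a1 z ∧ (Odd N → (z = 1 ↔ Even l)) ∧ (Even N → z = 0) ∧
      SEq6 (PG (l + 2) b b1 0) (PG 1 a a1 z) := by
  have hJ := hB.J20
  have hJ1 := hB.J1
  set X : ℤ := (J : ℤ) with hX
  have hX100 : 100 ≤ X := by linarith
  have hv := h.vol
  have hX2 : 100 * X ≤ X ^ 2 := by nlinarith
  have hX3 : 100 * X ^ 2 ≤ X ^ 3 := by nlinarith [sq_nonneg X]
  have hX4 : 100 * X ^ 3 ≤ X ^ 4 := by nlinarith [pow_nonneg (show (0 : ℤ) ≤ X by linarith) 3]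
  have hX5 : 100 * X ^ 4 ≤ X ^ 5 := by nlinarith [pow_nonneg (show (0 : ℤ) ≤ X by linarith) 4]
  -- the class of `E` modulo `4`
  obtain ⟨c, hc1, hc2⟩ : ∃ c : ℤ, Odd c ∧ (Even l → Odd N → c = b + l - 2) := by
    by_cases hl2 : Even l
    · refine ⟨b + l - 2, ?_, fun _ _ => rfl⟩
      obtain ⟨r, hr⟩ := hl2
      obtain ⟨s, hs⟩ := hpar ⟨r, hr⟩
      exact ⟨s + r - 1, by omega⟩
    · exact ⟨1, odd_one, fun h' => (hl2 h').elim⟩
  have hN1 : 0 < N - 1 := by linarith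
  obtain ⟨E, e1, e2, e3, e4⟩ := sieveQ (k := 2) (e := 1) hB.cap (D0 := l * (N - 1))
    (by positivity) (by
      refine hB.le (n := 1 + 1) (by norm_num) (mul_le_pow2 (by linarith) ?_ ?_ (by linarith)) <;>
      · rw [pow_one]; linarith) (by norm_num)
    ![fun p => p ∣ l ∧ ¬ p ∣ 2, fun p => p ∣ N - 1 ∧ ¬ p ∣ 2] ![1, -1] ![0, b + l]
    (m := 4) (by norm_num) c
    (by
      intro p _ i hi
      fin_cases i
      · exact hi.1.mul_right _
      · exact hi.1.mul_left _)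
    (by
      intro p hp hp4
      have hp2 : p ≠ 2 := by
        rintro rfl
        exact hp4 (by norm_num)
      obtain ⟨y, y1, y2⟩ := avoid2 hp hp2 0 (b + l)
      refine ⟨y, fun i hi => ?_⟩
      fin_cases i
      · intro h'
        exact y1 (by simpa using h')
      · intro h'
        refine y2 ?_
        have h3 : (p : ℤ) ∣ (-1) * y + (b + l) := h'
        have e : y - (b + l) = -((-1) * y + (b + l)) := by ring
        rw [e]; exact (dvd_neg).2 h3)
    (by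
      intro p hp hp4 i hi
      have hp2 : (p : ℤ) ∣ 2 := by
        have h22 : (4 : ℤ) = 2 * 2 := by norm_num
        rw [h22] at hp4
        rcases (Nat.prime_iff_prime_int.1 hp).dvd_or_dvd hp4 with h' | h' <;> exact h'
      fin_cases i
      · exact (hi.2 hp2).elim
      · exact (hi.2 hp2).elim) 1
  rw [pow_one] at e2
  have q0 : ∀ p : ℕ, p.Prime → (p : ℤ) ∣ l → ¬ (p : ℤ) ∣ 2 → ¬ (p : ℤ) ∣ E := fun p hp h1 h2 h3 =>
    e4 p hp 0 ⟨h1, h2⟩ (by simpa using h3)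
  have q1 : ∀ p : ℕ, p.Prime → (p : ℤ) ∣ N - 1 → ¬ (p : ℤ) ∣ 2 → ¬ (p : ℤ) ∣ b - E + l :=
    fun p hp h1 h2 h3 => e4 p hp 1 ⟨h1, h2⟩ (by
      show (p : ℤ) ∣ (-1) * E + (b + l)
      rw [show (-1) * E + (b + l) = b - E + l by ring]; exact h3)
  obtain ⟨s, hs⟩ := e3
  have hE : Odd E := by
    obtain ⟨r, hr⟩ := hc1
    exact ⟨2 * s + r, by linarith⟩
  have hcE : IsCoprime l E := by
    refine isCoprime_of_prime fun p hp h1 h2 => ?_
    rcases two_or_odd hp with rfl | ⟨_, h3⟩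
    · obtain ⟨r, hr⟩ := hE
      have : (2 : ℤ) ∣ E := by exact_mod_cast h1
      omega
    · exact q0 p hp h2 h3 h1
  -- the level-one state
  obtain ⟨a, ha⟩ : ∃ a, a = b - E + l := ⟨_, rfl⟩
  obtain ⟨a1, ha1⟩ : ∃ a1, a1 = b1 + E + 1 := ⟨_, rfl⟩
  have hvol : 1 + a + a1 = N := by rw [ha, ha1]; linarith
  -- odd primes do not divide both
  have hodd : ∀ p : ℕ, p.Prime → ¬ (p : ℤ) ∣ 2 → (p : ℤ) ∣ a → ¬ (p : ℤ) ∣ a1 := by
    intro p hp h2 h3 h4
    refine q1 p hp ?_ h2 (by rw [← ha]; exact h3)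
    rw [show N - 1 = a + a1 by linarith]
    exact dvd_add h3 h4
  have hgz : ∃ z, GZ a a1 z ∧ (Odd N → (z = 1 ↔ Even l)) ∧ (Even N → z = 0) := by
    by_cases hev : (2 : ℤ) ∣ a ∧ (2 : ℤ) ∣ a1
    · -- both even
      have hNo : Odd N := by
        obtain ⟨⟨x, hx⟩, ⟨y, hy⟩⟩ := hev
        exact ⟨x + y, by linarith⟩
      have hle : Even l := by
        by_contra hne
        obtain ⟨r, hr⟩ := Int.not_even_iff_odd.1 hne
        obtain ⟨t, ht⟩ := hE
        have h1 := h.par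
        obtain ⟨⟨x, hx⟩, ⟨y, hy⟩⟩ := hev
        omega
      refine ⟨1, Or.inr ⟨?_, rfl⟩, fun _ => by simp [hle], fun hNe => ?_⟩
      · have hcc := hc2 hle hNo
        obtain ⟨⟨x, hx⟩, ⟨y, hy⟩⟩ := hev
        have hxo : Odd x := by
          refine ⟨-s, ?_⟩
          omega
        rw [hx, hy, Int.gcd_mul_left]
        have : IsCoprime x y := by
          refine isCoprime_of_prime fun p hp h1 h2 => ?_
          rcases two_or_odd hp with rfl | ⟨_, h3⟩
          · obtain ⟨r, hr⟩ := hxo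
            have : (2 : ℤ) ∣ x := by exact_mod_cast h2
            omega
          · exact hodd p hp h3 (by rw [hx]; exact h2.mul_left _) (by rw [hy]; exact h1.mul_left _)
        rw [Int.isCoprime_iff_gcd_eq_one.1 this]
        rfl
      · exact absurd hNe (Int.not_even_iff_odd.2 hNo)
    · refine ⟨0, Or.inl ⟨?_, rfl⟩, fun hNo => ?_, fun _ => rfl⟩
      · rw [← Int.isCoprime_iff_gcd_eq_one]
        refine isCoprime_of_prime fun p hp h1 h2 => ?_
        rcases two_or_odd hp with rfl | ⟨_, h3⟩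
        · exact hev ⟨by exact_mod_cast h2, by exact_mod_cast h1⟩
        · exact hodd p hp h3 h2 h1
      · simp only [zero_ne_one, false_iff]
        intro hle
        apply hev
        obtain ⟨r, hr⟩ := hle
        obtain ⟨t, ht⟩ := hpar ⟨r, hr⟩
        obtain ⟨w, hw⟩ := hE
        obtain ⟨n, hn⟩ := hNo
        omega
  obtain ⟨z, hz1, hz2, hz3⟩ := hgz
  have hlE : l * (E + 2 + X ^ 2) ≤ 6 * X ^ 3 := by
    have h1 : l ≤ 3 * X := by linarith
    have h2 : E + 2 + X ^ 2 ≤ 2 * X ^ 2 := by linarith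
    calc l * (E + 2 + X ^ 2) ≤ (3 * X) * (2 * X ^ 2) :=
          mul_le_mul h1 h2 (by positivity) (by linarith)
      _ = 6 * X ^ 3 := by ring
  refine ⟨a, a1, z, ⟨hvol, by linarith, by linarith, hz1⟩, hz2, hz3, SEq6.symm ?_⟩
  refine yEdge hB (j0 := E + 2) (by linarith) hE hcE (by rw [ha]; ring) (by rw [ha1]; ring) hvol
    (by linarith) (by linarith) (by linarith) (by linarith) hz1 h.cop hpar (by linarith)
    (le_refl _) ?_ ?_ (by linarith) ?_
  · have : 0 < l * (E + 2 - 1) := by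
      apply mul_pos <;> linarith
    linarith
  · have : 0 < l * (E + 2) := by
      apply mul_pos <;> linarith
    linarith
  · linarith

/-- every good state is equivalent to a non-tiny state of level one -/
theorem red (hB : Bg N J Z) {A a a1 : ℤ} (h : Gd N A a a1) :
    ∃ a' a1' z : ℤ, L1 N J a' a1' z ∧ (Odd N → (z = 1 ↔ Even A)) ∧ (Even N → z = 0) ∧
      SEq6 (PG A a a1 0) (PG 1 a' a1' z) := by
  obtain ⟨A', b, b1, h1, h2, h3, h4, h5, h6, h7⟩ := red1 hB h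
  obtain ⟨l, rfl⟩ : ∃ l, A' = l + 2 := ⟨A' - 2, by ring⟩
  have key : ∀ b b1 : ℤ, Gd N (l + 2) b b1 → (J : ℤ) ^ 5 ≤ b → (J : ℤ) ^ 5 ≤ b1 →
      (Even l → Odd b) → ∃ a' a1' z : ℤ, L1 N J a' a1' z ∧ (Odd N → (z = 1 ↔ Even A)) ∧
      (Even N → z = 0) ∧ SEq6 (PG (l + 2) b b1 0) (PG 1 a' a1' z) := by
    intro b b1 g g1 g2 g3
    obtain ⟨a', a1', z, k1, k2, k3, k4⟩ := red2 hB g (by linarith) (by linarith) g1 g2 g3
    refine ⟨a', a1', z, k1, fun hN => ?_, k3, k4⟩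
    rw [k2 hN, ← h6 hN, Int.even_add]
    simp
  by_cases hp : Even l → Odd b
  · obtain ⟨a', a1', z, k1, k2, k3, k4⟩ := key b b1 h5 h3 h4 hp
    exact ⟨a', a1', z, k1, k2, k3, h7.trans k4⟩
  · push Not at hp
    obtain ⟨a', a1', z, k1, k2, k3, k4⟩ := key b1 b h5.swap h4 h3 (fun _ => by
      rw [← Int.not_even_iff_odd]
      intro hb1
      have hb := Int.not_odd_iff_even.1 hp.2
      exact h5.par ⟨even_iff_two_dvd.1 hb, even_iff_two_dvd.1 hb1⟩)
    exact ⟨a', a1', z, k1, k2, k3, (h7.trans h5.seq_swap).trans k4⟩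

end Pool.Agent.H4G.Six
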