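import Pool.Agent.H4G.Ctwo.SieveK
import Pool.Agent.H4G.Arith.Crt
import Pool.Agent.H4G.Ctwo.Sieve3

/-!
# The sieve in the form used for the generic states (helper19)
-/

set_option autoImplicit false

namespace Pool.Agent.H4G.Six

open Pool.Agent.H4G

/-- `N` is large against the sieve bound `J` -/
structure Bg (N : ℤ) (J Z : ℕ) : Prop where
  J0 : 2 ^ 20 ≤ J
  cap : Cap J Z
  hZ : (2 * N) ^ 20 ≤ (Z : ℤ)
  hN : (J : ℤ) ^ 200 ≤ N

theorem exists_Bg : ∃ N0 : ℕ, ∀ N : ℕ, N0 ≤ N → ∃ J Z : ℕ, Bg (N : ℤ) J Z := by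
  obtain ⟨N0, h⟩ := cap_exists (2 ^ 20) 200 21
  refine ⟨max N0 (2 ^ 20), fun N hN => ?_⟩
  obtain ⟨J, h1, h2, h3⟩ := h N (le_trans (le_max_left _ _) hN)
  have hN2 : 2 ^ 20 ≤ N := le_trans (le_max_right _ _) hN
  refine ⟨J, N ^ 21, h1, h3, ?_, by exact_mod_cast h2⟩
  have e : (2 * N) ^ 20 ≤ N ^ 21 := by
    calc (2 * N) ^ 20 = 2 ^ 20 * N ^ 20 := by ring
      _ ≤ N * N ^ 20 := Nat.mul_le_mul_right _ hN2
      _ = N ^ 21 := by ring
  exact_mod_cast e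

variable {N : ℤ} {J Z : ℕ}

theorem Bg.J20 (h : Bg N J Z) : (2 : ℤ) ^ 20 ≤ (J : ℤ) := by exact_mod_cast h.J0

theorem Bg.J1 (h : Bg N J Z) : (1 : ℤ) ≤ (J : ℤ) := by have := h.J20; linarith

theorem Bg.pw (h : Bg N J Z) {n : ℕ} (hn : n ≤ 200) : (J : ℤ) ^ n ≤ N :=
  (pow_le_pow_right₀ h.J1 hn).trans h.hN

theorem Bg.N1 (h : Bg N J Z) : 1 ≤ N := by
  have := h.pw (n := 0) (by norm_num)
  simpa using this

/-- numbers with few factors are below the bound of the sieve -/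
theorem Bg.le (h : Bg N J Z) {x : ℤ} {n : ℕ} (hn : n ≤ 20) (hx : x ≤ (2 * N) ^ n) :
    x ≤ (Z : ℤ) := by
  have h1 := h.N1
  exact (hx.trans (pow_le_pow_right₀ (by linarith) hn)).trans h.hZ

theorem mul_le_pow2 {x y M : ℤ} {n k : ℕ} (hy : 0 < y) (hx : x ≤ M ^ n)
    (hy' : y ≤ M ^ k) (hM : 0 < M) : x * y ≤ M ^ (n + k) := by
  rw [pow_add]
  exact mul_le_mul hx hy' hy.le (pow_nonneg hM.le _)

/-- SIEVE with `k` linear conditions which are active at some primes -/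
theorem sieveP {k X e : ℕ} {D0 : ℤ} (hcap : Cap J X) (hD : 0 < D0) (hX : D0 ≤ (X : ℤ))
    (hk : k ≤ 2 * e) (C : Fin k → ℤ → Prop) (α β : Fin k → ℤ)
    (hC : ∀ p : ℕ, p.Prime → ∀ i, C i p → (p : ℤ) ∣ D0)
    (hloc : ∀ p : ℕ, p.Prime → ∃ y : ℤ, ∀ i, C i p → ¬ (p : ℤ) ∣ α i * y + β i) (z0 : ℤ) :
    ∃ z, z0 ≤ z ∧ z < z0 + (J : ℤ) ^ e ∧
      ∀ p : ℕ, p.Prime → ∀ i, C i p → ¬ (p : ℤ) ∣ α i * z + β i := by
  classical
  have hX' : D0.natAbs ≤ X := by omega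
  obtain ⟨z, h1, h2, h3⟩ := sieveLin hcap (D := D0.natAbs) (by omega) hX' hk
    (fun p i => if C i p then α i else 0) (fun p i => if C i p then β i else 1)
    (fun p hp _ => by
      obtain ⟨y, hy⟩ := hloc p hp
      refine Or.inr ⟨y, fun i => ?_⟩
      by_cases hi : C i p
      · simp only [hi, if_true]; exact hy i hi
      · simp only [hi, if_false, zero_mul, zero_add]; exact prime_not_dvd_one hp) z0
  refine ⟨z, h1, h2, fun p hp i hi => ?_⟩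
  have h4 := h3 p hp (Int.natCast_dvd.1 (hC p hp i hi)) i
  simp only [hi, if_true] at h4
  exact h4

/-- the same with a class modulo `m` -/
theorem sieveQ {k X e : ℕ} {D0 : ℤ} (hcap : Cap J X) (hD : 0 < D0) (hX : D0 ≤ (X : ℤ))
    (hk : k ≤ 2 * e) (C : Fin k → ℤ → Prop) (α β : Fin k → ℤ) {m : ℤ} (hm : 0 < m) (c : ℤ)
    (hC : ∀ p : ℕ, p.Prime → ∀ i, C i p → (p : ℤ) ∣ D0)
    (hloc : ∀ p : ℕ, p.Prime → ¬ (p : ℤ) ∣ m → ∃ y : ℤ, ∀ i, C i p → ¬ (p : ℤ) ∣ α i * y + β i)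
    (hlm : ∀ p : ℕ, p.Prime → (p : ℤ) ∣ m → ∀ i, C i p → ¬ (p : ℤ) ∣ α i * c + β i) (z0 : ℤ) :
    ∃ z, z0 ≤ z ∧ z < z0 + m * (J : ℤ) ^ e ∧ m ∣ z - c ∧
      ∀ p : ℕ, p.Prime → ∀ i, C i p → ¬ (p : ℤ) ∣ α i * z + β i := by
  classical
  have hX' : D0.natAbs ≤ X := by omega
  obtain ⟨z, h1, h2, h2', h3⟩ := sieveCls hcap (D := D0.natAbs) (by omega) hX' hk
    (fun p i => if C i p then α i else 0) (fun p i => if C i p then β i else 1) hm c
    (fun p hp _ hpm => by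
      obtain ⟨y, hy⟩ := hloc p hp hpm
      refine Or.inr ⟨y, fun i => ?_⟩
      by_cases hi : C i p
      · simp only [hi, if_true]; exact hy i hi
      · simp only [hi, if_false, zero_mul, zero_add]; exact prime_not_dvd_one hp)
    (fun p hp _ hpm i => by
      by_cases hi : C i p
      · simp only [hi, if_true]; exact hlm p hp hpm i hi
      · simp only [hi, if_false, zero_mul, zero_add]; exact prime_not_dvd_one hp) z0
  refine ⟨z, h1, h2, h2', fun p hp i hi => ?_⟩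
  have h4 := h3 p hp (Int.natCast_dvd.1 (hC p hp i hi)) i
  simp only [hi, if_true] at h4
  exact h4

/-- primes and parity -/
theorem two_or_odd {p : ℕ} (hp : p.Prime) : p = 2 ∨ (p ≠ 2 ∧ ¬ (p : ℤ) ∣ 2) := by
  by_cases h : p = 2
  · exact Or.inl h
  · refine Or.inr ⟨h, fun h2 => h ?_⟩
    have : p ∣ 2 := by exact_mod_cast h2
    exact (Nat.prime_dvd_prime_iff_eq hp Nat.prime_two).1 this

end Pool.Agent.H4G.Six
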