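import Pool.Agent.H4G.Six.Can.C11All
import Pool.Agent.H4G.Six.NR.Frame
import Pool.Agent.H4G.Six.Reach6

/-!
# A tree with contents one and a small parallelogram leads to an end state (helper19)
-/

set_option autoImplicit false

namespace Pool.Agent.H4G.Six

open Pool.Agent.H4G

/-- `gen2` with the information when the two lattices differ -/
theorem gen2_ne {L M : AddSubgroup Z2} {u v l p m p' : Z2} {a a1 : ℤ}
    (hok : St6.Ok ⟨L, M, u, v⟩) (hL : lat l p = L) (hM : lat m p' = M) (ha : cr p l = a)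
    (ha1 : cr p' m = a1) (cl : IsCoprime (cr u l) (cr u p)) (cm : IsCoprime (cr u m) (cr u p'))
    (hne : L ≠ M) :
    ∃ z : ℤ, SEq6 ⟨L, M, u, v⟩ (PG (cr u v) a a1 z) ∧ ¬ (a = a1 ∧ a ∣ z) := by
  obtain ⟨l0, h1, h2, h3⟩ := exists_gen ha cl
  obtain ⟨m0, g1, g2, g3⟩ := exists_gen ha1 cm
  have hu : IsCoprime u.1 u.2 := by
    refine ⟨l0.2, -l0.1, ?_⟩
    have : u.1 * l0.2 - u.2 * l0.1 = 1 := h1
    linarith
  have e : (⟨L, M, u, v⟩ : St6) = GS u v l0 m0 a a1 := by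
    rw [GS, ← h3, ← g3, hL, hM]
  rw [e] at hok ⊢
  refine ⟨-cr l0 m0, GS.gen' hok hu (by rw [h1]; exact isCoprime_one_left)
    (by rw [g1]; exact isCoprime_one_left) (by rw [h1, g1]; simp), fun ⟨k1, k2⟩ => hne ?_⟩
  -- `m₀ = l₀ + t u`
  have k3 : cr (m0 - l0) u = 0 := by
    rw [cr_sub_left]
    have e1 : cr m0 u = -cr u m0 := by simp only [cr]; ring
    have e2 : cr l0 u = -cr u l0 := by simp only [cr]; ring
    rw [e1, e2, h1, g1]; ring
  obtain ⟨t, ht⟩ := par_prim hu k3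
  have k4 : cr l0 m0 = -t := by
    have : m0 = l0 + t • u := by rw [← ht]; abel
    rw [this, cr_add_right, cr_self, cr_smul_right]
    have e2 : cr l0 u = -cr u l0 := by simp only [cr]; ring
    rw [e2, h1]; ring
  rw [k4, neg_neg] at k2
  rw [← hL, ← hM, h3, g3, ← k1]
  apply Ld_congr
  intro x
  have k5 : cr x m0 = cr x l0 + t * cr x u := by
    have : m0 = l0 + t • u := by rw [← ht]; abel
    rw [this, cr_add_right, cr_smul_right]
  rw [k5]
  constructor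
  · intro h; exact dvd_add h (k2.mul_right _)
  · intro h
    have := dvd_sub h (k2.mul_right (cr x u))
    rwa [add_sub_cancel_right] at this

/-- a tree with contents one is a state `PG`, with `L ≠ M` remembered -/
theorem PG_of_tree {X : Type} {O : PO X} {N : ℤ} {u v l q m s : Z2}
    (hT : TN O N u v l q m s) (hc : ct u l q = 1) (hc' : ct u m s = 1)
    (hne : lat l (u + q) ≠ lat m (u + s)) :
    ∃ z : ℤ, SEq6 (st6Of (u, v, l, q, m, s))
      (PG (cr u v) (cr u l + cr q l) (cr u m + cr s m) z) ∧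
      ¬ (cr u l + cr q l = cr u m + cr s m ∧ cr u l + cr q l ∣ z) := by
  have e1 : cr u (u + q) = cr u q := by rw [cr_add_right, cr_self, zero_add]
  have e2 : cr u (u + s) = cr u s := by rw [cr_add_right, cr_self, zero_add]
  have cl : IsCoprime (cr u l) (cr u (u + q)) := by
    rw [e1, Int.isCoprime_iff_gcd_eq_one]
    rw [ct] at hc
    omega
  have cm : IsCoprime (cr u m) (cr u (u + s)) := by
    rw [e2, Int.isCoprime_iff_gcd_eq_one]
    rw [ct] at hc'
    omega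
  obtain ⟨p1, p2, p3, p4, p5⟩ := hT.pos
  have hok : St6.Ok ⟨lat l (u + q), lat m (u + s), u, v⟩ :=
    ⟨(u, v, l, q, m, s), rfl, rfl, p1, ⟨p2, p4, rfl⟩, ⟨p3, p5, rfl⟩⟩
  have ea : cr (u + q) l = cr u l + cr q l := cr_add_left _ _ _
  have ea1 : cr (u + s) m = cr u m + cr s m := cr_add_left _ _ _
  exact gen2_ne hok rfl rfl ea ea1 cl cm hne

/-- **the end of the descent**: a tree with contents one, `L ≠ M`; the parallelogram small, or
one torus of area at least `J¹⁵⁵`, or one torus much larger than the gcd of the two areas -/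
theorem toE_of_tree {X : Type} {O : PO X} {N : ℤ} {J Z : ℕ} (hB : Bg N J Z)
    {u v l q m s : Z2} (hT : TN O N u v l q m s) (hc : ct u l q = 1) (hc' : ct u m s = 1)
    (hne : lat l (u + q) ≠ lat m (u + s))
    (hbig : cr u v * (J : ℤ) ^ 24 ≤ N ∨ (J : ℤ) ^ 155 ≤ cr u l + cr q l ∨
      (J : ℤ) ^ 155 ≤ cr u m + cr s m ∨
      (4 * J + 3) * (Int.gcd (cr u l + cr q l) (cr u m + cr s m) : ℤ) ≤ cr u l + cr q l ∨
      (4 * J + 3) * (Int.gcd (cr u l + cr q l) (cr u m + cr s m) : ℤ) ≤ cr u m + cr s m) :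
    ToE N (st6Of (u, v, l, q, m, s)) := by
  obtain ⟨p1, p2, p3, p4, p5⟩ := hT.pos
  have hvol := hT.sum
  obtain ⟨z, h1, h2⟩ := PG_of_tree hT hc hc' hne
  exact ToE.of h1 (c11all hB p1 (by linarith) (by linarith) (by linarith) hbig h2)

theorem toEnd6_of_toE {N : ℕ} {O : PO (Fin N)} {c : C6} (hT : Has6 O c)
    (h : ToE N (st6Of c)) : ToEnd6 O := by
  rcases h with ⟨A, a, a1, h1, h2⟩ | ⟨A, a, a1, h1, h2⟩
  · exact ⟨O, c, _, SLE6.refl O, hT, h2, Or.inl ⟨A, a, a1, h1, rfl⟩⟩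
  · exact ⟨O, c, _, SLE6.refl O, hT, h2, Or.inr ⟨A, a, a1, h1, rfl⟩⟩

/-- **D2 ⇒ `ToEnd6`** -/
theorem toEnd6_of_tree {N : ℕ} {O : PO (Fin N)} {J Z : ℕ} (hB : Bg (N : ℤ) J Z)
    {u v l q m s : Z2} (hT : TN O (N : ℤ) u v l q m s) (hc : ct u l q = 1)
    (hc' : ct u m s = 1) (hne : lat l (u + q) ≠ lat m (u + s))
    (hbig : cr u v * (J : ℤ) ^ 24 ≤ N ∨ (J : ℤ) ^ 155 ≤ cr u l + cr q l ∨
      (J : ℤ) ^ 155 ≤ cr u m + cr s m ∨
      (4 * J + 3) * (Int.gcd (cr u l + cr q l) (cr u m + cr s m) : ℤ) ≤ cr u l + cr q l ∨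
      (4 * J + 3) * (Int.gcd (cr u l + cr q l) (cr u m + cr s m) : ℤ) ≤ cr u m + cr s m) :
    ToEnd6 O :=
  toEnd6_of_toE hT.has (toE_of_tree hB hT hc hc' hne hbig)

end Pool.Agent.H4G.Six
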