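import Pool.Agent.H4G.Six.Can.Edge
import Pool.Agent.H4G.Six.Can.Sv

/-!
# The families (U) and (R) (helper19)
-/

set_option autoImplicit false

namespace Pool.Agent.H4G.Six

open Pool.Agent.H4G

variable {N : ℤ} {J Z : ℕ}

theorem gcd_dvd_of_cop {a b x : ℤ} (h : IsCoprime a b) : (Int.gcd a b : ℤ) ∣ x := by
  rw [Int.isCoprime_iff_gcd_eq_one.1 h]
  exact one_dvd x

/-- **(U)** -/
theorem uEdge (hB : Bg N J Z) {A a a1 K : ℤ} (hA : 0 < A) (ha : 1 < a) (ha1 : 1 < a1)
    (hN : A + a + a1 = N) (hc : IsCoprime a a1) (hK : 0 ≤ K)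
    (hw : (A + 1) * (K + J) + 1 < a) :
    ∃ k : ℤ, K ≤ k ∧ k < K + J ∧ IsCoprime (a - (A + 1) * k) (a1 + k) ∧
      ((2 : ℤ) ∣ (A + a) * (a1 - 1) → ¬ (2 : ℤ) ∣ 1 + k) ∧
      SEq6 (PG A a a1 0) (PG ((1 + k) * A) (a - (A + 1) * k) (a1 + k) 0) := by
  have hN1 := hB.N1
  have hR : 0 < a + (A + 1) * a1 := by positivity
  have hsz : (A + a) * (a1 - 1) * (a + (A + 1) * a1) ≤ (Z : ℤ) := by
    refine hB.le (n := 1 + 1 + 2) (by norm_num) ?_
    refine mul_le_pow2 hR (mul_le_pow2 (by linarith) ?_ ?_ (by linarith)) ?_ (by linarith)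
    · rw [pow_one]; linarith
    · rw [pow_one]; linarith
    · have h1 : (A + 1) * a1 ≤ N * N := by
        apply mul_le_mul <;> linarith
      nlinarith
  obtain ⟨k, k1, k2, k3⟩ := sieveP (k := 2) (e := 1) hB.cap
    (D0 := (A + a) * (a1 - 1) * (a + (A + 1) * a1)) (by
      have : 0 < a1 - 1 := by linarith
      positivity) hsz (by norm_num)
    ![fun p => p ∣ (A + a) * (a1 - 1), fun p => p ∣ a + (A + 1) * a1] ![1, 1] ![1, a1]
    (by
      intro p _ i hi
      fin_cases i
      · exact hi.mul_right _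
      · exact Dvd.dvd.mul_left hi _)
    (by
      intro p hp
      refine ⟨0, fun i hi => ?_⟩
      fin_cases i
      · simpa using prime_not_dvd_one hp
      · intro h
        have h1 : (p : ℤ) ∣ a1 := by simpa using h
        have h2 : (p : ℤ) ∣ a + (A + 1) * a1 := hi
        have h3 : (p : ℤ) ∣ a := by
          have := dvd_sub h2 (h1.mul_left (A + 1))
          simpa using this
        exact not_dvd_of_isCoprime hc hp h1 h3) K
  rw [pow_one] at k2
  have q0 : ∀ p : ℕ, p.Prime → (p : ℤ) ∣ (A + a) * (a1 - 1) → ¬ (p : ℤ) ∣ 1 + k := by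
    intro p hp hd h
    refine k3 p hp 0 hd ?_
    simpa [add_comm] using h
  have q1 : ∀ p : ℕ, p.Prime → (p : ℤ) ∣ a + (A + 1) * a1 → ¬ (p : ℤ) ∣ a1 + k := by
    intro p hp hd h
    refine k3 p hp 1 hd ?_
    simpa [add_comm] using h
  have hk0 : 0 ≤ k := hK.trans k1
  have hcc : IsCoprime (a - (A + 1) * k) (a1 + k) := by
    refine isCoprime_of_prime fun p hp h1 h2 => q1 p hp ?_ h1
    have : a + (A + 1) * a1 = (a - (A + 1) * k) + (A + 1) * (a1 + k) := by ring
    rw [this]
    exact dvd_add h2 (h1.mul_left _)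
  have hlt : (A + 1) * k + 1 < a := by
    have : (A + 1) * k ≤ (A + 1) * (K + J) := mul_le_mul_of_nonneg_left k2.le (by linarith)
    linarith
  refine ⟨k, k1, k2, hcc, fun h => by exact_mod_cast q0 2 Nat.prime_two (by exact_mod_cast h), ?_⟩
  refine edge (ν := 0) (l1 := 1) (m1 := 0) (i := a - 1) (j := 1) (k := k) (W := A + a)
    (κ := 1 + k) (i' := a - 1 - k * (A + 1)) (j' := 1 + k) (by ring) (by ring) (by ring) (by ring)
    (by ring) (by ring) (by ring) hA (by linarith) (by linarith) (by norm_num) ha1 (by positivity)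
    (by linarith) (by linarith) isCoprime_one_left isCoprime_one_right ⟨-1, 1, by ring⟩
    isCoprime_one_left ?_ ⟨-1, 1, by ring⟩ ?_ (gcd_dvd_of_cop hc) (gcd_dvd_of_cop hcc)
  · refine isCoprime_of_prime fun p hp h1 h2 => ?_
    rcases (Nat.prime_iff_prime_int.1 hp).dvd_or_dvd h1 with h | h
    · have := dvd_sub h2 h
      rw [show 1 + k - k = 1 by ring] at this
      exact prime_not_dvd_one hp this
    · exact q0 p hp (h.mul_right _) h2
  · refine isCoprime_of_prime fun p hp h1 h2 => ?_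
    refine q0 p hp (Dvd.dvd.mul_left ?_ _) h2
    have := dvd_sub h1 h2
    rw [show a1 + k - (1 + k) = a1 - 1 by ring] at this
    exact this

/-- **(R)** -/
theorem rEdge (hB : Bg N J Z) {A a a1 T : ℤ} (hA : 0 < A) (ha : 1 < a) (ha1 : 1 < a1)
    (hN : A + a + a1 = N) (hc : IsCoprime a a1) (hT : 0 ≤ T) (hw : 2 * (T + J) ≤ A) :
    ∃ t : ℤ, T ≤ t ∧ t < T + J ∧ IsCoprime (a + t) (a1 + t) ∧
      SEq6 (PG A a a1 0) (PG (A - 2 * t) (a + t) (a1 + t) 0) := by
  have hN1 := hB.N1
  have hne : a - a1 ≠ 0 := by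
    intro h
    have h1 : a = a1 := by linarith
    rw [h1] at hc
    have := Int.isUnit_iff.1 (isCoprime_self.1 hc)
    omega
  have habs : 0 < |a - a1| := abs_pos.2 hne
  have hsz : (A + 2) * (a - 1) * (a1 - 1) * |a - a1| ≤ (Z : ℤ) := by
    refine hB.le (n := 1 + 1 + 1 + 1) (by norm_num) ?_
    refine mul_le_pow2 habs (mul_le_pow2 (by linarith) (mul_le_pow2 (by linarith) ?_ ?_
      (by linarith)) ?_ (by linarith)) ?_ (by linarith)
    · rw [pow_one]; linarith
    · rw [pow_one]; linarith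
    · rw [pow_one]; linarith
    · rw [pow_one, abs_le]; constructor <;> linarith
  obtain ⟨t, k1, k2, k3⟩ := sieveP (k := 2) (e := 1) hB.cap
    (D0 := (A + 2) * (a - 1) * (a1 - 1) * |a - a1|) (by
      have h1 : 0 < a1 - 1 := by linarith
      have h2 : 0 < a - 1 := by linarith
      positivity) hsz (by norm_num)
    ![fun p => p ∣ (A + 2) * (a - 1) * (a1 - 1), fun p => p ∣ a - a1] ![1, 1] ![1, a]
    (by
      intro p _ i hi
      fin_cases i
      · exact hi.mul_right _
      · exact Dvd.dvd.mul_left ((dvd_abs _ _).2 hi) _)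
    (by
      intro p hp
      refine ⟨0, fun i hi => ?_⟩
      fin_cases i
      · simpa using prime_not_dvd_one hp
      · intro h
        have h1 : (p : ℤ) ∣ a := by simpa using h
        have h2 : (p : ℤ) ∣ a - a1 := hi
        have h3 : (p : ℤ) ∣ a1 := by
          have := dvd_sub h1 h2
          simpa using this
        exact not_dvd_of_isCoprime hc hp h3 h1) T
  rw [pow_one] at k2
  have q0 : ∀ p : ℕ, p.Prime → (p : ℤ) ∣ (A + 2) * (a - 1) * (a1 - 1) → ¬ (p : ℤ) ∣ 1 + t := by
    intro p hp hd h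
    refine k3 p hp 0 hd ?_
    simpa [add_comm] using h
  have q1 : ∀ p : ℕ, p.Prime → (p : ℤ) ∣ a - a1 → ¬ (p : ℤ) ∣ a + t := by
    intro p hp hd h
    refine k3 p hp 1 hd ?_
    simpa [add_comm] using h
  have ht0 : 0 ≤ t := hT.trans k1
  have hcc : IsCoprime (a + t) (a1 + t) := by
    refine isCoprime_of_prime fun p hp h1 h2 => q1 p hp ?_ h2
    have := dvd_sub h2 h1
    rw [show a + t - (a1 + t) = a - a1 by ring] at this
    exact this
  refine ⟨t, k1, k2, hcc, ?_⟩
  refine edge (ν := t) (l1 := 0) (m1 := 0) (i := 1) (j := 1) (k := 1) (W := A + 2)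
    (κ := 1 + t) (i' := 1 + t) (j' := 1 + t) (by ring) (by ring) (by ring) (by ring)
    (by ring) (by ring) (by ring) hA (by norm_num) ha (by norm_num) ha1
    (by linarith) (by linarith) (by linarith) isCoprime_one_right isCoprime_one_right
    isCoprime_one_left isCoprime_one_left ?_ ?_ ?_ (by simp) (by simp)
  · refine isCoprime_of_prime fun p hp h1 h2 => q0 p hp ?_ h2
    rw [one_mul] at h1
    exact (h1.mul_right _).mul_right _
  · refine isCoprime_of_prime fun p hp h1 h2 => q0 p hp ?_ h2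
    have := dvd_sub h1 h2
    rw [show a + t - (1 + t) = a - 1 by ring] at this
    exact (this.mul_left _).mul_right _
  · refine isCoprime_of_prime fun p hp h1 h2 => q0 p hp ?_ h2
    have := dvd_sub h1 h2
    rw [show a1 + t - (1 + t) = a1 - 1 by ring] at this
    exact this.mul_left _

end Pool.Agent.H4G.Six
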