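import Pool.Agent.H4G.Six.Can.Can

/-!
# Parallel pairs and the step (U) for `z = 0`, any `gcd (a, a₁)` (helper19)
-/

set_option autoImplicit false

namespace Pool.Agent.H4G.Six

open Pool.Agent.H4G

variable {N : ℤ} {J Z : ℕ}

theorem two_prod {x y z : ℤ} (hx : ¬ (2 : ℤ) ∣ x) (hy : ¬ (2 : ℤ) ∣ y) (hz : ¬ (2 : ℤ) ∣ z) :
    ¬ (2 : ℤ) ∣ x * y * z := by
  intro h
  rcases Int.prime_two.dvd_or_dvd h with h1 | h1
  · rcases Int.prime_two.dvd_or_dvd h1 with h2 | h2
    · exact hx h2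
    · exact hy h2
  · exact hz h1

/-- (R), any `gcd` -/
theorem rT {A a a1 t : ℤ} (h0 : 0 < A - 2 * t) (ha : 1 < a) (ha1 : 1 < a1) (ht : 0 ≤ t)
    (c0 : IsCoprime (1 + t) (A + 2)) (c1 : IsCoprime (1 + t) (a - 1))
    (c2 : IsCoprime (1 + t) (a1 - 1)) :
    SEq6 (PG A a a1 0) (PG (A - 2 * t) (a + t) (a1 + t) 0) := by
  refine edge (ν := t) (l1 := 0) (m1 := 0) (i := 1) (j := 1) (k := 1) (W := A + 2)
    (κ := 1 + t) (i' := 1 + t) (j' := 1 + t) (by ring) (by ring) (by ring) (by ring)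
    (by ring) (by ring) (by ring) (by linarith) (by norm_num) ha (by norm_num) ha1
    (by linarith) (by linarith) (by linarith) isCoprime_one_right isCoprime_one_right
    isCoprime_one_left isCoprime_one_left ?_ ?_ ?_ (by simp) (by simp)
  · rw [one_mul]; exact c0
  · obtain ⟨x, y, hxy⟩ := c1
    exact ⟨x - y, y, by linear_combination hxy⟩
  · obtain ⟨x, y, hxy⟩ := c2
    exact ⟨x - y, y, by linear_combination hxy⟩

/-- (R) read backwards -/
theorem upT {A a a1 t : ℤ} (hA : 0 < A) (ha : 1 + t < a) (ha1 : 1 + t < a1) (ht : 0 ≤ t)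
    (c0 : IsCoprime (1 + t) A) (c1 : IsCoprime (1 + t) a) (c2 : IsCoprime (1 + t) a1) :
    SEq6 (PG A a a1 0) (PG (A + 2 * t) (a - t) (a1 - t) 0) := by
  have h := rT (A := A + 2 * t) (a := a - t) (a1 := a1 - t) (t := t) (by linarith)
    (by linarith) (by linarith) ht (by
      obtain ⟨x, y, hxy⟩ := c0
      exact ⟨x - 2 * y, y, by linear_combination hxy⟩) (by
      obtain ⟨x, y, hxy⟩ := c1
      exact ⟨x + y, y, by linear_combination hxy⟩) (by
      obtain ⟨x, y, hxy⟩ := c2
      exact ⟨x + y, y, by linear_combination hxy⟩)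
  rw [show A + 2 * t - 2 * t = A by ring, show a - t + t = a by ring,
    show a1 - t + t = a1 by ring] at h
  exact h.symm

/-- the sieve for (R), any `gcd` -/
theorem rGood (hB : Bg N J Z) {A a a1 : ℤ} (hA : 2 * (J : ℤ) + 1 ≤ A) (ha : 1 < a) (ha1 : 1 < a1)
    (hN : A + a + a1 = N) (hne : a ≠ a1)
    (hpar : ¬ ((2 : ℤ) ∣ A ∧ (2 : ℤ) ∣ a ∧ (2 : ℤ) ∣ a1)) :
    ∃ t : ℤ, 0 ≤ t ∧ t < J ∧ Gd N (A - 2 * t) (a + t) (a1 + t) ∧
      SEq6 (PG A a a1 0) (PG (A - 2 * t) (a + t) (a1 + t) 0) := by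
  have hN1 := hB.N1
  have hJ := hB.J1
  have hne' : a - a1 ≠ 0 := sub_ne_zero.2 hne
  have habs : 0 < |a - a1| := abs_pos.2 hne'
  have hsz : (A + 2) * (a - 1) * (a1 - 1) * |a - a1| ≤ (Z : ℤ) := by
    refine hB.le (n := 1 + 1 + 1 + 1) (by norm_num) ?_
    refine mul_le_pow2 habs (mul_le_pow2 (by linarith) (mul_le_pow2 (by linarith) ?_ ?_
      (by linarith)) ?_ (by linarith)) ?_ (by linarith)
    · rw [pow_one]; linarith
    · rw [pow_one]; linarith
    · rw [pow_one]; linarith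
    · rw [pow_one, abs_le]; constructor <;> linarith
  obtain ⟨t, k1, k2, k3⟩ := sieveP (k := 2) (e := 1) hB.cap
    (D0 := (A + 2) * (a - 1) * (a1 - 1) * |a - a1|) (by
      have h1 : 0 < a1 - 1 := by linarith
      have h2 : 0 < a - 1 := by linarith
      have h3 : 0 < A + 2 := by linarith
      positivity) hsz (by norm_num)
    ![fun p => p ∣ (A + 2) * (a - 1) * (a1 - 1), fun p => p ∣ a - a1] ![1, 1] ![1, a]
    (by
      intro p _ i hi
      fin_cases i
      · exact hi.mul_right _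
      · exact Dvd.dvd.mul_left ((dvd_abs _ _).2 hi) _)
    (by
      intro p hp
      rcases two_or_odd hp with rfl | ⟨hp2, _⟩
      · by_cases hb : (2 : ℤ) ∣ a ∧ (2 : ℤ) ∣ a1
        · have hAo : ¬ (2 : ℤ) ∣ A := fun h => hpar ⟨h, hb⟩
          refine ⟨1, fun i hi => ?_⟩
          fin_cases i
          · exfalso
            have h1 : (2 : ℤ) ∣ (A + 2) * (a - 1) * (a1 - 1) := hi
            exact two_prod (by omega) (by omega) (by omega) h1
          · intro h
            have h1 : (2 : ℤ) ∣ 1 * 1 + a := by exact_mod_cast h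
            omega
        · refine ⟨0, fun i hi => ?_⟩
          fin_cases i
          · exact fun h => absurd (show ((2 : ℕ) : ℤ) ∣ 1 * 0 + 1 from h) (by norm_num)
          · intro h
            have h1 : (2 : ℤ) ∣ 1 * 0 + a := by exact_mod_cast h
            have h2 : (2 : ℤ) ∣ a - a1 := by exact_mod_cast hi
            apply hb
            constructor <;> omega
      · obtain ⟨y, y1, y2⟩ := avoid2 hp hp2 (-1) (-a)
        refine ⟨y, fun i hi => ?_⟩
        fin_cases i
        · intro h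
          have h1 : (p : ℤ) ∣ 1 * y + 1 := h
          rw [one_mul] at h1
          exact y1 (by rwa [sub_neg_eq_add])
        · intro h
          have h1 : (p : ℤ) ∣ 1 * y + a := h
          rw [one_mul] at h1
          exact y2 (by rwa [sub_neg_eq_add])) 0
  rw [pow_one] at k2
  have q0 : ∀ p : ℕ, p.Prime → (p : ℤ) ∣ (A + 2) * (a - 1) * (a1 - 1) → ¬ (p : ℤ) ∣ 1 + t := by
    intro p hp hd h
    refine k3 p hp 0 hd ?_
    simpa [add_comm] using h
  have q1 : ∀ p : ℕ, p.Prime → (p : ℤ) ∣ a - a1 → ¬ (p : ℤ) ∣ a + t := by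
    intro p hp hd h
    refine k3 p hp 1 hd ?_
    simpa [add_comm] using h
  refine ⟨t, k1, by linarith, ⟨by linarith, by linarith, by linarith, by linarith, ?_⟩, ?_⟩
  · refine isCoprime_of_prime fun p hp h1 h2 => q1 p hp ?_ h2
    have := dvd_sub h2 h1
    rw [show a + t - (a1 + t) = a - a1 by ring] at this
    exact this
  · refine rT (by linarith) ha ha1 k1 ?_ ?_ ?_
    · exact isCoprime_of_prime fun p hp h1 h2 => q0 p hp ((h1.mul_right _).mul_right _) h2
    · exact isCoprime_of_prime fun p hp h1 h2 => q0 p hp ((h1.mul_left _).mul_right _) h2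
    · exact isCoprime_of_prime fun p hp h1 h2 => q0 p hp (h1.mul_left _) h2

/-- the sieve for (R) read backwards -/
theorem upGood (hB : Bg N J Z) {A a a1 : ℤ} (hA : 0 < A) (ha : (J : ℤ) + 2 ≤ a)
    (ha1 : (J : ℤ) + 2 ≤ a1) (hN : A + a + a1 = N) (hne : a ≠ a1)
    (hpar : ¬ ((2 : ℤ) ∣ a ∧ (2 : ℤ) ∣ a1)) :
    ∃ t : ℤ, 0 ≤ t ∧ t < J ∧ Gd N (A + 2 * t) (a - t) (a1 - t) ∧
      SEq6 (PG A a a1 0) (PG (A + 2 * t) (a - t) (a1 - t) 0) := by
  have hN1 := hB.N1
  have hJ := hB.J1
  have hne' : a - a1 ≠ 0 := sub_ne_zero.2 hne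
  have habs : 0 < |a - a1| := abs_pos.2 hne'
  have hsz : A * a * a1 * |a - a1| ≤ (Z : ℤ) := by
    refine hB.le (n := 1 + 1 + 1 + 1) (by norm_num) ?_
    refine mul_le_pow2 habs (mul_le_pow2 (by linarith) (mul_le_pow2 (by linarith) ?_ ?_
      (by linarith)) ?_ (by linarith)) ?_ (by linarith)
    · rw [pow_one]; linarith
    · rw [pow_one]; linarith
    · rw [pow_one]; linarith
    · rw [pow_one, abs_le]; constructor <;> linarith
  obtain ⟨t, k1, k2, k3⟩ := sieveP (k := 2) (e := 1) hB.cap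
    (D0 := A * a * a1 * |a - a1|) (by
      have h1 : 0 < a1 := by linarith
      have h2 : 0 < a := by linarith
      positivity) hsz (by norm_num)
    ![fun p => p ∣ A * a * a1, fun p => p ∣ a - a1] ![1, 1] ![1, -a]
    (by
      intro p _ i hi
      fin_cases i
      · exact hi.mul_right _
      · exact Dvd.dvd.mul_left ((dvd_abs _ _).2 hi) _)
    (by
      intro p hp
      rcases two_or_odd hp with rfl | ⟨hp2, _⟩
      · refine ⟨0, fun i hi => ?_⟩
        fin_cases i
        · exact fun h => absurd (show ((2 : ℕ) : ℤ) ∣ 1 * 0 + 1 from h) (by norm_num)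
        · intro h
          have h1 : (2 : ℤ) ∣ 1 * 0 + -a := by exact_mod_cast h
          have h2 : (2 : ℤ) ∣ a - a1 := by exact_mod_cast hi
          apply hpar
          constructor <;> omega
      · obtain ⟨y, y1, y2⟩ := avoid2 hp hp2 (-1) a
        refine ⟨y, fun i hi => ?_⟩
        fin_cases i
        · intro h
          have h1 : (p : ℤ) ∣ 1 * y + 1 := h
          rw [one_mul] at h1
          exact y1 (by rwa [sub_neg_eq_add])
        · intro h
          have h1 : (p : ℤ) ∣ 1 * y + -a := h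
          rw [one_mul] at h1
          exact y2 (by rwa [sub_eq_add_neg])) 0
  rw [pow_one] at k2
  have q0 : ∀ p : ℕ, p.Prime → (p : ℤ) ∣ A * a * a1 → ¬ (p : ℤ) ∣ 1 + t := by
    intro p hp hd h
    refine k3 p hp 0 hd ?_
    simpa [add_comm] using h
  have q1 : ∀ p : ℕ, p.Prime → (p : ℤ) ∣ a - a1 → ¬ (p : ℤ) ∣ a - t := by
    intro p hp hd h
    refine k3 p hp 1 hd ?_
    show (p : ℤ) ∣ 1 * t + -a
    have e : 1 * t + -a = -(a - t) := by ring
    rw [e]; exact (dvd_neg).2 h
  refine ⟨t, k1, by linarith, ⟨by linarith, by linarith, by linarith, by linarith, ?_⟩, ?_⟩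
  · refine isCoprime_of_prime fun p hp h1 h2 => q1 p hp ?_ h2
    have := dvd_sub h2 h1
    rw [show a - t - (a1 - t) = a - a1 by ring] at this
    exact this
  · refine upT hA (by linarith) (by linarith) k1 ?_ ?_ ?_
    · exact isCoprime_of_prime fun p hp h1 h2 => q0 p hp ((h1.mul_right _).mul_right _) h2
    · exact isCoprime_of_prime fun p hp h1 h2 => q0 p hp ((h1.mul_left _).mul_right _) h2
    · exact isCoprime_of_prime fun p hp h1 h2 => q0 p hp (h1.mul_left _) h2

/-- the parallel pair `l = m = (1, j)` -/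
theorem eGood (hB : Bg N J Z) {a a1 : ℤ} (ha : (J : ℤ) + 3 ≤ a) (ha1 : (J : ℤ) + 3 ≤ a1)
    (hN : 1 + a + a1 = N) (h2 : (2 : ℤ) ∣ a) (h2' : (2 : ℤ) ∣ a1) :
    SEq6 (PG 1 a a1 0) (PG 3 (a - 1) (a1 - 1) 0) := by
  have hN1 := hB.N1
  have hJ := hB.J1
  have hsz : a * a1 * (3 * (a - 1) * (a1 - 1)) ≤ (Z : ℤ) := by
    refine hB.le (n := 1 + 1 + (1 + 1 + 1)) (by norm_num) ?_
    have h1 : 0 < a - 1 := by linarith
    have h2 : 0 < a1 - 1 := by linarith
    refine mul_le_pow2 (by positivity) (mul_le_pow2 (by linarith) ?_ ?_ (by linarith))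
      (mul_le_pow2 h2 (mul_le_pow2 h1 ?_ ?_ (by linarith)) ?_ (by linarith)) (by linarith) <;>
    · rw [pow_one]; linarith
  obtain ⟨j, k1, k2, k3⟩ := sieveP (k := 2) (e := 1) hB.cap
    (D0 := a * a1 * (3 * (a - 1) * (a1 - 1))) (by
      have h1 : 0 < a1 := by linarith
      have h2 : 0 < a := by linarith
      have h3 : 0 < a - 1 := by linarith
      have h4 : 0 < a1 - 1 := by linarith
      positivity) hsz (by norm_num)
    ![fun p => p ∣ a * a1, fun p => p ∣ 3 * (a - 1) * (a1 - 1)] ![1, 1] ![0, -1]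
    (by
      intro p _ i hi
      fin_cases i
      · exact hi.mul_right _
      · exact Dvd.dvd.mul_left hi _)
    (by
      intro p hp
      rcases two_or_odd hp with rfl | ⟨hp2, _⟩
      · refine ⟨1, fun i hi => ?_⟩
        fin_cases i
        · exact fun h => absurd (show ((2 : ℕ) : ℤ) ∣ 1 * 1 + 0 from h) (by norm_num)
        · exfalso
          have h1 : (2 : ℤ) ∣ 3 * (a - 1) * (a1 - 1) := hi
          exact two_prod (by norm_num) (by omega) (by omega) h1
      · obtain ⟨y, y1, y2⟩ := avoid2 hp hp2 0 1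
        refine ⟨y, fun i hi => ?_⟩
        fin_cases i
        · intro h
          have h1 : (p : ℤ) ∣ 1 * y + 0 := h
          exact y1 (by simpa using h1)
        · intro h
          have h1 : (p : ℤ) ∣ 1 * y + -1 := h
          rw [one_mul] at h1
          exact y2 (by rwa [sub_eq_add_neg])) 2
  rw [pow_one] at k2
  have q0 : ∀ p : ℕ, p.Prime → (p : ℤ) ∣ a * a1 → ¬ (p : ℤ) ∣ j := by
    intro p hp hd h
    exact k3 p hp 0 hd (by simpa using h)
  have q1 : ∀ p : ℕ, p.Prime → (p : ℤ) ∣ 3 * (a - 1) * (a1 - 1) → ¬ (p : ℤ) ∣ j - 1 := by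
    intro p hp hd h
    refine k3 p hp 1 hd ?_
    show (p : ℤ) ∣ 1 * j + -1
    rw [one_mul, ← sub_eq_add_neg]; exact h
  refine edge (ν := 0) (l1 := 1) (m1 := 1) (i := j) (j := j) (k := 1) (W := 1 + j + j)
    (κ := 3) (i' := j - 1) (j' := j - 1) rfl (by ring) (by ring) (by ring) (by ring)
    (by ring) (by ring) one_pos (by linarith) (by linarith) (by linarith) (by linarith)
    (by norm_num) (by linarith) (by linarith) isCoprime_one_left isCoprime_one_left
    ?_ ?_ ?_ ?_ ?_ (by simp) (by simp)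
  · exact isCoprime_of_prime fun p hp h1 h2 => q0 p hp (h1.mul_right _) h2
  · exact isCoprime_of_prime fun p hp h1 h2 => q0 p hp (h1.mul_left _) h2
  · refine isCoprime_of_prime fun p hp h1 h2 => q1 p hp ((h2.mul_right _).mul_right _) ?_
    rw [one_mul] at h1
    have e : j - 1 = 3 * j - (1 + j + j) := by ring
    rw [e]
    exact dvd_sub (h2.mul_right _) h1
  · exact isCoprime_of_prime fun p hp h1 h2 => q1 p hp ((h1.mul_left _).mul_right _) h2
  · exact isCoprime_of_prime fun p hp h1 h2 => q1 p hp (h1.mul_left _) h2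

end Pool.Agent.H4G.Six
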