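import Pool.Agent.H4G.Six.Can.UR

/-!
# The family (Y) between the level `A = 1` and the level `A = λ + 2` (helper19)
-/

set_option autoImplicit false

namespace Pool.Agent.H4G.Six

open Pool.Agent.H4G

variable {N : ℤ} {J Z : ℕ}

/-- the two kinds of states of level `A = 1` -/
def GZ (a a1 z : ℤ) : Prop := (Int.gcd a a1 = 1 ∧ z = 0) ∨ (Int.gcd a a1 = 2 ∧ z = 1)

theorem GZ.odd {a a1 z : ℤ} (h : GZ a a1 z) {p : ℕ} (hp : p.Prime) (hp2 : ¬ (p : ℤ) ∣ 2)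
    (h1 : (p : ℤ) ∣ a) (h2 : (p : ℤ) ∣ a1) : False := by
  have h3 : (p : ℤ) ∣ (Int.gcd a a1 : ℤ) := Int.dvd_coe_gcd h1 h2
  rcases h with ⟨h4, _⟩ | ⟨h4, _⟩
  · rw [h4] at h3; exact prime_not_dvd_one hp h3
  · rw [h4] at h3; exact hp2 h3

/-- the local solution for the sieve in (Y) -/
theorem y_loc {a a1 b b1 l E z : ℤ} (hE : Odd E) (hc : IsCoprime l E) (hb : b = a + E - l)
    (hb1 : b1 = a1 - 1 - E) (hg : GZ a a1 z) (hg' : IsCoprime b b1) (hpar : Even l → Odd b)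
    {p : ℕ} (hp : p.Prime) : ∃ y : ℤ, ((p : ℤ) ∣ a → ¬ (p : ℤ) ∣ l * y + E) ∧
      ((p : ℤ) ∣ a1 → ¬ (p : ℤ) ∣ y) ∧
      ((p : ℤ) ∣ l + 2 ∨ (p : ℤ) ∣ b1 → ¬ (p : ℤ) ∣ y + (-E - 1)) ∧
      ((p : ℤ) ∣ b → ¬ (p : ℤ) ∣ l * y + (-l + 2 * E)) := by
  rcases two_or_odd hp with rfl | ⟨h2, h2'⟩
  · obtain ⟨e, he⟩ := hE
    have hbb : ¬ ((2 : ℤ) ∣ b ∧ (2 : ℤ) ∣ b1) := fun ⟨h1, h2⟩ =>
      not_dvd_of_isCoprime hg' Nat.prime_two (by exact_mod_cast h2) (by exact_mod_cast h1)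
    push_cast
    rcases Int.even_or_odd l with hl | hl
    · obtain ⟨r, hr⟩ := hl
      obtain ⟨s, hs⟩ := hpar ⟨r, hr⟩
      refine ⟨1, ?_, ?_, ?_, ?_⟩ <;> omega
    · obtain ⟨r, hr⟩ := hl
      rcases Int.even_or_odd b with hb' | hb'
      · obtain ⟨s, hs⟩ := hb'
        refine ⟨0, ?_, ?_, ?_, ?_⟩ <;> omega
      · obtain ⟨s, hs⟩ := hb'
        refine ⟨1, ?_, ?_, ?_, ?_⟩ <;> omega
  · have hp' := Nat.prime_iff_prime_int.1 hp
    have r1 : ∃ r : ℤ, ∀ y : ℤ, ¬ (p : ℤ) ∣ y - r →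
        ((p : ℤ) ∣ a → ¬ (p : ℤ) ∣ l * y + E) ∧ ((p : ℤ) ∣ a1 → ¬ (p : ℤ) ∣ y) := by
      by_cases ha : (p : ℤ) ∣ a
      · obtain ⟨r, hr⟩ := lin_class hp (α := E) (β := l) (fun h =>
          fun h' => not_dvd_of_isCoprime hc hp h' h)
        refine ⟨r, fun y hy => ⟨fun _ h => hr y hy ?_, fun h => (hg.odd hp h2' ha h).elim⟩⟩
        rwa [add_comm] at h
      · exact ⟨0, fun y hy => ⟨fun h => (ha h).elim, fun _ h => hy (by simpa using h)⟩⟩
    have r2 : ∃ r : ℤ, ∀ y : ℤ, ¬ (p : ℤ) ∣ y - r →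
        ((p : ℤ) ∣ l + 2 ∨ (p : ℤ) ∣ b1 → ¬ (p : ℤ) ∣ y + (-E - 1)) ∧
        ((p : ℤ) ∣ b → ¬ (p : ℤ) ∣ l * y + (-l + 2 * E)) := by
      by_cases hbp : (p : ℤ) ∣ b
      · obtain ⟨r, hr⟩ := lin_class hp (α := -l + 2 * E) (β := l) (fun h h' => by
          have h3 : (p : ℤ) ∣ 2 * E := by
            have := dvd_add h' h
            rwa [show -l + 2 * E + l = 2 * E by ring] at this
          rcases hp'.dvd_or_dvd h3 with h4 | h4
          · exact h2' h4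
          · exact not_dvd_of_isCoprime hc hp h4 h)
        refine ⟨r, fun y hy => ⟨fun h5 h => hr y hy ?_, fun _ h => hr y hy ?_⟩⟩
        · rcases h5 with h5 | h5
          · have e : -l + 2 * E + l * y = (l + 2) * (y - 1) - 2 * (y + (-E - 1)) := by ring
            rw [e]
            exact dvd_sub (h5.mul_right _) (h.mul_left _)
          · exact (not_dvd_of_isCoprime hg' hp h5 hbp).elim
        · rwa [add_comm] at h
      · refine ⟨E + 1, fun y hy => ⟨fun _ h => hy ?_, fun h => (hbp h).elim⟩⟩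
        rwa [show y - (E + 1) = y + (-E - 1) by ring]
    obtain ⟨r1, hr1⟩ := r1
    obtain ⟨r2, hr2⟩ := r2
    obtain ⟨y, hy1, hy2⟩ := avoid2 hp h2 r1 r2
    exact ⟨y, (hr1 y hy1).1, (hr1 y hy1).2, (hr2 y hy2).1, (hr2 y hy2).2⟩

/-- **(Y)** -/
theorem yEdge (hB : Bg N J Z) {a a1 b b1 l E z j0 : ℤ} (hl : 0 ≤ l) (hE : Odd E)
    (hc : IsCoprime l E) (hb : b = a + E - l) (hb1 : b1 = a1 - 1 - E) (hN : 1 + a + a1 = N)
    (pa : 0 < a) (pa1 : 0 < a1) (pb : 0 < b) (pb1 : 0 < b1) (hg : GZ a a1 z)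
    (hg' : IsCoprime b b1) (hpar : Even l → Odd b) (w1 : 1 ≤ j0) (w2 : E + 2 ≤ j0)
    (w3 : 0 < l * (j0 - 1) + 2 * E) (w4 : 0 < l * j0 + E) (w5 : j0 + (J : ℤ) ^ 2 ≤ a1)
    (w6 : l * (j0 + (J : ℤ) ^ 2) + E < a) :
    SEq6 (PG 1 a a1 z) (PG (l + 2) b b1 0) := by
  have hN1 := hB.N1
  have hsz : a * a1 * b * b1 * (l + 2) ≤ (Z : ℤ) := by
    refine hB.le (n := 1 + 1 + 1 + 1 + 1) (by norm_num) ?_
    refine mul_le_pow2 (by linarith) (mul_le_pow2 pb1 (mul_le_pow2 pb (mul_le_pow2 pa1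
      ?_ ?_ (by linarith)) ?_ (by linarith)) ?_ (by linarith)) ?_ (by linarith) <;>
    · rw [pow_one]; linarith
  obtain ⟨j, k1, k2, k3⟩ := sieveP (k := 4) (e := 2) hB.cap
    (D0 := a * a1 * b * b1 * (l + 2)) (by positivity) hsz (by norm_num)
    ![fun p => p ∣ a, fun p => p ∣ a1, fun p => p ∣ l + 2 ∨ p ∣ b1, fun p => p ∣ b]
    ![l, 1, 1, l] ![E, 0, -E - 1, -l + 2 * E]
    (by
      intro p _ i hi
      fin_cases i
      · have h : (p : ℤ) ∣ a := hi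
        exact (((h.mul_right _).mul_right _).mul_right _).mul_right _
      · have h : (p : ℤ) ∣ a1 := hi
        exact (((h.mul_left _).mul_right _).mul_right _).mul_right _
      · have h : (p : ℤ) ∣ l + 2 ∨ (p : ℤ) ∣ b1 := hi
        rcases h with h | h
        · exact h.mul_left _
        · exact (h.mul_left _).mul_right _
      · have h : (p : ℤ) ∣ b := hi
        exact ((h.mul_left _).mul_right _).mul_right _)
    (by
      intro p hp
      obtain ⟨y, y1, y2, y3, y4⟩ := y_loc hE hc hb hb1 hg hg' hpar hp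
      refine ⟨y, fun i hi => ?_⟩
      fin_cases i
      · exact y1 hi
      · intro h
        exact y2 hi (by simpa using h)
      · intro h
        exact y3 hi (by simpa using h)
      · exact y4 hi) j0
  have q0 : ∀ p : ℕ, p.Prime → (p : ℤ) ∣ a → ¬ (p : ℤ) ∣ l * j + E := fun p hp hd h =>
    k3 p hp 0 hd h
  have q1 : ∀ p : ℕ, p.Prime → (p : ℤ) ∣ a1 → ¬ (p : ℤ) ∣ j := fun p hp hd h =>
    k3 p hp 1 hd (by simpa using h)
  have q2 : ∀ p : ℕ, p.Prime → ((p : ℤ) ∣ l + 2 ∨ (p : ℤ) ∣ b1) → ¬ (p : ℤ) ∣ j - E - 1 :=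
    fun p hp hd h => k3 p hp 2 hd (by
      have e : (1 : ℤ) * j + (-E - 1) = j - E - 1 := by ring
      show (p : ℤ) ∣ (1 : ℤ) * j + (-E - 1)
      rw [e]; exact h)
  have q3 : ∀ p : ℕ, p.Prime → (p : ℤ) ∣ b → ¬ (p : ℤ) ∣ l * (j - 1) + 2 * E := fun p hp hd h =>
    k3 p hp 3 hd (by
      have e : l * j + (-l + 2 * E) = l * (j - 1) + 2 * E := by ring
      show (p : ℤ) ∣ l * j + (-l + 2 * E)
      rw [e]; exact h)
  have h1 : l * j0 ≤ l * j := mul_le_mul_of_nonneg_left k1 hl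
  have h2 : l * j ≤ l * (j0 + (J : ℤ) ^ 2) := mul_le_mul_of_nonneg_left k2.le hl
  have h3 : l * (j0 - 1) ≤ l * (j - 1) := mul_le_mul_of_nonneg_left (by linarith) hl
  refine edge (ν := 0) (l1 := l) (m1 := 1) (i := l * j + E) (j := j) (k := 1)
    (W := 1 + (l * j + E) + j) (κ := l + 2) (i' := l * (j - 1) + 2 * E) (j' := j - 1 - E)
    rfl (by ring) (by ring) (by ring) (by ring) (by rw [hb]; ring) (by rw [hb1]; ring)
    one_pos (by linarith) (by linarith) (by linarith) (by linarith) (by linarith) (by linarith)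
    (by linarith) ?_ isCoprime_one_left ?_ ?_ ?_ ?_ ?_ ?_ (gcd_dvd_of_cop hg')
  · obtain ⟨x, y, hxy⟩ := hc
    exact ⟨x - y * j, y, by linear_combination hxy⟩
  · exact isCoprime_of_prime fun p hp h1 h2 => q0 p hp h1 h2
  · exact isCoprime_of_prime fun p hp h1 h2 => q1 p hp h1 h2
  · refine isCoprime_of_prime fun p hp h1 h2 => q2 p hp (Or.inl h2) ?_
    have e : j - E - 1 = (l + 2) * j - 1 * (1 + (l * j + E) + j) := by ring
    rw [e]
    exact dvd_sub (h2.mul_right _) h1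
  · exact isCoprime_of_prime fun p hp h1 h2 => q3 p hp h1 h2
  · refine isCoprime_of_prime fun p hp h1 h2 => q2 p hp (Or.inr h1) ?_
    rw [show j - E - 1 = j - 1 - E by ring]
    exact h2
  · rcases hg with ⟨h4, _⟩ | ⟨h4, rfl⟩
    · rw [h4]; exact one_dvd _
    · have d1 : (2 : ℤ) ∣ a := by
        have := Int.gcd_dvd_left a a1
        rwa [h4] at this
      have d2 : (2 : ℤ) ∣ a1 := by
        have := Int.gcd_dvd_right a a1
        rwa [h4] at this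
      have n1 : ¬ (2 : ℤ) ∣ l * j + E := by
        have := q0 2 Nat.prime_two (by exact_mod_cast d1)
        exact_mod_cast this
      have n2 : ¬ (2 : ℤ) ∣ j := by
        have := q1 2 Nat.prime_two (by exact_mod_cast d2)
        exact_mod_cast this
      rw [h4]
      have o1 : Odd (l * j + E) := by
        rw [← Int.not_even_iff_odd, even_iff_two_dvd]; exact n1
      have o2 : Odd j := by
        rw [← Int.not_even_iff_odd, even_iff_two_dvd]; exact n2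
      obtain ⟨x, hx⟩ := o1.mul o2
      obtain ⟨y, hy⟩ := hE
      refine ⟨x - y, ?_⟩
      push_cast
      linear_combination hx - hy

end Pool.Agent.H4G.Six
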